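import Pool.Agent.U198.SD.G2

/-!
A basis of the spaces of polynomials of degree at most `m` which is adapted to the valuation.
-/

noncomputable section

namespace Pool.Agent.U198.SD

open Pool.Agent.Helper774.KStab (TorusField)

variable {K : Type} [Field K] [Algebra ℂ K]

section deg

variable (T : TorusField 2 K)

theorem RR_mul {m k : ℕ} {f g : K} (hf : f ∈ RR T m) (hg : g ∈ RR T k) : f * g ∈ RR T (m + k) := by
  have h := Submodule.mul_mem_mul hf hg
  rw [RR, RR, Submodule.span_mul_span] at h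
  refine Submodule.span_mono ?_ h
  rintro _ ⟨_, ⟨i, j, hij, rfl⟩, _, ⟨i', j', hij', rfl⟩, rfl⟩
  exact ⟨i + i', j + j', by omega, by simp only []; ring⟩

theorem RR_mono {m k : ℕ} (h : m ≤ k) : RR T m ≤ RR T k := by
  apply Submodule.span_mono
  rintro _ ⟨i, j, hij, rfl⟩
  exact ⟨i, j, by omega, rfl⟩

theorem RR_cast {m k : ℕ} (h : m = k) {f : K} (hf : f ∈ RR T m) : f ∈ RR T k := h ▸ hf

theorem RR_one : (1 : K) ∈ RR T 0 := Submodule.subset_span ⟨0, 0, le_rfl, by simp⟩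

theorem RR_x : xx T ∈ RR T 1 := Submodule.subset_span ⟨1, 0, le_rfl, by simp⟩

theorem RR_y : yy T ∈ RR T 1 := Submodule.subset_span ⟨0, 1, le_rfl, by simp⟩

theorem RR_pow {m : ℕ} {f : K} (hf : f ∈ RR T m) (i : ℕ) : f ^ i ∈ RR T (m * i) := by
  induction i with
  | zero => rw [pow_zero, mul_zero]; exact RR_one T
  | succ i ih => rw [pow_succ]; exact RR_cast T (by ring) (RR_mul T ih hf)

theorem RR_Cu : Cu T ∈ RR T 3 := by
  have e : Cu T = xx T * yy T - xx T ^ 3 - yy T ^ 3 := by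
    rw [show Cu T = cub (xx T) (yy T) 1 from rfl, cub, mul_one]
  rw [e]
  exact Submodule.sub_mem _ (Submodule.sub_mem _ (RR_mono T (by norm_num) (RR_mul T (RR_x T) (RR_y T)))
    (RR_pow T (RR_x T) 3)) (RR_pow T (RR_y T) 3)

theorem RR_trip (n : ℕ) : G T n ∈ RR T (b n) ∧ G T (n + 1) ∈ RR T (b (n + 1)) ∧
    Z (xx T) (yy T) 1 n ∈ RR T (2 * b (n + 1) - b n) := by
  induction n with
  | zero =>
    refine ⟨RR_x T, RR_y T, ?_⟩
    have : (1 : K) ∈ RR T 1 := RR_mono T (Nat.zero_le _) (RR_one T)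
    exact this
  | succ n ih =>
    obtain ⟨h1, h2, h3⟩ := ih
    have hb := b_succ_succ n
    have hd := b_succ n
    have hle := b_le_succ n
    have h4 : G T (n + 2) ∈ RR T (b (n + 2)) := by
      have e : G T (n + 2) = G T (n + 1) * Z (xx T) (yy T) 1 n - Cu T ^ d n * G T n ^ 2 :=
        X_succ_succ (xx T) (yy T) 1 n
      rw [e]
      refine Submodule.sub_mem _ (RR_cast T ?_ (RR_mul T h2 h3))
        (RR_cast T ?_ (RR_mul T (RR_pow T (RR_Cu T) (d n)) (RR_pow T h1 2)))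
      · omega
      · omega
    refine ⟨h2, h4, ?_⟩
    have e : Z (xx T) (yy T) 1 (n + 1) = G T (n + 2) * Z (xx T) (yy T) 1 n -
        Cu T ^ d n * G T n * G T (n + 1) ^ 2 := Z_succ (xx T) (yy T) 1 n
    rw [e]
    have hb2 : 2 * b (n + 1 + 1) - b (n + 1) = b (n + 2) + (2 * b (n + 1) - b n) := by
      rw [show n + 1 + 1 = n + 2 from rfl]; omega
    rw [hb2]
    refine Submodule.sub_mem _ (RR_mul T h4 h3)
      (RR_cast T ?_ (RR_mul T (RR_mul T (RR_pow T (RR_Cu T) (d n)) h1) (RR_pow T h2 2)))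
    omega

theorem RR_G (n : ℕ) : G T n ∈ RR T (b n) := (RR_trip T n).1

end deg

section basis

variable {T : TorusField 2 K} {n : ℕ} (P : TorHom (tor T (n + 1)) (wt n))

include P in
theorem Ge_eq_zero (m : ℕ) : ∃ N : ℤ, ∀ f ∈ RR T m, Ge N (P.Φ f) → f = 0 := by
  obtain ⟨M, hM⟩ := ((tri_finite n m).image (wt n)).bddAbove
  refine ⟨M + 1, fun f hf hfN => ?_⟩
  by_contra hf0
  obtain ⟨l, a, ha, hl⟩ := exists_Ld (F := P.Φ f) (fun h => hf0 (P.inj (by rw [h, map_zero])))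
  refine ha ?_
  rcases lt_or_ge l (M + 1) with h | h
  · rw [← hl.2]; exact hfN l h
  · obtain ⟨c, hc, hc2⟩ := lead_tri P m hf l hl.ge
    rw [hl.2] at hc
    have : c = 0 := by
      ext v
      by_contra hne
      obtain ⟨h1, h2⟩ := hc2 v (Finsupp.mem_support_iff.2 hne)
      have := hM ⟨v, h2, rfl⟩
      omega
    rw [hc, this, map_zero]

include P in
theorem span_e (m : ℕ) (e : (Fin 2 → ℤ) → K) (he : ∀ u ∈ tri n m, e u ∈ RR T m)
    (he2 : ∀ u ∈ tri n m, Ld (wt n u) ((tor T (n + 1)).χ u) (P.Φ (e u))) (l : ℤ) {f : K}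
    (hf : f ∈ RR T m) (hl : Ge l (P.Φ f)) :
    f ∈ Submodule.span ℂ (e '' {u | u ∈ tri n m ∧ l ≤ wt n u}) := by
  classical
  obtain ⟨N, hN⟩ := Ge_eq_zero P m
  obtain ⟨k, hk⟩ : ∃ k : ℕ, N ≤ l + k := ⟨(N - l).toNat, by omega⟩
  induction k generalizing l f with
  | zero =>
    rw [hN f hf (Ge_mono hl (by simpa using hk))]
    exact Submodule.zero_mem _
  | succ k ih =>
    obtain ⟨c, hc, hc2⟩ := lead_tri P m hf l hl
    have h1 : Ld l (Finsupp.linearCombination ℂ (tor T (n + 1)).χ c)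
        (P.Φ (Finsupp.linearCombination ℂ e c)) := by
      have h2 := Ld_lc P e id c (fun s hs => he2 s (hc2 s hs).2) l (fun s hs => (hc2 s hs).1.ge)
      have h3 : (c.filter fun s => wt n (id s) = l) = c := by
        rw [Finsupp.filter_eq_self_iff]
        intro v hv
        exact (hc2 v (Finsupp.mem_support_iff.2 hv)).1
      rw [h3] at h2
      exact h2
    have h2 : Finsupp.linearCombination ℂ e c ∈ RR T m := by
      rw [Finsupp.linearCombination_apply]
      exact Submodule.sum_mem _ fun v hv => Submodule.smul_mem _ _ (he v (hc2 v hv).2)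
    have h3 : Ge (l + 1) (P.Φ (f - Finsupp.linearCombination ℂ e c)) := by
      have h4 := Ld_sub hl.ld h1
      rw [hc, sub_self] at h4
      rw [map_sub]
      intro k hk
      rcases lt_or_ge k l with h | h
      · exact h4.1 k h
      · have : k = l := by omega
        rw [this]
        exact h4.2
    have h4 := ih (l + 1) (Submodule.sub_mem _ hf h2) h3 (by push_cast at hk ⊢; linarith)
    have h5 : f = (f - Finsupp.linearCombination ℂ e c) + Finsupp.linearCombination ℂ e c := by ring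
    rw [h5]
    refine Submodule.add_mem _ (Submodule.span_mono (Set.image_mono ?_) h4) ?_
    · rintro u ⟨hu, hu2⟩
      exact ⟨hu, by linarith⟩
    · rw [Finsupp.linearCombination_apply]
      exact Submodule.sum_mem _ fun v hv => Submodule.smul_mem _ _
        (Submodule.subset_span ⟨v, ⟨(hc2 v hv).2, (hc2 v hv).1.ge⟩, rfl⟩)

/-- the least degree of the exponent `(j, l)` -/
def mu' (n j l : ℕ) : ℕ := (b (n + 1) ^ 2 * j + b (n + 2) ^ 2 * l) ⌈/⌉ (b (n + 1) * b (n + 2))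

theorem mu'_le_iff (n j l m : ℕ) : mu' n j l ≤ m ↔ (![(j : ℤ), (l : ℤ)] : Fin 2 → ℤ) ∈ tri n m := by
  have h1 := b_pos (n + 1)
  have h2 := b_pos (n + 2)
  rw [mu', ceilDiv_le_iff_le_mul (Nat.mul_pos h1 h2)]
  simp only [tri, Set.mem_setOf_eq, Matrix.cons_val_zero, Matrix.cons_val_one,
    Matrix.cons_val_fin_one]
  constructor
  · intro h
    refine ⟨by positivity, by positivity, ?_⟩
    exact_mod_cast h
  · rintro ⟨-, -, h⟩
    exact_mod_cast h

include P in
theorem exists_e0 (j l : ℕ) : ∃ f ∈ RR T (mu' n j l),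
    Ld (wt n ![(j : ℤ), (l : ℤ)]) ((tor T (n + 1)).χ ![(j : ℤ), (l : ℤ)]) (P.Φ f) :=
  lead_surj P (mu' n j l) ((mu'_le_iff n j l _).1 le_rfl)

/-- the module generators -/
def e0 (j l : ℕ) : K := Classical.choose (exists_e0 P j l)

theorem e0_mem (j l : ℕ) : e0 P j l ∈ RR T (mu' n j l) := (Classical.choose_spec (exists_e0 P j l)).1

theorem e0_Ld (j l : ℕ) :
    Ld (wt n ![(j : ℤ), (l : ℤ)]) ((tor T (n + 1)).χ ![(j : ℤ), (l : ℤ)]) (P.Φ (e0 P j l)) :=
  (Classical.choose_spec (exists_e0 P j l)).2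

/-- the basis elements -/
def ee (j l : ℕ) : K := e0 P (j % b (n + 2)) (l % b (n + 1)) *
  (G T (n + 1) ^ (j / b (n + 2)) * G T (n + 2) ^ (l / b (n + 1)))

theorem ee_Ld (j l : ℕ) :
    Ld (wt n ![(j : ℤ), (l : ℤ)]) ((tor T (n + 1)).χ ![(j : ℤ), (l : ℤ)]) (P.Φ (ee P j l)) := by
  have h1 := e0_Ld P (j % b (n + 2)) (l % b (n + 1))
  have h2 := Ld_pow (Ld_G P (n + 1) le_rfl) (j / b (n + 2))
  have h3 := Ld_pow (Ld_G2 P) (l / b (n + 1))
  have h4 := Ld_mul h1 (Ld_mul h2 h3)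
  rw [ee, map_mul, map_mul, map_pow, map_pow]
  have ej : (b (n + 2) : ℤ) * (j / b (n + 2) : ℕ) + (j % b (n + 2) : ℕ) = j := by
    exact_mod_cast Nat.div_add_mod j (b (n + 2))
  have el : (b (n + 1) : ℤ) * (l / b (n + 1) : ℕ) + (l % b (n + 1) : ℕ) = l := by
    exact_mod_cast Nat.div_add_mod l (b (n + 1))
  refine Ld_cast h4 ?_ ?_
  · rw [wt_apply, wt_apply]
    simp only [Matrix.cons_val_zero, Matrix.cons_val_one, Matrix.cons_val_fin_one]
    rw [show n + 1 + 1 = n + 2 from rfl]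
    linear_combination wp n * ej + wq n * el
  · rw [chi_VW, chi_VW, ← pow_mul, ← pow_mul, show n + 1 + 1 = n + 2 from rfl]
    conv_rhs => rw [← Nat.div_add_mod j (b (n + 2)), ← Nat.div_add_mod l (b (n + 1))]
    rw [pow_add, pow_add]
    ring

/-- the degree of the basis elements -/
theorem ee_deg (j l m : ℕ) (h : (![(j : ℤ), (l : ℤ)] : Fin 2 → ℤ) ∈ tri n m) :
    mu' n (j % b (n + 2)) (l % b (n + 1)) + b (n + 1) * (j / b (n + 2)) +
      b (n + 2) * (l / b (n + 1)) ≤ m := by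
  rw [← mu'_le_iff] at h
  have h1 := b_pos (n + 1)
  have h2 := b_pos (n + 2)
  have ej := Nat.div_add_mod j (b (n + 2))
  have el := Nat.div_add_mod l (b (n + 1))
  rw [mu', ceilDiv_le_iff_le_mul (Nat.mul_pos h1 h2)] at h
  have h3 : b (n + 1) ^ 2 * (j % b (n + 2)) + b (n + 2) ^ 2 * (l % b (n + 1)) +
      b (n + 1) * b (n + 2) * (b (n + 1) * (j / b (n + 2)) + b (n + 2) * (l / b (n + 1))) =
      b (n + 1) ^ 2 * j + b (n + 2) ^ 2 * l := by
    conv_rhs => rw [← ej, ← el]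
    ring
  have h4 : b (n + 1) * (j / b (n + 2)) + b (n + 2) * (l / b (n + 1)) ≤ m := by
    have h5 : b (n + 1) * b (n + 2) * (b (n + 1) * (j / b (n + 2)) + b (n + 2) * (l / b (n + 1))) ≤
        b (n + 1) * b (n + 2) * m := by
      rw [← h3] at h
      omega
    exact Nat.le_of_mul_le_mul_left h5 (Nat.mul_pos h1 h2)
  have h5 : mu' n (j % b (n + 2)) (l % b (n + 1)) ≤
      m - (b (n + 1) * (j / b (n + 2)) + b (n + 2) * (l / b (n + 1))) := by
    rw [mu', ceilDiv_le_iff_le_mul (Nat.mul_pos h1 h2), Nat.mul_sub]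
    rw [← h3] at h
    omega
  omega

theorem ee_mem (j l m : ℕ) (h : (![(j : ℤ), (l : ℤ)] : Fin 2 → ℤ) ∈ tri n m) :
    ee P j l ∈ RR T m := by
  have h1 := ee_deg j l m h
  refine RR_mono T ?_ (RR_mul T (e0_mem P _ _) (RR_mul T (RR_pow T (RR_G T (n + 1)) (j / b (n + 2)))
    (RR_pow T (RR_G T (n + 2)) (l / b (n + 1)))))
  omega

/-- polynomials of order at least `l` are combinations of the basis elements of order at least `l` -/
theorem span_ee (m : ℕ) (l : ℤ) {f : K} (hf : f ∈ RR T m) (hl : Ge l (P.Φ f)) :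
    f ∈ Submodule.span ℂ {g | ∃ j i : ℕ, (![(j : ℤ), (i : ℤ)] : Fin 2 → ℤ) ∈ tri n m ∧
      l ≤ wt n ![(j : ℤ), (i : ℤ)] ∧ g = ee P j i} := by
  have hconv : ∀ u ∈ tri n m, (![((u 0).toNat : ℤ), ((u 1).toNat : ℤ)] : Fin 2 → ℤ) = u := by
    rintro u ⟨h0, h1, -⟩
    ext i
    fin_cases i
    · exact Int.toNat_of_nonneg h0
    · exact Int.toNat_of_nonneg h1
  have h := span_e P m (fun u => ee P (u 0).toNat (u 1).toNat)
    (fun u hu => ee_mem P _ _ m (by rw [hconv u hu]; exact hu))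
    (fun u hu => by
      have := ee_Ld P (u 0).toNat (u 1).toNat
      rw [hconv u hu] at this
      exact this) l hf hl
  refine Submodule.span_mono ?_ h
  rintro _ ⟨u, ⟨hu, hu2⟩, rfl⟩
  exact ⟨(u 0).toNat, (u 1).toNat, by rw [hconv u hu]; exact hu, by rw [hconv u hu]; exact hu2, rfl⟩

end basis

end Pool.Agent.U198.SD
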