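import Pool.Agent.U198.SD.Defs

/-!
The local rings of the members of a bounded family are generated by a bounded number of elements.
-/

open AlgebraicGeometry CategoryTheory CategoryTheory.Limits

noncomputable section

namespace Pool.Agent.U198.SD

open Pool.Agent.Helper774.KSing (Variety locRing locAtCentre)

/-- the constants in the stalks -/
def ks {Z : Scheme.{0}} (g : Z ⟶ Spec (CommRingCat.of ℂ)) (z : Z) : ℂ →+* Z.presheaf.stalk z :=
  (Z.presheaf.germ ⊤ z trivial).hom.comp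
    (g.appTop.hom.comp (Scheme.ΓSpecIso (CommRingCat.of ℂ)).inv.hom)

theorem ks_apply {Z : Scheme.{0}} (g : Z ⟶ Spec (CommRingCat.of ℂ)) (z : Z) (c : ℂ) :
    ks g z c = Z.presheaf.germ ⊤ z trivial (g.appTop ((Scheme.ΓSpecIso (CommRingCat.of ℂ)).inv c)) :=
  rfl

theorem stalk_gen {Z : Scheme.{0}} (g : Z ⟶ Spec (CommRingCat.of ℂ)) [LocallyOfFiniteType g]
    (z : Z) : ∃ U : Z.Opens, z ∈ U ∧ ∃ n : ℕ, ∀ z' ∈ U, ∃ a : Fin n → Z.presheaf.stalk z',
      ∀ y, ∃ P Q : MvPolynomial (Fin n) ℂ, IsUnit (Q.eval₂ (ks g z') a) ∧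
        y * Q.eval₂ (ks g z') a = P.eval₂ (ks g z') a := by
  obtain ⟨U, hU, hz, -⟩ := exists_isAffineOpen_mem_and_subset (X := Z) (x := z) (U := ⊤) trivial
  refine ⟨U, hz, ?_⟩
  have hft : (g.appLE ⊤ U le_top).hom.FiniteType :=
    g.finiteType_appLE (isAffineOpen_top _) hU le_top
  let k : ℂ →+* Γ(Z, U) := (g.appLE ⊤ U le_top).hom.comp (Scheme.ΓSpecIso (CommRingCat.of ℂ)).inv.hom
  have hk : k.FiniteType := by
    refine RingHom.FiniteType.comp hft ?_
    refine RingHom.FiniteType.of_surjective _ ?_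
    exact (ConcreteCategory.bijective_of_isIso (Scheme.ΓSpecIso (CommRingCat.of ℂ)).inv).2
  algebraize [k]
  obtain ⟨n, f, hf⟩ := (Algebra.FiniteType.iff_quotient_mvPolynomial'' (R := ℂ) (S := Γ(Z, U))).1
    (by assumption)
  refine ⟨n, fun z' hz' => ⟨fun i => Z.presheaf.germ U z' hz' (f (MvPolynomial.X i)), fun y => ?_⟩⟩
  have hc : ∀ c : ℂ, Z.presheaf.germ U z' hz' (k c) = ks g z' c := by
    intro c
    have h1 : g.appLE ⊤ U le_top ≫ Z.presheaf.germ U z' hz' =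
        g.appTop ≫ Z.presheaf.germ ⊤ z' trivial := by
      rw [Scheme.Hom.appLE, Category.assoc, TopCat.Presheaf.germ_res]
      rfl
    exact congrArg (fun φ => φ.hom ((Scheme.ΓSpecIso (CommRingCat.of ℂ)).inv.hom c)) h1
  have key : ∀ P : MvPolynomial (Fin n) ℂ, P.eval₂ (ks g z')
      (fun i => Z.presheaf.germ U z' hz' (f (MvPolynomial.X i))) =
      Z.presheaf.germ U z' hz' (f P) := by
    intro P
    have h2 : MvPolynomial.eval₂Hom (ks g z')
        (fun i => Z.presheaf.germ U z' hz' (f (MvPolynomial.X i))) =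
        (Z.presheaf.germ U z' hz').hom.comp f.toRingHom := by
      apply MvPolynomial.ringHom_ext
      · intro c
        rw [MvPolynomial.eval₂Hom_C]
        show _ = Z.presheaf.germ U z' hz' (f (MvPolynomial.C c))
        have h3 : f (MvPolynomial.C c) = k c := f.commutes c
        rw [h3, hc]
      · intro i
        rw [MvPolynomial.eval₂Hom_X']
        rfl
    exact congrArg (fun φ => φ P) h2
  letI : Algebra Γ(Z, U) (Z.presheaf.stalk z') :=
    TopCat.Presheaf.algebra_section_stalk Z.presheaf (⟨z', hz'⟩ : U)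
  haveI hloc : IsLocalization.AtPrime (Z.presheaf.stalk z') (hU.primeIdealOf ⟨z', hz'⟩).asIdeal :=
    hU.isLocalization_stalk ⟨z', hz'⟩
  obtain ⟨⟨r, s⟩, hrs⟩ := IsLocalization.surj (hU.primeIdealOf ⟨z', hz'⟩).asIdeal.primeCompl y
  obtain ⟨P, rfl⟩ := hf r
  obtain ⟨Q, hQ⟩ := hf s.1
  refine ⟨P, Q, ?_, ?_⟩
  · rw [key, hQ]
    exact IsLocalization.map_units (Z.presheaf.stalk z') s
  · rw [key, key, hQ]
    exact hrs

theorem stalk_gen_all {Z : Scheme.{0}} (g : Z ⟶ Spec (CommRingCat.of ℂ)) [LocallyOfFiniteType g]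
    [CompactSpace Z] : ∃ N : ℕ, ∀ z : Z, ∃ n ≤ N, ∃ a : Fin n → Z.presheaf.stalk z,
      ∀ y, ∃ P Q : MvPolynomial (Fin n) ℂ, IsUnit (Q.eval₂ (ks g z) a) ∧
        y * Q.eval₂ (ks g z) a = P.eval₂ (ks g z) a := by
  classical
  choose U hU n hn using fun z => stalk_gen g z
  obtain ⟨t, ht⟩ := CompactSpace.elim_nhds_subcover (fun z => (U z : Set Z))
    (fun z => (U z).isOpen.mem_nhds (hU z))
  refine ⟨∑ z ∈ t, n z, fun z => ?_⟩
  have hz : z ∈ ⋃ x ∈ t, (U x : Set Z) := by rw [ht]; trivial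
  rw [Set.mem_iUnion₂] at hz
  obtain ⟨x, hx, hzx⟩ := hz
  exact ⟨n x, Finset.single_le_sum (f := n) (fun _ _ => Nat.zero_le _) hx, hn x z hzx⟩

/-- The subset `A` of `L` is essentially generated by at most `N` elements. -/
def EssGen {L : Type} [Field L] [Algebra ℂ L] (N : ℕ) (A : Set L) : Prop :=
  ∃ n ≤ N, ∃ a : Fin n → L, (∀ i, a i ∈ A) ∧ ∀ z ∈ A, ∃ P Q : MvPolynomial (Fin n) ℂ,
    MvPolynomial.aeval a Q ≠ 0 ∧ (MvPolynomial.aeval a Q)⁻¹ ∈ A ∧
      z * MvPolynomial.aeval a Q = MvPolynomial.aeval a P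

theorem IsBounded.essGen {𝒮 : Set Variety} (h : IsBounded 𝒮) :
    ∃ N, ∀ Y ∈ 𝒮, ∀ A ∈ Y.points, EssGen N A := by
  obtain ⟨T, Z, τ, f, hτ, hτ', hf, hf', h⟩ := h
  haveI : LocallyOfFiniteType (f ≫ τ) := inferInstance
  haveI : CompactSpace Z := by
    haveI : QuasiCompact (f ≫ τ) := inferInstance
    exact QuasiCompact.compactSpace_of_compactSpace (f ≫ τ)
  obtain ⟨N, hN⟩ := stalk_gen_all (f ≫ τ)
  refine ⟨N, fun Y hY A hA => ?_⟩
  obtain ⟨t, ht, hint, e, -, he, hpts⟩ := h Y hY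
  rw [hpts] at hA
  obtain ⟨x, rfl⟩ := hA
  haveI : SurjectiveOnStalks t := by
    haveI : SurjectiveOnStalks (t ≫ τ) := by rw [ht]; infer_instance
    exact SurjectiveOnStalks.of_comp t τ
  haveI : SurjectiveOnStalks (pullback.fst f t) := MorphismProperty.pullback_fst f t inferInstance
  obtain ⟨n, hn, a, ha⟩ := hN (pullback.fst f t x)
  let ρ : (pullback f t).presheaf.stalk x →+* Y.K := toField e x
  let ψ : Z.presheaf.stalk (pullback.fst f t x) →+* Y.K :=
    ρ.comp ((pullback.fst f t).stalkMap x).hom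
  have hψ : ψ.comp (ks (f ≫ τ) (pullback.fst f t x)) = algebraMap ℂ Y.K := by
    rw [← he x]
    ext c
    show e (algebraMap _ _ ((pullback.fst f t).stalkMap x (Z.presheaf.germ ⊤ (pullback.fst f t x)
      trivial ((f ≫ τ).appTop ((Scheme.ΓSpecIso (CommRingCat.of ℂ)).inv c))))) = _
    rw [Scheme.Hom.germ_stalkMap_apply]
    have h1 : (pullback.fst f t) ≫ f ≫ τ = pullback.snd f t := by
      rw [← Category.assoc, pullback.condition, Category.assoc, ht, Category.comp_id]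
    have h2 : (f ≫ τ).appTop ≫ (pullback.fst f t).appTop = (pullback.snd f t).appTop := by
      rw [← Scheme.Hom.comp_appTop, h1]
    exact congrArg (fun φ => e (algebraMap _ _ ((pullback f t).presheaf.germ ⊤ x trivial
      (φ.hom ((Scheme.ΓSpecIso (CommRingCat.of ℂ)).inv.hom c))))) h2
  have hev : ∀ P : MvPolynomial (Fin n) ℂ, MvPolynomial.aeval (fun i => ψ (a i)) P =
      ψ (P.eval₂ (ks (f ≫ τ) (pullback.fst f t x)) a) := by
    intro P
    rw [MvPolynomial.eval₂_comp_left ψ, hψ, MvPolynomial.aeval_def]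
    rfl
  refine ⟨n, hn, fun i => ψ (a i), fun i => ⟨_, rfl⟩, ?_⟩
  rintro _ ⟨y, rfl⟩
  obtain ⟨y', rfl⟩ := (pullback.fst f t).stalkMap_surjective x y
  obtain ⟨P, Q, hQ, hPQ⟩ := ha y'
  have hu := hQ.map ψ
  refine ⟨P, Q, ?_, ?_, ?_⟩
  · rw [hev]
    exact hu.ne_zero
  · rw [hev]
    obtain ⟨v, hv⟩ := (hQ.map ((pullback.fst f t).stalkMap x).hom).exists_right_inv
    refine ⟨v, ?_⟩
    symm
    apply inv_eq_of_mul_eq_one_right
    show ρ _ * ρ v = 1
    rw [← map_mul, hv, map_one]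
  · rw [hev, hev, ← hPQ, map_mul]
    rfl

end Pool.Agent.U198.SD
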