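import Pool.Agent.U198.SD.Bnd1
import Pool.Agent.Helper774.KSing.Tor

/-!
The local ring of an affine toric variety at the torus fixed point is not generated by fewer
elements than the number of irreducible elements of the semigroup.
-/

noncomputable section

namespace Pool.Agent.U198.SD

open Pool.Agent.Helper774.KStab (TorusField)
open Pool.Agent.Helper774.KSing

variable {n M : ℕ} {K : Type} [Field K] [Algebra ℂ K]

/-- the first order neighbourhood of the fixed point -/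
abbrev TZ (M : ℕ) : Type := TrivSqZeroExt ℂ (Fin M → ℂ)

/-- the image of a monomial -/
def mon2 (E : Fin M → Fin n → ℤ) (u : Fin n → ℤ) : TZ M := by
  classical
  exact TrivSqZeroExt.inl (if u = 0 then 1 else 0) + TrivSqZeroExt.inr (fun r => if u = E r then 1 else 0)

theorem mon2_fst (E : Fin M → Fin n → ℤ) (u : Fin n → ℤ) [Decidable (u = 0)] :
    (mon2 E u).fst = if u = 0 then 1 else 0 := by
  rw [mon2, TrivSqZeroExt.fst_add, TrivSqZeroExt.fst_inl, TrivSqZeroExt.fst_inr, add_zero]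
  congr

theorem mon2_snd (E : Fin M → Fin n → ℤ) (u : Fin n → ℤ) (r : Fin M) [Decidable (u = E r)] :
    (mon2 E u).snd r = if u = E r then 1 else 0 := by
  rw [mon2, TrivSqZeroExt.snd_add, TrivSqZeroExt.snd_inl, TrivSqZeroExt.snd_inr, zero_add]
  congr

section

variable (T : TorusField n K) (R : Matrix (Fin n) (Fin n) ℤ) (E : Fin M → Fin n → ℤ)

theorem exists_Phi : ∃ Φ : K →ₗ[ℂ] TZ M, ∀ u, Φ (T.χ u) = mon2 E u := by
  obtain ⟨Φ, hΦ⟩ := LinearMap.exists_extend
    ((Finsupp.linearCombination ℂ (mon2 E)) ∘ₗ T.li.repr)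
  refine ⟨Φ, fun u => ?_⟩
  have h1 := LinearMap.congr_fun hΦ ⟨T.χ u, Submodule.subset_span ⟨u, rfl⟩⟩
  rw [LinearMap.comp_apply, Submodule.subtype_apply] at h1
  rw [h1, LinearMap.comp_apply]
  have h2 : T.li.repr ⟨T.χ u, Submodule.subset_span ⟨u, rfl⟩⟩ = Finsupp.single u 1 :=
    T.li.repr_eq_single u _ rfl
  show Finsupp.linearCombination ℂ (mon2 E) (T.li.repr _) = _
  rw [h2, Finsupp.linearCombination_single, one_smul]

variable {R E}

theorem mon2_mul (hpos : ∀ u ∈ Mset R 0, ∀ v ∈ Mset R 0, u + v = 0 → u = 0 ∧ v = 0)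
    (hE0 : ∀ r, E r ≠ 0)
    (hirr : ∀ r, ∀ u ∈ Mset R 0, ∀ v ∈ Mset R 0, u + v = E r → u = 0 ∨ v = 0)
    {u v : Fin n → ℤ} (hu : u ∈ Mset R 0) (hv : v ∈ Mset R 0) :
    mon2 E (u + v) = mon2 E u * mon2 E v := by
  classical
  apply TrivSqZeroExt.ext
  · rw [TrivSqZeroExt.fst_mul, mon2_fst, mon2_fst, mon2_fst]
    by_cases h : u + v = 0
    · obtain ⟨h1, h2⟩ := hpos u hu v hv h
      rw [if_pos h, if_pos h1, if_pos h2, mul_one]
    · rw [if_neg h]
      by_cases h1 : u = 0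
      · have h2 : v ≠ 0 := fun h2 => h (by rw [h1, h2, add_zero])
        rw [if_neg h2, mul_zero]
      · rw [if_neg h1, zero_mul]
  · ext r
    rw [TrivSqZeroExt.snd_mul, mon2_fst, mon2_fst, Pi.add_apply, Pi.smul_apply, Pi.smul_apply,
      mon2_snd, mon2_snd, mon2_snd]
    by_cases h1 : u = 0
    · have h3 : ¬ (0 : Fin n → ℤ) = E r := fun h => hE0 r h.symm
      rw [h1, zero_add, if_neg h3]
      simp
    · by_cases h2 : v = 0
      · have h3 : ¬ (0 : Fin n → ℤ) = E r := fun h => hE0 r h.symm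
        rw [h2, add_zero, if_neg h3]
        simp
      · have h3 : ¬ u + v = E r := fun h => (hirr r u hu v hv h).elim h1 h2
        rw [if_neg h1, if_neg h2, if_neg h3]
        simp

theorem Phi_mul {Φ : K →ₗ[ℂ] TZ M} (hΦ : ∀ u, Φ (T.χ u) = mon2 E u)
    (hpos : ∀ u ∈ Mset R 0, ∀ v ∈ Mset R 0, u + v = 0 → u = 0 ∧ v = 0)
    (hE0 : ∀ r, E r ≠ 0)
    (hirr : ∀ r, ∀ u ∈ Mset R 0, ∀ v ∈ Mset R 0, u + v = E r → u = 0 ∨ v = 0)
    {f g : K} (hf : f ∈ mspan T R 0) (hg : g ∈ mspan T R 0) : Φ (f * g) = Φ f * Φ g := by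
  induction hf using Submodule.span_induction with
  | mem f hf =>
    obtain ⟨u, hu, rfl⟩ := hf
    induction hg using Submodule.span_induction with
    | mem g hg =>
      obtain ⟨v, hv, rfl⟩ := hg
      rw [← T.χ_add, hΦ, hΦ, hΦ, mon2_mul hpos hE0 hirr hu hv]
    | zero => rw [mul_zero, map_zero, mul_zero]
    | add x y _ _ hx hy => rw [mul_add, map_add, hx, hy, map_add, mul_add]
    | smul c x _ hx => rw [mul_smul_comm, map_smul, hx, map_smul, mul_smul_comm]
  | zero => rw [zero_mul, map_zero, zero_mul]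
  | add x y _ _ hx hy => rw [add_mul, map_add, hx, hy, map_add, add_mul]
  | smul c x _ hx => rw [smul_mul_assoc, map_smul, hx, map_smul, smul_mul_assoc]

theorem exists_eps (hpos : ∀ u ∈ Mset R 0, ∀ v ∈ Mset R 0, u + v = 0 → u = 0 ∧ v = 0)
    (hE0 : ∀ r, E r ≠ 0)
    (hirr : ∀ r, ∀ u ∈ Mset R 0, ∀ v ∈ Mset R 0, u + v = E r → u = 0 ∨ v = 0) :
    ∃ ε : cone T R →ₐ[ℂ] TZ M, ∀ u (hu : u ∈ Mset R 0), ε ⟨T.χ u, mem_cone_chi T R hu⟩ = mon2 E u := by
  classical
  obtain ⟨Φ, hΦ⟩ := exists_Phi (M := M) T E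
  have h1 : Φ 1 = 1 := by
    rw [← T.χ_zero, hΦ]
    apply TrivSqZeroExt.ext
    · rw [mon2_fst, if_pos rfl, TrivSqZeroExt.fst_one]
    · ext r
      rw [mon2_snd, if_neg (fun h => hE0 r h.symm), TrivSqZeroExt.snd_one]
      rfl
  refine ⟨AlgHom.ofLinearMap (Φ ∘ₗ (Subalgebra.toSubmodule (cone T R)).subtype) h1 ?_, fun u hu => hΦ u⟩
  intro f g
  exact Phi_mul T hΦ hpos hE0 hirr ((mem_cone _ _ _).1 f.2) ((mem_cone _ _ _).1 g.2)

/-- The local ring at the fixed point is not generated by fewer than `M` elements. -/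
theorem not_essGen (hpos : ∀ u ∈ Mset R 0, ∀ v ∈ Mset R 0, u + v = 0 → u = 0 ∧ v = 0)
    (hE : ∀ r, E r ∈ Mset R 0) (hE0 : ∀ r, E r ≠ 0) (hinj : Function.Injective E)
    (hirr : ∀ r, ∀ u ∈ Mset R 0, ∀ v ∈ Mset R 0, u + v = E r → u = 0 ∨ v = 0) :
    ∃ p : Ideal (cone T R), p.IsPrime ∧ ∀ N < M, ¬ EssGen N (locRing (cone T R) p) := by
  classical
  obtain ⟨ε, hε⟩ := exists_eps T hpos hE0 hirr
  let ev : cone T R →ₐ[ℂ] ℂ := (TrivSqZeroExt.fstHom ℂ ℂ (Fin M → ℂ)).comp ε
  let p : Ideal (cone T R) := RingHom.ker ev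
  haveI hp : p.IsPrime := RingHom.ker_isPrime ev
  have hmem : ∀ s : cone T R, s ∉ p ↔ (ε s).fst ≠ 0 := by
    intro s
    rw [RingHom.mem_ker]
    rfl
  refine ⟨p, hp, fun N hN h => ?_⟩
  have hu1 : ∀ y : p.primeCompl, IsUnit ((cone T R).val y) := by
    intro y
    rw [isUnit_iff_ne_zero]
    intro h0
    have h1 : (y : cone T R) = 0 := Subtype.ext h0
    exact y.2 (by rw [h1]; exact p.zero_mem)
  have hu2 : ∀ y : p.primeCompl, IsUnit (ε y) := by
    intro y
    rw [TrivSqZeroExt.isUnit_iff_isUnit_fst, isUnit_iff_ne_zero]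
    exact (hmem _).1 y.2
  let ι : Localization.AtPrime p →ₐ[ℂ] K := IsLocalization.liftAlgHom (M := p.primeCompl) hu1
  let ε' : Localization.AtPrime p →ₐ[ℂ] TZ M := IsLocalization.liftAlgHom (M := p.primeCompl) hu2
  have hι : ∀ x : cone T R, ι (algebraMap _ _ x) = (x : K) := fun x => IsLocalization.lift_eq _ x
  have hε' : ∀ x : cone T R, ε' (algebraMap _ _ x) = ε x := fun x => IsLocalization.lift_eq _ x
  have hιinj : Function.Injective ι := by
    rw [injective_iff_map_eq_zero]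
    intro x hx
    obtain ⟨⟨a, s⟩, h⟩ := IsLocalization.surj p.primeCompl x
    simp only at h
    have h1 := congrArg ι h
    rw [map_mul, hι, hι, hx, zero_mul] at h1
    have h2 : a = 0 := Subtype.ext h1.symm
    rw [h2, map_zero] at h
    exact (IsUnit.mul_left_eq_zero (IsLocalization.map_units _ s)).1 h
  have hrange : ∀ z, z ∈ locRing (cone T R) p ↔ ∃ ζ, ι ζ = z := by
    intro z
    constructor
    · rintro ⟨a, s, hs, h⟩
      refine ⟨IsLocalization.mk' _ a (⟨s, hs⟩ : p.primeCompl), ?_⟩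
      have h1 := congrArg ι (IsLocalization.mk'_spec (Localization.AtPrime p) a
        (⟨s, hs⟩ : p.primeCompl))
      rw [map_mul, hι, hι] at h1
      have hs0 : (s : K) ≠ 0 := by
        intro h0
        have h2 : s = 0 := Subtype.ext h0
        exact hs (by rw [h2]; exact p.zero_mem)
      exact mul_right_cancel₀ hs0 (h1.trans h.symm)
    · rintro ⟨ζ, rfl⟩
      obtain ⟨⟨a, s⟩, h⟩ := IsLocalization.surj p.primeCompl ζ
      simp only at h
      have h1 := congrArg ι h
      rw [map_mul, hι, hι] at h1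
      exact ⟨a, s, s.2, h1⟩
  obtain ⟨m, hm, a, ha, hgen⟩ := h
  choose ζ hζ using fun i => (hrange _).1 (ha i)
  have hae : ∀ P : MvPolynomial (Fin m) ℂ, MvPolynomial.aeval a P = ι (MvPolynomial.aeval ζ P) := by
    intro P
    rw [MvPolynomial.comp_aeval_apply]
    congr 2
    funext i
    exact (hζ i).symm
  let V : Submodule ℂ (Fin M → ℂ) := Submodule.span ℂ (Set.range fun i => (ε' (ζ i)).snd)
  have hV : ∀ P : MvPolynomial (Fin m) ℂ, (ε' (MvPolynomial.aeval ζ P)).snd ∈ V := by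
    intro P
    induction P using MvPolynomial.induction_on with
    | C c =>
      rw [MvPolynomial.aeval_C, AlgHom.commutes, TrivSqZeroExt.algebraMap_eq_inl,
        TrivSqZeroExt.snd_inl]
      exact V.zero_mem
    | add P Q hP hQ =>
      rw [map_add, map_add, TrivSqZeroExt.snd_add]
      exact V.add_mem hP hQ
    | mul_X P i hP =>
      rw [map_mul, map_mul, TrivSqZeroExt.snd_mul, MvPolynomial.aeval_X]
      refine V.add_mem (V.smul_mem _ (Submodule.subset_span ⟨i, rfl⟩)) ?_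
      rw [op_smul_eq_smul]
      exact V.smul_mem _ hP
  have hsingle : ∀ r, (Pi.single r 1 : Fin M → ℂ) ∈ V := by
    intro r
    obtain ⟨P, Q, hQ0, hQ1, hPQ⟩ := hgen (T.χ (E r)) ((hrange _).2
      ⟨algebraMap _ _ (⟨_, mem_cone_chi T R (hE r)⟩ : cone T R), hι _⟩)
    obtain ⟨η, hη⟩ := (hrange _).1 hQ1
    have h1 : MvPolynomial.aeval ζ Q * η = 1 := by
      apply hιinj
      rw [map_mul, hη, ← hae, mul_inv_cancel₀ hQ0, map_one]
    have h2 : (ε' (MvPolynomial.aeval ζ Q)).fst ≠ 0 := by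
      intro h0
      have h3 := congrArg (fun x => (ε' x).fst) h1
      simp only [map_mul, map_one, TrivSqZeroExt.fst_mul, h0, zero_mul, TrivSqZeroExt.fst_one] at h3
      exact zero_ne_one h3
    have h3 : algebraMap (cone T R) (Localization.AtPrime p) ⟨_, mem_cone_chi T R (hE r)⟩ *
        MvPolynomial.aeval ζ Q = MvPolynomial.aeval ζ P := by
      apply hιinj
      rw [map_mul, hι, ← hae, ← hae]
      exact hPQ
    have h4 := congrArg (fun x => (ε' x).snd) h3
    simp only [map_mul, hε', hε _ (hE r), TrivSqZeroExt.snd_mul, mon2_fst, if_neg (hE0 r),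
      zero_smul, zero_add] at h4
    have h5 : (mon2 E (E r)).snd = Pi.single r 1 := by
      ext s
      rw [mon2_snd, Pi.single_apply]
      by_cases h6 : s = r
      · rw [h6, if_pos rfl, if_pos rfl]
      · rw [if_neg h6, if_neg (fun h7 => h6 (hinj h7).symm)]
    rw [h5, op_smul_eq_smul] at h4
    have h6 := hV P
    rw [← h4] at h6
    exact (V.smul_mem_iff h2).1 h6
  have hVtop : V = ⊤ := by
    rw [eq_top_iff]
    intro v _
    rw [← Finset.univ_sum_single v]
    refine V.sum_mem fun r _ => ?_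
    have h7 : (Pi.single r (v r) : Fin M → ℂ) = v r • Pi.single r 1 := by
      rw [← Pi.single_smul, smul_eq_mul, mul_one]
    rw [h7]
    exact V.smul_mem _ (hsingle r)
  have h1 : Module.finrank ℂ V ≤ m := by
    have := finrank_range_le_card (R := ℂ) (fun i => (ε' (ζ i)).snd)
    rwa [Fintype.card_fin] at this
  rw [hVtop, finrank_top, Module.finrank_fintype_fun_eq_card, Fintype.card_fin] at h1
  omega

end

end Pool.Agent.U198.SD
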