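import Pool.Agent.U198.SD.Sec3

/-!
The special degeneration of the projective plane to `P(1, b², c²)`.
-/

noncomputable section

namespace Pool.Agent.U198.SD

open Pool.Agent.Helper774.KStab (TorusField)
open Pool.Agent.Helper774.KSing

variable {K : Type} [Field K] [Algebra ℂ K]

section loc

variable {L : Type} [Field L] [Algebra ℂ L]

/-- the multiplicative set of a prime ideal -/
def pW (B : Subalgebra ℂ L) (p : Ideal B) (hp : p.IsPrime) : Submonoid L where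
  carrier := {s | ∃ h : s ∈ B, (⟨s, h⟩ : B) ∉ p}
  mul_mem' := by
    rintro a b ⟨ha, ha'⟩ ⟨hb, hb'⟩
    refine ⟨B.mul_mem ha hb, fun hab => ?_⟩
    have : (⟨a, ha⟩ : B) * ⟨b, hb⟩ ∈ p := hab
    rcases hp.mem_or_mem this with h | h
    · exact ha' h
    · exact hb' h
  one_mem' := by
    refine ⟨B.one_mem, fun h => ?_⟩
    have : (1 : B) ∈ p := h
    exact hp.ne_top ((Ideal.eq_top_iff_one p).2 this)

theorem pW_locRing (B : Subalgebra ℂ L) (p : Ideal B) (hp : p.IsPrime) :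
    locRing B p = locW B (pW B p hp) := by
  ext z
  constructor
  · rintro ⟨a, s, hs, h⟩
    refine ⟨(s : L), ⟨s.2, hs⟩, ?_⟩
    rw [h]
    exact a.2
  · rintro ⟨s, ⟨hs, hs'⟩, h⟩
    exact ⟨⟨z * s, h⟩, ⟨s, hs⟩, hs', rfl⟩

theorem pW_zero (B : Subalgebra ℂ L) (p : Ideal B) (hp : p.IsPrime) : (0 : L) ∉ pW B p hp := by
  rintro ⟨h0, h0'⟩
  exact h0' (by
    have h : (⟨(0 : L), h0⟩ : B) = 0 := rfl
    rw [h]; exact p.zero_mem)

theorem locW_bot (B : Subalgebra ℂ L) : locW B ⊥ = (B : Set L) := by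
  ext z
  constructor
  · rintro ⟨s, hs, hz⟩
    rw [Submonoid.mem_bot] at hs
    rw [hs, mul_one] at hz
    exact hz
  · intro hz
    exact ⟨1, Submonoid.one_mem _, by rw [mul_one]; exact hz⟩

end loc

section fam

variable {T : TorusField 2 K} {n : ℕ} (Q : TotHom (tor T (n + 1)) (wp n) (wq n))

/-- the total space -/
@[reducible] def Fm : Family (RatFunc K) (RatFunc.X : RatFunc K) 3 where
  ι := Fin 3
  chart := (𝒹 Q).ch
  t_mem := (𝒹 Q).t_ch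
  frac := ch_frac Q
  fg c := (𝒹 Q).ch_FG (spans Q) c
  normal := ch_normal Q
  separated i j V hi hj :=
    GS.sep ((𝒹 Q).ξ_ne i) ((𝒹 Q).ξ_ne j) ((𝒹 Q).w_pos i) ((𝒹 Q).w_pos j) V hi hj
  proper V hC ht := (𝒹 Q).exists_chart (spans Q) V hC ht
  der := Classical.choose (exists_der (T3 T))

/-- the degeneration -/
@[reducible] def Dg : Degeneration (PP T) where
  toFamily := Fm Q
  equivariant c _ hF := ch_equiv Q c hF
  generic := generic_eq Q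

theorem Fm_jac (g : Fin 3 → RatFunc K) : (Fm Q).jac g = D3 (T3 T) g := by
  have h := Classical.choose_spec (exists_der (T3 T))
  show Matrix.det (Matrix.of fun i j => (Classical.choose (exists_der (T3 T))) i (g j)) = _
  rw [D3]
  congr 1
  ext i j
  rw [Matrix.of_apply, Matrix.of_apply, h i]

theorem Fm_sections (m : ℕ) (A : Set (RatFunc K)) : (Fm Q).sections m A = secSet (T3 T) m A := by
  ext s
  constructor
  · intro h a ha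
    refine h a fun k => ?_
    obtain ⟨g, hg, e⟩ := ha k
    exact ⟨g, hg, e.trans (Fm_jac Q g).symm⟩
  · intro h a ha
    refine h a fun k => ?_
    obtain ⟨g, hg, e⟩ := ha k
    exact ⟨g, hg, e.trans (Fm_jac Q g)⟩

/-- the power of the anticanonical sheaf -/
def m₀ (n : ℕ) : ℕ := b (n + 1) * b (n + 2)

/-- exponents -/
def ex (n : ℕ) : Fin 3 → ℕ := ![3 * (b (n + 1) * b (n + 2)), 3 * b (n + 2), 3 * b (n + 1)]

theorem ex_eq (c : Fin 3) : (𝒹 Q).w c * ex n c = 3 * m₀ n := by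
  refine fin3 (P := fun c => (𝒹 Q).w c * ex n c = 3 * m₀ n) ?_ ?_ ?_ c
  · show 1 * (3 * (b (n + 1) * b (n + 2))) = 3 * (b (n + 1) * b (n + 2))
    ring
  · show b (n + 1) * (3 * b (n + 2)) = 3 * (b (n + 1) * b (n + 2))
    ring
  · show b (n + 2) * (3 * b (n + 1)) = 3 * (b (n + 1) * b (n + 2))
    ring

theorem m₀_pos (n : ℕ) : 1 ≤ m₀ n := Nat.mul_pos (b_pos _) (b_pos _)

theorem gen_at (c : Fin 3) (p : Ideal ((𝒹 Q).ch c)) (hp : p.IsPrime) :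
    (Fm Q).GeneratesAt (m₀ n) (sg Q (m₀ n) (ex n c) c) (locRing ((𝒹 Q).ch c) p) := by
  intro t
  rw [Fm_sections, pW_locRing _ p hp]
  exact sec_loc c (pW _ p hp) (fun s hs => hs.1) (pW_zero _ p hp) (m₀ n) (ex n c) (ex_eq Q c) t

theorem sg_div (c i : Fin 3) : sg Q (m₀ n) (ex n c) c = sg Q (m₀ n) (ex n i) i *
    ((𝒹 Q).ξ c ^ ex n c / (𝒹 Q).ξ i ^ ex n i) := by
  have h1 := pow_ne_zero (ex n i) ((𝒹 Q).ξ_ne i)
  rw [sg, sg]
  field_simp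

theorem sg_glob (c i : Fin 3) : sg Q (m₀ n) (ex n c) c ∈
    (Fm Q).sections (m₀ n) ((𝒹 Q).ch i : Set (RatFunc K)) := by
  rw [Fm_sections, ← locW_bot, sec_loc i ⊥ (fun s hs => by
      rw [Submonoid.mem_bot] at hs
      rw [hs]
      exact one_mem _) (by
      rw [Submonoid.mem_bot]
      exact zero_ne_one) (m₀ n) (ex n i) (ex_eq Q i)]
  refine ⟨_, ?_, sg_div Q c i⟩
  rw [locW_bot]
  refine GS.div_mem_chart ((𝒹 Q).ξ_ne i) ((𝒢 Q).cast ?_ ((𝒢 Q).pow_mem ((𝒹 Q).ξ_mem c) (ex n c)))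
  rw [ex_eq, ex_eq]

theorem ch_le_of (c i : Fin 3) (V : ValuationSubring (RatFunc K)) (h : ∀ f ∈ (𝒹 Q).ch i, f ∈ V)
    (h2 : (𝒹 Q).ξ i ^ ex n i / (𝒹 Q).ξ c ^ ex n c ∈ V) : ∀ f ∈ (𝒹 Q).ch c, f ∈ V := by
  have hc := ex_eq Q c
  have hi := ex_eq Q i
  have hm := m₀_pos n
  have hwc := (𝒹 Q).w_pos c
  have hwi := (𝒹 Q).w_pos i
  have h3 : (𝒹 Q).ξ i ^ (𝒹 Q).w c / (𝒹 Q).ξ c ^ (𝒹 Q).w i ∈ V := by
    have h4 : ((𝒹 Q).ξ i ^ (𝒹 Q).w c / (𝒹 Q).ξ c ^ (𝒹 Q).w i) ^ (3 * m₀ n) ∈ V := by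
      have e : ((𝒹 Q).ξ i ^ (𝒹 Q).w c / (𝒹 Q).ξ c ^ (𝒹 Q).w i) ^ (3 * m₀ n) =
          ((𝒹 Q).ξ i ^ ex n i / (𝒹 Q).ξ c ^ ex n c) ^ ((𝒹 Q).w c * (𝒹 Q).w i) := by
        rw [div_pow, div_pow, ← pow_mul, ← pow_mul, ← pow_mul, ← pow_mul]
        congr 2
        · rw [← hi]; ring
        · rw [← hc]; ring
      rw [e]
      exact pow_mem h2 _
    rw [← V.valuation_le_one_iff, map_pow] at h4
    rw [← V.valuation_le_one_iff]
    exact (pow_le_one_iff (by omega)).mp h4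
  intro f hf
  obtain ⟨i₀, hi₀⟩ := GS.chart_change (𝒢 := 𝒢 Q) (hh' := (𝒹 Q).ξ_mem i) ((𝒹 Q).ξ_ne c)
    ((𝒹 Q).ξ_ne i) hwi hf
  have h5 := h _ (hi₀ i₀ le_rfl)
  have e : f = f * ((𝒹 Q).ξ c ^ (𝒹 Q).w i / (𝒹 Q).ξ i ^ (𝒹 Q).w c) ^ i₀ *
      ((𝒹 Q).ξ i ^ (𝒹 Q).w c / (𝒹 Q).ξ c ^ (𝒹 Q).w i) ^ i₀ := by
    have h6 := pow_ne_zero ((𝒹 Q).w i) ((𝒹 Q).ξ_ne c)
    have h7 := pow_ne_zero ((𝒹 Q).w c) ((𝒹 Q).ξ_ne i)
    have h8 : (𝒹 Q).ξ c ^ (𝒹 Q).w i / (𝒹 Q).ξ i ^ (𝒹 Q).w c *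
        ((𝒹 Q).ξ i ^ (𝒹 Q).w c / (𝒹 Q).ξ c ^ (𝒹 Q).w i) = 1 := by
      field_simp
    rw [mul_assoc, ← mul_pow, h8, one_pow, mul_one]
  rw [e]
  exact V.mul_mem _ _ h5 (pow_mem h3 _)

theorem Fm_ample : (Fm Q).AntiAmple := by
  rintro A ⟨c, p, hp, rfl⟩
  refine ⟨m₀ n, m₀_pos n, sg Q (m₀ n) (ex n c) c, fun i => sg_glob Q c i, gen_at Q c p hp,
    (𝒹 Q).ch c, (𝒹 Q).ch_FG (spans Q) c, ?_⟩
  ext A'
  constructor
  · rintro ⟨⟨i, q, hq, rfl⟩, hgen⟩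
    have hgen2 := gen_at Q i q hq
    have h1 : sg Q (m₀ n) (ex n i) i ∈ (Fm Q).sections (m₀ n) (locRing ((𝒹 Q).ch i) q) := by
      rw [hgen2]
      exact ⟨1, vr_sub_loc _ q hq (one_mem _), (mul_one _).symm⟩
    obtain ⟨b', hb, hb2⟩ := (hgen _).1 h1
    have hb3 : b' = (𝒹 Q).ξ i ^ ex n i / (𝒹 Q).ξ c ^ ex n c := by
      rw [sg_div Q i c] at hb2
      exact (mul_left_cancel₀ (sg_ne _ _ _) hb2).symm
    let f : ((𝒹 Q).ch i).toSubring →+* (𝒹 Q).ch i :=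
      { toFun := fun x => ⟨x.1, x.2⟩
        map_one' := rfl
        map_mul' := fun _ _ => rfl
        map_zero' := rfl
        map_add' := fun _ _ => rfl }
    haveI := hq
    obtain ⟨V, hV1, hV2⟩ := vr_dom ((𝒹 Q).ch i).toSubring (q.comap f) inferInstance
    have hV1' : ∀ f ∈ (𝒹 Q).ch i, f ∈ V := fun f hf => hV1 f hf
    have hV3 : ∀ s : (𝒹 Q).ch i, s ∉ q ↔ (s : RatFunc K) ≠ 0 ∧ (s : RatFunc K)⁻¹ ∈ V := by
      intro s
      exact hV2 ⟨s.1, s.2⟩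
    have hloc := vr_loc ((𝒹 Q).ch i) q V hV3
    have hbV : (𝒹 Q).ξ i ^ ex n i / (𝒹 Q).ξ c ^ ex n c ∈ V := by
      rw [← hb3]
      apply vr_locAtCentre_sub _ V hV1'
      rw [← hloc]
      exact hb
    have hσV := ch_le_of Q c i V hV1' hbV
    obtain ⟨p', hp', hp'2⟩ := vr_centre ((𝒹 Q).ch c) V hσV
    refine ⟨p', hp', ?_⟩
    have h5 := vr_loc ((𝒹 Q).ch c) p' V hp'2
    have h6 : locAtCentre ((𝒹 Q).ch c) V = locAtCentre ((𝒹 Q).ch i) V :=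
      (Fm Q).separated c i V hσV hV1'
    exact hloc.trans (h6.symm.trans h5.symm)
  · rintro ⟨p', hp', rfl⟩
    exact ⟨⟨c, p', hp', rfl⟩, gen_at Q c p' hp'⟩

theorem Fm_fibre : (Fm Q).IsCentralFibre (WP T n) := by
  refine ⟨BB Q, rs Q, fun c => cone (tor T (n + 1)) ((cData n).R c), fun i _ => ⟨?_, ?_, ?_⟩, ?_⟩
  · intro f hf
    exact ch_ge Q i hf
  · intro a ha
    exact rs_ker Q i a ha
  · intro y
    exact rs_img Q i y
  · ext A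
    constructor
    · rintro ⟨i, p, hp, rfl⟩
      exact ⟨i, tinv_not Q i, p, hp, rfl⟩
    · rintro ⟨i, -, p, hp, rfl⟩
      exact ⟨i, p, hp, rfl⟩

end fam

end Pool.Agent.U198.SD
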