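import Pool.Agent.U198.SD.Bnd2
import Pool.Agent.U198.SD.Sec4
import Pool.Agent.Helper774.KSing.Bd

/-!
The weighted projective planes `P(1, b², c²)` are not bounded.
-/

noncomputable section

namespace Pool.Agent.U198.SD

open Pool.Agent.Helper774.KStab (TorusField exists_torusField)
open Pool.Agent.Helper774.KSing

/-- the sequence `0, 1, 7, 48, ...` -/
def JJ : ℕ → ℤ
  | 0 => 0
  | 1 => 1
  | r + 2 => 7 * JJ (r + 1) - JJ r

theorem JJ_two (r : ℕ) : JJ (r + 2) = 7 * JJ (r + 1) - JJ r := rfl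

theorem JJ_lt (r : ℕ) : 0 ≤ JJ r ∧ JJ r < JJ (r + 1) := by
  induction r with
  | zero => exact ⟨le_rfl, by decide⟩
  | succ r ih =>
    have h := JJ_two r
    rw [show r + 1 + 1 = r + 2 from rfl]
    exact ⟨by omega, by omega⟩

theorem JJ_mono {r s : ℕ} (h : r ≤ s) : JJ r ≤ JJ s := by
  induction s with
  | zero => rw [Nat.le_zero.1 h]
  | succ s ih =>
    rcases Nat.lt_or_ge r (s + 1) with h1 | h1
    · exact (ih (by omega)).trans (JJ_lt s).2.le
    · have : r = s + 1 := by omega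
      rw [this]

theorem JJ_det (r : ℕ) : JJ (r + 1) ^ 2 - JJ (r + 2) * JJ r = 1 := by
  induction r with
  | zero => decide
  | succ r ih =>
    have h1 := JJ_two r
    have h2 := JJ_two (r + 1)
    rw [show r + 1 + 2 = r + 3 from rfl, show r + 1 + 1 = r + 2 from rfl] at *
    rw [h2]
    linear_combination ih + JJ (r + 2) * h1

theorem b_four (k : ℕ) : (b (k + 4) : ℤ) = 7 * b (k + 2) - b k := by
  have h1 : (b (k + 2) : ℤ) + b k = 3 * b (k + 1) := by exact_mod_cast b_succ_succ k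
  have h2 : (b (k + 3) : ℤ) + b (k + 1) = 3 * b (k + 2) := by exact_mod_cast b_succ_succ (k + 1)
  have h3 : (b (k + 4) : ℤ) + b (k + 2) = 3 * b (k + 3) := by exact_mod_cast b_succ_succ (k + 2)
  linarith

theorem bJ (k r : ℕ) : (b (k + 2 * r) : ℤ) * JJ (r + 1) - b (k + 2 * r + 2) * JJ r = b k := by
  induction r with
  | zero =>
    show (b k : ℤ) * 1 - b (k + 2) * 0 = b k
    ring
  | succ r ih =>
    have h1 := JJ_two r
    have h2 := b_four (k + 2 * r)
    rw [show k + 2 * (r + 1) = k + 2 * r + 2 by ring, show k + 2 * r + 2 + 2 = k + 2 * r + 4 by ring,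
      show r + 1 + 1 = r + 2 from rfl, h1, h2]
    linear_combination ih

/-- the exponents -/
def EE (r : ℕ) : Fin 2 → ℤ := ![JJ (r + 2) - JJ (r + 1), -(JJ (r + 1) - JJ r)]

theorem mem_R2 (n : ℕ) (u : Fin 2 → ℤ) : u ∈ Mset ((cData n).R (2 : Fin 3)) 0 ↔
    0 ≤ u 0 ∧ 0 ≤ -(b (n + 1) : ℤ) ^ 2 * u 0 - (b (n + 2) : ℤ) ^ 2 * u 1 := by
  have h : u ∈ Mset ((cData n).R (2 : Fin 3)) 0 ↔
      ∀ j, 0 ≤ Matrix.vecMul u (triR (b (n + 1)) (b (n + 2)) 2) j := Iff.rfl
  rw [h, triR2]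
  constructor
  · intro h1
    exact ⟨h1 0, h1 1⟩
  · rintro ⟨h1, h2⟩
    exact fin2 h1 h2

theorem EE_mem (n r : ℕ) (h : 2 * r + 1 ≤ n) (h2 : JJ (r + 1) - JJ r ≤ b (n + 1)) :
    EE r ∈ Mset ((cData n).R (2 : Fin 3)) 0 := by
  obtain ⟨k, hk⟩ : ∃ k, n + 1 = k + 2 * r + 2 := ⟨n - (2 * r + 1), by omega⟩
  rw [mem_R2]
  obtain ⟨h3, h4⟩ := JJ_lt (r + 1)
  refine ⟨?_, ?_⟩
  · show 0 ≤ JJ (r + 2) - JJ (r + 1)
    linarith
  · show 0 ≤ -(b (n + 1) : ℤ) ^ 2 * (JJ (r + 2) - JJ (r + 1)) -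
      (b (n + 2) : ℤ) ^ 2 * (-(JJ (r + 1) - JJ r))
    have e1 : (b (n + 1) : ℤ) * JJ (r + 2) - b (n + 3) * JJ (r + 1) = b k := by
      have := bJ k (r + 1)
      rw [show k + 2 * (r + 1) = n + 1 by omega, show n + 1 + 2 = n + 3 from rfl] at this
      exact this
    have e2 : (b (n + 1) : ℤ) * JJ (r + 1) - b (n + 3) * JJ r = b (k + 2) := by
      have := bJ (k + 2) r
      rw [show k + 2 + 2 * r = n + 1 by omega, show n + 1 + 2 = n + 3 from rfl] at this
      exact this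
    have e3 : (b (n + 1) : ℤ) * b (n + 3) = b (n + 2) ^ 2 + 1 := by exact_mod_cast b_mul (n + 1)
    have e4 : (b k : ℤ) + 1 ≤ b (k + 2) := by
      have h5 := b_two_le k
      have h6 := b_le_succ k
      have h7 := b_pos (k + 1)
      have : b k + 1 ≤ b (k + 2) := by omega
      exact_mod_cast this
    have e5 : (0 : ℤ) ≤ b (n + 1) := by positivity
    have e6 : -(b (n + 1) : ℤ) ^ 2 * (JJ (r + 2) - JJ (r + 1)) -
        (b (n + 2) : ℤ) ^ 2 * (-(JJ (r + 1) - JJ r)) =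
        b (n + 1) * (b (k + 2) - b k) - (JJ (r + 1) - JJ r) := by
      linear_combination (-(b (n + 1) : ℤ)) * e1 + (b (n + 1) : ℤ) * e2 - (JJ (r + 1) - JJ r) * e3
    rw [e6]
    nlinarith

/-- the functional which is `1` at `EE r` -/
def fl (r : ℕ) (u : Fin 2 → ℤ) : ℤ := -JJ (r + 1) * u 0 - JJ (r + 2) * u 1

theorem fl_add (r : ℕ) (u v : Fin 2 → ℤ) : fl r (u + v) = fl r u + fl r v := by
  simp only [fl, Pi.add_apply]
  ring

theorem fl_EE (r : ℕ) : fl r (EE r) = 1 := by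
  have h := JJ_det r
  show -JJ (r + 1) * (JJ (r + 2) - JJ (r + 1)) - JJ (r + 2) * (-(JJ (r + 1) - JJ r)) = 1
  linear_combination h

theorem bJ_lt (n r : ℕ) : (b (n + 2) : ℤ) ^ 2 * JJ r < (b (n + 1) : ℤ) ^ 2 * JJ (r + 1) := by
  have hm : (b (n + 1) : ℤ) ^ 2 + (b (n + 2) : ℤ) ^ 2 + 1 = 3 * b (n + 1) * b (n + 2) := by
    exact_mod_cast b_markov (n + 1)
  have hb : (1 : ℤ) ≤ b (n + 1) := by exact_mod_cast b_pos (n + 1)
  have hc : (1 : ℤ) ≤ b (n + 2) := by exact_mod_cast b_pos (n + 2)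
  induction r with
  | zero =>
    show (b (n + 2) : ℤ) ^ 2 * 0 < (b (n + 1) : ℤ) ^ 2 * 1
    nlinarith
  | succ r ih =>
    have h1 := JJ_two r
    obtain ⟨h3, h4⟩ := JJ_lt r
    rw [show r + 1 + 1 = r + 2 from rfl, h1]
    generalize (b (n + 1) : ℤ) = p at *
    generalize (b (n + 2) : ℤ) = q at *
    generalize JJ (r + 1) = y at *
    generalize JJ r = x at *
    have h5 : p ^ 4 + q ^ 4 < 7 * p ^ 2 * q ^ 2 := by
      have h6 : p ^ 2 + q ^ 2 < 3 * p * q := by linarith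
      have h7 : 0 ≤ p ^ 2 + q ^ 2 := by positivity
      nlinarith
    have h6 : p ^ 2 * (q ^ 2 * x) < p ^ 2 * (p ^ 2 * y) := by
      apply mul_lt_mul_of_pos_left ih
      positivity
    have hy : 0 < y := by linarith
    have h7 : (p ^ 4 + q ^ 4) * y < 7 * p ^ 2 * q ^ 2 * y := mul_lt_mul_of_pos_right h5 hy
    have h8 : q ^ 2 * (q ^ 2 * y) < q ^ 2 * (p ^ 2 * (7 * y - x)) := by nlinarith
    exact lt_of_mul_lt_mul_left h8 (by positivity)

theorem fl_pos (n r : ℕ) {u : Fin 2 → ℤ} (hu : u ∈ Mset ((cData n).R (2 : Fin 3)) 0) (h0 : u ≠ 0) :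
    1 ≤ fl r u := by
  rw [mem_R2] at hu
  obtain ⟨h1, h2⟩ := hu
  have h3 := bJ_lt n (r + 1)
  have hc : (1 : ℤ) ≤ b (n + 2) := by exact_mod_cast b_pos (n + 2)
  obtain ⟨h4, h5⟩ := JJ_lt (r + 1)
  rw [show r + 1 + 1 = r + 2 from rfl] at *
  rw [fl]
  generalize (b (n + 1) : ℤ) = p at *
  generalize (b (n + 2) : ℤ) = q at *
  generalize JJ (r + 1) = x at *
  generalize JJ (r + 2) = y at *
  have hy : 0 < y := by linarith
  have hq2 : 0 < q ^ 2 := by positivity
  rcases h1.eq_or_lt with h6 | h6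
  · rw [← h6] at h2 ⊢
    have h7 : u 1 ≠ 0 := by
      intro h7
      apply h0
      ext i
      fin_cases i
      · exact h6.symm
      · exact h7
    have h8 : u 1 ≤ 0 := by
      by_contra h9
      push Not at h9
      nlinarith
    have h9 : u 1 ≤ -1 := by omega
    nlinarith
  · have h7 : 0 < q ^ 2 * (-x * u 0 - y * u 1) := by
      have h8 : y * (p ^ 2 * u 0) ≤ y * (-(q ^ 2 * u 1)) := by
        apply mul_le_mul_of_nonneg_left _ hy.le
        linarith
      have h9 : 0 < u 0 * (p ^ 2 * y - q ^ 2 * x) := mul_pos h6 (by linarith)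
      nlinarith
    have h8 : 0 < -x * u 0 - y * u 1 := (mul_pos_iff_of_pos_left hq2).1 h7
    linarith

theorem EE_ne (r : ℕ) : EE r ≠ 0 := by
  intro h
  have h1 := fl_EE r
  rw [h] at h1
  simp [fl] at h1

theorem EE_inj : Function.Injective EE := by
  have hlt : ∀ r s, r < s → EE r ≠ EE s := by
    intro r s hrs h
    have h1 : JJ (r + 2) - JJ (r + 1) = JJ (s + 2) - JJ (s + 1) := congrFun h 0
    have h2 : JJ (r + 2) ≤ JJ (s + 1) := JJ_mono (by omega)
    obtain ⟨h3, h4⟩ := JJ_lt (r + 1)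
    obtain ⟨h5, h6⟩ := JJ_lt (s + 1)
    have h7 := JJ_two s
    have h8 := JJ_two r
    obtain ⟨h9, h10⟩ := JJ_lt s
    rw [show r + 1 + 1 = r + 2 from rfl] at *
    rw [show s + 1 + 1 = s + 2 from rfl] at *
    omega
  intro r s h
  rcases Nat.lt_trichotomy r s with h1 | h1 | h1
  · exact absurd h (hlt r s h1)
  · exact h1
  · exact absurd h.symm (hlt s r h1)

variable {K : Type} [Field K] [Algebra ℂ K]

theorem WP_not (T : TorusField 2 K) (N : ℕ) : ∃ n, ∃ A ∈ (WP T n).points, ¬ EssGen N A := by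
  obtain ⟨n, hn⟩ : ∃ n : ℕ, n = 2 * (N + 1) + 1 + (JJ (N + 2)).toNat := ⟨_, rfl⟩
  have hb : (n : ℤ) ≤ b (n + 1) := by exact_mod_cast b_unbounded n
  have hJ : ∀ r < N + 1, JJ (r + 1) - JJ r ≤ b (n + 1) := by
    intro r hr
    have h1 : JJ (r + 1) ≤ JJ (N + 2) := JJ_mono (by omega)
    have h2 := (JJ_lt r).1
    have h3 : JJ (N + 2) ≤ n := by
      rw [hn]
      push_cast
      have := Int.self_le_toNat (JJ (N + 2))
      omega
    omega
  obtain ⟨p, hp, h⟩ := not_essGen (M := N + 1) (tor T (n + 1)) (R := (cData n).R (2 : Fin 3))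
    (E := fun r => EE r)
    (fun u hu v hv huv => by
      by_contra hne
      rw [not_and_or] at hne
      have h0 : fl 0 u + fl 0 v = 0 := by
        rw [← fl_add, huv]
        simp [fl]
      have hn : ∀ w ∈ Mset ((cData n).R (2 : Fin 3)) 0, 0 ≤ fl 0 w := by
        intro w hw
        by_cases hw0 : w = 0
        · rw [hw0]; simp [fl]
        · have := fl_pos n 0 hw hw0
          omega
      have h1 := hn u hu
      have h2 := hn v hv
      rcases hne with h3 | h3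
      · have := fl_pos n 0 hu h3
        omega
      · have := fl_pos n 0 hv h3
        omega)
    (fun r => EE_mem n r (by omega) (hJ r r.2))
    (fun r => EE_ne r)
    (fun r s h => Fin.ext (EE_inj h))
    (fun r u hu v hv huv => by
      by_contra hne
      rw [not_or] at hne
      have h1 := fl_pos n r hu hne.1
      have h2 := fl_pos n r hv hne.2
      have h3 := fl_EE r
      rw [← huv, fl_add] at h3
      omega)
  exact ⟨n, _, ⟨(2 : Fin 3), p, hp, rfl⟩, h N (by omega)⟩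

theorem WP_special (T : TorusField 2 K) (n : ℕ) : SpecialDegeneratesTo (PP T) (WP T n) := by
  obtain ⟨Q⟩ := exists_totHom (tor T (n + 1)) (wp n) (wq n)
  exact ⟨toric_isFano _ _, toric_klt _ _, toric_isFano _ _, toric_klt _ _, Dg Q, Fm_ample Q,
    Fm_fibre Q⟩

theorem not_bounded (T : TorusField 2 K) : ¬ IsBounded {Y | SpecialDegeneratesTo (PP T) Y} := by
  intro h
  obtain ⟨N, hN⟩ := h.essGen
  obtain ⟨n, A, hA, hA2⟩ := WP_not T N
  exact hA2 (hN _ (WP_special T n) A hA)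

end Pool.Agent.U198.SD
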