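import Pool.Agent.U198.SD.Jac

/-!
For every `k` the degree zero monomials in `X k, X (k+1), C` are the characters of a torus with
function field `ℂ(x/z, y/z)`.
-/

noncomputable section

namespace Pool.Agent.U198.SD

open Pool.Agent.Helper774.KStab (TorusField)

variable {K : Type} [Field K] [Algebra ℂ K]

theorem markovZ (k : ℕ) : (b k : ℤ) ^ 2 + (b (k + 1) : ℤ) ^ 2 + 1 = 3 * b k * b (k + 1) := by
  exact_mod_cast b_markov k

section

variable (T : TorusField 2 K)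

/-- `X n` at `(x/z, y/z, 1)` -/
abbrev G (n : ℕ) : K := g (xx T) (yy T) n

/-- the cubic at `(x/z, y/z, 1)` -/
abbrev Cu : K := cc (xx T) (yy T)

/-- monomials -/
abbrev Mo (k : ℕ) (a a' e : ℤ) : K := mon (xx T) (yy T) k a a' e

theorem G_ne (n : ℕ) : G T n ≠ 0 := (jac_main T n).1

theorem Cu_ne : Cu T ≠ 0 := cc_ne T

/-- the degree zero monomials -/
def chi' (k : ℕ) (u : Fin 2 → ℤ) : K :=
  Mo T k ((3 * b k - b (k + 1)) * u 0 + b (k + 1) * u 1)
    (b k * u 0 + (3 * b (k + 1) - b k) * u 1)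
    (-(b k : ℤ) ^ 2 * u 0 - (b (k + 1) : ℤ) ^ 2 * u 1)

theorem Mo_mul (k : ℕ) (a a' e a₁ a₁' e₁ : ℤ) :
    Mo T k a a' e * Mo T k a₁ a₁' e₁ = Mo T k (a + a₁) (a' + a₁') (e + e₁) :=
  mon_mul (G_ne T) (Cu_ne T) k a a' e a₁ a₁' e₁

theorem Mo_ne (k : ℕ) (a a' e : ℤ) : Mo T k a a' e ≠ 0 := mon_ne (G_ne T) (Cu_ne T) k a a' e

theorem chi'_ne (k : ℕ) (u : Fin 2 → ℤ) : chi' T k u ≠ 0 := Mo_ne T k _ _ _

theorem chi'_zero (k : ℕ) : chi' T k 0 = 1 := by
  rw [chi']
  simp [mon]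

theorem chi'_add (k : ℕ) (u v : Fin 2 → ℤ) : chi' T k (u + v) = chi' T k u * chi' T k v := by
  rw [chi', chi', chi', Mo_mul]
  congr 1 <;> simp only [Pi.add_apply] <;> ring

/-- logarithmic derivative of a monomial -/
theorem der_mon (D : Derivation ℂ K K) (k : ℕ) (a a' e : ℤ) :
    D (Mo T k a a' e) = Mo T k a a' e * (a * (D (G T k) / G T k) + a' * (D (G T (k + 1)) / G T (k + 1))
      + e * (D (Cu T) / Cu T)) := by
  have h1 := G_ne T k
  have h2 := G_ne T (k + 1)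
  have h3 := Cu_ne T
  rw [Mo, mon, Derivation.leibniz, Derivation.leibniz, Derivation.leibniz_zpow,
    Derivation.leibniz_zpow, Derivation.leibniz_zpow]
  simp only [smul_eq_mul, zsmul_eq_mul]
  rw [zpow_sub_one₀ h1, zpow_sub_one₀ h2, zpow_sub_one₀ h3]
  field_simp
  ring

/-- `D χ'(u) = χ'(u) (u 0 λ + u 1 μ)` -/
theorem der_chi' (D : Derivation ℂ K K) (k : ℕ) (u : Fin 2 → ℤ) :
    D (chi' T k u) = chi' T k u *
      ((u 0 : K) * ((3 * b k - b (k + 1)) * (D (G T k) / G T k) + b k * (D (G T (k + 1)) / G T (k + 1))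
        - (b k : K) ^ 2 * (D (Cu T) / Cu T)) +
       (u 1 : K) * (b (k + 1) * (D (G T k) / G T k) +
        (3 * b (k + 1) - b k) * (D (G T (k + 1)) / G T (k + 1))
        - (b (k + 1) : K) ^ 2 * (D (Cu T) / Cu T))) := by
  rw [chi', der_mon]
  congr 1
  push_cast
  ring

/-- coefficient `λ` of the derivation `D` -/
def lam (k : ℕ) (D : Derivation ℂ K K) : K :=
  (3 * b k - b (k + 1)) * (D (G T k) / G T k) + b k * (D (G T (k + 1)) / G T (k + 1))
        - (b k : K) ^ 2 * (D (Cu T) / Cu T)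

/-- coefficient `μ` of the derivation `D` -/
def mu (k : ℕ) (D : Derivation ℂ K K) : K :=
  b (k + 1) * (D (G T k) / G T k) +
        (3 * b (k + 1) - b k) * (D (G T (k + 1)) / G T (k + 1))
        - (b (k + 1) : K) ^ 2 * (D (Cu T) / Cu T)

theorem markovK (k : ℕ) : (b k : K) ^ 2 + (b (k + 1) : K) ^ 2 + 1 = 3 * b k * b (k + 1) := by
  exact_mod_cast congrArg (Nat.cast : ℕ → K) (b_markov k)

theorem det_lam (k : ℕ) : lam T k (T.θ 0) * mu T k (T.θ 1) - lam T k (T.θ 1) * mu T k (T.θ 0) =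
    xx T * yy T / Cu T := by
  have h1 := G_ne T k
  have h2 := G_ne T (k + 1)
  have h3 := Cu_ne T
  have hE := (jac_main T k).2.2
  have hm := markovK (K := K) k
  rw [lam, lam, mu, mu]
  unfold J at hE
  change G T k ≠ 0 at h1
  rw [show g (xx T) (yy T) k = G T k from rfl, show g (xx T) (yy T) (k + 1) = G T (k + 1) from rfl,
    show cc (xx T) (yy T) = Cu T from rfl] at hE
  generalize G T k = P at *
  generalize G T (k + 1) = Q at *
  generalize Cu T = c at *
  generalize xx T = x at *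
  generalize yy T = y at *
  generalize (b k : K) = p at *
  generalize (b (k + 1) : K) = q at *
  generalize T.θ 0 P = P0 at *
  generalize T.θ 1 P = P1 at *
  generalize T.θ 0 Q = Q0 at *
  generalize T.θ 1 Q = Q1 at *
  generalize T.θ 0 c = c0 at *
  generalize T.θ 1 c = c1 at *
  have key : 3 * (P0 / P * (Q1 / Q) - P1 / P * (Q0 / Q)) - q * (P0 / P * (c1 / c) - P1 / P * (c0 / c))
      + p * (Q0 / Q * (c1 / c) - Q1 / Q * (c0 / c)) = x * y / c := by
    rw [eq_div_iff h3]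
    apply mul_left_cancel₀ (mul_ne_zero h1 h2)
    have e : P * Q * ((3 * (P0 / P * (Q1 / Q) - P1 / P * (Q0 / Q)) -
        q * (P0 / P * (c1 / c) - P1 / P * (c0 / c))
        + p * (Q0 / Q * (c1 / c) - Q1 / Q * (c0 / c))) * c) =
        3 * c * (P0 * Q1 - P1 * Q0) - q * Q * (P0 * c1 - P1 * c0) + p * P * (Q0 * c1 - Q1 * c0) := by
      field_simp
    rw [e, hE]
    ring
  generalize P0 / P = l0 at *
  generalize P1 / P = l1 at *
  generalize Q0 / Q = m0 at *
  generalize Q1 / Q = m1 at *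
  generalize c0 / c = n0 at *
  generalize c1 / c = n1 at *
  linear_combination key - (3 * (l0 * m1 - l1 * m0) - q * (l0 * n1 - l1 * n0)
    + p * (m0 * n1 - m1 * n0)) * hm

theorem lamu_ne (k : ℕ) : lam T k (T.θ 0) * mu T k (T.θ 1) - lam T k (T.θ 1) * mu T k (T.θ 0) ≠ 0 := by
  rw [det_lam]
  exact div_ne_zero (mul_ne_zero (xx_ne T) (yy_ne T)) (Cu_ne T)

/-- the logarithmic derivations of the chart `k` -/
def th' (k : ℕ) (i : Fin 2) : Derivation ℂ K K :=
  ![(mu T k (T.θ 1) / (lam T k (T.θ 0) * mu T k (T.θ 1) - lam T k (T.θ 1) * mu T k (T.θ 0))) • T.θ 0 -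
      (mu T k (T.θ 0) / (lam T k (T.θ 0) * mu T k (T.θ 1) - lam T k (T.θ 1) * mu T k (T.θ 0))) • T.θ 1,
    (lam T k (T.θ 0) / (lam T k (T.θ 0) * mu T k (T.θ 1) - lam T k (T.θ 1) * mu T k (T.θ 0))) • T.θ 1 -
      (lam T k (T.θ 1) / (lam T k (T.θ 0) * mu T k (T.θ 1) - lam T k (T.θ 1) * mu T k (T.θ 0))) • T.θ 0] i

theorem th'_chi' (k : ℕ) (i : Fin 2) (u : Fin 2 → ℤ) :
    th' T k i (chi' T k u) = ((u i : ℤ) : K) * chi' T k u := by
  have hne := lamu_ne T k
  have h0 : T.θ 0 (chi' T k u) = chi' T k u * ((u 0 : K) * lam T k (T.θ 0) + (u 1 : K) * mu T k (T.θ 0)) :=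
    der_chi' T (T.θ 0) k u
  have h1 : T.θ 1 (chi' T k u) = chi' T k u * ((u 0 : K) * lam T k (T.θ 1) + (u 1 : K) * mu T k (T.θ 1)) :=
    der_chi' T (T.θ 1) k u
  fin_cases i
  · simp only [th', Fin.zero_eta, Matrix.cons_val_zero, Derivation.sub_apply, Derivation.smul_apply,
      smul_eq_mul, h0, h1]
    rw [div_mul_eq_mul_div, div_mul_eq_mul_div, ← sub_div, div_eq_iff hne]
    ring
  · simp only [th', Fin.mk_one, Matrix.cons_val_one, Matrix.cons_val_fin_one,
      Derivation.sub_apply, Derivation.smul_apply, smul_eq_mul, h0, h1]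
    rw [div_mul_eq_mul_div, div_mul_eq_mul_div, ← sub_div, div_eq_iff hne]
    ring

theorem chi'_li (k : ℕ) : LinearIndependent ℂ (chi' T k) := by
  let f : Module.End ℂ K := (th' T k 0 : K →ₗ[ℂ] K) + Complex.I • (th' T k 1 : K →ₗ[ℂ] K)
  refine Module.End.eigenvectors_linearIndependent' f (fun u => (u 0 : ℂ) + (u 1 : ℂ) * Complex.I) ?_
    (chi' T k) ?_
  · intro u v h
    have hre := congrArg Complex.re h
    have him := congrArg Complex.im h
    simp at hre him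
    ext i
    fin_cases i
    · exact_mod_cast hre
    · exact_mod_cast him
  · intro u
    rw [Module.End.hasEigenvector_iff, Module.End.mem_eigenspace_iff]
    refine ⟨?_, chi'_ne T k u⟩
    show th' T k 0 (chi' T k u) + Complex.I • th' T k 1 (chi' T k u) = _
    rw [th'_chi', th'_chi', Algebra.smul_def, Algebra.smul_def, map_add, map_mul]
    simp only [map_intCast]
    ring

/-- monomials of degree `m` -/
theorem Mo_chi' (k : ℕ) {a a' e m : ℤ} (h : (b k : ℤ) * a + b (k + 1) * a' + 3 * e = m) :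
    Mo T k a a' e * Mo T k (b k * m) (b (k + 1) * m) (-(b k * b (k + 1) * m)) =
      chi' T k ![b (k + 1) * a + e, b k * a' + e] := by
  have hm := markovZ k
  rw [Mo_mul, chi']
  subst h
  congr 1
  · simp only [Matrix.cons_val_zero, Matrix.cons_val_one, Matrix.cons_val_fin_one]
    linear_combination (a) * hm
  · simp only [Matrix.cons_val_zero, Matrix.cons_val_one, Matrix.cons_val_fin_one]
    linear_combination (a') * hm
  · simp only [Matrix.cons_val_zero, Matrix.cons_val_one, Matrix.cons_val_fin_one]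
    linear_combination (e) * hm

/-- `z / τ`, where `τ` is the monomial of degree one `C ^ (b k b (k+1)) / (X k ^ b k X (k+1) ^ b (k+1))` -/
def zt (k : ℕ) : K := Mo T k (b k) (b (k + 1)) (-(b k * b (k + 1)))

theorem zt_ne (k : ℕ) : zt T k ≠ 0 := Mo_ne T k _ _ _

theorem zt_pow (k : ℕ) (m : ℤ) : zt T k ^ m =
    Mo T k (b k * m) (b (k + 1) * m) (-(b k * b (k + 1) * m)) := by
  show (G T k ^ (b k : ℤ) * G T (k + 1) ^ (b (k + 1) : ℤ) * Cu T ^ (-(b k * b (k + 1) : ℤ))) ^ m =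
    G T k ^ (b k * m : ℤ) * G T (k + 1) ^ (b (k + 1) * m : ℤ) * Cu T ^ (-(b k * b (k + 1) * m : ℤ))
  rw [mul_zpow, mul_zpow, ← zpow_mul, ← zpow_mul, ← zpow_mul]
  congr 2
  ring

/-- the Laurent polynomials of degree zero -/
abbrev La (k : ℕ) : Submodule ℂ K := Submodule.span ℂ (Set.range (chi' T k))

theorem Lau_zt (k : ℕ) {m : ℤ} {f : K} (hf : f ∈ Lau (xx T) (yy T) k m) :
    f * zt T k ^ m ∈ La T k := by
  rw [zt_pow]
  induction hf using Submodule.span_induction with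
  | mem f hf =>
    obtain ⟨a, a', e, h, rfl⟩ := hf
    rw [show mon (xx T) (yy T) k a a' e = Mo T k a a' e from rfl, Mo_chi' T k h]
    exact Submodule.subset_span ⟨_, rfl⟩
  | zero => rw [zero_mul]; exact Submodule.zero_mem _
  | add u v _ _ hu hv => rw [add_mul]; exact Submodule.add_mem _ hu hv
  | smul c u _ hu => rw [smul_mul_assoc]; exact Submodule.smul_mem _ _ hu

theorem pow_mem_Lau (k : ℕ) (i j m : ℕ) (h : i + j ≤ m) :
    xx T ^ i * yy T ^ j ∈ Lau (xx T) (yy T) k m := by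
  obtain ⟨l, rfl⟩ := Nat.exists_eq_add_of_le h
  obtain ⟨h1, h2, h3⟩ := Lau_xyz (G_ne T) (Cu_ne T) k
  have k1 : xx T ^ i ∈ Lau (xx T) (yy T) k (i : ℤ) := by
    have := Lau_pow (G_ne T) (Cu_ne T) k h1 i
    rwa [mul_one] at this
  have k2 : yy T ^ j ∈ Lau (xx T) (yy T) k (j : ℤ) := by
    have := Lau_pow (G_ne T) (Cu_ne T) k h2 j
    rwa [mul_one] at this
  have k3 : (1 : K) ∈ Lau (xx T) (yy T) k (l : ℤ) := by
    have := Lau_pow (G_ne T) (Cu_ne T) k h3 l
    rwa [mul_one, one_pow] at this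
  have k4 := Lau_mul (G_ne T) (Cu_ne T) k (Lau_mul (G_ne T) (Cu_ne T) k k1 k2) k3
  rw [mul_one] at k4
  have e : ((i + j + l : ℕ) : ℤ) = (i : ℤ) + j + l := by push_cast; rfl
  rw [e]
  exact k4

theorem frac_aux (k : ℕ) (A : K) (hA : A ∈ Submodule.span ℂ (Set.range T.χ)) :
    ∃ N₀ : ℕ, ∀ N : ℕ, N₀ ≤ N → A * (xx T * yy T) ^ N * zt T k ^ ((4 * N : ℕ) : ℤ) ∈ La T k := by
  induction hA using Submodule.span_induction with
  | mem f hf =>
    obtain ⟨u, rfl⟩ := hf
    refine ⟨(u 0).natAbs + (u 1).natAbs, fun N hN => ?_⟩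
    apply Lau_zt
    obtain ⟨i, hi⟩ := Int.eq_ofNat_of_zero_le (show 0 ≤ u 0 + N by omega)
    obtain ⟨j, hj⟩ := Int.eq_ofNat_of_zero_le (show 0 ≤ u 1 + N by omega)
    have e : T.χ u * (xx T * yy T) ^ N = xx T ^ i * yy T ^ j := by
      have h1 := chi_eq T N N
      rw [mul_pow, ← h1, ← T.χ_add, ← chi_eq]
      congr 1
      ext t
      fin_cases t
      · simpa using hi
      · simpa using hj
    rw [e]
    exact pow_mem_Lau T k i j (4 * N) (by omega)
  | zero => exact ⟨0, fun N _ => by rw [zero_mul, zero_mul]; exact Submodule.zero_mem _⟩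
  | add u v _ _ hu hv =>
    obtain ⟨N₁, h₁⟩ := hu
    obtain ⟨N₂, h₂⟩ := hv
    refine ⟨max N₁ N₂, fun N hN => ?_⟩
    rw [add_mul, add_mul]
    exact Submodule.add_mem _ (h₁ N (le_trans (le_max_left _ _) hN))
      (h₂ N (le_trans (le_max_right _ _) hN))
  | smul c u _ hu =>
    obtain ⟨N₁, h₁⟩ := hu
    refine ⟨N₁, fun N hN => ?_⟩
    rw [smul_mul_assoc, smul_mul_assoc]
    exact Submodule.smul_mem _ _ (h₁ N hN)

/-- The torus of the chart `k`. -/
def tor (k : ℕ) : TorusField 2 K where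
  χ := chi' T k
  χ_zero := chi'_zero T k
  χ_add := chi'_add T k
  li := chi'_li T k
  frac := by
    intro f
    obtain ⟨A, hA, B, hB, hB0, h⟩ := T.frac f
    obtain ⟨N₁, h₁⟩ := frac_aux T k A hA
    obtain ⟨N₂, h₂⟩ := frac_aux T k B hB
    refine ⟨_, h₁ (max N₁ N₂) (le_max_left _ _), _, h₂ (max N₁ N₂) (le_max_right _ _), ?_, ?_⟩
    · exact mul_ne_zero (mul_ne_zero hB0 (pow_ne_zero _ (mul_ne_zero (xx_ne T) (yy_ne T))))
        (zpow_ne_zero _ (zt_ne T k))
    · rw [← h]; ring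
  θ := th' T k
  θ_χ := th'_chi' T k

end

end Pool.Agent.U198.SD
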