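import Pool.Agent.U198.SD.Seq

/-!
The polynomials `X n`, `Z n` attached to the nodal cubic `C = x y z - x^3 - y^3`:
`X 0 = x`, `X 1 = y`, `X n * X (n+2) = X (n+1)^3 + C ^ b (n+1)`.
-/

namespace Pool.Agent.U198.SD

variable {A : Type*} [CommRing A]

/-- the nodal cubic -/
def cub (x y z : A) : A := x * y * z - x ^ 3 - y ^ 3

/-- the triple `(X n, X (n+1), Z n)` -/
def trip (x y z : A) : ℕ → A × A × A
  | 0 => (x, y, z)
  | n + 1 =>
    let t := trip x y z n
    let w := t.2.1 * t.2.2 - cub x y z ^ d n * t.1 ^ 2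
    (t.2.1, w, w * t.2.2 - cub x y z ^ d n * t.1 * t.2.1 ^ 2)

/-- `X n` -/
def X (x y z : A) (n : ℕ) : A := (trip x y z n).1

/-- `Z n` -/
def Z (x y z : A) (n : ℕ) : A := (trip x y z n).2.2

variable (x y z : A)

theorem X_zero : X x y z 0 = x := rfl
theorem X_one : X x y z 1 = y := rfl
theorem Z_zero : Z x y z 0 = z := rfl

theorem trip_snd (n : ℕ) : (trip x y z n).2.1 = X x y z (n + 1) := rfl

theorem X_succ_succ (n : ℕ) : X x y z (n + 2) =
    X x y z (n + 1) * Z x y z n - cub x y z ^ d n * X x y z n ^ 2 := rfl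

theorem Z_succ (n : ℕ) : Z x y z (n + 1) =
    X x y z (n + 2) * Z x y z n - cub x y z ^ d n * X x y z n * X x y z (n + 1) ^ 2 := rfl

theorem rel_B (n : ℕ) : X x y z n * X x y z (n + 1) * Z x y z n =
    cub x y z ^ d n * X x y z n ^ 3 + X x y z (n + 1) ^ 3 + cub x y z ^ b (n + 1) := by
  induction n with
  | zero =>
    rw [X_zero, X_one, Z_zero, d_zero, b_one, cub]
    ring
  | succ n ih =>
    have h1 := X_succ_succ x y z n
    have h2 := Z_succ x y z n
    rw [h2, b_succ (n + 1), d_succ']
    simp only [pow_add]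
    generalize X x y z n = P at *
    generalize X x y z (n + 1) = Q at *
    generalize X x y z (n + 2) = R at *
    generalize Z x y z n = W at *
    generalize cub x y z ^ d n = D at *
    generalize cub x y z ^ b (n + 1) = B at *
    -- ih : P * Q * W = D * P ^ 3 + Q ^ 3 + B ; h1 : R = Q * W - D * P ^ 2
    have h3 : P * R = Q ^ 3 + B := by linear_combination P * h1 + ih
    subst h1
    linear_combination (D * (B)) * h3 + D * P * (Q * W - D * P ^ 2) * h3

/-- The exchange relation. -/
theorem rel_A (n : ℕ) : X x y z n * X x y z (n + 2) = X x y z (n + 1) ^ 3 + cub x y z ^ b (n + 1) := by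
  rw [X_succ_succ]
  linear_combination rel_B x y z n

theorem rel_E (n : ℕ) : cub x y z ^ d (n + 1) * X x y z n =
    X x y z (n + 1) * Z x y z (n + 1) - X x y z (n + 2) ^ 2 := by
  have h1 := X_succ_succ x y z n
  have h3 := rel_A x y z n
  rw [Z_succ, d_succ', pow_add]
  generalize X x y z n = P at *
  generalize X x y z (n + 1) = Q at *
  generalize X x y z (n + 2) = R at *
  generalize Z x y z n = W at *
  generalize cub x y z ^ d n = D at *
  generalize cub x y z ^ b (n + 1) = B at *
  linear_combination (-D * P) * h3 + R * h1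

theorem rel_Z (n : ℕ) : cub x y z ^ b (n + 1) * Z x y z n =
    Z x y z (n + 1) * X x y z n - X x y z (n + 2) * X x y z (n + 1) ^ 2 := by
  have h1 := X_succ_succ x y z n
  have h3 := rel_A x y z n
  rw [Z_succ]
  generalize X x y z n = P at *
  generalize X x y z (n + 1) = Q at *
  generalize X x y z (n + 2) = R at *
  generalize Z x y z n = W at *
  generalize cub x y z ^ d n = D at *
  generalize cub x y z ^ b (n + 1) = B at *
  linear_combination (-W) * h3 + Q ^ 2 * h1

end Pool.Agent.U198.SD
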