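import Pool.Agent.Helper774.KSing.Defs

/-!
Special degenerations (special test configurations) of normal complete complex varieties, and
bounded families. Varieties are given in the language of function fields: a variety is given by
its function field and by the coordinate rings of finitely many affine charts, see
`Pool.Agent.Helper774.KSing.Variety` (normal complete varieties, `IsFano`, `IsKlt`).
-/

open AlgebraicGeometry CategoryTheory CategoryTheory.Limits

noncomputable section

namespace Pool.Agent.U198.SD

open Pool.Agent.Helper774.KSing (Variety locRing locAtCentre)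

/-- A normal complex variety `𝒳` of dimension `d` with function field `L`, with a proper morphism
to the affine line, which is given by the function `t ∈ L`. The variety is given by finitely many
affine charts `Spec (chart i)`, where `chart i` is a finitely generated integrally closed
subalgebra of `L` with fraction field `L`.
`t_mem`: the function `t` is regular on `𝒳`.
`separated`: if a valuation ring has a centre on two charts, then the local rings at the
centres are the same (so the charts glue to a separated variety whose points are the local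
rings of the charts).
`proper`: the valuative criterion for the morphism `t`.
`der`: a basis of the derivations of the function field, which serves to trivialise the rational
top differential forms, as for `Variety`. -/
structure Family (L : Type) [Field L] [Algebra ℂ L] (t : L) (d : ℕ) where
  ι : Type
  [fin : Finite ι]
  chart : ι → Subalgebra ℂ L
  t_mem : ∀ i, t ∈ chart i
  frac : ∀ i, IsFractionRing (chart i) L
  fg : ∀ i, (chart i).FG
  normal : ∀ i, IsIntegrallyClosed (chart i)
  separated : ∀ (i j : ι) (V : ValuationSubring L), (∀ f ∈ chart i, f ∈ V) →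
    (∀ f ∈ chart j, f ∈ V) → locAtCentre (chart i) V = locAtCentre (chart j) V
  proper : ∀ V : ValuationSubring L, (∀ c : ℂ, algebraMap ℂ L c ∈ V) →
    t ∈ V → ∃ i, ∀ f ∈ chart i, f ∈ V
  der : Module.Basis (Fin d) L (Derivation ℂ L L)

attribute [instance] Family.fin

namespace Family

variable {L : Type} [Field L] [Algebra ℂ L] {t : L} {d : ℕ} (D : Family L t d)

/-- The points of `𝒳`, each represented by its local ring in the function field. -/
def points : Set (Set L) :=
  {A | ∃ (i : D.ι) (p : Ideal (D.chart i)), p.IsPrime ∧ A = locRing (D.chart i) p}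

/-- The points of `𝒳` which lie over `𝔸¹ ∖ 0`. -/
def genericPoints : Set (Set L) :=
  {A | ∃ (i : D.ι) (p : Ideal (D.chart i)), p.IsPrime ∧ (⟨t, D.t_mem i⟩ : D.chart i) ∉ p ∧
    A = locRing (D.chart i) p}

/-- The rational function which represents the rational top form `dg_1 ∧ ... ∧ dg_d` on `𝒳`. -/
def jac (g : Fin d → L) : L :=
  Matrix.det (Matrix.of fun i j => D.der i (g j))

/-- The top forms `dg_1 ∧ ... ∧ dg_d` with all `g_j` in `A`. -/
def forms (A : Set L) : Set L :=
  {a | ∃ g : Fin d → L, (∀ j, g j ∈ A) ∧ a = D.jac g}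

/-- The sections of the reflexive sheaf `O(-m K_𝒳)` over `Spec A`, where `A` is the coordinate ring
of a chart or a local ring of `𝒳` (the same definition as `Variety.sections`). -/
def sections (m : ℕ) (A : Set L) : Set L :=
  {s | ∀ a : Fin m → L, (∀ k, a k ∈ D.forms A) → s * ∏ k, a k ∈ A}

/-- The section `s` of `O(-m K_𝒳)` generates this sheaf at the point with local ring `A`. -/
def GeneratesAt (m : ℕ) (s : L) (A : Set L) : Prop :=
  ∀ u : L, u ∈ D.sections m A ↔ ∃ b ∈ A, u = s * b

/-- The locus of the points where `s` generates `O(-m K_𝒳)` is an affine variety `Spec R`. -/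
def AffineLocus (m : ℕ) (s : L) : Prop :=
  ∃ R : Subalgebra ℂ L, R.FG ∧ {A | A ∈ D.points ∧ D.GeneratesAt m s A} =
    {A | ∃ p : Ideal R, p.IsPrime ∧ A = locRing R p}

/-- `-K_{𝒳/𝔸¹}` is `ℚ`-Cartier and ample over `𝔸¹`. As `K_{𝔸¹} = 0` and `𝔸¹` is affine, this means
that `-K_𝒳` is `ℚ`-Cartier and ample: every point `A` of `𝒳` lies in the locus `𝒳_s` where a global
section `s` of `O(-m K_𝒳)`, for some `m ≥ 1`, generates this sheaf, such that `𝒳_s` is affine. -/
def AntiAmple : Prop :=
  ∀ A ∈ D.points, ∃ m : ℕ, 1 ≤ m ∧ ∃ s : L, (∀ i, s ∈ D.sections m (D.chart i : Set L)) ∧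
    D.GeneratesAt m s A ∧ D.AffineLocus m s

end Family

/-- `S ⊆ M` is the image of `C ⊆ B` under the homomorphism `res : B → M`, whose kernel on `C` is the
ideal `t C`. So `S` is `C / t C`, the coordinate ring of the closed subscheme `t = 0` of
`Spec C`. -/
def RestrictsTo {L M : Type} [Field L] [Algebra ℂ L] [Field M] [Algebra ℂ M] (t : L)
    (B : Subalgebra ℂ L) (res : B →ₐ[ℂ] M) (C : Subalgebra ℂ L) (S : Subalgebra ℂ M) : Prop :=
  (∀ f ∈ C, f ∈ B) ∧
  (∀ a : B, (a : L) ∈ C → (res a = 0 ↔ ∃ f ∈ C, (a : L) = t * f)) ∧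
  (∀ y : M, y ∈ S ↔ ∃ a : B, (a : L) ∈ C ∧ res a = y)

/-- The scheme-theoretic fibre of `t : 𝒳 → 𝔸¹` over `0` is the variety `Y`. The fibre is covered by
the affine schemes `Spec (chart i / t)`, where `chart i` runs over the charts on which `t` is not
invertible. The condition is that there is a homomorphism `res` (restriction of functions to
the fibre) from a subalgebra `B` of the function field of `𝒳` containing all these charts to the
function field of `Y`, whose kernel on `chart i` is the ideal `t · chart i`, such that the images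
of the charts are coordinate rings of affine open subsets which cover `Y` (i.e. the points of
`Y` are exactly the local rings of these images). -/
def Family.IsCentralFibre {L : Type} [Field L] [Algebra ℂ L] {t : L} {d : ℕ} (D : Family L t d)
    (Y : Variety) : Prop :=
  ∃ (B : Subalgebra ℂ L) (res : B →ₐ[ℂ] Y.K) (img : D.ι → Subalgebra ℂ Y.K),
    (∀ i, t⁻¹ ∉ D.chart i → RestrictsTo t B res (D.chart i) (img i)) ∧
    Y.points = {A | ∃ i, t⁻¹ ∉ D.chart i ∧ ∃ p : Ideal (img i), p.IsPrime ∧
      A = locRing (img i) p}

/-- The function field `ℂ(X)(t)` of `X × 𝔸¹`; the coordinate of `𝔸¹` is `t = RatFunc.X`. -/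
abbrev FF (X : Variety) : Type := RatFunc X.K

/-- The coordinate ring `R[t, t⁻¹]` of the chart `Spec R × (𝔸¹ ∖ 0)` of `X × (𝔸¹ ∖ 0)`. -/
def cylinder (X : Variety) (R : Subalgebra ℂ X.K) : Subalgebra ℂ (FF X) :=
  Algebra.adjoin ℂ ((algebraMap X.K (FF X)) '' (R : Set X.K) ∪ {RatFunc.X, RatFunc.X⁻¹})

/-- The points of `X × (𝔸¹ ∖ 0)`. -/
def cylinderPoints (X : Variety) : Set (Set (FF X)) :=
  {A | ∃ (i : X.ι) (p : Ideal (cylinder X (X.chart i))), p.IsPrime ∧
    A = locRing (cylinder X (X.chart i)) p}

/-- The subalgebra `C` of `ℂ(X)(t)` is invariant under `𝔾ₘ`, which acts by `t ↦ λ t`: every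
function in `C` is a sum of weight vectors `f t ^ j`, `f ∈ ℂ(X)`, `j ∈ ℤ`, in `C`. -/
def IsInvariant (X : Variety) (C : Subalgebra ℂ (FF X)) : Prop :=
  ∀ F ∈ C, F ∈ Submodule.span ℂ {H : FF X | H ∈ C ∧
    ∃ (f : X.K) (j : ℤ), H = algebraMap X.K (FF X) f * RatFunc.X ^ j}

/-- A normal variety `𝒳` with a `𝔾ₘ`-action and a flat `𝔾ₘ`-equivariant proper morphism
`π : 𝒳 → 𝔸¹`, together with a `𝔾ₘ`-equivariant isomorphism over `𝔸¹ ∖ 0` of the restriction of `𝒳`
with `X × (𝔸¹ ∖ 0)`. Through the isomorphism the function field of `𝒳` is `ℂ(X)(t)`, and `π` is the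
function `t`. (It is flat, as `𝒳` is integral and `t` is not constant.)
`equivariant`: the charts are invariant under `𝔾ₘ`, which acts on `ℂ(X)(t)` by `t ↦ λ t`. (A normal
variety with an action of `𝔾ₘ` has a covering by invariant affine open subsets, by Sumihiro.)
`generic`: the points of `𝒳` over `𝔸¹ ∖ 0` are the points of `X × (𝔸¹ ∖ 0)`. -/
structure Degeneration (X : Variety) extends
    Family (FF X) (RatFunc.X : FF X) (X.dim + 1) where
  equivariant : ∀ i, IsInvariant X (toFamily.chart i)
  generic : toFamily.genericPoints = cylinderPoints X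

/-- `X ⇝ Y`: there is a special degeneration of the klt Fano variety `X` with central fibre the
klt Fano variety `Y`. -/
def SpecialDegeneratesTo (X Y : Variety) : Prop :=
  X.IsFano ∧ X.IsKlt ∧ Y.IsFano ∧ Y.IsKlt ∧
    ∃ D : Degeneration X, D.toFamily.AntiAmple ∧ D.toFamily.IsCentralFibre Y

/-- The constants on the `ℂ`-scheme `S`. -/
def constTop {S : Scheme.{0}} (σ : S ⟶ Spec (CommRingCat.of ℂ)) : CommRingCat.of ℂ ⟶ Γ(S, ⊤) :=
  (Scheme.ΓSpecIso (CommRingCat.of ℂ)).inv ≫ σ.appTop

/-- The constants in the local ring of the `ℂ`-scheme `S` at the point `x`. -/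
def constAt {S : Scheme.{0}} (σ : S ⟶ Spec (CommRingCat.of ℂ)) (x : S) :
    ℂ →+* S.presheaf.stalk x :=
  (constTop σ ≫ S.presheaf.germ ⊤ x trivial).hom

/-- The homomorphism `e` from the function field of `S` to `K`, restricted to the local ring
at `x`. -/
def toField {S : Scheme.{0}} [IsIntegral S] {K : Type} [Field K] (e : S.functionField →+* K)
    (x : S) : S.presheaf.stalk x →+* K :=
  e.comp (algebraMap (S.presheaf.stalk x) S.functionField)

/-- The `ℂ`-scheme `S` is the variety `Y`: `S` is integral, and there is an isomorphism `e` of its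
function field with that of `Y` over `ℂ` which maps the local rings of `S` onto the local
rings (= points) of `Y`. -/
def IsModel (S : Scheme.{0}) (σ : S ⟶ Spec (CommRingCat.of ℂ)) (Y : Variety) : Prop :=
  ∃ (_ : IsIntegral S) (e : S.functionField →+* Y.K), Function.Bijective e ∧
    (∀ x : S, (toField e x).comp (constAt σ x) = algebraMap ℂ Y.K) ∧
    Y.points = {A | ∃ x : S, A = Set.range (toField e x)}

/-- A set `𝒮` of varieties is bounded (weak form): there are a scheme `T` of finite type over `ℂ`
and a morphism `𝒵 → T` of finite type such that every member of `𝒮` is isomorphic to the fibre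
`𝒵_t` over a `ℂ`-point `t` of `T`. A set which is bounded in the usual sense, with a projective
morphism `𝒵 → T`, is bounded in this sense. -/
def IsBounded (𝒮 : Set Variety) : Prop :=
  ∃ (T Z : Scheme.{0}) (τ : T ⟶ Spec (CommRingCat.of ℂ)) (f : Z ⟶ T),
    LocallyOfFiniteType τ ∧ QuasiCompact τ ∧ LocallyOfFiniteType f ∧ QuasiCompact f ∧
    ∀ Y ∈ 𝒮, ∃ t : Spec (CommRingCat.of ℂ) ⟶ T, t ≫ τ = 𝟙 _ ∧
      IsModel (pullback f t) (pullback.snd f t) Y

end Pool.Agent.U198.SD
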