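import Pool.Agent.U198.SD.GSys

/-!
Finiteness of the charts of a graded system which is a finite module over a polynomial ring.
-/

noncomputable section

namespace Pool.Agent.U198.SD

open Pool.Agent.Helper774.KSing

variable {L : Type} [Field L] [Algebra ℂ L]

/-- generators of a graded system as a module over `ℂ[t, ξ]` -/
structure Gens (𝒢 : GS L) (J I : Type) where
  t : L
  t_mem : t ∈ 𝒢.R 0
  ξ : J → L
  w : J → ℕ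
  w_pos : ∀ j, 1 ≤ w j
  ξ_ne : ∀ j, ξ j ≠ 0
  ξ_mem : ∀ j, ξ j ∈ 𝒢.R (w j)
  θ : I → L
  μ : I → ℕ
  θ_mem : ∀ i, θ i ∈ 𝒢.R (μ i)

namespace Gens

variable {𝒢 : GS L} {J I : Type} [Fintype J] [Finite I] (𝒹 : Gens 𝒢 J I)

/-- the monomials span -/
def Spans : Prop := ∀ d : ℕ, ∀ F ∈ 𝒢.R d, F ∈ Submodule.span ℂ {H : L | ∃ (a : ℕ) (τ : I) (n : J → ℕ),
  ∑ j, 𝒹.w j * n j + 𝒹.μ τ = d ∧ H = 𝒹.t ^ a * 𝒹.θ τ * ∏ j, 𝒹.ξ j ^ n j}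

/-- the chart of `ξ c` -/
abbrev ch (c : J) : Subalgebra ℂ L := 𝒢.chart (𝒹.w c) (𝒹.ξ c) (𝒹.ξ_mem c)

/-- the polynomial part -/
def A₁ (c : J) : Subalgebra ℂ L :=
  Algebra.adjoin ℂ (insert 𝒹.t (Set.range fun j => 𝒹.ξ j ^ 𝒹.w c / 𝒹.ξ c ^ 𝒹.w j))

/-- the module generators -/
def S (c : J) : Set L :=
  {x | ∃ (τ : I) (ρ : J → ℕ), (∀ j, ρ j < 𝒹.w c) ∧ ∃ i : ℕ, ∑ j, 𝒹.w j * ρ j + 𝒹.μ τ = 𝒹.w c * i ∧
    x = 𝒹.θ τ * (∏ j, 𝒹.ξ j ^ ρ j) / 𝒹.ξ c ^ i}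

theorem S_finite (c : J) : (𝒹.S c).Finite := by
  classical
  refine Set.Finite.subset (Set.finite_range (fun p : I × (J → Fin (𝒹.w c)) =>
    𝒹.θ p.1 * (∏ j, 𝒹.ξ j ^ (p.2 j : ℕ)) /
      𝒹.ξ c ^ ((∑ j, 𝒹.w j * (p.2 j : ℕ) + 𝒹.μ p.1) / 𝒹.w c))) ?_
  rintro x ⟨τ, ρ, hρ, i, hi, rfl⟩
  refine ⟨(τ, fun j => ⟨ρ j, hρ j⟩), ?_⟩
  simp only
  rw [hi, Nat.mul_div_cancel_left _ (𝒹.w_pos c)]

theorem prod_mem (n : J → ℕ) : ∏ j, 𝒹.ξ j ^ n j ∈ 𝒢.R (∑ j, 𝒹.w j * n j) := by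
  classical
  have : ∀ s : Finset J, ∏ j ∈ s, 𝒹.ξ j ^ n j ∈ 𝒢.R (∑ j ∈ s, 𝒹.w j * n j) := by
    intro s
    induction s using Finset.induction_on with
    | empty => rw [Finset.prod_empty, Finset.sum_empty]; exact 𝒢.one_mem
    | insert j s hj ih =>
      rw [Finset.prod_insert hj, Finset.sum_insert hj]
      exact 𝒢.mul_mem (𝒢.pow_mem (𝒹.ξ_mem j) _) ih
  exact this _

theorem t_ch (c : J) : 𝒹.t ∈ 𝒹.ch c := ⟨0, by rw [pow_zero, mul_one, mul_zero]; exact 𝒹.t_mem⟩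

theorem ratio_ch (c j : J) : 𝒹.ξ j ^ 𝒹.w c / 𝒹.ξ c ^ 𝒹.w j ∈ 𝒹.ch c :=
  GS.div_mem_chart (𝒹.ξ_ne c) (𝒢.cast (by ring) (𝒢.pow_mem (𝒹.ξ_mem j) (𝒹.w c)))

theorem A₁_le (c : J) : 𝒹.A₁ c ≤ 𝒹.ch c := by
  refine Algebra.adjoin_le ?_
  rintro x (rfl | ⟨j, rfl⟩)
  · exact 𝒹.t_ch c
  · exact 𝒹.ratio_ch c j

theorem S_le (c : J) : ∀ x ∈ 𝒹.S c, x ∈ 𝒹.ch c := by
  rintro x ⟨τ, ρ, -, i, hi, rfl⟩
  refine GS.div_mem_chart (𝒹.ξ_ne c) (𝒢.cast ?_ (𝒢.mul_mem (𝒹.θ_mem τ) (𝒹.prod_mem ρ)))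
  rw [← hi]; ring

theorem t_A₁ (c : J) : 𝒹.t ∈ 𝒹.A₁ c := Algebra.subset_adjoin (Set.mem_insert _ _)

theorem ratio_A₁ (c j : J) : 𝒹.ξ j ^ 𝒹.w c / 𝒹.ξ c ^ 𝒹.w j ∈ 𝒹.A₁ c :=
  Algebra.subset_adjoin (Set.mem_insert_of_mem _ ⟨j, rfl⟩)

/-- every function of the chart is a combination of the module generators -/
theorem ch_span (hs : 𝒹.Spans) (c : J) {F : L} (hF : F ∈ 𝒹.ch c) :
    F ∈ Submodule.span (𝒹.A₁ c) (𝒹.S c) := by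
  obtain ⟨i, hi⟩ := hF
  have h0 := 𝒹.ξ_ne c
  have key : ∀ G ∈ 𝒢.R (𝒹.w c * i), G / 𝒹.ξ c ^ i ∈ Submodule.span (𝒹.A₁ c) (𝒹.S c) := by
    intro G hG
    have hG' := hs _ G hG
    clear hG
    induction hG' using Submodule.span_induction with
    | mem G hG =>
      obtain ⟨a, τ, n, hn, rfl⟩ := hG
      have e1 : ∀ j, n j = 𝒹.w c * (n j / 𝒹.w c) + n j % 𝒹.w c := fun j => (Nat.div_add_mod _ _).symm
      obtain ⟨i', hi'⟩ : ∃ i', ∑ j, 𝒹.w j * (n j % 𝒹.w c) + 𝒹.μ τ = 𝒹.w c * i' := by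
        have e2 : ∑ j, 𝒹.w j * n j = 𝒹.w c * ∑ j, 𝒹.w j * (n j / 𝒹.w c) +
            ∑ j, 𝒹.w j * (n j % 𝒹.w c) := by
          rw [Finset.mul_sum, ← Finset.sum_add_distrib]
          refine Finset.sum_congr rfl fun j _ => ?_
          conv_lhs => rw [e1 j]
          ring
        rw [e2, add_assoc] at hn
        exact (Nat.dvd_add_right (Dvd.intro _ rfl)).1 (Dvd.intro i hn.symm)
      have e3 : i = ∑ j, 𝒹.w j * (n j / 𝒹.w c) + i' := by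
        have e2 : ∑ j, 𝒹.w j * n j = 𝒹.w c * ∑ j, 𝒹.w j * (n j / 𝒹.w c) +
            ∑ j, 𝒹.w j * (n j % 𝒹.w c) := by
          rw [Finset.mul_sum, ← Finset.sum_add_distrib]
          refine Finset.sum_congr rfl fun j _ => ?_
          conv_lhs => rw [e1 j]
          ring
        rw [e2, add_assoc, hi', ← mul_add] at hn
        exact (Nat.eq_of_mul_eq_mul_left (𝒹.w_pos c) hn).symm
      have e4 : 𝒹.t ^ a * 𝒹.θ τ * (∏ j, 𝒹.ξ j ^ n j) / 𝒹.ξ c ^ i =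
          (𝒹.t ^ a * ∏ j, (𝒹.ξ j ^ 𝒹.w c / 𝒹.ξ c ^ 𝒹.w j) ^ (n j / 𝒹.w c)) *
            (𝒹.θ τ * (∏ j, 𝒹.ξ j ^ (n j % 𝒹.w c)) / 𝒹.ξ c ^ i') := by
        have e5 : ∏ j, (𝒹.ξ j ^ 𝒹.w c / 𝒹.ξ c ^ 𝒹.w j) ^ (n j / 𝒹.w c) =
            (∏ j, 𝒹.ξ j ^ (𝒹.w c * (n j / 𝒹.w c))) / 𝒹.ξ c ^ (∑ j, 𝒹.w j * (n j / 𝒹.w c)) := by
          rw [← Finset.prod_pow_eq_pow_sum, ← Finset.prod_div_distrib]
          refine Finset.prod_congr rfl fun j _ => ?_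
          rw [div_pow, ← pow_mul, ← pow_mul]
        have e6 : ∏ j, 𝒹.ξ j ^ n j = (∏ j, 𝒹.ξ j ^ (𝒹.w c * (n j / 𝒹.w c))) *
            ∏ j, 𝒹.ξ j ^ (n j % 𝒹.w c) := by
          rw [← Finset.prod_mul_distrib]
          refine Finset.prod_congr rfl fun j _ => ?_
          rw [← pow_add, ← e1 j]
        rw [e5, e6, e3, pow_add]
        field_simp
      rw [e4]
      have hA : 𝒹.t ^ a * ∏ j, (𝒹.ξ j ^ 𝒹.w c / 𝒹.ξ c ^ 𝒹.w j) ^ (n j / 𝒹.w c) ∈ 𝒹.A₁ c :=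
        mul_mem (pow_mem (𝒹.t_A₁ c) _) (Subalgebra.prod_mem _ fun j _ => pow_mem (𝒹.ratio_A₁ c j) _)
      refine Submodule.smul_mem _ (⟨_, hA⟩ : 𝒹.A₁ c) (Submodule.subset_span ?_)
      exact ⟨τ, fun j => n j % 𝒹.w c, fun j => Nat.mod_lt _ (𝒹.w_pos c), i', hi', rfl⟩
    | zero => rw [zero_div]; exact Submodule.zero_mem _
    | add u v _ _ hu hv => rw [add_div]; exact Submodule.add_mem _ hu hv
    | smul a u _ hu => rw [smul_div_assoc]; exact Submodule.smul_of_tower_mem _ a hu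
  have := key _ hi
  rwa [mul_div_cancel_right₀ _ (pow_ne_zero _ h0)] at this

theorem ch_FG (hs : 𝒹.Spans) (c : J) : (𝒹.ch c).FG := by
  rw [Subalgebra.fg_def]
  refine ⟨(insert 𝒹.t (Set.range fun j => 𝒹.ξ j ^ 𝒹.w c / 𝒹.ξ c ^ 𝒹.w j)) ∪ 𝒹.S c,
    ((Set.finite_range _).insert _).union (𝒹.S_finite c), le_antisymm ?_ ?_⟩
  · refine Algebra.adjoin_le ?_
    rintro x (hx | hx)
    · exact 𝒹.A₁_le c (Algebra.subset_adjoin hx)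
    · exact 𝒹.S_le c x hx
  · intro F hF
    have h1 := 𝒹.ch_span hs c hF
    have h2 : ∀ a ∈ 𝒹.A₁ c, a ∈ Algebra.adjoin ℂ
        ((insert 𝒹.t (Set.range fun j => 𝒹.ξ j ^ 𝒹.w c / 𝒹.ξ c ^ 𝒹.w j)) ∪ 𝒹.S c) := fun a ha =>
      Algebra.adjoin_mono Set.subset_union_left ha
    clear hF
    induction h1 using Submodule.span_induction with
    | mem x hx => exact Algebra.subset_adjoin (Or.inr hx)
    | zero => exact zero_mem _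
    | add u v _ _ hu hv => exact add_mem hu hv
    | smul a u _ hu => exact mul_mem (h2 a a.2) hu

theorem ch_integral (hs : 𝒹.Spans) (c : J) {F : L} (hF : F ∈ 𝒹.ch c) :
    IsIntegral (𝒹.A₁ c) F := by
  let M : Subalgebra (𝒹.A₁ c) L :=
    { carrier := {x | x ∈ 𝒹.ch c}
      mul_mem' := fun ha hb => (𝒹.ch c).mul_mem ha hb
      add_mem' := fun ha hb => (𝒹.ch c).add_mem ha hb
      algebraMap_mem' := fun a => 𝒹.A₁_le c a.2 }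
  have h1 : Subalgebra.toSubmodule M = Submodule.span (𝒹.A₁ c) (𝒹.S c) := by
    apply le_antisymm
    · intro x hx
      exact 𝒹.ch_span hs c hx
    · rw [Submodule.span_le]
      intro x hx
      exact 𝒹.S_le c x hx
  refine IsIntegral.of_mem_of_fg M ?_ F hF
  rw [h1]
  exact Submodule.fg_span (𝒹.S_finite c)

/-- the valuative criterion -/
theorem exists_chart (hs : 𝒹.Spans) [Nonempty J] (V : ValuationSubring L)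
    (hC : ∀ c : ℂ, algebraMap ℂ L c ∈ V) (ht : 𝒹.t ∈ V) : ∃ c, ∀ f ∈ 𝒹.ch c, f ∈ V := by
  classical
  let N := ∏ j, 𝒹.w j
  have hN : ∀ j, 𝒹.w j * (N / 𝒹.w j) = N := fun j =>
    Nat.mul_div_cancel' (Finset.dvd_prod_of_mem _ (Finset.mem_univ j))
  have hN0 : N ≠ 0 := Finset.prod_ne_zero_iff.2 fun j _ => by have := 𝒹.w_pos j; omega
  obtain ⟨c, hc⟩ := Finite.exists_max (fun j : J => V.valuation (𝒹.ξ j ^ (N / 𝒹.w j)))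
  refine ⟨c, fun f hf => ?_⟩
  refine vs_integral V (𝒹.A₁ c) ?_ (𝒹.ch_integral hs c hf)
  have hr : ∀ j, 𝒹.ξ j ^ 𝒹.w c / 𝒹.ξ c ^ 𝒹.w j ∈ V := by
    intro j
    have h0 : V.valuation (𝒹.ξ c ^ (N / 𝒹.w c)) ≠ 0 := by
      rw [Valuation.ne_zero_iff]; exact pow_ne_zero _ (𝒹.ξ_ne c)
    have h1 : V.valuation (𝒹.ξ j ^ (N / 𝒹.w j) / 𝒹.ξ c ^ (N / 𝒹.w c)) ≤ 1 := by
      rw [map_div₀]
      exact (div_le_one₀ (zero_lt_iff.mpr h0)).mpr (hc j)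
    have h2 : V.valuation ((𝒹.ξ j ^ 𝒹.w c / 𝒹.ξ c ^ 𝒹.w j) ^ N) ≤ 1 := by
      have e : (𝒹.ξ j ^ 𝒹.w c / 𝒹.ξ c ^ 𝒹.w j) ^ N =
          (𝒹.ξ j ^ (N / 𝒹.w j) / 𝒹.ξ c ^ (N / 𝒹.w c)) ^ (𝒹.w c * 𝒹.w j) := by
        rw [div_pow, div_pow, ← pow_mul, ← pow_mul, ← pow_mul, ← pow_mul]
        congr 2
        · calc 𝒹.w c * N = 𝒹.w c * (𝒹.w j * (N / 𝒹.w j)) := by rw [hN]
            _ = N / 𝒹.w j * (𝒹.w c * 𝒹.w j) := by ring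
        · calc 𝒹.w j * N = 𝒹.w j * (𝒹.w c * (N / 𝒹.w c)) := by rw [hN]
            _ = N / 𝒹.w c * (𝒹.w c * 𝒹.w j) := by ring
      rw [e, map_pow]
      exact pow_le_one₀ zero_le' h1
    rw [map_pow] at h2
    rw [← V.valuation_le_one_iff]
    exact (pow_le_one_iff hN0).mp h2
  intro a ha
  unfold A₁ at ha
  induction ha using Algebra.adjoin_induction with
  | mem x hx =>
    rcases hx with rfl | ⟨j, rfl⟩
    · exact ht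
    · exact hr j
  | algebraMap c => exact hC c
  | add x y _ _ hx hy => exact V.add_mem _ _ hx hy
  | mul x y _ _ hx hy => exact V.mul_mem _ _ hx hy

end Gens

end Pool.Agent.U198.SD
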