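import Pool.Agent.U198.SD.Lead

/-!
The exponent of the cubic in the Laurent expansions of polynomials in `x, y` is not negative.
-/

noncomputable section

namespace Pool.Agent.U198.SD

open Pool.Agent.Helper774.KStab (TorusField)

variable {K : Type} [Field K] [Algebra ℂ K]

/-- order at least `l` -/
def Ge (l : ℤ) (F : HahnSeries ℤ K) : Prop := ∀ k < l, F.coeff k = 0

theorem Ld.ge {l : ℤ} {a : K} {F : HahnSeries ℤ K} (h : Ld l a F) : Ge l F := h.1

theorem Ge.ld {l : ℤ} {F : HahnSeries ℤ K} (h : Ge l F) : Ld l (F.coeff l) F := ⟨h, rfl⟩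

theorem Ge_mul {l m : ℤ} {F H : HahnSeries ℤ K} (hF : Ge l F) (hH : Ge m H) : Ge (l + m) (F * H) :=
  (Ld_mul hF.ld hH.ld).1

theorem Ge_add {l : ℤ} {F H : HahnSeries ℤ K} (hF : Ge l F) (hH : Ge l H) : Ge l (F + H) :=
  (Ld_add hF.ld hH.ld).1

theorem Ge_sub {l : ℤ} {F H : HahnSeries ℤ K} (hF : Ge l F) (hH : Ge l H) : Ge l (F - H) :=
  (Ld_sub hF.ld hH.ld).1

theorem Ge_neg {l : ℤ} {F : HahnSeries ℤ K} (hF : Ge l F) : Ge l (-F) :=
  (Ld_neg hF.ld).1

theorem Ge_mono {l m : ℤ} {F : HahnSeries ℤ K} (hF : Ge l F) (h : m ≤ l) : Ge m F :=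
  fun k hk => hF k (hk.trans_le h)

theorem Ge_zero (l : ℤ) : Ge l (0 : HahnSeries ℤ K) := (Ld_zero l).1

theorem Ge_one : Ge 0 (1 : HahnSeries ℤ K) := Ld_one.1

theorem Ge_pow {l : ℤ} {F : HahnSeries ℤ K} (hF : Ge l F) (i : ℕ) : Ge (i * l) (F ^ i) :=
  (Ld_pow hF.ld i).1

section

variable {n : ℕ} {T : TorusField n K} {φ : (Fin n → ℤ) →+ ℤ} (P : TorHom T φ)

theorem TorHom.ge_smul {l : ℤ} {f : K} (hf : Ge l (P.Φ f)) (c : ℂ) : Ge l (P.Φ (c • f)) := by
  intro k hk
  rw [P.coeff_smul, hf k hk, smul_zero]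

/-- the order of a Laurent polynomial -/
theorem TorHom.ge_iff (l : ℤ) (c : (Fin n → ℤ) →₀ ℂ) :
    Ge l (P.Φ (Finsupp.linearCombination ℂ T.χ c)) ↔ ∀ u ∈ c.support, l ≤ φ u := by
  classical
  constructor
  · intro h u hu
    by_contra hlt
    push Not at hlt
    have h1 := h _ hlt
    rw [P.coeff] at h1
    have h2 : c.filter (fun v => φ v = φ u) = 0 := T.li (by rw [h1, map_zero])
    have h3 := DFunLike.congr_fun h2 u
    rw [Finsupp.filter_apply_pos (fun v => φ v = φ u) c rfl] at h3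
    exact (Finsupp.mem_support_iff.1 hu) h3
  · intro h k hk
    rw [P.coeff]
    have h2 : c.filter (fun v => φ v = k) = 0 := by
      ext u
      by_cases hu : φ u = k
      · rw [Finsupp.filter_apply_pos (fun v => φ v = k) c hu]
        by_contra hne
        have := h u (Finsupp.mem_support_iff.2 hne)
        omega
      · rw [Finsupp.filter_apply_neg (fun v => φ v = k) c hu]
        rfl
    rw [h2, map_zero]

end

section

variable (T : TorusField 2 K) (k : ℕ)

/-- the weight which measures the order along the cubic -/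
def wc (k : ℕ) : (Fin 2 → ℤ) →+ ℤ where
  toFun u := -(b k : ℤ) ^ 2 * u 0 - (b (k + 1) : ℤ) ^ 2 * u 1
  map_zero' := by simp
  map_add' u v := by simp only [Pi.add_apply]; ring

theorem wc_apply (k : ℕ) (u : Fin 2 → ℤ) :
    wc k u = -(b k : ℤ) ^ 2 * u 0 - (b (k + 1) : ℤ) ^ 2 * u 1 := rfl

variable {T k} {P : TorHom (tor T k) (wc k)}

theorem wc_V : Ld (-(b k : ℤ) ^ 2) (VV T k) (P.Φ (VV T k)) :=
  Ld_cast (P.Ld_chi ![1, 0]) (by rw [wc_apply]; simp) rfl

theorem wc_W : Ld (-(b (k + 1) : ℤ) ^ 2) (WW T k) (P.Φ (WW T k)) :=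
  Ld_cast (P.Ld_chi ![0, 1]) (by rw [wc_apply]; simp) rfl

theorem wc_data {ε : ℤ} {l : K} (hl : l ≠ 0)
    (hz : Ld (ε - b k * b (k + 1)) l (P.Φ (zt T k))) :
    Ld (-(b k * ε)) ((tor T k).χ ![b (k + 1), 0] / l ^ b k) (P.Φ (G T k)) ∧
    Ld (-(b (k + 1) * ε)) ((tor T k).χ ![0, b k] / l ^ b (k + 1)) (P.Φ (G T (k + 1))) ∧
    Ld (1 - 3 * ε) (VV T k * WW T k / l ^ 3) (P.Φ (Cu T)) := by
  have hz0 := zt_ne T k
  have h1 := chi_VW T k (b (k + 1)) 0
  have h2 := chi_VW T k 0 (b k)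
  rw [pow_zero, mul_one] at h1
  rw [pow_zero, one_mul] at h2
  simp only [Nat.cast_zero] at h1 h2
  rw [h1, h2]
  have hm := markovZ k
  refine ⟨?_, ?_, ?_⟩
  · have h := G_zt T k
    have e : G T k = VV T k ^ b (k + 1) / zt T k ^ b k := by
      rw [eq_div_iff (pow_ne_zero _ hz0)]
      exact h
    rw [e, map_div₀, map_pow, map_pow]
    exact Ld_cast (Ld_div (Ld_pow wc_V _) (Ld_pow hz _) (pow_ne_zero _ hl)) (by ring) rfl
  · have h := G_zt' T k
    have e : G T (k + 1) = WW T k ^ b k / zt T k ^ b (k + 1) := by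
      rw [eq_div_iff (pow_ne_zero _ hz0)]
      exact h
    rw [e, map_div₀, map_pow, map_pow]
    exact Ld_cast (Ld_div (Ld_pow wc_W _) (Ld_pow hz _) (pow_ne_zero _ hl)) (by ring) rfl
  · have h := Cu_zt T k
    have e : Cu T = VV T k * WW T k / zt T k ^ 3 := by
      rw [eq_div_iff (pow_ne_zero _ hz0)]
      exact h
    rw [e, map_div₀, map_mul, map_pow]
    exact Ld_cast (Ld_div (Ld_mul wc_V wc_W) (Ld_pow hz _) (pow_ne_zero _ hl))
      (by push_cast; linear_combination -hm) rfl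

theorem chi_ne'' (T : TorusField 2 K) (u : Fin 2 → ℤ) : T.χ u ≠ 0 :=
  Pool.Agent.Helper774.KSing.chi_ne T u

theorem wc_desc {ε : ℤ} {l : K} (hl : l ≠ 0)
    (hz : Ld (ε - b k * b (k + 1)) l (P.Φ (zt T k))) (i j : ℕ) (h : i + j = k) :
    ∃ u u' : Fin 2 → ℤ, Ld (-(b j * ε)) ((tor T k).χ u / l ^ b j) (P.Φ (G T j)) ∧
      Ld (-(b (j + 1) * ε)) ((tor T k).χ u' / l ^ b (j + 1)) (P.Φ (G T (j + 1))) ∧
      0 ≤ u' 0 ∧ u' 0 < u 0 := by
  obtain ⟨h1, h2, h3⟩ := wc_data hl hz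
  induction i generalizing j with
  | zero =>
    rw [zero_add] at h
    subst h
    refine ⟨_, _, h1, h2, ?_, ?_⟩
    · simp
    · simp only [Matrix.cons_val_zero]
      exact_mod_cast b_pos (j + 1)
  | succ i ih =>
    obtain ⟨u, u', h4, h5, h6, h7⟩ := ih (j + 1) (by omega)
    refine ⟨3 • u - u', u, ?_, h4, by linarith, ?_⟩
    · have hA : G T j * G T (j + 2) = G T (j + 1) ^ 3 + Cu T ^ b (j + 1) := rel_A (xx T) (yy T) 1 j
      have e : G T j = (G T (j + 1) ^ 3 + Cu T ^ b (j + 1)) / G T (j + 2) := by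
        rw [eq_div_iff (G_ne T _), hA]
      have hb : (b (j + 2) : ℤ) + b j = 3 * b (j + 1) := by exact_mod_cast b_succ_succ j
      rw [e, map_div₀, map_add, map_pow, map_pow]
      refine Ld_cast (Ld_div (Ld_add_lt (Ld_pow h4 3) (Ld_pow h3 _) ?_) h5
        (div_ne_zero (chi_ne'' _ _) (pow_ne_zero _ hl))) ?_ ?_
      · have h4 := b_pos (j + 1)
        have h5 : (1 : ℤ) ≤ b (j + 1) := by exact_mod_cast h4
        push_cast
        nlinarith
      · push_cast
        rw [show j + 1 + 1 = j + 2 from rfl]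
        linear_combination ε * hb
      · have hb' : b (j + 2) + b j = 3 * b (j + 1) := b_succ_succ j
        have e3 : (tor T k).χ (3 • u - u') * (tor T k).χ u' = (tor T k).χ u ^ 3 := by
          rw [← (tor T k).χ_add, sub_add_cancel, Pool.Agent.Helper774.KSing.chi_nsmul']
        have hne := chi_ne'' (tor T k) u'
        have e4 : (tor T k).χ (3 • u - u') = (tor T k).χ u ^ 3 / (tor T k).χ u' := by
          rw [eq_div_iff hne, e3]
        rw [e4, div_pow, div_div_div_eq, div_div, div_eq_div_iff (mul_ne_zero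
          (pow_ne_zero _ (pow_ne_zero _ hl)) hne) (mul_ne_zero hne (pow_ne_zero _ hl))]
        have e1 : (l ^ b (j + 1)) ^ 3 = l ^ b (j + 2) * l ^ b j := by
          rw [← pow_add, hb', ← pow_mul, mul_comm]
        rw [show j + 1 + 1 = j + 2 from rfl, e1]
        ring
    · have e5 : (3 • u - u') 0 = 3 * u 0 - u' 0 := by
        rw [Pi.sub_apply, Pi.smul_apply, nsmul_eq_mul]
        norm_num
      rw [e5]
      linarith

/-- the order of `z / τ` along the cubic -/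
theorem wc_zt : ∃ l : K, l ≠ 0 ∧ Ld (-(b k * b (k + 1)) : ℤ) l (P.Φ (zt T k)) ∧
    Ge 0 (P.Φ (xx T)) ∧ Ge 0 (P.Φ (yy T)) := by
  have hne : P.Φ (zt T k) ≠ 0 := by
    intro h
    exact zt_ne T k (P.inj (by rw [h, map_zero]))
  obtain ⟨δ, l, hl, hz⟩ := exists_Ld hne
  obtain ⟨ε, rfl⟩ : ∃ ε, δ = ε - b k * b (k + 1) := ⟨δ + b k * b (k + 1), by ring⟩
  obtain ⟨h1, h2, h3⟩ := wc_data hl hz
  obtain ⟨u, u', hx, hy, hu0, hu1⟩ := wc_desc hl hz k 0 (by omega)
  have hV := VV_ne T k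
  have hW := WW_ne T k
  have hx' : Ld (-ε) ((tor T k).χ u / l) (P.Φ (xx T)) :=
    Ld_cast hx (by rw [b_zero]; push_cast; ring) (by rw [b_zero, pow_one])
  have hy' : Ld (-ε) ((tor T k).χ u' / l) (P.Φ (yy T)) :=
    Ld_cast hy (by rw [b_one]; push_cast; ring) (by rw [b_one, pow_one])
  have hA0 : (tor T k).χ u / l ≠ 0 := div_ne_zero (chi_ne'' _ _) hl
  have hB0 : (tor T k).χ u' / l ≠ 0 := div_ne_zero (chi_ne'' _ _) hl
  have hC : P.Φ (Cu T) = P.Φ (xx T) * P.Φ (yy T) - P.Φ (xx T) ^ 3 - P.Φ (yy T) ^ 3 := by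
    rw [← map_mul, ← map_pow, ← map_pow, ← map_sub, ← map_sub]
    congr 1
    rw [show Cu T = cub (xx T) (yy T) 1 from rfl, cub, mul_one]
  have hxy := Ld_mul hx' hy'
  have hx3 := Ld_pow hx' 3
  have hy3 := Ld_pow hy' 3
  have hlC : VV T k * WW T k / l ^ 3 ≠ 0 :=
    div_ne_zero (mul_ne_zero hV hW) (pow_ne_zero _ hl)
  rcases lt_trichotomy ε 0 with hd | hd | hd
  · exfalso
    have hh : Ld (-ε + -ε) ((tor T k).χ u / l * ((tor T k).χ u' / l)) (P.Φ (Cu T)) := by
      have e : P.Φ (Cu T) = P.Φ (xx T) * P.Φ (yy T) + -P.Φ (xx T) ^ 3 + -P.Φ (yy T) ^ 3 := by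
        rw [hC]; ring
      rw [e]
      refine Ld_add_lt (Ld_add_lt hxy (Ld_neg hx3) ?_) (Ld_neg hy3) ?_
      · push_cast; linarith
      · push_cast; linarith
    have := (Ld_unique h3 hlC hh (mul_ne_zero hA0 hB0)).1
    linarith
  · subst hd
    refine ⟨l, hl, Ld_cast hz (by ring) rfl, ?_, ?_⟩
    · exact hx'.ge
    · exact hy'.ge
  · exfalso
    have hh : Ld (-(3 * ε)) (-(((tor T k).χ u / l) ^ 3 + ((tor T k).χ u' / l) ^ 3)) (P.Φ (Cu T)) := by
      have e : P.Φ (Cu T) = -(P.Φ (xx T) ^ 3 + P.Φ (yy T) ^ 3) + P.Φ (xx T) * P.Φ (yy T) := by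
        rw [hC]; ring
      rw [e]
      refine Ld_add_lt (Ld_neg (Ld_add (Ld_cast (m := -(3 * ε)) hx3 (by push_cast; ring) rfl)
        (Ld_cast (m := -(3 * ε)) hy3 (by push_cast; ring) rfl))) hxy ?_
      linarith
    by_cases h0 : -(((tor T k).χ u / l) ^ 3 + ((tor T k).χ u' / l) ^ 3) = 0
    · have e1 : (tor T k).χ (3 • u) + (tor T k).χ (3 • u') = 0 := by
        rw [Pool.Agent.Helper774.KSing.chi_nsmul', Pool.Agent.Helper774.KSing.chi_nsmul']
        have e2 := congrArg (fun t => -(t * l ^ 3)) h0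
        simp only [zero_mul, neg_zero] at e2
        rw [← e2]
        field_simp
      have hne : (Finsupp.single (3 • u) (1 : ℂ) + Finsupp.single (3 • u') 1) ≠ 0 := by
        intro h
        have h5 := DFunLike.congr_fun h (3 • u)
        have hne' : 3 • u' ≠ 3 • u := by
          intro h6
          have h7 := congrFun h6 0
          rw [Pi.smul_apply, Pi.smul_apply, nsmul_eq_mul, nsmul_eq_mul] at h7
          push_cast at h7
          linarith
        rw [Finsupp.add_apply, Finsupp.single_eq_same, Finsupp.single_apply, if_neg hne'] at h5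
        simp at h5
      have := Pool.Agent.Helper774.KStab.lc_ne (tor T k) hne
      rw [map_add, Finsupp.linearCombination_single, Finsupp.linearCombination_single, one_smul,
        one_smul] at this
      exact this e1
    · have := (Ld_unique h3 hlC hh h0).1
      linarith

end

section

variable (T : TorusField 2 K)

/-- the polynomials of degree `≤ m` in `x/z, y/z` -/
def RR (m : ℕ) : Submodule ℂ K :=
  Submodule.span ℂ {f | ∃ i j : ℕ, i + j ≤ m ∧ f = xx T ^ i * yy T ^ j}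

/-- The exponent of the cubic is not negative. -/
theorem pos_chart (k m : ℕ) {f : K} (hf : f ∈ RR T m) : ∃ c : (Fin 2 → ℤ) →₀ ℂ,
    f * zt T k ^ m = Finsupp.linearCombination ℂ (tor T k).χ c ∧
    ∀ u ∈ c.support, (b k : ℤ) ^ 2 * u 0 + (b (k + 1) : ℤ) ^ 2 * u 1 ≤ b k * b (k + 1) * m := by
  obtain ⟨P⟩ := exists_torHom (tor T k) (wc k)
  obtain ⟨l, hl, hz, hx, hy⟩ := wc_zt (P := P)
  have h2 : Ge 0 (P.Φ f) := by
    induction hf using Submodule.span_induction with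
    | mem g hg =>
      obtain ⟨i, j, hij, rfl⟩ := hg
      rw [map_mul, map_pow, map_pow]
      exact Ge_mono (Ge_mul (Ge_pow hx i) (Ge_pow hy j)) (by simp)
    | zero => rw [map_zero]; exact Ge_zero 0
    | add u v _ _ hu hv =>
      rw [map_add]
      exact Ge_add hu hv
    | smul c u _ hu => exact P.ge_smul hu c
  have h1 : f * zt T k ^ m ∈ La T k := by
    have h2 : f ∈ Lau (xx T) (yy T) k m := by
      refine Submodule.span_le.2 ?_ hf
      rintro g ⟨i, j, hij, rfl⟩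
      exact pow_mem_Lau T k i j m hij
    have := Lau_zt T k h2
    rwa [zpow_natCast] at this
  rw [La, Finsupp.mem_span_range_iff_exists_finsupp] at h1
  obtain ⟨c, hc⟩ := h1
  have hc' : f * zt T k ^ m = Finsupp.linearCombination ℂ (tor T k).χ c := by
    rw [← hc, Finsupp.linearCombination_apply]
    rfl
  refine ⟨c, hc', fun u hu => ?_⟩
  have h3 : Ge (0 + m * (-(b k * b (k + 1)) : ℤ)) (P.Φ (f * zt T k ^ m)) := by
    rw [map_mul, map_pow]
    exact Ge_mul h2 (Ge_pow hz.ge m)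
  rw [hc', P.ge_iff] at h3
  have := h3 u hu
  rw [wc_apply] at this
  linarith

end

end Pool.Agent.U198.SD
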