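import Pool.Agent.U198.SD.TorF
import Pool.Agent.U198.SD.Pos

/-!
The function field `K(t)` of `X × 𝔸¹`, where `K` is the function field of a two-dimensional torus.
-/

noncomputable section

namespace Pool.Agent.U198.SD

open Pool.Agent.Helper774.KStab (TorusField)
open Pool.Agent.Helper774.KSing (chi_ne)

variable {K : Type} [Field K] [Algebra ℂ K]

/-- the inclusion of `K` in `K(t)` -/
abbrev ik : K →+* RatFunc K := algebraMap K (RatFunc K)

/-- the coordinate `t` -/
abbrev tt : RatFunc K := RatFunc.X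

theorem tt_ne : (tt : RatFunc K) ≠ 0 := RatFunc.X_ne_zero

theorem ik_inj : Function.Injective (ik (K := K)) := (algebraMap K (RatFunc K)).injective

theorem ik_eq (f : K) : ik f = algebraMap (Polynomial K) (RatFunc K) (Polynomial.C f) := by
  rw [ik, RatFunc.algebraMap_apply]
  simp

theorem ik_C (c : ℂ) : ik (algebraMap ℂ K c) = algebraMap ℂ (RatFunc K) c := by
  rw [ik_eq, RatFunc.algebraMap_apply]
  simp
  rfl

theorem ik_smul (c : ℂ) (f : K) : ik (c • f) = c • ik f := by
  rw [Algebra.smul_def, map_mul, ik_C, Algebra.smul_def]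

open scoped RatFunc in
/-- the expansion in powers of `t` -/
theorem exists_ls : ∃ ls : RatFunc K →+* HahnSeries ℤ K, ∀ (f : K) (i : ℤ),
    ls (ik f * tt ^ i) = HahnSeries.single i f := by
  refine ⟨algebraMap (RatFunc K) (LaurentSeries K), fun f i => ?_⟩
  have h1 : algebraMap (RatFunc K) (LaurentSeries K) (ik f) = HahnSeries.single 0 f := by
    rw [ik_eq, ← IsScalarTower.algebraMap_apply (Polynomial K) (RatFunc K)
      (LaurentSeries K), Polynomial.algebraMap_hahnSeries_apply, Polynomial.coe_C,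
      HahnSeries.ofPowerSeries_C]
    rfl
  have h2 : algebraMap (RatFunc K) (LaurentSeries K) tt = HahnSeries.single 1 1 := RatFunc.coe_X
  rw [map_mul, h1, map_zpow₀, h2, ← RatFunc.single_zpow]
  show HahnSeries.single 0 f * HahnSeries.single i 1 = HahnSeries.single i f
  rw [HahnSeries.single_mul_single, zero_add, mul_one]

/-- a fixed expansion in powers of `t` -/
def ls : RatFunc K →+* HahnSeries ℤ K := Classical.choose exists_ls

theorem ls_mul (f : K) (i : ℤ) : ls (ik f * tt ^ i) = HahnSeries.single i f :=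
  Classical.choose_spec exists_ls f i

theorem ls_ik (f : K) : ls (ik f) = HahnSeries.single 0 f := by
  have := ls_mul f 0
  rwa [zpow_zero, mul_one] at this

section

variable (T : TorusField 2 K)

/-- the characters of the three-dimensional torus -/
def chi3 (u : Fin 3 → ℤ) : RatFunc K := ik (T.χ ![u 0, u 1]) * tt ^ u 2

theorem chi3_zero : chi3 T 0 = 1 := by
  have : (![(0 : Fin 3 → ℤ) 0, (0 : Fin 3 → ℤ) 1] : Fin 2 → ℤ) = 0 := by
    ext i
    fin_cases i <;> rfl
  rw [chi3, this, T.χ_zero, map_one, one_mul, Pi.zero_apply, zpow_zero]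

theorem chi3_add (u v : Fin 3 → ℤ) : chi3 T (u + v) = chi3 T u * chi3 T v := by
  have : (![(u + v) 0, (u + v) 1] : Fin 2 → ℤ) = ![u 0, u 1] + ![v 0, v 1] := by
    ext i
    fin_cases i <;> rfl
  rw [chi3, chi3, chi3, this, T.χ_add, map_mul, Pi.add_apply, zpow_add₀ tt_ne]
  ring

theorem ls_chi3 (u : Fin 3 → ℤ) : ls (chi3 T u) = HahnSeries.single (u 2) (T.χ ![u 0, u 1]) :=
  ls_mul _ _

theorem ls_C_smul (c : ℂ) (F : RatFunc K) (k : ℤ) : (ls (c • F)).coeff k = c • (ls F).coeff k := by
  rw [Algebra.smul_def, map_mul, ← ik_C, ls_ik, HahnSeries.coeff_single_zero_mul, Algebra.smul_def]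

theorem ls_lc (c : (Fin 3 → ℤ) →₀ ℂ) (k : ℤ) :
    (ls (Finsupp.linearCombination ℂ (chi3 T) c)).coeff k =
      Finsupp.linearCombination ℂ (fun u : Fin 3 → ℤ => T.χ ![u 0, u 1])
        (c.filter fun u => u 2 = k) := by
  classical
  induction c using Finsupp.induction_linear with
  | zero => rw [Finsupp.filter_zero, map_zero, map_zero, map_zero, HahnSeries.coeff_zero]
  | add f g hf hg =>
    rw [Finsupp.filter_add, map_add, map_add, map_add, HahnSeries.coeff_add, hf, hg]
  | single u a =>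
    rw [Finsupp.linearCombination_single, ls_C_smul, ls_chi3, HahnSeries.coeff_single]
    by_cases h : k = u 2
    · rw [if_pos h, Finsupp.filter_single_of_pos (fun v : Fin 3 → ℤ => v 2 = k) h.symm,
        Finsupp.linearCombination_single]
    · rw [if_neg h, Finsupp.filter_single_of_neg (fun v : Fin 3 → ℤ => v 2 = k)
        (fun h' => h h'.symm), map_zero, smul_zero]

/-- the projection of the exponents -/
def pr2 : (Fin 3 → ℤ) →+ (Fin 2 → ℤ) where
  toFun u := ![u 0, u 1]
  map_zero' := by ext i; fin_cases i <;> rfl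
  map_add' u v := by ext i; fin_cases i <;> rfl

theorem pr2_apply (u : Fin 3 → ℤ) : pr2 u = ![u 0, u 1] := rfl

/-- the last exponent -/
def la2 : (Fin 3 → ℤ) →+ ℤ where
  toFun u := u 2
  map_zero' := rfl
  map_add' _ _ := rfl

theorem la2_apply (u : Fin 3 → ℤ) : la2 u = u 2 := rfl

theorem pr2_inj (u v : Fin 3 → ℤ) (h : u 2 = v 2) (h' : pr2 u = pr2 v) : u = v := by
  ext i
  fin_cases i
  · exact congrFun h' 0
  · exact congrFun h' 1
  · exact h

theorem chi3_li : LinearIndependent ℂ (chi3 T) := by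
  rw [LinearIndependent, ← LinearMap.ker_eq_bot, LinearMap.ker_eq_bot']
  intro c hc
  by_contra hne
  obtain ⟨u, hu⟩ := Finsupp.support_nonempty_iff.2 hne
  have h1 := ls_lc T c (u 2)
  rw [hc, map_zero, HahnSeries.coeff_zero] at h1
  have h2 := lc_level T pr2 la2 (fun u v h h' => pr2_inj u v h h') (u 2)
    (c.filter fun v => v 2 = u 2) (fun v hv => by
      rw [Finsupp.support_filter, Finset.mem_filter] at hv
      exact hv.2) h1.symm
  have h3 := DFunLike.congr_fun h2 u
  rw [Finsupp.filter_apply_pos (fun v : Fin 3 → ℤ => v 2 = u 2) _ rfl] at h3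
  exact (Finsupp.mem_support_iff.1 hu) h3

theorem ik_span {f : K} (hf : f ∈ Submodule.span ℂ (Set.range T.χ)) (i : ℤ) :
    ik f * tt ^ i ∈ Submodule.span ℂ (Set.range (chi3 T)) := by
  induction hf using Submodule.span_induction with
  | mem f hf =>
    obtain ⟨u, rfl⟩ := hf
    refine Submodule.subset_span ⟨![u 0, u 1, i], ?_⟩
    rw [chi3]
    congr 2
    congr 1
    ext j
    fin_cases j <;> rfl
  | zero => rw [map_zero, zero_mul]; exact Submodule.zero_mem _
  | add u v _ _ hu hv => rw [map_add, add_mul]; exact Submodule.add_mem _ hu hv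
  | smul c u _ hu => rw [ik_smul, smul_mul_assoc]; exact Submodule.smul_mem _ _ hu

theorem ik_span_mul {f : K} (hf : f ∈ Submodule.span ℂ (Set.range T.χ)) {F : RatFunc K}
    (hF : F ∈ Submodule.span ℂ (Set.range (chi3 T))) :
    ik f * F ∈ Submodule.span ℂ (Set.range (chi3 T)) := by
  have h1 := Submodule.mul_mem_mul (ik_span T hf 0) hF
  rw [Submodule.span_mul_span, zpow_zero, mul_one] at h1
  refine Submodule.span_mono ?_ h1
  rintro _ ⟨_, ⟨u, rfl⟩, _, ⟨v, rfl⟩, rfl⟩
  exact ⟨u + v, chi3_add T u v⟩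

theorem clear_poly (P : Polynomial K) : ∃ D ∈ Submodule.span ℂ (Set.range T.χ), D ≠ 0 ∧
    ik D * algebraMap (Polynomial K) (RatFunc K) P ∈ Submodule.span ℂ (Set.range (chi3 T)) := by
  induction P using Polynomial.induction_on' with
  | add p q hp hq =>
    obtain ⟨D, hD, hD0, h⟩ := hp
    obtain ⟨E, hE, hE0, h'⟩ := hq
    refine ⟨D * E, ?_, mul_ne_zero hD0 hE0, ?_⟩
    · have h1 := Submodule.mul_mem_mul hD hE
      rw [Submodule.span_mul_span] at h1
      refine Submodule.span_mono ?_ h1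
      rintro _ ⟨_, ⟨u, rfl⟩, _, ⟨v, rfl⟩, rfl⟩
      exact ⟨u + v, T.χ_add u v⟩
    · rw [map_mul, map_add]
      have e : ik D * ik E * (algebraMap (Polynomial K) (RatFunc K) p +
          algebraMap (Polynomial K) (RatFunc K) q) =
          ik E * (ik D * algebraMap (Polynomial K) (RatFunc K) p) +
          ik D * (ik E * algebraMap (Polynomial K) (RatFunc K) q) := by ring
      rw [e]
      exact Submodule.add_mem _ (ik_span_mul T hE h) (ik_span_mul T hD h')
  | monomial n a =>
    obtain ⟨A, hA, B, hB, hB0, hAB⟩ := T.frac a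
    refine ⟨B, hB, hB0, ?_⟩
    rw [← Polynomial.C_mul_X_pow_eq_monomial, map_mul, map_pow, ← ik_eq, ← mul_assoc, ← map_mul,
      mul_comm B a, hAB]
    have := ik_span T hA n
    rw [zpow_natCast] at this
    convert this using 2
    rw [RatFunc.algebraMap_X]

theorem chi3_frac (F : RatFunc K) : ∃ a ∈ Submodule.span ℂ (Set.range (chi3 T)),
    ∃ b ∈ Submodule.span ℂ (Set.range (chi3 T)), b ≠ 0 ∧ F * b = a := by
  obtain ⟨D, hD, hD0, h⟩ := clear_poly T F.num
  obtain ⟨E, hE, hE0, h'⟩ := clear_poly T F.denom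
  have hd : algebraMap (Polynomial K) (RatFunc K) F.denom ≠ 0 :=
    RatFunc.algebraMap_ne_zero F.denom_ne_zero
  refine ⟨_, ik_span_mul T hE h, _, ik_span_mul T hD h', ?_, ?_⟩
  · refine mul_ne_zero (fun h0 => hD0 (ik_inj (by rw [h0, map_zero]))) (mul_ne_zero
      (fun h0 => hE0 (ik_inj (by rw [h0, map_zero]))) hd)
  · have e : F * algebraMap (Polynomial K) (RatFunc K) F.denom =
        algebraMap (Polynomial K) (RatFunc K) F.num := by
      have h1 := RatFunc.num_div_denom F
      rw [div_eq_iff hd] at h1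
      exact h1.symm
    rw [← e]
    ring

/-- the three-dimensional torus -/
def T3 : TorusField 3 (RatFunc K) :=
  Classical.choose (exists_torusField_of (chi3 T) (chi3_zero T) (chi3_add T) (chi3_li T)
    (chi3_frac T))

theorem T3_chi : (T3 T).χ = chi3 T :=
  Classical.choose_spec (exists_torusField_of (chi3 T) (chi3_zero T) (chi3_add T) (chi3_li T)
    (chi3_frac T))

theorem chi3_ik (u : Fin 2 → ℤ) (i : ℤ) : chi3 T ![u 0, u 1, i] = ik (T.χ u) * tt ^ i := by
  rw [chi3]
  congr 2
  congr 1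
  ext j
  fin_cases j <;> rfl

theorem tt_eq : chi3 T ![0, 0, 1] = tt := by
  have h := chi3_ik T 0 1
  rw [T.χ_zero, map_one, one_mul, zpow_one] at h
  exact h

/-- two derivations along a homomorphism which agree on the characters are equal -/
theorem der_ext {n : ℕ} {L M : Type} [Field L] [Algebra ℂ L] [Field M] [Algebra ℂ M]
    (S : TorusField n L) (φ : L →+* M) (hφ : ∀ c : ℂ, φ (algebraMap ℂ L c) = algebraMap ℂ M c)
    (D E : L → M)
    (hDa : ∀ x y, D (x + y) = D x + D y) (hEa : ∀ x y, E (x + y) = E x + E y)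
    (hDs : ∀ (c : ℂ) x, D (c • x) = c • D x) (hEs : ∀ (c : ℂ) x, E (c • x) = c • E x)
    (hDm : ∀ x y, D (x * y) = φ x * D y + φ y * D x)
    (hEm : ∀ x y, E (x * y) = φ x * E y + φ y * E x)
    (h : ∀ u, D (S.χ u) = E (S.χ u)) (x : L) : D x = E x := by
  have hs : ∀ a ∈ Submodule.span ℂ (Set.range S.χ), D a = E a := by
    intro a ha
    induction ha using Submodule.span_induction with
    | mem a ha => obtain ⟨u, rfl⟩ := ha; exact h u
    | zero =>
      have h1 := hDs 0 0
      have h2 := hEs 0 0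
      rw [smul_zero, zero_smul] at h1 h2
      rw [h1, h2]
    | add u v _ _ hu hv => rw [hDa, hEa, hu, hv]
    | smul c u _ hu => rw [hDs, hEs, hu]
  obtain ⟨a, ha, b, hb, hb0, hab⟩ := S.frac x
  have h1 := hs a ha
  have h2 := hs b hb
  rw [← hab, hDm, hEm, h2] at h1
  have h3 : φ b ≠ 0 := fun h => hb0 (φ.injective (by rw [h, map_zero]))
  exact mul_left_cancel₀ h3 (add_left_cancel h1)

theorem T3_θ_t (i : Fin 3) : (T3 T).θ i tt = ((![0, 0, 1] i : ℤ) : RatFunc K) * tt := by
  have h := (T3 T).θ_χ i ![0, 0, 1]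
  rw [T3_chi, tt_eq] at h
  exact h

theorem T3_θ_ik (i : Fin 2) (f : K) : (T3 T).θ i.castSucc (ik f) = ik (T.θ i f) := by
  refine der_ext T ik ik_C (fun f => (T3 T).θ i.castSucc (ik f)) (fun f => ik (T.θ i f))
    (fun x y => by simp only [map_add]) (fun x y => by simp only [map_add])
    (fun c x => by simp only [ik_smul, Derivation.map_smul])
    (fun c x => by simp only [ik_smul, Derivation.map_smul])
    (fun x y => by simp only [map_mul, Derivation.leibniz, smul_eq_mul])
    (fun x y => by simp only [map_mul, Derivation.leibniz, smul_eq_mul, map_add])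
    (fun u => ?_) f
  have h := chi3_ik T u 0
  rw [zpow_zero, mul_one] at h
  show (T3 T).θ i.castSucc (ik (T.χ u)) = ik (T.θ i (T.χ u))
  rw [← h, ← T3_chi, (T3 T).θ_χ, T3_chi, h, T.θ_χ, map_mul, map_intCast]
  congr 2
  fin_cases i <;> rfl

theorem T3_θ2_ik (f : K) : (T3 T).θ 2 (ik f) = 0 := by
  refine der_ext T ik ik_C (fun f => (T3 T).θ 2 (ik f)) (fun _ => 0)
    (fun x y => by simp only [map_add]) (fun x y => by simp)
    (fun c x => by simp only [ik_smul, Derivation.map_smul])
    (fun c x => by simp)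
    (fun x y => by simp only [map_mul, Derivation.leibniz, smul_eq_mul])
    (fun x y => by simp)
    (fun u => ?_) f
  have h := chi3_ik T u 0
  rw [zpow_zero, mul_one] at h
  show (T3 T).θ 2 (ik (T.χ u)) = 0
  rw [← h, ← T3_chi, (T3 T).θ_χ]
  simp

end

/-- The homomorphism `K(t) → K((s))`, `t ↦ s`, which extends the expansion with respect to a
one-parameter subgroup with weights `p, q`. -/
structure TotHom (T : TorusField 2 K) (p q : ℤ) where
  Ψ : RatFunc K →+* HahnSeries ℤ K
  coeff : ∀ (c : (Fin 3 → ℤ) →₀ ℂ) (k : ℤ), (Ψ (Finsupp.linearCombination ℂ (chi3 T) c)).coeff k =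
    Finsupp.linearCombination ℂ (fun u => T.χ (pr2 u))
      (c.filter fun u => p * u 0 + q * u 1 + u 2 = k)

/-- the weight on the exponents of the three-dimensional torus -/
def w3 (p q : ℤ) : (Fin 3 → ℤ) →+ ℤ where
  toFun u := p * u 0 + q * u 1 + u 2
  map_zero' := by simp
  map_add' u v := by simp only [Pi.add_apply]; ring

theorem w3_inj (p q : ℤ) (u v : Fin 3 → ℤ) (h : w3 p q u = w3 p q v) (h' : pr2 u = pr2 v) :
    u = v := by
  have h0 : u 0 = v 0 := congrFun h' 0
  have h1 : u 1 = v 1 := congrFun h' 1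
  refine pr2_inj u v ?_ h'
  have h2 : p * u 0 + q * u 1 + u 2 = p * v 0 + q * v 1 + v 2 := h
  rw [h0, h1] at h2
  linarith

theorem exists_totHom (T : TorusField 2 K) (p q : ℤ) : Nonempty (TotHom T p q) := by
  obtain ⟨Ψ, h⟩ := exists_homG (T3 T) T pr2 (w3 p q) (w3_inj p q)
  refine ⟨⟨Ψ, fun c k => ?_⟩⟩
  have := h c k
  rw [T3_chi] at this
  exact this

namespace TotHom

variable {T : TorusField 2 K} {p q : ℤ} (Q : TotHom T p q)

theorem inj : Function.Injective Q.Ψ := Q.Ψ.injective

theorem chi (u : Fin 3 → ℤ) : Q.Ψ (chi3 T u) = HahnSeries.single (w3 p q u) (T.χ (pr2 u)) := by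
  classical
  ext k
  have h := Q.coeff (Finsupp.single u 1) k
  rw [Finsupp.linearCombination_single, one_smul] at h
  rw [h, HahnSeries.coeff_single]
  by_cases hk : k = w3 p q u
  · rw [if_pos hk, Finsupp.filter_single_of_pos (fun v : Fin 3 → ℤ => p * v 0 + q * v 1 + v 2 = k)
      hk.symm, Finsupp.linearCombination_single, one_smul]
  · rw [if_neg hk, Finsupp.filter_single_of_neg (fun v : Fin 3 → ℤ => p * v 0 + q * v 1 + v 2 = k)
      (fun h => hk h.symm), map_zero]

theorem tt_ : Q.Ψ tt = HahnSeries.single 1 1 := by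
  have h := Q.chi ![0, 0, 1]
  rw [tt_eq] at h
  rw [h]
  have h1 : w3 p q ![0, 0, 1] = 1 := by
    show p * 0 + q * 0 + 1 = 1
    ring
  have h2 : pr2 ![0, 0, 1] = 0 := by
    ext i; fin_cases i <;> rfl
  rw [h1, h2, T.χ_zero]

theorem Ld_tt : Ld 1 1 (Q.Ψ tt) := by
  rw [Q.tt_]
  constructor
  · intro k hk
    rw [HahnSeries.coeff_single, if_neg hk.ne]
  · rw [HahnSeries.coeff_single, if_pos rfl]

theorem Ld_tpow (i : ℤ) : Ld i 1 (Q.Ψ (tt ^ i)) := by
  rw [map_zpow₀]
  exact Ld_cast (Ld_zpow Q.Ld_tt one_ne_zero i) (mul_one i) (one_zpow i)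

theorem C_ (c : ℂ) : Q.Ψ (algebraMap ℂ (RatFunc K) c) = HahnSeries.single 0 (algebraMap ℂ K c) := by
  classical
  ext k
  have h := Q.coeff (Finsupp.single 0 c) k
  rw [Finsupp.linearCombination_single, chi3_zero, ← Algebra.algebraMap_eq_smul_one] at h
  rw [h, HahnSeries.coeff_single]
  by_cases hk : k = 0
  · subst hk
    rw [if_pos rfl, Finsupp.filter_single_of_pos (fun v : Fin 3 → ℤ => p * v 0 + q * v 1 + v 2 = 0)
      (by simp), Finsupp.linearCombination_single, map_zero, T.χ_zero,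
      ← Algebra.algebraMap_eq_smul_one]
  · rw [if_neg hk, Finsupp.filter_single_of_neg (fun v : Fin 3 → ℤ => p * v 0 + q * v 1 + v 2 = k)
      (fun h => hk (by rw [← h]; simp)), map_zero]

theorem coeff_smul (c : ℂ) (F : RatFunc K) (k : ℤ) :
    (Q.Ψ (c • F)).coeff k = c • (Q.Ψ F).coeff k := by
  rw [Algebra.smul_def, map_mul, Q.C_, HahnSeries.coeff_single_zero_mul, Algebra.smul_def]

theorem ge_smul {l : ℤ} {F : RatFunc K} (hF : Ge l (Q.Ψ F)) (c : ℂ) : Ge l (Q.Ψ (c • F)) := by
  intro k hk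
  rw [Q.coeff_smul, hF k hk, smul_zero]

/-- the order of a Laurent polynomial -/
theorem ge_iff (l : ℤ) (c : (Fin 3 → ℤ) →₀ ℂ) :
    Ge l (Q.Ψ (Finsupp.linearCombination ℂ (chi3 T) c)) ↔ ∀ u ∈ c.support, l ≤ w3 p q u := by
  classical
  constructor
  · intro h u hu
    by_contra hlt
    push Not at hlt
    have h1 := h _ hlt
    rw [Q.coeff] at h1
    have h2 := lc_level T pr2 (w3 p q) (w3_inj p q) (w3 p q u) _ (fun v hv => by
      rw [Finsupp.support_filter, Finset.mem_filter] at hv
      exact hv.2) h1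
    have h3 := DFunLike.congr_fun h2 u
    rw [Finsupp.filter_apply_pos (fun v : Fin 3 → ℤ => p * v 0 + q * v 1 + v 2 = w3 p q u) c rfl]
      at h3
    exact (Finsupp.mem_support_iff.1 hu) h3
  · intro h k hk
    rw [Q.coeff]
    have h2 : c.filter (fun v => p * v 0 + q * v 1 + v 2 = k) = 0 := by
      ext u
      by_cases hu : p * u 0 + q * u 1 + u 2 = k
      · rw [Finsupp.filter_apply_pos (fun v : Fin 3 → ℤ => p * v 0 + q * v 1 + v 2 = k) c hu]
        by_contra hne
        have h3 := h u (Finsupp.mem_support_iff.2 hne)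
        have h4 : w3 p q u = k := hu
        omega
      · rw [Finsupp.filter_apply_neg (fun v : Fin 3 → ℤ => p * v 0 + q * v 1 + v 2 = k) c hu]
        rfl
    rw [h2, map_zero]

end TotHom

end Pool.Agent.U198.SD
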