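import Pool.Agent.U198.SD.Basis
import Pool.Agent.U198.SD.Tot
import Pool.Agent.U198.SD.GFin

/-!
The graded system of the degeneration of the projective plane.
-/

noncomputable section

namespace Pool.Agent.U198.SD

open Pool.Agent.Helper774.KStab (TorusField)

variable {K : Type} [Field K] [Algebra ℂ K]

section SS

variable (T : TorusField 2 K)

/-- `R d [t, t⁻¹]` -/
def SS (d : ℕ) : Submodule ℂ (RatFunc K) :=
  Submodule.span ℂ (chi3 T '' {u | 0 ≤ u 0 ∧ 0 ≤ u 1 ∧ u 0 + u 1 ≤ d})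

theorem SS_mul {m k : ℕ} {f g : RatFunc K} (hf : f ∈ SS T m) (hg : g ∈ SS T k) :
    f * g ∈ SS T (m + k) := by
  have h := Submodule.mul_mem_mul hf hg
  rw [SS, SS, Submodule.span_mul_span] at h
  refine Submodule.span_mono ?_ h
  rintro _ ⟨_, ⟨u, ⟨h0, h1, h2⟩, rfl⟩, _, ⟨v, ⟨h3, h4, h5⟩, rfl⟩, rfl⟩
  refine ⟨u + v, ⟨?_, ?_, ?_⟩, chi3_add T u v⟩
  · rw [Pi.add_apply]; omega
  · rw [Pi.add_apply]; omega
  · rw [Pi.add_apply, Pi.add_apply]; push_cast; omega

theorem SS_one : (1 : RatFunc K) ∈ SS T 0 :=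
  Submodule.subset_span ⟨0, ⟨le_rfl, le_rfl, by simp⟩, chi3_zero T⟩

theorem SS_mono {m k : ℕ} (h : m ≤ k) : SS T m ≤ SS T k := by
  apply Submodule.span_mono
  rintro _ ⟨u, ⟨h0, h1, h2⟩, rfl⟩
  exact ⟨u, ⟨h0, h1, by omega⟩, rfl⟩

theorem SS_ik {d : ℕ} {f : K} (hf : f ∈ RR T d) (i : ℤ) : ik f * tt ^ i ∈ SS T d := by
  induction hf using Submodule.span_induction with
  | mem f hf =>
    obtain ⟨j, l, hjl, rfl⟩ := hf
    rw [← chi_eq]
    refine Submodule.subset_span ⟨![(j : ℤ), (l : ℤ), i], ⟨?_, ?_, ?_⟩, ?_⟩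
    · simp
    · simp
    · simp only [Matrix.cons_val_zero, Matrix.cons_val_one, Matrix.head_cons]
      exact_mod_cast hjl
    · exact chi3_ik T ![(j : ℤ), (l : ℤ)] i
  | zero => rw [map_zero, zero_mul]; exact Submodule.zero_mem _
  | add u v _ _ hu hv => rw [map_add, add_mul]; exact Submodule.add_mem _ hu hv
  | smul c u _ hu => rw [ik_smul, smul_mul_assoc]; exact Submodule.smul_mem _ _ hu

theorem RR_chi {d : ℕ} {u : Fin 3 → ℤ} (h : 0 ≤ u 0 ∧ 0 ≤ u 1 ∧ u 0 + u 1 ≤ d) :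
    T.χ ![u 0, u 1] ∈ RR T d := by
  obtain ⟨h0, h1, h2⟩ := h
  obtain ⟨j, hj⟩ := Int.eq_ofNat_of_zero_le h0
  obtain ⟨l, hl⟩ := Int.eq_ofNat_of_zero_le h1
  rw [hj, hl]
  refine Submodule.subset_span ⟨j, l, by omega, chi_eq T j l⟩

/-- the decomposition into weight vectors -/
theorem SS_decomp {d : ℕ} {F : RatFunc K} (hF : F ∈ SS T d) :
    (∀ i, (ls F).coeff i ∈ RR T d) ∧ ∃ s : Finset ℤ, (∀ i, i ∉ s → (ls F).coeff i = 0) ∧
      F = ∑ i ∈ s, ik ((ls F).coeff i) * tt ^ i := by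
  classical
  induction hF using Submodule.span_induction with
  | mem F hF =>
    obtain ⟨u, hu, rfl⟩ := hF
    have h1 := RR_chi T hu
    rw [ls_chi3]
    refine ⟨fun i => ?_, {u 2}, fun i hi => ?_, ?_⟩
    · rw [HahnSeries.coeff_single]
      split_ifs with h
      · exact h1
      · exact Submodule.zero_mem _
    · rw [HahnSeries.coeff_single, if_neg (by simpa using hi)]
    · rw [Finset.sum_singleton, HahnSeries.coeff_single, if_pos rfl]
      rfl
  | zero =>
    rw [map_zero]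
    refine ⟨fun i => ?_, ∅, fun i _ => ?_, ?_⟩
    · rw [HahnSeries.coeff_zero]; exact Submodule.zero_mem _
    · rw [HahnSeries.coeff_zero]
    · rw [Finset.sum_empty]
  | add u v _ _ hu hv =>
    obtain ⟨h1, s, h2, h3⟩ := hu
    obtain ⟨h4, s', h5, h6⟩ := hv
    rw [map_add]
    refine ⟨fun i => ?_, s ∪ s', fun i hi => ?_, ?_⟩
    · rw [HahnSeries.coeff_add]; exact Submodule.add_mem _ (h1 i) (h4 i)
    · rw [Finset.notMem_union] at hi
      rw [HahnSeries.coeff_add, h2 i hi.1, h5 i hi.2, add_zero]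
    · have e1 : u = ∑ i ∈ s ∪ s', ik ((ls u).coeff i) * tt ^ i := by
        conv_lhs => rw [h3]
        refine Finset.sum_subset Finset.subset_union_left fun i _ hi => ?_
        rw [h2 i hi, map_zero, zero_mul]
      have e2 : v = ∑ i ∈ s ∪ s', ik ((ls v).coeff i) * tt ^ i := by
        conv_lhs => rw [h6]
        refine Finset.sum_subset Finset.subset_union_right fun i _ hi => ?_
        rw [h5 i hi, map_zero, zero_mul]
      conv_lhs => rw [e1, e2]
      rw [← Finset.sum_add_distrib]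
      refine Finset.sum_congr rfl fun i _ => ?_
      rw [HahnSeries.coeff_add, map_add]
      ring
  | smul c u _ hu =>
    obtain ⟨h1, s, h2, h3⟩ := hu
    refine ⟨fun i => ?_, s, fun i hi => ?_, ?_⟩
    · rw [ls_C_smul]; exact Submodule.smul_mem _ _ (h1 i)
    · rw [ls_C_smul, h2 i hi, smul_zero]
    · conv_lhs => rw [h3]
      rw [Finset.smul_sum]
      refine Finset.sum_congr rfl fun i _ => ?_
      rw [ls_C_smul, ik_smul, smul_mul_assoc]

end SS

section fam

variable {T : TorusField 2 K} {n : ℕ} (Q : TotHom (tor T (n + 1)) (wp n) (wq n))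

theorem Q_ik_chi (u : Fin 2 → ℤ) : Q.Ψ (ik ((tor T (n + 1)).χ u)) =
    HahnSeries.single (wt n u) ((tor T (n + 1)).χ u) := by
  have h := chi3_ik (tor T (n + 1)) u 0
  rw [zpow_zero, mul_one] at h
  rw [← h, Q.chi]
  have h1 : w3 (wp n) (wq n) ![u 0, u 1, 0] = wt n u := by
    show wp n * u 0 + wq n * u 1 + 0 = wp n * u 0 + wq n * u 1
    ring
  have h2 : pr2 ![u 0, u 1, 0] = u := by
    ext i; fin_cases i <;> rfl
  rw [h1, h2]

/-- the restriction to `K` -/
def QP : TorHom (tor T (n + 1)) (wt n) where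
  Φ := Q.Ψ.comp ik
  coeff := by
    intro c k
    classical
    induction c using Finsupp.induction_linear with
    | zero => rw [Finsupp.filter_zero, map_zero, map_zero, HahnSeries.coeff_zero]
    | add f g hf hg =>
      rw [Finsupp.filter_add, map_add, map_add, map_add, HahnSeries.coeff_add, hf, hg]
    | single u a =>
      rw [Finsupp.linearCombination_single, RingHom.comp_apply, ik_smul, Q.coeff_smul, Q_ik_chi,
        HahnSeries.coeff_single]
      by_cases h : k = wt n u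
      · rw [if_pos h, Finsupp.filter_single_of_pos (fun v : Fin 2 → ℤ => wt n v = k) h.symm,
          Finsupp.linearCombination_single]
      · rw [if_neg h, Finsupp.filter_single_of_neg (fun v : Fin 2 → ℤ => wt n v = k)
          (fun h' => h h'.symm), map_zero, smul_zero]

theorem QP_apply (f : K) : (QP Q).Φ f = Q.Ψ (ik f) := rfl

theorem Ld_ik {l : ℤ} {a f : K} (h : Ld l a ((QP Q).Φ f)) (i : ℤ) :
    Ld (l + i) a (Q.Ψ (ik f * tt ^ i)) := by
  rw [map_mul]
  exact Ld_cast (Ld_mul h (Q.Ld_tpow i)) rfl (mul_one a)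

/-- homogeneous components of a Laurent polynomial -/
theorem ge_comp {l : ℤ} {F : RatFunc K}
    (hF : F ∈ Submodule.span ℂ (Set.range (chi3 (tor T (n + 1))))) (h : Ge l (Q.Ψ F)) (i : ℤ) :
    Ge (l - i) ((QP Q).Φ ((ls F).coeff i)) := by
  classical
  rw [Finsupp.mem_span_range_iff_exists_finsupp] at hF
  obtain ⟨c, hc⟩ := hF
  have hc' : F = Finsupp.linearCombination ℂ (chi3 (tor T (n + 1))) c := by
    rw [← hc, Finsupp.linearCombination_apply]
  subst hc'
  rw [Q.ge_iff] at h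
  have h1 : Finsupp.linearCombination ℂ (fun u : Fin 3 → ℤ => (tor T (n + 1)).χ ![u 0, u 1])
      (c.filter fun u => u 2 = i) =
      Finsupp.linearCombination ℂ (tor T (n + 1)).χ (Finsupp.mapDomain pr2
        (c.filter fun u => u 2 = i)) := by
    rw [Finsupp.linearCombination_mapDomain]
    rfl
  rw [ls_lc, h1, (QP Q).ge_iff]
  intro v hv
  have h2 := Finsupp.mapDomain_support hv
  rw [Finset.mem_image] at h2
  obtain ⟨u, hu, rfl⟩ := h2
  rw [Finsupp.support_filter, Finset.mem_filter] at hu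
  have h3 := h u hu.1
  have h4 : w3 (wp n) (wq n) u = wt n (pr2 u) + u 2 := rfl
  rw [h4, hu.2] at h3
  linarith

theorem SS_zt {d : ℕ} {F : RatFunc K} (hF : F ∈ SS T d) :
    F * ik (zt T (n + 1)) ^ d ∈ Submodule.span ℂ (Set.range (chi3 (tor T (n + 1)))) := by
  induction hF using Submodule.span_induction with
  | mem F hF =>
    obtain ⟨u, hu, rfl⟩ := hF
    have h1 := RR_chi T hu
    obtain ⟨c, hc, -⟩ := pos_chart T (n + 1) d h1
    have e : chi3 T u * ik (zt T (n + 1)) ^ d = ik (T.χ ![u 0, u 1] * zt T (n + 1) ^ d) * tt ^ u 2 := by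
      rw [chi3, map_mul, map_pow]; ring
    rw [e]
    apply ik_span
    rw [hc]
    exact (Finsupp.mem_span_range_iff_exists_finsupp).2 ⟨c, rfl⟩
  | zero => rw [zero_mul]; exact Submodule.zero_mem _
  | add u v _ _ hu hv => rw [add_mul]; exact Submodule.add_mem _ hu hv
  | smul c u _ hu => rw [smul_mul_assoc]; exact Submodule.smul_mem _ _ hu

/-- the homogeneous components of an element of order `≥ 0` -/
theorem SS_ge {d : ℕ} {F : RatFunc K} (hF : F ∈ SS T d) {l : ℤ} (h : Ge l (Q.Ψ F)) (i : ℤ) :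
    Ge (l - i) ((QP Q).Φ ((ls F).coeff i)) := by
  have hz : Ld 0 1 ((QP Q).Φ (zt T (n + 1))) := Ld_zt (QP Q)
  have h1 : Ge l (Q.Ψ (F * ik (zt T (n + 1)) ^ d)) := by
    rw [map_mul, map_pow]
    exact Ge_mono (Ge_mul h (Ge_pow hz.ge d)) (by simp)
  have h2 := ge_comp Q (SS_zt hF) h1 i
  have h3 : (ls (F * ik (zt T (n + 1)) ^ d)).coeff i = (ls F).coeff i * zt T (n + 1) ^ d := by
    rw [map_mul, ← map_pow, ls_ik, HahnSeries.coeff_mul_single_zero]
  rw [h3] at h2
  have h4 : (ls F).coeff i = (ls F).coeff i * zt T (n + 1) ^ d * (zt T (n + 1) ^ d)⁻¹ := by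
    rw [mul_assoc, mul_inv_cancel₀ (pow_ne_zero _ (zt_ne T _)), mul_one]
  rw [h4, map_mul, map_inv₀, map_pow]
  have h5 := Ge_mul h2 (Ld_inv (Ld_pow hz d) (pow_ne_zero _ one_ne_zero)).ge
  simpa using h5

/-- the spaces of the graded system -/
def RT (d : ℕ) : Submodule ℂ (RatFunc K) where
  carrier := {F | F ∈ SS T d ∧ Ge 0 (Q.Ψ F)}
  add_mem' := by
    rintro f g ⟨h1, h2⟩ ⟨h3, h4⟩
    exact ⟨Submodule.add_mem _ h1 h3, by rw [map_add]; exact Ge_add h2 h4⟩
  zero_mem' := ⟨Submodule.zero_mem _, by rw [map_zero]; exact Ge_zero _⟩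
  smul_mem' := by
    rintro c f ⟨h1, h2⟩
    exact ⟨Submodule.smul_mem _ c h1, Q.ge_smul h2 c⟩

/-- the graded system of the degeneration -/
def 𝒢 : GS (RatFunc K) where
  R := RT Q
  one_mem := ⟨SS_one T, by rw [map_one]; exact Ge_one⟩
  mul_mem := by
    rintro m k f g ⟨h1, h2⟩ ⟨h3, h4⟩
    exact ⟨SS_mul T h1 h3, by rw [map_mul]; simpa using Ge_mul h2 h4⟩

theorem RT_mono {m k : ℕ} (h : m ≤ k) {F : RatFunc K} (hF : F ∈ RT Q m) : F ∈ RT Q k :=
  ⟨SS_mono T h hF.1, hF.2⟩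

theorem mem_RT {d : ℕ} {f : K} (hf : f ∈ RR T d) {l : ℤ} (hl : Ge l ((QP Q).Φ f)) (i : ℤ)
    (h : 0 ≤ l + i) : ik f * tt ^ i ∈ RT Q d := by
  refine ⟨SS_ik T hf i, ?_⟩
  rw [map_mul]
  exact Ge_mono (Ge_mul hl (Q.Ld_tpow i).ge) h

/-- the generators -/
def 𝒹 : Gens (𝒢 Q) (Fin 3) (Fin (b (n + 2)) × Fin (b (n + 1))) where
  t := tt
  t_mem := by
    have h := mem_RT Q (RR_one T) (l := 0) (by rw [map_one]; exact Ge_one) 1 (by norm_num)
    rwa [map_one, one_mul, zpow_one] at h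
  ξ := ![1, ik (G T (n + 1)) * tt ^ (-(wp n * b (n + 2))), ik (G T (n + 2)) * tt ^ (-(wq n * b (n + 1)))]
  w := ![1, b (n + 1), b (n + 2)]
  w_pos := by
    intro j
    fin_cases j
    · exact le_rfl
    · exact b_pos (n + 1)
    · exact b_pos (n + 2)
  ξ_ne := by
    intro j
    fin_cases j
    · exact one_ne_zero
    · exact mul_ne_zero (fun h => G_ne T (n + 1) (ik_inj (by rw [h, map_zero])))
        (zpow_ne_zero _ tt_ne)
    · exact mul_ne_zero (fun h => G_ne T (n + 2) (ik_inj (by rw [h, map_zero])))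
        (zpow_ne_zero _ tt_ne)
  ξ_mem := by
    intro j
    fin_cases j
    · exact RT_mono Q (Nat.zero_le 1) (𝒢 Q).one_mem
    · exact mem_RT Q (RR_G T (n + 1)) (Ld_G (QP Q) (n + 1) le_rfl).ge _ (by
        rw [show n + 1 + 1 = n + 2 from rfl]; linarith)
    · exact mem_RT Q (RR_G T (n + 2)) (Ld_G2 (QP Q)).ge _ (by linarith)
  θ i := ik (e0 (QP Q) i.1 i.2) * tt ^ (-wt n ![((i.1 : ℕ) : ℤ), ((i.2 : ℕ) : ℤ)])
  μ i := mu' n i.1 i.2
  θ_mem i := mem_RT Q (e0_mem (QP Q) i.1 i.2) (e0_Ld (QP Q) i.1 i.2).ge _ (by linarith)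

theorem spans : (𝒹 Q).Spans := by
  intro d F hF
  obtain ⟨h1, s, -, h3⟩ := SS_decomp T hF.1
  rw [h3]
  refine Submodule.sum_mem _ fun i _ => ?_
  have h4 := SS_ge Q hF.1 hF.2 i
  have h5 := span_ee (QP Q) d _ (h1 i) h4
  have key : ∀ f ∈ Submodule.span ℂ {g | ∃ j l : ℕ, (![(j : ℤ), (l : ℤ)] : Fin 2 → ℤ) ∈ tri n d ∧
      0 - i ≤ wt n ![(j : ℤ), (l : ℤ)] ∧ g = ee (QP Q) j l}, ik f * tt ^ i ∈
      Submodule.span ℂ {H : RatFunc K | ∃ (a : ℕ) (τ : Fin (b (n + 2)) × Fin (b (n + 1)))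
        (m : Fin 3 → ℕ), ∑ j, (𝒹 Q).w j * m j + (𝒹 Q).μ τ = d ∧
        H = (𝒹 Q).t ^ a * (𝒹 Q).θ τ * ∏ j, (𝒹 Q).ξ j ^ m j} := by
    intro f hf
    induction hf using Submodule.span_induction with
    | mem f hf =>
      obtain ⟨j, l, hjl, hw, rfl⟩ := hf
      have hdeg := ee_deg j l d hjl
      obtain ⟨a, ha⟩ := Int.eq_ofNat_of_zero_le (show 0 ≤ i + wt n ![(j : ℤ), (l : ℤ)] by linarith)
      refine Submodule.subset_span ⟨a, (⟨j % b (n + 2), Nat.mod_lt _ (b_pos _)⟩,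
        ⟨l % b (n + 1), Nat.mod_lt _ (b_pos _)⟩), ![d - (mu' n (j % b (n + 2)) (l % b (n + 1)) +
          b (n + 1) * (j / b (n + 2)) + b (n + 2) * (l / b (n + 1))), j / b (n + 2),
          l / b (n + 1)], ?_, ?_⟩
      · rw [Fin.sum_univ_three]
        simp only [𝒹, Matrix.cons_val_zero, Matrix.cons_val_one, Matrix.cons_val]
        omega
      · rw [Fin.prod_univ_three]
        simp only [𝒹, Matrix.cons_val_zero, Matrix.cons_val_one, Matrix.cons_val]
        rw [one_pow, one_mul, ee, map_mul, map_mul, map_pow, map_pow]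
        have ej : (b (n + 2) : ℤ) * (j / b (n + 2) : ℕ) + (j % b (n + 2) : ℕ) = j := by
          exact_mod_cast Nat.div_add_mod j (b (n + 2))
        have el : (b (n + 1) : ℤ) * (l / b (n + 1) : ℕ) + (l % b (n + 1) : ℕ) = l := by
          exact_mod_cast Nat.div_add_mod l (b (n + 1))
        have hi : i = a + -wt n ![((j % b (n + 2) : ℕ) : ℤ), ((l % b (n + 1) : ℕ) : ℤ)] +
            (-(wp n * b (n + 2))) * (j / b (n + 2) : ℕ) + (-(wq n * b (n + 1))) * (l / b (n + 1) : ℕ) := by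
          rw [wt_apply] at ha ⊢
          simp only [Matrix.cons_val_zero, Matrix.cons_val_one, Matrix.cons_val_fin_one] at ha ⊢
          linear_combination ha + (wp n) * ej + wq n * el
        have ht := tt_ne (K := K)
        have e1 : (tt : RatFunc K) ^ i = tt ^ a * tt ^ (-wt n ![((j % b (n + 2) : ℕ) : ℤ),
            ((l % b (n + 1) : ℕ) : ℤ)]) * (tt ^ (-(wp n * b (n + 2)))) ^ (j / b (n + 2)) *
            (tt ^ (-(wq n * b (n + 1)))) ^ (l / b (n + 1)) := by
          rw [hi, zpow_add₀ ht, zpow_add₀ ht, zpow_add₀ ht, zpow_mul, zpow_mul, zpow_natCast,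
            zpow_natCast, zpow_natCast]
        rw [e1, mul_pow, mul_pow]
        ring
    | zero => rw [map_zero, zero_mul]; exact Submodule.zero_mem _
    | add u v _ _ hu hv => rw [map_add, add_mul]; exact Submodule.add_mem _ hu hv
    | smul c u _ hu => rw [ik_smul, smul_mul_assoc]; exact Submodule.smul_mem _ _ hu
  exact key _ h5

end fam

end Pool.Agent.U198.SD
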