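import Pool.Agent.U198.SD.Fam1

/-!
The charts of the degeneration: fraction fields, normality, invariance.
-/

noncomputable section

namespace Pool.Agent.U198.SD

open Pool.Agent.Helper774.KStab (TorusField)
open Pool.Agent.Helper774.KSing

variable {K : Type} [Field K] [Algebra ℂ K]

section integral

variable {L : Type} [Field L] [Algebra ℂ L]

/-- roots of monic equations over an integrally closed ring -/
theorem int_of_eq (C : Subalgebra ℂ L) (hC : IsIntegrallyClosed C) (hf : IsFractionRing C L) (N : ℕ)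
    (σ : L) (c : ℕ → L) (hc : ∀ j, j < N → c j ∈ C)
    (h : σ ^ N + ∑ j ∈ Finset.range N, c j * σ ^ j = 0) : σ ∈ C := by
  classical
  rw [isIntegrallyClosed_iff L] at hC
  let c' : ℕ → C := fun j => if hj : j < N then ⟨c j, hc j hj⟩ else 0
  have h1 : IsIntegral C σ := by
    refine ⟨Polynomial.X ^ N + ∑ j ∈ Finset.range N, Polynomial.C (c' j) * Polynomial.X ^ j, ?_, ?_⟩
    · apply Polynomial.monic_X_pow_add
      refine Polynomial.mem_degreeLT.1 (Submodule.sum_mem _ fun j hj => Polynomial.mem_degreeLT.2 ?_)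
      exact (Polynomial.degree_C_mul_X_pow_le _ _).trans_lt
        (by exact_mod_cast Finset.mem_range.1 hj)
    · rw [Polynomial.eval₂_add, Polynomial.eval₂_pow, Polynomial.eval₂_X, Polynomial.eval₂_finset_sum,
        ← h]
      congr 1
      refine Finset.sum_congr rfl fun j hj => ?_
      rw [Polynomial.eval₂_mul, Polynomial.eval₂_C, Polynomial.eval₂_pow, Polynomial.eval₂_X]
      congr 1
      have hj' := Finset.mem_range.1 hj
      simp only [c', dif_pos hj']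
      rfl
  obtain ⟨y, hy⟩ := hC h1
  rw [← hy]
  exact y.2

/-- the localisation at a function -/
def locT (C : Subalgebra ℂ L) (t : L) : Set L := {F | ∃ M : ℕ, F * t ^ M ∈ C}

theorem locT_int (C : Subalgebra ℂ L) (hC : IsIntegrallyClosed C) (hf : IsFractionRing C L) (t : L)
    (ht : t ∈ C) (N : ℕ) (σ : L) (c : ℕ → L) (hc : ∀ j, j < N → c j ∈ locT C t)
    (h : σ ^ N + ∑ j ∈ Finset.range N, c j * σ ^ j = 0) : σ ∈ locT C t := by
  classical
  have h1 : ∀ j, ∃ M : ℕ, j < N → c j * t ^ M ∈ C := by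
    intro j
    by_cases hj : j < N
    · obtain ⟨M, hM⟩ := hc j hj
      exact ⟨M, fun _ => hM⟩
    · exact ⟨0, fun h => absurd h hj⟩
  choose M hM using h1
  let M' := ∑ j ∈ Finset.range N, M j
  have hM' : ∀ j, j < N → M j ≤ M' := fun j hj =>
    Finset.single_le_sum (f := M) (fun _ _ => Nat.zero_le _) (Finset.mem_range.2 hj)
  refine ⟨M', int_of_eq C hC hf N (σ * t ^ M') (fun j => c j * t ^ (M' * (N - j))) ?_ ?_⟩
  · intro j hj
    have h2 : M j ≤ M' * (N - j) := (hM' j hj).trans (Nat.le_mul_of_pos_right _ (by omega))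
    obtain ⟨k, hk⟩ := Nat.exists_eq_add_of_le h2
    rw [hk, pow_add, ← mul_assoc]
    exact mul_mem (hM j hj) (pow_mem ht k)
  · have e : (σ * t ^ M') ^ N + ∑ j ∈ Finset.range N, c j * t ^ (M' * (N - j)) * (σ * t ^ M') ^ j =
        t ^ (M' * N) * (σ ^ N + ∑ j ∈ Finset.range N, c j * σ ^ j) := by
      rw [mul_add, Finset.mul_sum]
      congr 1
      · rw [mul_pow, ← pow_mul]; ring
      · refine Finset.sum_congr rfl fun j hj => ?_
        have hj' := Finset.mem_range.1 hj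
        obtain ⟨k, hk⟩ := Nat.exists_eq_add_of_lt hj'
        have e1 : N - j = k + 1 := by omega
        rw [e1, mul_pow, ← pow_mul, hk]
        ring
    rw [e, h, mul_zero]

/-- shifting exponents -/
theorem shift_iff {n : ℕ} (S : TorusField n L) (R : Matrix (Fin n) (Fin n) ℤ) (w : Fin n → ℤ)
    (c : (Fin n → ℤ) →₀ ℂ) : Finsupp.linearCombination ℂ S.χ c * S.χ w ∈ cone S R ↔
      ∀ u ∈ c.support, u + w ∈ Mset R 0 := by
  classical
  have hinj : Function.Injective (fun u : Fin n → ℤ => u + w) := add_left_injective _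
  rw [mem_cone, mul_comm, secSet_loc_shift, mem_mspan_iff,
    Finsupp.mapDomain_support_of_injective hinj]
  constructor
  · intro h u hu
    exact h _ (Finset.mem_image_of_mem _ hu)
  · intro h u hu
    rw [Finset.mem_image] at hu
    obtain ⟨v, hv, rfl⟩ := hu
    exact h v hv

end integral

/-- the rays of the chart `z ≠ 0` -/
def Rz : Matrix (Fin 3) (Fin 3) ℤ := !![1, 0, 0; 0, 1, 0; 0, 0, 1]

/-- the rays of the chart `x ≠ 0` -/
def Rx : Matrix (Fin 3) (Fin 3) ℤ := !![0, -1, 0; 1, -1, 0; 0, 0, 1]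

theorem Rz_det : Rz.det ≠ 0 := by
  rw [Rz, Matrix.det_fin_three]; decide

theorem Rx_det : Rx.det ≠ 0 := by
  rw [Rx, Matrix.det_fin_three]; decide

theorem Mset_Rz (u : Fin 3 → ℤ) (k : ℤ) : u ∈ Mset Rz k ↔ k ≤ u 0 ∧ k ≤ u 1 ∧ k ≤ u 2 := by
  rw [Mset, Set.mem_setOf_eq, Fin.forall_fin_succ, Fin.forall_fin_succ, Fin.forall_fin_one]
  simp [Rz, Matrix.vecMul, dotProduct, Fin.sum_univ_three]

theorem Mset_Rx (u : Fin 3 → ℤ) (k : ℤ) : u ∈ Mset Rx k ↔ k ≤ u 1 ∧ k ≤ -u 0 - u 1 ∧ k ≤ u 2 := by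
  rw [Mset, Set.mem_setOf_eq, Fin.forall_fin_succ, Fin.forall_fin_succ, Fin.forall_fin_one]
  simp [Rx, Matrix.vecMul, dotProduct, Fin.sum_univ_three, sub_eq_add_neg]

section SS

variable (T : TorusField 2 K)

theorem tpow_eq (i : ℤ) : (tt : RatFunc K) ^ i = (T3 T).χ ![0, 0, i] := by
  rw [T3_chi]
  have h := chi3_ik T 0 i
  rw [T.χ_zero, map_one, one_mul] at h
  exact h.symm

theorem tmem_Rz : (tt : RatFunc K) ∈ cone (T3 T) Rz := by
  have h := tpow_eq T 1
  rw [zpow_one] at h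
  rw [h]
  exact mem_cone_chi _ _ ((Mset_Rz _ _).2 (by simp))

theorem tmem_Rx : (tt : RatFunc K) ∈ cone (T3 T) Rx := by
  have h := tpow_eq T 1
  rw [zpow_one] at h
  rw [h]
  exact mem_cone_chi _ _ ((Mset_Rx _ _).2 (by simp))

theorem xpow_eq (i : ℤ) : ik (xx T) ^ i = (T3 T).χ ![i, 0, 0] := by
  rw [T3_chi]
  have h := chi3_ik T ![i, 0] 0
  rw [zpow_zero, mul_one, chi_zpow, zpow_zero, mul_one, map_zpow₀] at h
  exact h.symm

theorem span_lc {d : ℕ} {F : RatFunc K} (hF : F ∈ SS T d) : ∃ c : (Fin 3 → ℤ) →₀ ℂ,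
    F = Finsupp.linearCombination ℂ (T3 T).χ c ∧
      ∀ u ∈ c.support, 0 ≤ u 0 ∧ 0 ≤ u 1 ∧ u 0 + u 1 ≤ d := by
  rw [SS, Finsupp.mem_span_image_iff_linearCombination] at hF
  obtain ⟨c, hc, h⟩ := hF
  refine ⟨c, ?_, fun u hu => (Finsupp.mem_supported ℂ c).1 hc hu⟩
  rw [T3_chi, h]

theorem mem_SS_iff {d : ℕ} {F : RatFunc K} : F ∈ SS T d ↔
    F ∈ locT (cone (T3 T) Rz) tt ∧ F * ik (xx T) ^ (-(d : ℤ)) ∈ locT (cone (T3 T) Rx) tt := by
  classical
  constructor
  · intro hF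
    obtain ⟨c, rfl, hc⟩ := span_lc T hF
    let M : ℕ := ∑ u ∈ c.support, (u 2).natAbs
    have hM : ∀ u ∈ c.support, 0 ≤ u 2 + M := by
      intro u hu
      have h1 : (u 2).natAbs ≤ M :=
        Finset.single_le_sum (f := fun u : Fin 3 → ℤ => (u 2).natAbs) (fun _ _ => Nat.zero_le _) hu
      omega
    constructor
    · refine ⟨M, ?_⟩
      rw [← zpow_natCast, tpow_eq T, shift_iff]
      intro u hu
      obtain ⟨h0, h1, h2⟩ := hc u hu
      rw [Mset_Rz]
      refine ⟨?_, ?_, ?_⟩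
      · simpa using h0
      · simpa using h1
      · simpa using hM u hu
    · refine ⟨M, ?_⟩
      rw [← zpow_natCast, tpow_eq T, xpow_eq, mul_assoc, ← (T3 T).χ_add, shift_iff]
      intro u hu
      obtain ⟨h0, h1, h2⟩ := hc u hu
      rw [Mset_Rx]
      refine ⟨?_, ?_, ?_⟩
      · simpa using h1
      · simp
        linarith
      · simpa using hM u hu
  · rintro ⟨⟨M, hM⟩, ⟨M', hM'⟩⟩
    rw [← zpow_natCast, tpow_eq T] at hM hM'
    obtain ⟨c, rfl⟩ := secSet_loc_lau (T3 T) Rz _ F ((mem_cone _ _ _).1 hM)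
    rw [shift_iff] at hM
    rw [xpow_eq, mul_assoc, ← (T3 T).χ_add, shift_iff] at hM'
    rw [SS, Finsupp.mem_span_image_iff_linearCombination]
    refine ⟨c, ?_, by rw [T3_chi]⟩
    rw [Finsupp.mem_supported]
    intro u hu
    have h1 := (Mset_Rz _ _).1 (hM u hu)
    have h2 := (Mset_Rx _ _).1 (hM' u hu)
    simp at h1 h2
    refine ⟨h1.1, h1.2.1, ?_⟩
    linarith [h2.2.1]

/-- normality of the graded system `R[t, t⁻¹]` -/
theorem SS_normal (d N : ℕ) (σ : RatFunc K) (c : ℕ → RatFunc K)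
    (hc : ∀ j, j < N → c j ∈ SS T (d * (N - j)))
    (h : σ ^ N + ∑ j ∈ Finset.range N, c j * σ ^ j = 0) : σ ∈ SS T d := by
  have hx : ik (xx T) ≠ 0 := fun h => xx_ne T (ik_inj (by rw [h, map_zero]))
  rw [mem_SS_iff]
  constructor
  · exact locT_int _ (cone_normal _ _ Rz_det) (cone_frac _ _ Rz_det) _ (tmem_Rz T) N σ c
      (fun j hj => ((mem_SS_iff T).1 (hc j hj)).1) h
  · refine locT_int _ (cone_normal _ _ Rx_det) (cone_frac _ _ Rx_det) _ (tmem_Rx T) N _
      (fun j => c j * ik (xx T) ^ (-((d * (N - j) : ℕ) : ℤ)))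
      (fun j hj => ((mem_SS_iff T).1 (hc j hj)).2) ?_
    have e : (σ * ik (xx T) ^ (-(d : ℤ))) ^ N + ∑ j ∈ Finset.range N,
        c j * ik (xx T) ^ (-((d * (N - j) : ℕ) : ℤ)) * (σ * ik (xx T) ^ (-(d : ℤ))) ^ j =
        ik (xx T) ^ (-(d * N : ℤ)) * (σ ^ N + ∑ j ∈ Finset.range N, c j * σ ^ j) := by
      rw [mul_add, Finset.mul_sum]
      congr 1
      · rw [mul_pow, ← zpow_natCast (ik (xx T) ^ _), ← zpow_mul, mul_comm, neg_mul]
      · refine Finset.sum_congr rfl fun j hj => ?_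
        have hj' := Finset.mem_range.1 hj
        rw [mul_pow, ← zpow_natCast (ik (xx T) ^ _) j, ← zpow_mul]
        have e1 : ik (xx T) ^ (-(d * N : ℤ)) = ik (xx T) ^ (-((d * (N - j) : ℕ) : ℤ)) *
            ik (xx T) ^ (-(d : ℤ) * j) := by
          rw [← zpow_add₀ hx]
          congr 1
          push_cast [Nat.cast_sub hj'.le]
          ring
        rw [e1]
        ring
    rw [e, h, mul_zero]

end SS

section fam

variable {T : TorusField 2 K} {n : ℕ} (Q : TotHom (tor T (n + 1)) (wp n) (wq n))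

/-- integral elements have order `≥ 0` -/
theorem Ge_normal (N : ℕ) (σ : RatFunc K) (c : ℕ → RatFunc K)
    (hc : ∀ j, j < N → Ge 0 (Q.Ψ (c j)))
    (h : σ ^ N + ∑ j ∈ Finset.range N, c j * σ ^ j = 0) : Ge 0 (Q.Ψ σ) := by
  by_cases h0 : σ = 0
  · rw [h0, map_zero]; exact Ge_zero 0
  obtain ⟨l, a, ha, hl⟩ := exists_Ld (F := Q.Ψ σ) (fun h => h0 (Q.inj (by rw [h, map_zero])))
  rcases lt_or_ge l 0 with hlt | hge
  · exfalso
    have h1 : Ld (N * l) (a ^ N) (Q.Ψ (σ ^ N)) := by rw [map_pow]; exact Ld_pow hl N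
    have h2 : Ge (N * l + 1) (Q.Ψ (∑ j ∈ Finset.range N, c j * σ ^ j)) := by
      rw [map_sum]
      have : ∀ s : Finset ℕ, s ⊆ Finset.range N →
          Ge (N * l + 1) (∑ j ∈ s, Q.Ψ (c j * σ ^ j)) := by
        intro s
        classical
        induction s using Finset.induction_on with
        | empty => intro _; rw [Finset.sum_empty]; exact Ge_zero _
        | insert j s hj ih =>
          intro hs
          rw [Finset.sum_insert hj]
          refine Ge_add ?_ (ih fun i hi => hs (Finset.mem_insert_of_mem hi))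
          have hj' := Finset.mem_range.1 (hs (Finset.mem_insert_self _ _))
          rw [map_mul, map_pow]
          refine Ge_mono (Ge_mul (hc j hj') (Ge_pow hl.ge j)) ?_
          have : (j : ℤ) + 1 ≤ N := by exact_mod_cast hj'
          nlinarith
      exact this _ subset_rfl
    have h3 : Q.Ψ (σ ^ N) = -Q.Ψ (∑ j ∈ Finset.range N, c j * σ ^ j) := by
      rw [← map_neg]
      congr 1
      linear_combination h
    have h4 := h1.2
    rw [h3, HahnSeries.coeff_neg, h2 _ (by omega), neg_zero] at h4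
    exact pow_ne_zero N ha h4.symm
  · exact Ge_mono hl.ge hge

/-- a large multiple is in the graded system -/
theorem mul_mem_RT {A : RatFunc K} (hA : A ∈ Submodule.span ℂ (Set.range (chi3 T))) :
    ∃ N₀ : ℕ, ∀ N : ℕ, N₀ ≤ N → A * (ik (xx T * yy T) * tt) ^ N ∈ RT Q (4 * N) := by
  induction hA using Submodule.span_induction with
  | mem f hf =>
    obtain ⟨u, rfl⟩ := hf
    refine ⟨(u 0).natAbs + (u 1).natAbs + (u 2).natAbs, fun N hN => ?_⟩
    obtain ⟨i, hi⟩ := Int.eq_ofNat_of_zero_le (show 0 ≤ u 0 + N by omega)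
    obtain ⟨j, hj⟩ := Int.eq_ofNat_of_zero_le (show 0 ≤ u 1 + N by omega)
    obtain ⟨l, hl⟩ := Int.eq_ofNat_of_zero_le (show 0 ≤ u 2 + N by omega)
    have e : chi3 T u * (ik (xx T * yy T) * tt) ^ N = ik (xx T ^ i * yy T ^ j) * tt ^ (l : ℤ) := by
      have h1 := chi_eq T N N
      have h2 : T.χ ![u 0, u 1] * T.χ ![(N : ℤ), (N : ℤ)] = xx T ^ i * yy T ^ j := by
        rw [← T.χ_add, ← chi_eq]
        congr 1
        ext t
        fin_cases t
        · simpa using hi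
        · simpa using hj
      rw [← h2, h1, chi3, ← hl, zpow_add₀ tt_ne, zpow_natCast, mul_pow, ← map_pow, mul_pow, map_mul ik
        (T.χ _)]
      ring
    rw [e]
    have hx : Ge 0 ((QP Q).Φ (xx T)) := by
      have := (Ld_G (QP Q) 0 (by omega)).ge
      refine Ge_mono this ?_
      have h1 := wp_pos n
      positivity
    have hy : Ge 0 ((QP Q).Φ (yy T)) := by
      have := (Ld_G (QP Q) 1 (by omega)).ge
      refine Ge_mono this ?_
      have h1 := wp_pos n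
      positivity
    refine mem_RT Q (Submodule.subset_span ⟨i, j, by omega, rfl⟩) (l := 0) ?_ _ (by omega)
    rw [map_mul, map_pow, map_pow]
    simpa using Ge_mul (Ge_pow hx i) (Ge_pow hy j)
  | zero => exact ⟨0, fun N _ => by rw [zero_mul]; exact Submodule.zero_mem _⟩
  | add u v _ _ hu hv =>
    obtain ⟨N₁, h₁⟩ := hu
    obtain ⟨N₂, h₂⟩ := hv
    refine ⟨max N₁ N₂, fun N hN => ?_⟩
    rw [add_mul]
    exact Submodule.add_mem _ (h₁ N (le_trans (le_max_left _ _) hN))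
      (h₂ N (le_trans (le_max_right _ _) hN))
  | smul c u _ hu =>
    obtain ⟨N₁, h₁⟩ := hu
    refine ⟨N₁, fun N hN => ?_⟩
    rw [smul_mul_assoc]
    exact Submodule.smul_mem _ _ (h₁ N hN)

theorem ch_frac (c : Fin 3) : IsFractionRing ((𝒹 Q).ch c) (RatFunc K) := by
  apply IsFractionRing.of_field
  intro z
  obtain ⟨A, hA, B, hB, hB0, hz⟩ := chi3_frac T z
  obtain ⟨N₁, h₁⟩ := mul_mem_RT Q hA
  obtain ⟨N₂, h₂⟩ := mul_mem_RT Q hB
  let N := max N₁ N₂
  have hw := (𝒹 Q).w_pos c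
  have key : ∀ F ∈ RT Q (4 * N), F / (𝒹 Q).ξ c ^ (4 * N) ∈ (𝒹 Q).ch c := fun F hF =>
    GS.div_mem_chart ((𝒹 Q).ξ_ne c) (RT_mono Q (Nat.le_mul_of_pos_left _ hw) hF)
  have hM : ik (xx T * yy T) * tt ≠ 0 := mul_ne_zero
    (fun h => (mul_ne_zero (xx_ne T) (yy_ne T)) (ik_inj (by rw [h, map_zero]))) tt_ne
  refine ⟨⟨_, key _ (h₁ N (le_max_left _ _))⟩, ⟨_, key _ (h₂ N (le_max_right _ _))⟩, ?_⟩
  change z = (A * (ik (xx T * yy T) * tt) ^ N / (𝒹 Q).ξ c ^ (4 * N)) /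
    (B * (ik (xx T * yy T) * tt) ^ N / (𝒹 Q).ξ c ^ (4 * N))
  have h3 := pow_ne_zero (4 * N) ((𝒹 Q).ξ_ne c)
  have h4 := pow_ne_zero N hM
  rw [← hz]
  field_simp

theorem ch_normal (c : Fin 3) : IsIntegrallyClosed ((𝒹 Q).ch c) := by
  refine GS.chart_normal ((𝒹 Q).ξ_ne c) (ch_frac Q c) ?_
  intro d N σ c hc h
  exact ⟨SS_normal T d N σ c (fun j hj => (hc j hj).1) h, Ge_normal Q N σ c (fun j hj => (hc j hj).2) h⟩

/-- weight vectors -/
def IsHom (H : RatFunc K) : Prop := ∃ (f : K) (j : ℤ), H = ik f * tt ^ j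

theorem IsHom.mul {H H' : RatFunc K} (h : IsHom H) (h' : IsHom H') : IsHom (H * H') := by
  obtain ⟨f, j, rfl⟩ := h
  obtain ⟨f', j', rfl⟩ := h'
  exact ⟨f * f', j + j', by rw [map_mul, zpow_add₀ tt_ne]; ring⟩

theorem IsHom.one : IsHom (1 : RatFunc K) := ⟨1, 0, by rw [map_one, zpow_zero, mul_one]⟩

theorem IsHom.pow {H : RatFunc K} (h : IsHom H) (i : ℕ) : IsHom (H ^ i) := by
  induction i with
  | zero => rw [pow_zero]; exact IsHom.one
  | succ i ih => rw [pow_succ]; exact ih.mul h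

theorem IsHom.inv {H : RatFunc K} (h : IsHom H) : IsHom H⁻¹ := by
  obtain ⟨f, j, rfl⟩ := h
  exact ⟨f⁻¹, -j, by rw [map_inv₀, mul_inv, zpow_neg]⟩

theorem hom_t : IsHom (𝒹 Q).t := ⟨1, 1, by rw [map_one, one_mul, zpow_one]; rfl⟩

theorem hom_ξ (j : Fin 3) : IsHom ((𝒹 Q).ξ j) := by
  fin_cases j
  · exact IsHom.one
  · exact ⟨_, _, rfl⟩
  · exact ⟨_, _, rfl⟩

theorem hom_θ (i : Fin (b (n + 2)) × Fin (b (n + 1))) : IsHom ((𝒹 Q).θ i) := ⟨_, _, rfl⟩

theorem ch_equiv (c : Fin 3) {F : RatFunc K} (hF : F ∈ (𝒹 Q).ch c) :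
    F ∈ Submodule.span ℂ {H : RatFunc K | H ∈ (𝒹 Q).ch c ∧ IsHom H} := by
  obtain ⟨i, hi⟩ := hF
  have h0 := (𝒹 Q).ξ_ne c
  have h1 := spans Q _ _ hi
  have key : ∀ G ∈ Submodule.span ℂ {H : RatFunc K | ∃ (a : ℕ)
      (τ : Fin (b (n + 2)) × Fin (b (n + 1))) (m : Fin 3 → ℕ),
      ∑ j, (𝒹 Q).w j * m j + (𝒹 Q).μ τ = (𝒹 Q).w c * i ∧
      H = (𝒹 Q).t ^ a * (𝒹 Q).θ τ * ∏ j, (𝒹 Q).ξ j ^ m j},
      G / (𝒹 Q).ξ c ^ i ∈ Submodule.span ℂ {H : RatFunc K | H ∈ (𝒹 Q).ch c ∧ IsHom H} := by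
    intro G hG
    induction hG using Submodule.span_induction with
    | mem G hG =>
      obtain ⟨a, τ, m, hm, rfl⟩ := hG
      refine Submodule.subset_span ⟨?_, ?_⟩
      · refine GS.div_mem_chart h0 ((𝒢 Q).cast ?_ ((𝒢 Q).mul_mem ((𝒢 Q).mul_mem
          ((𝒢 Q).pow_mem (𝒹 Q).t_mem a) ((𝒹 Q).θ_mem τ)) ((𝒹 Q).prod_mem m)))
        rw [← hm]; ring
      · rw [div_eq_mul_inv]
        refine (((hom_t Q).pow a).mul (hom_θ Q τ) |>.mul ?_).mul ((hom_ξ Q c).pow i).inv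
        rw [Fin.prod_univ_three]
        exact (((hom_ξ Q 0).pow _).mul ((hom_ξ Q 1).pow _)).mul ((hom_ξ Q 2).pow _)
    | zero => rw [zero_div]; exact Submodule.zero_mem _
    | add u v _ _ hu hv => rw [add_div]; exact Submodule.add_mem _ hu hv
    | smul a u _ hu => rw [smul_div_assoc]; exact Submodule.smul_mem _ a hu
  have := key _ h1
  rwa [mul_div_cancel_right₀ _ (pow_ne_zero _ h0)] at this

end fam

end Pool.Agent.U198.SD
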