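import Pool.Agent.Helper774.KSing.Tor

/-!
The combinatorial data of the weighted projective planes `P(1, p², q²)`.
-/

noncomputable section

namespace Pool.Agent.U198.SD

open Pool.Agent.Helper774.KSing

/-- the cones of the fan with rays `(1,0)`, `(0,1)`, `(-p²,-q²)` -/
def triR (p q : ℕ) : Fin 3 → Matrix (Fin 2) (Fin 2) ℤ :=
  ![!![1, 0; 0, 1], !![0, -(p : ℤ) ^ 2; 1, -(q : ℤ) ^ 2], !![1, -(p : ℤ) ^ 2; 0, -(q : ℤ) ^ 2]]

/-- the vertices of the moment polygon -/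
def triw (p q p' q' : ℕ) : Fin 3 → Fin 2 → ℤ :=
  ![![-(p * q), -(p * q)], ![q * q', -(p * q)], ![-(p * q), p * p']]

theorem triR0 (p q : ℕ) (u : Fin 2 → ℤ) : Matrix.vecMul u (triR p q 0) = ![u 0, u 1] := by
  ext j
  fin_cases j <;> simp [triR, Matrix.vecMul, dotProduct, Fin.sum_univ_two]

theorem triR1 (p q : ℕ) (u : Fin 2 → ℤ) : Matrix.vecMul u (triR p q 1) =
    ![u 1, -(p : ℤ) ^ 2 * u 0 - (q : ℤ) ^ 2 * u 1] := by
  ext j
  fin_cases j
  · simp [triR, Matrix.vecMul, dotProduct, Fin.sum_univ_two]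
  · simp [triR, Matrix.vecMul, dotProduct, Fin.sum_univ_two]
    ring

theorem triR2 (p q : ℕ) (u : Fin 2 → ℤ) : Matrix.vecMul u (triR p q 2) =
    ![u 0, -(p : ℤ) ^ 2 * u 0 - (q : ℤ) ^ 2 * u 1] := by
  ext j
  fin_cases j
  · simp [triR, Matrix.vecMul, dotProduct, Fin.sum_univ_two]
  · simp [triR, Matrix.vecMul, dotProduct, Fin.sum_univ_two]
    ring

theorem fin3 {P : Fin 3 → Prop} (h0 : P 0) (h1 : P 1) (h2 : P 2) (σ : Fin 3) : P σ := by
  fin_cases σ
  · exact h0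
  · exact h1
  · exact h2

theorem fin2 {P : Fin 2 → Prop} (h0 : P 0) (h1 : P 1) (σ : Fin 2) : P σ := by
  fin_cases σ
  · exact h0
  · exact h1

/-- The data of `P(1, p², q²)`. -/
def triData (p q p' q' : ℕ) (hp : 1 ≤ p) (hq : 1 ≤ q) (h1 : p * q' = q ^ 2 + 1)
    (h2 : q * p' = p ^ 2 + 1) : SData 2 where
  pos := by norm_num
  ι := Fin 3
  R := triR p q
  det_ne := by
    have hp' : (1 : ℤ) ≤ p := by exact_mod_cast hp
    have hq' : (1 : ℤ) ≤ q := by exact_mod_cast hq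
    refine fin3 ?_ ?_ ?_
    · rw [Matrix.det_fin_two]; simp [triR]
    · rw [Matrix.det_fin_two]; simp [triR]; omega
    · rw [Matrix.det_fin_two]; simp [triR]; omega
  prim := by
    have h1' : (p : ℤ) * q' = q ^ 2 + 1 := by exact_mod_cast h1
    have hv : -(p : ℤ) ^ 2 * (-(q' : ℤ) ^ 2) - (q : ℤ) ^ 2 * ((q : ℤ) ^ 2 + 2) = 1 := by
      linear_combination ((p : ℤ) * q' + q ^ 2 + 1) * h1'
    refine fin3 (fin2 ⟨![1, 0], ?_⟩ ⟨![0, 1], ?_⟩)
      (fin2 ⟨![0, 1], ?_⟩ ⟨![-(q' : ℤ) ^ 2, (q : ℤ) ^ 2 + 2], ?_⟩)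
      (fin2 ⟨![1, 0], ?_⟩ ⟨![-(q' : ℤ) ^ 2, (q : ℤ) ^ 2 + 2], ?_⟩)
    · rw [triR0]; simp
    · rw [triR0]; simp
    · rw [triR1]; simp
    · rw [triR1]; simpa using hv
    · rw [triR2]; simp
    · rw [triR2]; simpa using hv
  r := p * q
  r_pos := Nat.mul_pos hp hq
  w := triw p q p' q'
  w_self := by
    have h1' : (p : ℤ) * q' = q ^ 2 + 1 := by exact_mod_cast h1
    have h2' : (q : ℤ) * p' = p ^ 2 + 1 := by exact_mod_cast h2
    refine fin3 (fin2 ?_ ?_) (fin2 ?_ ?_) (fin2 ?_ ?_)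
    · rw [triR0]; simp [triw]
    · rw [triR0]; simp [triw]
    · rw [triR1]; simp [triw]
    · rw [triR1]; simp [triw]; linear_combination (-(p : ℤ) * q) * h1'
    · rw [triR2]; simp [triw]
    · rw [triR2]; simp [triw]; linear_combination (-(p : ℤ) * q) * h2'
  vert := by
    have h1' : (p : ℤ) * q' = q ^ 2 + 1 := by exact_mod_cast h1
    have h2' : (q : ℤ) * p' = p ^ 2 + 1 := by exact_mod_cast h2
    have hpq : (0 : ℤ) ≤ (p : ℤ) * q := by positivity
    have hq2 : (0 : ℤ) ≤ (q : ℤ) * q' := by positivity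
    have hp2 : (0 : ℤ) ≤ (p : ℤ) * p' := by positivity
    have h3 : (0 : ℤ) ≤ (p : ℤ) * q * (p ^ 2 + q ^ 2) := by positivity
    refine fin3 (fin3 (fin2 ?_ ?_) (fin2 ?_ ?_) (fin2 ?_ ?_))
      (fin3 (fin2 ?_ ?_) (fin2 ?_ ?_) (fin2 ?_ ?_)) (fin3 (fin2 ?_ ?_) (fin2 ?_ ?_) (fin2 ?_ ?_))
    · rw [triR0]; simp [triw]
    · rw [triR0]; simp [triw]
    · rw [triR1]; simp [triw]
    · rw [triR1]; simp [triw]; nlinarith
    · rw [triR2]; simp [triw]
    · rw [triR2]; simp [triw]; nlinarith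
    · rw [triR0]; simp [triw]; linarith
    · rw [triR0]; simp [triw]
    · rw [triR1]; simp [triw]
    · rw [triR1]; simp [triw]
      have e : (q : ℤ) ^ 2 * (p * q) = p ^ 2 * (q * q') - p * q := by
        linear_combination (-(p : ℤ) * q) * h1'
      linarith
    · rw [triR2]; simp [triw]; linarith
    · rw [triR2]; simp [triw]
      have e : (q : ℤ) ^ 2 * (p * q) = p ^ 2 * (q * q') - p * q := by
        linear_combination (-(p : ℤ) * q) * h1'
      linarith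
    · rw [triR0]; simp [triw]
    · rw [triR0]; simp [triw]; linarith
    · rw [triR1]; simp [triw]; linarith
    · rw [triR1]; simp [triw]
      have e : (p : ℤ) ^ 2 * (p * q) = q ^ 2 * (p * p') - p * q := by
        linear_combination (-(p : ℤ) * q) * h2'
      linarith
    · rw [triR2]; simp [triw]
    · rw [triR2]; simp [triw]
      have e : (p : ℤ) ^ 2 * (p * q) = q ^ 2 * (p * p') - p * q := by
        linear_combination (-(p : ℤ) * q) * h2'
      linarith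
  strict := by
    have hp' : (1 : ℤ) ≤ p := by exact_mod_cast hp
    have hq' : (1 : ℤ) ≤ q := by exact_mod_cast hq
    have hpq : (0 : ℤ) < (p : ℤ) * q := by positivity
    have hq2 : (0 : ℤ) ≤ (q : ℤ) * q' := by positivity
    have hp2 : (0 : ℤ) ≤ (p : ℤ) * p' := by positivity
    have h3 : (0 : ℤ) < (p : ℤ) * q * (p ^ 2 + q ^ 2) := by positivity
    refine fin3 (fin3 (fin2 ?_ ?_) (fin2 ?_ ?_) (fin2 ?_ ?_))
      (fin3 (fin2 ?_ ?_) (fin2 ?_ ?_) (fin2 ?_ ?_)) (fin3 (fin2 ?_ ?_) (fin2 ?_ ?_) (fin2 ?_ ?_))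
    · exact fun _ => ⟨0, fin2 rfl rfl⟩
    · exact fun _ => ⟨1, fin2 rfl rfl⟩
    · exact fun _ => ⟨1, fin2 rfl rfl⟩
    · rw [triR1]; intro h; exfalso; simp [triw] at h; nlinarith
    · exact fun _ => ⟨0, fin2 rfl rfl⟩
    · rw [triR2]; intro h; exfalso; simp [triw] at h; nlinarith
    · rw [triR0]; intro h; exfalso; simp [triw] at h; linarith
    · exact fun _ => ⟨0, fin2 rfl rfl⟩
    · exact fun _ => ⟨0, fin2 rfl rfl⟩
    · exact fun _ => ⟨1, fin2 rfl rfl⟩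
    · rw [triR2]; intro h; exfalso; simp [triw] at h; linarith
    · exact fun _ => ⟨1, fin2 rfl rfl⟩
    · exact fun _ => ⟨0, fin2 rfl rfl⟩
    · rw [triR0]; intro h; exfalso; simp [triw] at h; linarith
    · rw [triR1]; intro h; exfalso; simp [triw] at h; linarith
    · exact fun _ => ⟨1, fin2 rfl rfl⟩
    · exact fun _ => ⟨0, fin2 rfl rfl⟩
    · exact fun _ => ⟨1, fin2 rfl rfl⟩
  nbr := by
    have h1' : (p : ℤ) * q' = q ^ 2 + 1 := by exact_mod_cast h1
    have h2' : (q : ℤ) * p' = p ^ 2 + 1 := by exact_mod_cast h2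
    have hp' : (1 : ℤ) ≤ p := by exact_mod_cast hp
    have hq' : (1 : ℤ) ≤ q := by exact_mod_cast hq
    have hpq : (0 : ℤ) < (p : ℤ) * q := by positivity
    have hq2 : (0 : ℤ) ≤ (q : ℤ) * q' := by positivity
    have hp2 : (0 : ℤ) ≤ (p : ℤ) * p' := by positivity
    have h3 : (0 : ℤ) < (p : ℤ) * q * (p ^ 2 + q ^ 2) := by positivity
    have e1 : (q : ℤ) ^ 2 * (p * q) = p ^ 2 * (q * q') - p * q := by
      linear_combination (-(p : ℤ) * q) * h1'
    have e2 : (p : ℤ) ^ 2 * (p * q) = q ^ 2 * (p * p') - p * q := by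
      linear_combination (-(p : ℤ) * q) * h2'
    refine fin3 (fin2 ⟨1, fin2 (fun h => absurd rfl h) (fun _ => ?_), ?_⟩
      ⟨2, fin2 (fun _ => ?_) (fun h => absurd rfl h), ?_⟩)
      (fin2 ⟨2, fin2 (fun h => absurd rfl h) (fun _ => ?_), ?_⟩
      ⟨0, fin2 (fun _ => ?_) (fun h => absurd rfl h), ?_⟩)
      (fin2 ⟨1, fin2 (fun h => absurd rfl h) (fun _ => ?_), ?_⟩
      ⟨0, fin2 (fun _ => ?_) (fun h => absurd rfl h), ?_⟩)
    · rw [triR0]; simp [triw]
    · rw [triR0]; intro h; simp [triw] at h; linarith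
    · rw [triR0]; simp [triw]
    · rw [triR0]; intro h; simp [triw] at h; linarith
    · rw [triR1]; simp [triw]; linarith
    · rw [triR1]; intro h; simp [triw] at h; linarith
    · rw [triR1]; simp [triw]
    · rw [triR1]; intro h; simp [triw] at h; nlinarith
    · rw [triR2]; simp [triw]; linarith
    · rw [triR2]; intro h; simp [triw] at h; linarith
    · rw [triR2]; simp [triw]
    · rw [triR2]; intro h; simp [triw] at h; nlinarith
  ne := ⟨0⟩

end Pool.Agent.U198.SD
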