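import Pool.Agent.U198.SD.Fam2
import Pool.Agent.U198.SD.TriData

/-!
The central fibre of the degeneration.
-/

noncomputable section

namespace Pool.Agent.U198.SD

open Pool.Agent.Helper774.KStab (TorusField)
open Pool.Agent.Helper774.KSing

variable {K : Type} [Field K] [Algebra ℂ K]

/-- the projective plane -/
@[reducible] def PP (T : TorusField 2 K) : Variety :=
  toricVar T (triData 1 1 2 2 le_rfl le_rfl (by norm_num) (by norm_num))

/-- the data of the central fibre `P(1, b², c²)` -/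
def cData (n : ℕ) : SData 2 :=
  triData (b (n + 1)) (b (n + 2)) (b n) (b (n + 3)) (b_pos _) (b_pos _) (b_mul (n + 1))
    (by rw [mul_comm]; exact b_mul n)

/-- the weighted projective plane `P(1, b², c²)` -/
@[reducible] def WP (T : TorusField 2 K) (n : ℕ) : Variety := toricVar (tor T (n + 1)) (cData n)

section fam

variable {T : TorusField 2 K} {n : ℕ} (Q : TotHom (tor T (n + 1)) (wp n) (wq n))

/-- the vertices of the triangle -/
def vtx (n : ℕ) : Fin 3 → Fin 2 → ℤ := ![0, ![(b (n + 2) : ℤ), 0], ![0, (b (n + 1) : ℤ)]]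

theorem Ld_ξ (c : Fin 3) : Ld 0 ((tor T (n + 1)).χ (vtx n c)) (Q.Ψ ((𝒹 Q).ξ c)) := by
  refine fin3 (P := fun c => Ld 0 ((tor T (n + 1)).χ (vtx n c)) (Q.Ψ ((𝒹 Q).ξ c))) ?_ ?_ ?_ c
  · show Ld 0 ((tor T (n + 1)).χ 0) (Q.Ψ 1)
    rw [(tor T (n + 1)).χ_zero, map_one]
    exact Ld_one
  · show Ld 0 ((tor T (n + 1)).χ ![(b (n + 2) : ℤ), 0]) (Q.Ψ (ik (G T (n + 1)) *
      tt ^ (-(wp n * b (n + 2)))))
    have h := chi_VW T (n + 1) (b (n + 2)) 0
    rw [pow_zero, mul_one] at h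
    simp only [Nat.cast_zero] at h
    rw [h]
    exact Ld_cast (Ld_ik Q (Ld_G (QP Q) (n + 1) le_rfl) _)
      (by rw [show n + 1 + 1 = n + 2 from rfl]; ring) rfl
  · show Ld 0 ((tor T (n + 1)).χ ![0, (b (n + 1) : ℤ)]) (Q.Ψ (ik (G T (n + 2)) *
      tt ^ (-(wq n * b (n + 1)))))
    have h := chi_VW T (n + 1) 0 (b (n + 1))
    rw [pow_zero, one_mul] at h
    simp only [Nat.cast_zero] at h
    rw [h]
    exact Ld_cast (Ld_ik Q (Ld_G2 (QP Q)) _) (by ring) rfl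

theorem χξ_ne (c : Fin 3) : (tor T (n + 1)).χ (vtx n c) ≠ 0 := chi_ne'' _ _

theorem ch_ge (c : Fin 3) {F : RatFunc K} (hF : F ∈ (𝒹 Q).ch c) : Ge 0 (Q.Ψ F) := by
  obtain ⟨i, hi⟩ := hF
  have h0 := (𝒹 Q).ξ_ne c
  have e : F = F * (𝒹 Q).ξ c ^ i * ((𝒹 Q).ξ c ^ i)⁻¹ := by
    rw [mul_assoc, mul_inv_cancel₀ (pow_ne_zero _ h0), mul_one]
  rw [e, map_mul, map_inv₀, map_pow]
  have h1 := Ge_mul hi.2 (Ld_inv (Ld_pow (Ld_ξ Q c) i) (pow_ne_zero _ (χξ_ne c))).ge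
  exact Ge_mono h1 (by simp)

/-- the functions which are regular along the central fibre -/
def BB : Subalgebra ℂ (RatFunc K) where
  carrier := {F | Ge 0 (Q.Ψ F)}
  mul_mem' := by
    intro f g hf hg
    show Ge 0 (Q.Ψ (f * g))
    rw [map_mul]; simpa using Ge_mul hf hg
  add_mem' := by
    intro f g hf hg
    show Ge 0 (Q.Ψ (f + g))
    rw [map_add]; exact Ge_add hf hg
  algebraMap_mem' := by
    intro c
    show Ge 0 (Q.Ψ (algebraMap ℂ (RatFunc K) c))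
    rw [Q.C_]
    intro k hk
    rw [HahnSeries.coeff_single, if_neg hk.ne]

/-- the restriction to the central fibre -/
def rs : BB Q →ₐ[ℂ] K where
  toFun F := (Q.Ψ F).coeff 0
  map_one' := by
    show (Q.Ψ 1).coeff 0 = 1
    rw [map_one]; exact Ld_one.2
  map_zero' := by
    show (Q.Ψ 0).coeff 0 = 0
    rw [map_zero, HahnSeries.coeff_zero]
  map_mul' F H := by
    show (Q.Ψ (F * H)).coeff 0 = _
    have hF : Ge 0 (Q.Ψ F) := F.2
    have hH : Ge 0 (Q.Ψ H) := H.2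
    rw [map_mul]
    exact (Ld_mul hF.ld hH.ld).2
  map_add' F H := by
    show (Q.Ψ (F + H)).coeff 0 = _
    rw [map_add, HahnSeries.coeff_add]
  commutes' c := by
    show (Q.Ψ (algebraMap ℂ (RatFunc K) c)).coeff 0 = _
    rw [Q.C_, HahnSeries.coeff_single, if_pos rfl]

theorem rs_apply (F : BB Q) : rs Q F = (Q.Ψ F).coeff 0 := rfl

theorem tinv_not (c : Fin 3) : (tt : RatFunc K)⁻¹ ∉ (𝒹 Q).ch c := by
  intro h
  have h1 := ch_ge Q c h
  have h2 := Q.Ld_tpow (-1)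
  rw [zpow_neg_one] at h2
  have := h2.2
  rw [h1 _ (by norm_num)] at this
  exact zero_ne_one this

theorem SS_tpow {d : ℕ} {F : RatFunc K} (hF : F ∈ SS T d) (i : ℤ) : F * tt ^ i ∈ SS T d := by
  obtain ⟨h1, s, -, h3⟩ := SS_decomp T hF
  rw [h3, Finset.sum_mul]
  refine Submodule.sum_mem _ fun j _ => ?_
  rw [mul_assoc, ← zpow_add₀ tt_ne]
  exact SS_ik T (h1 j) _

theorem rs_ker (c : Fin 3) (F : BB Q) (hF : (F : RatFunc K) ∈ (𝒹 Q).ch c) :
    rs Q F = 0 ↔ ∃ f ∈ (𝒹 Q).ch c, (F : RatFunc K) = tt * f := by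
  constructor
  · intro h
    obtain ⟨i, hi⟩ := hF
    have h1 : Ge 1 (Q.Ψ ((F : RatFunc K) * (𝒹 Q).ξ c ^ i)) := by
      have h2 : Ge 1 (Q.Ψ (F : RatFunc K)) := by
        intro k hk
        rcases lt_or_ge k 0 with h' | h'
        · have : Ge 0 (Q.Ψ (F : RatFunc K)) := F.2
          exact this k h'
        · have : k = 0 := by omega
          rw [this]; exact h
      rw [map_mul, map_pow]
      exact Ge_mono (Ge_mul h2 (Ge_pow (Ld_ξ Q c).ge i)) (by simp)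
    refine ⟨(F : RatFunc K) * tt ^ (-1 : ℤ), ⟨i, ?_, ?_⟩, ?_⟩
    · have e : (F : RatFunc K) * tt ^ (-1 : ℤ) * (𝒹 Q).ξ c ^ i =
          (F : RatFunc K) * (𝒹 Q).ξ c ^ i * tt ^ (-1 : ℤ) := by ring
      rw [e]
      exact SS_tpow hi.1 _
    · have e : (F : RatFunc K) * tt ^ (-1 : ℤ) * (𝒹 Q).ξ c ^ i =
          (F : RatFunc K) * (𝒹 Q).ξ c ^ i * tt ^ (-1 : ℤ) := by ring
      rw [e, map_mul]
      exact Ge_mono (Ge_mul h1 (Q.Ld_tpow (-1)).ge) (by norm_num)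
    · rw [zpow_neg_one, mul_comm, mul_assoc, inv_mul_cancel₀ tt_ne, mul_one]
  · rintro ⟨f, hf, he⟩
    rw [rs_apply, he, map_mul]
    have h1 := ch_ge Q c hf
    exact Ge_mul Q.Ld_tt.ge h1 0 (by norm_num)

/-- the leading coefficients of the elements of the graded system -/
theorem RT_coeff {d : ℕ} {F : RatFunc K} (hF : F ∈ RT Q d) : (Q.Ψ F).coeff 0 ∈
    Submodule.span ℂ ((tor T (n + 1)).χ '' tri n d) := by
  obtain ⟨h1, s, -, h3⟩ := SS_decomp T hF.1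
  have h4 := SS_ge Q hF.1 hF.2
  have e : (Q.Ψ F).coeff 0 = ∑ i ∈ s, ((QP Q).Φ ((ls F).coeff i)).coeff (0 - i) := by
    conv_lhs => rw [h3]
    rw [map_sum, HahnSeries.coeff_sum]
    refine Finset.sum_congr rfl fun i _ => ?_
    have h5 := (Ld_ik Q (h4 i).ld i).2
    rw [sub_add_cancel] at h5
    exact h5
  rw [e]
  refine Submodule.sum_mem _ fun i _ => ?_
  obtain ⟨c, hc, hc2⟩ := lead_tri (QP Q) d (h1 i) _ (h4 i)
  rw [hc, Finsupp.mem_span_image_iff_linearCombination]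
  exact ⟨c, (Finsupp.mem_supported ℂ c).2 fun v hv => (hc2 v hv).2, rfl⟩

theorem tri_sub (c : Fin 3) (i : ℕ) {u : Fin 2 → ℤ} (hu : u ∈ tri n ((𝒹 Q).w c * i)) :
    u - (i : ℤ) • vtx n c ∈ Mset ((cData n).R c) 0 := by
  revert hu
  have h1 : (1 : ℤ) ≤ b (n + 1) := by exact_mod_cast b_pos (n + 1)
  have h2 : (1 : ℤ) ≤ b (n + 2) := by exact_mod_cast b_pos (n + 2)
  refine fin3 (P := fun c => u ∈ tri n ((𝒹 Q).w c * i) →
    u - (i : ℤ) • vtx n c ∈ Mset ((cData n).R c) 0) ?_ ?_ ?_ c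
  · rintro ⟨h3, h4, h5⟩
    show ∀ j, 0 ≤ Matrix.vecMul (u - (i : ℤ) • vtx n 0) (triR (b (n + 1)) (b (n + 2)) 0) j
    rw [triR0]
    refine fin2 ?_ ?_
    · simpa [vtx] using h3
    · simpa [vtx] using h4
  · rintro ⟨h3, h4, h5⟩
    show ∀ j, 0 ≤ Matrix.vecMul (u - (i : ℤ) • vtx n 1) (triR (b (n + 1)) (b (n + 2)) 1) j
    rw [triR1]
    simp only [𝒹, Matrix.cons_val_zero, Matrix.cons_val_one, Matrix.cons_val] at h5
    push_cast at h5
    refine fin2 ?_ ?_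
    · simpa [vtx] using h4
    · simp [vtx]
      linarith
  · rintro ⟨h3, h4, h5⟩
    show ∀ j, 0 ≤ Matrix.vecMul (u - (i : ℤ) • vtx n 2) (triR (b (n + 1)) (b (n + 2)) 2) j
    rw [triR2]
    simp only [𝒹, Matrix.cons_val_zero, Matrix.cons_val_one, Matrix.cons_val] at h5
    push_cast at h5
    refine fin2 ?_ ?_
    · simpa [vtx] using h3
    · simp [vtx]
      linarith

theorem tri_add (c : Fin 3) {v : Fin 2 → ℤ} (hv : v ∈ Mset ((cData n).R c) 0) :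
    ∃ i : ℕ, v + (i : ℤ) • vtx n c ∈ tri n ((𝒹 Q).w c * i) := by
  revert hv
  have h1 : (1 : ℤ) ≤ b (n + 1) := by exact_mod_cast b_pos (n + 1)
  have h2 : (1 : ℤ) ≤ b (n + 2) := by exact_mod_cast b_pos (n + 2)
  have h12 : (1 : ℤ) ≤ (b (n + 1) : ℤ) * b (n + 2) := by nlinarith
  refine fin3 (P := fun c => v ∈ Mset ((cData n).R c) 0 →
    ∃ i : ℕ, v + (i : ℤ) • vtx n c ∈ tri n ((𝒹 Q).w c * i)) ?_ ?_ ?_ c
  · intro hv
    have h3 : ∀ j, 0 ≤ Matrix.vecMul v (triR (b (n + 1)) (b (n + 2)) 0) j := hv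
    rw [triR0] at h3
    have h4 : 0 ≤ v 0 := h3 0
    have h5 : 0 ≤ v 1 := h3 1
    refine ⟨(b (n + 1) ^ 2 * (v 0).toNat + b (n + 2) ^ 2 * (v 1).toNat), ?_, ?_, ?_⟩
    · simpa [vtx] using h4
    · simpa [vtx] using h5
    · have h6 : ((v 0).toNat : ℤ) = v 0 := Int.toNat_of_nonneg h4
      have h7 : ((v 1).toNat : ℤ) = v 1 := Int.toNat_of_nonneg h5
      simp [𝒹, vtx]
      rw [max_eq_left h4, max_eq_left h5]
      have h8 : 0 ≤ (b (n + 1) : ℤ) ^ 2 * v 0 + (b (n + 2) : ℤ) ^ 2 * v 1 := by positivity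
      nlinarith
  · intro hv
    have h3 : ∀ j, 0 ≤ Matrix.vecMul v (triR (b (n + 1)) (b (n + 2)) 1) j := hv
    rw [triR1] at h3
    have h4 : 0 ≤ v 1 := h3 0
    have h5 : 0 ≤ -(b (n + 1) : ℤ) ^ 2 * v 0 - (b (n + 2) : ℤ) ^ 2 * v 1 := h3 1
    refine ⟨(v 0).natAbs, ?_, ?_, ?_⟩
    · simp [vtx]
      have := neg_abs_le (v 0)
      have h6 := abs_nonneg (v 0)
      nlinarith
    · simpa [vtx] using h4
    · simp [𝒹, vtx]
      nlinarith
  · intro hv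
    have h3 : ∀ j, 0 ≤ Matrix.vecMul v (triR (b (n + 1)) (b (n + 2)) 2) j := hv
    rw [triR2] at h3
    have h4 : 0 ≤ v 0 := h3 0
    have h5 : 0 ≤ -(b (n + 1) : ℤ) ^ 2 * v 0 - (b (n + 2) : ℤ) ^ 2 * v 1 := h3 1
    refine ⟨(v 1).natAbs, ?_, ?_, ?_⟩
    · simpa [vtx] using h4
    · simp [vtx]
      have := neg_abs_le (v 1)
      have h6 := abs_nonneg (v 1)
      nlinarith
    · simp [𝒹, vtx]
      nlinarith

theorem χ_smul (S : TorusField 2 K) (i : ℕ) (u : Fin 2 → ℤ) : S.χ ((i : ℤ) • u) = S.χ u ^ i := by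
  rw [natCast_zsmul, chi_nsmul']

theorem rs_img (c : Fin 3) (y : K) : y ∈ cone (tor T (n + 1)) ((cData n).R c) ↔
    ∃ a : BB Q, (a : RatFunc K) ∈ (𝒹 Q).ch c ∧ rs Q a = y := by
  constructor
  · intro hy
    rw [mem_cone] at hy
    induction hy using Submodule.span_induction with
    | mem y hy =>
      obtain ⟨v, hv, rfl⟩ := hy
      obtain ⟨i, hi⟩ := tri_add Q c hv
      obtain ⟨f, hf, hl⟩ := lead_surj (QP Q) _ hi
      have h1 : ik f * tt ^ (-wt n (v + (i : ℤ) • vtx n c)) / (𝒹 Q).ξ c ^ i ∈ (𝒹 Q).ch c :=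
        GS.div_mem_chart ((𝒹 Q).ξ_ne c) (mem_RT Q hf hl.ge _ (by linarith))
      refine ⟨⟨_, ch_ge Q c h1⟩, h1, ?_⟩
      rw [rs_apply, map_div₀, map_pow]
      have h2 := Ld_div (Ld_ik Q hl (-wt n (v + (i : ℤ) • vtx n c))) (Ld_pow (Ld_ξ Q c) i)
        (pow_ne_zero _ (χξ_ne c))
      have h3 := h2.2
      rw [add_neg_cancel, mul_zero, sub_zero] at h3
      rw [h3, (tor T (n + 1)).χ_add, χ_smul, mul_div_cancel_right₀ _ (pow_ne_zero _ (χξ_ne c))]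
    | zero => exact ⟨0, zero_mem _, map_zero _⟩
    | add u v _ _ hu hv =>
      obtain ⟨a, ha, rfl⟩ := hu
      obtain ⟨a', ha', rfl⟩ := hv
      exact ⟨a + a', add_mem ha ha', map_add _ _ _⟩
    | smul z u _ hu =>
      obtain ⟨a, ha, rfl⟩ := hu
      exact ⟨z • a, Subalgebra.smul_mem _ ha z, map_smul _ _ _⟩
  · rintro ⟨a, ⟨i, hi⟩, rfl⟩
    have h1 := RT_coeff Q hi
    have h2 : (Q.Ψ ((a : RatFunc K) * (𝒹 Q).ξ c ^ i)).coeff 0 =
        rs Q a * (tor T (n + 1)).χ (vtx n c) ^ i := by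
      have ha : Ge 0 (Q.Ψ (a : RatFunc K)) := a.2
      have h3 := (Ld_mul ha.ld (Ld_pow (Ld_ξ Q c) i)).2
      rw [mul_zero, add_zero] at h3
      rw [map_mul, map_pow, h3]
      rfl
    rw [h2] at h1
    have h3 : rs Q a = rs Q a * (tor T (n + 1)).χ (vtx n c) ^ i *
        (tor T (n + 1)).χ (-((i : ℤ) • vtx n c)) := by
      rw [chi_neg', χ_smul, mul_assoc, mul_inv_cancel₀ (pow_ne_zero _ (χξ_ne c)), mul_one]
    rw [h3]
    generalize rs Q a * (tor T (n + 1)).χ (vtx n c) ^ i = y at h1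
    rw [mem_cone]
    induction h1 using Submodule.span_induction with
    | mem y hy =>
      obtain ⟨u, hu, rfl⟩ := hy
      rw [← (tor T (n + 1)).χ_add, ← sub_eq_add_neg]
      exact Submodule.subset_span ⟨_, tri_sub Q c i hu, rfl⟩
    | zero => rw [zero_mul]; exact Submodule.zero_mem _
    | add u v _ _ hu hv => rw [add_mul]; exact Submodule.add_mem _ hu hv
    | smul z u _ hu => rw [smul_mul_assoc]; exact Submodule.smul_mem _ _ hu

end fam

end Pool.Agent.U198.SD
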