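import Pool.Agent.U198.SD.Fam3

/-!
The part of the degeneration over `𝔸¹ ∖ 0`.
-/

noncomputable section

namespace Pool.Agent.U198.SD

open Pool.Agent.Helper774.KStab (TorusField)
open Pool.Agent.Helper774.KSing

variable {K : Type} [Field K] [Algebra ℂ K]

section st

variable (T : TorusField 2 K)

/-- the graded system of `ℙ² × (𝔸¹ ∖ 0)` -/
def SG : GS (RatFunc K) where
  R := SS T
  one_mem := SS_one T
  mul_mem := fun h h' => SS_mul T h h'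

/-- exponents of the homogeneous coordinates -/
def vs : Fin 3 → Fin 2 → ℤ := ![0, ![1, 0], ![0, 1]]

/-- the homogeneous coordinates -/
def xs (σ : Fin 3) : RatFunc K := ik (T.χ (vs σ))

theorem xs_ne (σ : Fin 3) : xs T σ ≠ 0 := fun h => chi_ne'' T (vs σ) (ik_inj (by
  rw [map_zero]; exact h))

theorem xs_mem (σ : Fin 3) : xs T σ ∈ (SG T).R 1 := by
  have key : ∀ f ∈ RR T 1, ik f ∈ SS T 1 := by
    intro f hf
    have := SS_ik T hf 0
    rwa [zpow_zero, mul_one] at this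
  refine key _ ?_
  refine fin3 (P := fun σ => T.χ (vs σ) ∈ RR T 1) ?_ ?_ ?_ σ
  · show T.χ 0 ∈ RR T 1
    rw [T.χ_zero]
    exact RR_mono T (Nat.zero_le 1) (RR_one T)
  · exact RR_x T
  · exact RR_y T

/-- the standard charts -/
abbrev stc (σ : Fin 3) : Subalgebra ℂ (RatFunc K) := (SG T).chart 1 (xs T σ) (xs_mem T σ)

theorem sq_one (u : Fin 2 → ℤ) : -((1 : ℕ) : ℤ) ^ 2 * u 0 - ((1 : ℕ) : ℤ) ^ 2 * u 1 = -u 0 - u 1 := by
  push_cast; ring

theorem vs_sub (σ : Fin 3) (i : ℕ) {u : Fin 2 → ℤ} (hu : 0 ≤ u 0 ∧ 0 ≤ u 1 ∧ u 0 + u 1 ≤ i) :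
    u - (i : ℤ) • vs σ ∈ Mset (triR 1 1 σ) 0 := by
  obtain ⟨h0, h1, h2⟩ := hu
  refine fin3 (P := fun σ => u - (i : ℤ) • vs σ ∈ Mset (triR 1 1 σ) 0) ?_ ?_ ?_ σ
  · show ∀ j, 0 ≤ Matrix.vecMul (u - (i : ℤ) • vs 0) (triR 1 1 0) j
    rw [triR0]
    refine fin2 ?_ ?_
    · simpa [vs] using h0
    · simpa [vs] using h1
  · show ∀ j, 0 ≤ Matrix.vecMul (u - (i : ℤ) • vs 1) (triR 1 1 1) j
    rw [triR1, sq_one]
    refine fin2 ?_ ?_
    · simpa [vs] using h1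
    · simp [vs]
      linarith
  · show ∀ j, 0 ≤ Matrix.vecMul (u - (i : ℤ) • vs 2) (triR 1 1 2) j
    rw [triR2, sq_one]
    refine fin2 ?_ ?_
    · simpa [vs] using h0
    · simp [vs]
      linarith

theorem vs_add (σ : Fin 3) {v : Fin 2 → ℤ} (hv : v ∈ Mset (triR 1 1 σ) 0) :
    ∃ i : ℕ, 0 ≤ (v + (i : ℤ) • vs σ) 0 ∧ 0 ≤ (v + (i : ℤ) • vs σ) 1 ∧
      (v + (i : ℤ) • vs σ) 0 + (v + (i : ℤ) • vs σ) 1 ≤ i := by
  revert hv
  refine fin3 (P := fun σ => v ∈ Mset (triR 1 1 σ) 0 →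
    ∃ i : ℕ, 0 ≤ (v + (i : ℤ) • vs σ) 0 ∧ 0 ≤ (v + (i : ℤ) • vs σ) 1 ∧
      (v + (i : ℤ) • vs σ) 0 + (v + (i : ℤ) • vs σ) 1 ≤ i) ?_ ?_ ?_ σ
  · intro hv
    have h3 : ∀ j, 0 ≤ Matrix.vecMul v (triR 1 1 0) j := hv
    rw [triR0] at h3
    have h4 : 0 ≤ v 0 := h3 0
    have h5 : 0 ≤ v 1 := h3 1
    refine ⟨(v 0 + v 1).toNat, ?_, ?_, ?_⟩
    · simpa [vs] using h4
    · simpa [vs] using h5
    · simp [vs]
  · intro hv
    have h3 : ∀ j, 0 ≤ Matrix.vecMul v (triR 1 1 1) j := hv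
    rw [triR1, sq_one] at h3
    have h4 : 0 ≤ v 1 := h3 0
    have h5 : 0 ≤ -v 0 - v 1 := h3 1
    refine ⟨(v 0).natAbs, ?_, ?_, ?_⟩
    · simp [vs]
      have := neg_abs_le (v 0)
      linarith
    · simpa [vs] using h4
    · simp [vs]
      linarith
  · intro hv
    have h3 : ∀ j, 0 ≤ Matrix.vecMul v (triR 1 1 2) j := hv
    rw [triR2, sq_one] at h3
    have h4 : 0 ≤ v 0 := h3 0
    have h5 : 0 ≤ -v 0 - v 1 := h3 1
    refine ⟨(v 1).natAbs, ?_, ?_, ?_⟩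
    · simpa [vs] using h4
    · simp [vs]
      have := neg_abs_le (v 1)
      linarith
    · simp [vs]
      linarith

theorem tt_st (σ : Fin 3) (i : ℤ) : tt ^ i ∈ stc T σ := by
  refine ⟨0, ?_⟩
  rw [pow_zero, mul_one, mul_zero]
  have := SS_ik T (RR_one T) i
  rwa [map_one, one_mul] at this

theorem ik_st (σ : Fin 3) {v : Fin 2 → ℤ} (hv : v ∈ Mset (triR 1 1 σ) 0) : ik (T.χ v) ∈ stc T σ := by
  obtain ⟨i, hi⟩ := vs_add σ hv
  refine ⟨i, ?_⟩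
  rw [xs, ← map_pow, ← map_mul, ← χ_smul, ← T.χ_add, one_mul]
  have h1 : T.χ (v + (i : ℤ) • vs σ) ∈ RR T i := by
    have h2 := RR_chi T (d := i) (u := ![(v + (i : ℤ) • vs σ) 0, (v + (i : ℤ) • vs σ) 1, 0]) hi
    convert h2 using 2
    ext j
    fin_cases j <;> rfl
  have := SS_ik T h1 0
  rwa [zpow_zero, mul_one] at this

/-- the charts of `ℙ² × (𝔸¹ ∖ 0)` -/
theorem cyl_eq (σ : Fin 3) : cylinder (PP T) (cone T (triR 1 1 σ)) = stc T σ := by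
  apply le_antisymm
  · refine Algebra.adjoin_le ?_
    rintro _ (⟨f, hf, rfl⟩ | h)
    · have hf' : f ∈ mspan T (triR 1 1 σ) 0 := (mem_cone _ _ _).1 hf
      clear hf
      show ik f ∈ stc T σ
      induction hf' using Submodule.span_induction with
      | mem f hf =>
        obtain ⟨v, hv, rfl⟩ := hf
        exact ik_st T σ hv
      | zero => rw [map_zero]; exact zero_mem _
      | add u v _ _ hu hv => rw [map_add]; exact add_mem hu hv
      | smul z u _ hu => rw [ik_smul]; exact Subalgebra.smul_mem _ hu z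
    · rcases h with rfl | h
      · have := tt_st T σ 1
        rwa [zpow_one] at this
      · rw [Set.mem_singleton_iff] at h
        rw [h]
        have := tt_st T σ (-1)
        rwa [zpow_neg_one] at this
  · rintro F ⟨i, hi⟩
    have h0 := xs_ne T σ
    have ht : ∀ j : ℤ, (tt : RatFunc K) ^ j ∈ cylinder (PP T) (cone T (triR 1 1 σ)) := by
      intro j
      have h1 : (tt : RatFunc K) ∈ cylinder (PP T) (cone T (triR 1 1 σ)) :=
        Algebra.subset_adjoin (Or.inr (Or.inl rfl))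
      have h2 : (tt : RatFunc K)⁻¹ ∈ cylinder (PP T) (cone T (triR 1 1 σ)) :=
        Algebra.subset_adjoin (Or.inr (Or.inr rfl))
      obtain ⟨m, rfl | rfl⟩ := j.eq_nat_or_neg
      · rw [zpow_natCast]; exact pow_mem h1 m
      · rw [zpow_neg, zpow_natCast, ← inv_pow]; exact pow_mem h2 m
    have key : ∀ G ∈ SS T (1 * i), G / xs T σ ^ i ∈ cylinder (PP T) (cone T (triR 1 1 σ)) := by
      intro G hG
      induction hG using Submodule.span_induction with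
      | mem G hG =>
        obtain ⟨u, hu, rfl⟩ := hG
        rw [one_mul] at hu
        have h1 := vs_sub σ i (u := ![u 0, u 1]) hu
        have e : chi3 T u / xs T σ ^ i = ik (T.χ (![u 0, u 1] - (i : ℤ) • vs σ)) * tt ^ u 2 := by
          rw [chi3, xs, sub_eq_add_neg, T.χ_add, chi_neg', χ_smul, map_mul, map_inv₀, map_pow]
          ring
        rw [e]
        exact mul_mem (Algebra.subset_adjoin (Or.inl ⟨_, mem_cone_chi T _ h1, rfl⟩)) (ht _)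
      | zero => rw [zero_div]; exact zero_mem _
      | add u v _ _ hu hv => rw [add_div]; exact add_mem hu hv
      | smul z u _ hu => rw [smul_div_assoc]; exact Subalgebra.smul_mem _ hu z
    have := key _ hi
    rwa [mul_div_cancel_right₀ _ (pow_ne_zero _ h0)] at this

/-- a valuation ring over `𝔸¹ ∖ 0` has a centre on a standard chart -/
theorem exists_st (V : ValuationSubring (RatFunc K)) (hC : ∀ c : ℂ, algebraMap ℂ (RatFunc K) c ∈ V)
    (ht : tt ∈ V) (ht' : tt⁻¹ ∈ V) : ∃ σ : Fin 3, ∀ f ∈ stc T σ, f ∈ V := by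
  obtain ⟨σ, hσ⟩ := compl T (triData 1 1 2 2 le_rfl le_rfl (by norm_num) (by norm_num))
    (V.comap ik) (fun c => by
      rw [ValuationSubring.mem_comap, ik_C]
      exact hC c)
  refine ⟨σ, fun f hf => ?_⟩
  rw [← cyl_eq] at hf
  induction hf using Algebra.adjoin_induction with
  | mem x hx =>
    rcases hx with ⟨g, hg, rfl⟩ | rfl | hx
    · exact (ValuationSubring.mem_comap.1 (hσ g hg))
    · exact ht
    · rw [Set.mem_singleton_iff] at hx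
      rw [hx]; exact ht'
  | algebraMap c => exact hC c
  | add x y _ _ hx hy => exact V.add_mem _ _ hx hy
  | mul x y _ _ hx hy => exact V.mul_mem _ _ hx hy

end st

section fam

variable {T : TorusField 2 K} {n : ℕ} (Q : TotHom (tor T (n + 1)) (wp n) (wq n))

/-- the chart without the condition along the central fibre -/
abbrev sc (c : Fin 3) : Subalgebra ℂ (RatFunc K) :=
  (SG T).chart ((𝒹 Q).w c) ((𝒹 Q).ξ c) ((𝒹 Q).ξ_mem c).1

theorem ch_le_sc (c : Fin 3) : ∀ F ∈ (𝒹 Q).ch c, F ∈ sc Q c := by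
  rintro F ⟨i, hi⟩
  exact ⟨i, hi.1⟩

theorem sc_mul (c : Fin 3) {F : RatFunc K} (hF : F ∈ sc Q c) :
    ∃ M₀ : ℕ, ∀ M, M₀ ≤ M → F * tt ^ M ∈ (𝒹 Q).ch c := by
  obtain ⟨i, hi⟩ := hF
  have hi' : F * (𝒹 Q).ξ c ^ i ∈ SS T ((𝒹 Q).w c * i) := hi
  obtain ⟨M₀, hM₀⟩ : ∃ M₀ : ℕ, Ge (-(M₀ : ℤ)) (Q.Ψ (F * (𝒹 Q).ξ c ^ i)) := by
    by_cases h0 : F * (𝒹 Q).ξ c ^ i = 0
    · exact ⟨0, by rw [h0, map_zero]; exact Ge_zero _⟩
    · obtain ⟨l, a, ha, hl⟩ := exists_Ld (F := Q.Ψ (F * (𝒹 Q).ξ c ^ i))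
        (fun h => h0 (Q.inj (by rw [h, map_zero])))
      exact ⟨l.natAbs, Ge_mono hl.ge (by omega)⟩
  refine ⟨M₀, fun M hM => ⟨i, ?_⟩⟩
  have e : F * tt ^ M * (𝒹 Q).ξ c ^ i = (F * (𝒹 Q).ξ c ^ i) * tt ^ (M : ℤ) := by
    rw [zpow_natCast]; ring
  rw [e]
  refine ⟨SS_tpow hi' _, ?_⟩
  rw [map_mul]
  exact Ge_mono (Ge_mul hM₀ (Q.Ld_tpow M).ge) (by omega)

theorem loc_sc (c : Fin 3) (V : ValuationSubring (RatFunc K)) (ht : tt⁻¹ ∈ V) :
    locAtCentre ((𝒹 Q).ch c) V = locAtCentre (sc Q c) V := by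
  apply Set.Subset.antisymm
  · rintro z ⟨a, ha, s, hs, h1, h2, h3⟩
    exact ⟨a, ch_le_sc Q c a ha, s, ch_le_sc Q c s hs, h1, h2, h3⟩
  · rintro z ⟨a, ha, s, hs, h1, h2, h3⟩
    obtain ⟨M₁, hM₁⟩ := sc_mul Q c ha
    obtain ⟨M₂, hM₂⟩ := sc_mul Q c hs
    refine ⟨_, hM₁ (max M₁ M₂) (le_max_left _ _), _, hM₂ (max M₁ M₂) (le_max_right _ _),
      mul_ne_zero h1 (pow_ne_zero _ tt_ne), ?_, ?_⟩
    · rw [mul_inv, ← inv_pow]
      exact V.mul_mem _ _ h2 (pow_mem ht _)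
    · rw [← h3]; ring

theorem sc_in (c : Fin 3) (V : ValuationSubring (RatFunc K)) (ht : tt⁻¹ ∈ V)
    (hV : ∀ f ∈ (𝒹 Q).ch c, f ∈ V) : ∀ f ∈ sc Q c, f ∈ V := by
  intro f hf
  obtain ⟨M, hM⟩ := sc_mul Q c hf
  have h1 := hV _ (hM M le_rfl)
  have e : f = f * tt ^ M * tt⁻¹ ^ M := by
    rw [mul_assoc, ← mul_pow, mul_inv_cancel₀ tt_ne, one_pow, mul_one]
  rw [e]
  exact V.mul_mem _ _ h1 (pow_mem ht M)

theorem loc_eq (c σ : Fin 3) (V : ValuationSubring (RatFunc K)) (ht : tt⁻¹ ∈ V)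
    (hV : ∀ f ∈ (𝒹 Q).ch c, f ∈ V) (hσ : ∀ f ∈ stc T σ, f ∈ V) :
    locAtCentre ((𝒹 Q).ch c) V = locAtCentre (stc T σ) V := by
  rw [loc_sc Q c V ht]
  exact GS.sep ((𝒹 Q).ξ_ne c) (xs_ne T σ) ((𝒹 Q).w_pos c) le_rfl V (sc_in Q c V ht hV) hσ

theorem V_const {C : Subalgebra ℂ (RatFunc K)} {V : ValuationSubring (RatFunc K)}
    (h : ∀ f ∈ C, f ∈ V) (c : ℂ) : algebraMap ℂ (RatFunc K) c ∈ V := h _ (C.algebraMap_mem c)

theorem generic_eq :
    {A : Set (RatFunc K) | ∃ (i : Fin 3) (p : Ideal ((𝒹 Q).ch i)), p.IsPrime ∧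
      (⟨tt, (𝒹 Q).t_ch i⟩ : (𝒹 Q).ch i) ∉ p ∧ A = locRing ((𝒹 Q).ch i) p} =
    {A : Set (RatFunc K) | ∃ (i : Fin 3) (p : Ideal (cylinder (PP T) (cone T (triR 1 1 i)))),
      p.IsPrime ∧ A = locRing (cylinder (PP T) (cone T (triR 1 1 i))) p} := by
  ext A
  constructor
  · rintro ⟨c, p, hp, htp, rfl⟩
    obtain ⟨V, j, q, -, -, -, hq, -, hloc⟩ := points_sub (fun c => (𝒹 Q).ch c)
      (fun i => cylinder (PP T) (cone T (triR 1 1 i))) c p hp (fun V hV hVp => by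
        have ht := ((hVp ⟨tt, (𝒹 Q).t_ch c⟩).1 htp).2
        obtain ⟨σ, hσ⟩ := exists_st T V (V_const hV) (hV _ ((𝒹 Q).t_ch c)) ht
        refine ⟨σ, ?_, ?_⟩
        · rw [cyl_eq]; exact hσ
        · show _ = locAtCentre (cylinder (PP T) (cone T (triR 1 1 σ))) V
          rw [cyl_eq]
          exact loc_eq Q c σ V ht hV hσ)
    exact ⟨j, q, hq, hloc⟩
  · rintro ⟨σ, p, hp, rfl⟩
    obtain ⟨V, c, q, hV, -, -, hq, hVq, hloc⟩ := points_sub
      (fun i => cylinder (PP T) (cone T (triR 1 1 i))) (fun c => (𝒹 Q).ch c) σ p hp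
      (fun V hV hVp => by
        have ht : tt ∈ V := hV _ (Algebra.subset_adjoin (Or.inr (Or.inl rfl)))
        have ht' : tt⁻¹ ∈ V := hV _ (Algebra.subset_adjoin (Or.inr (Or.inr rfl)))
        obtain ⟨c, hc⟩ := (𝒹 Q).exists_chart (spans Q) V (V_const hV) ht
        refine ⟨c, hc, ?_⟩
        have hσ : ∀ f ∈ stc T σ, f ∈ V := by
          intro f hf
          rw [← cyl_eq] at hf
          exact hV f hf
        show locAtCentre (cylinder (PP T) (cone T (triR 1 1 σ))) V = _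
        rw [cyl_eq]
        exact (loc_eq Q c σ V ht' hc hσ).symm)
    refine ⟨c, q, hq, ?_, hloc⟩
    rw [hVq]
    exact ⟨tt_ne, hV _ (Algebra.subset_adjoin (Or.inr (Or.inr rfl)))⟩

end fam

end Pool.Agent.U198.SD
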