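import Pool.Agent.U198.SD.Seq

/-!
The number of lattice points of the triangles does not change under mutation.
-/

namespace Pool.Agent.U198.SD

/-- exponents of the monomials of degree `m` in the chart `k` -/
def triC (k m : ℕ) : Set (ℤ × ℤ × ℤ) :=
  {p | 0 ≤ p.2.2 ∧ 0 ≤ p.2.2 + b (k + 1) * p.1 ∧ 0 ≤ p.2.2 + b k * p.2.1 ∧
    b k * p.1 + b (k + 1) * p.2.1 + 3 * p.2.2 = m}

/-- the piecewise linear map -/
def mutE (k : ℕ) : ℤ × ℤ × ℤ ≃ ℤ × ℤ × ℤ where
  toFun p := (p.2.1, -p.1 + 3 * min p.2.1 0, p.2.2 + b (k + 1) * p.1 - b (k + 2) * min p.2.1 0)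
  invFun p := (-p.2.1 + 3 * min p.1 0, p.1,
    p.2.2 - b (k + 1) * (-p.2.1 + 3 * min p.1 0) + b (k + 2) * min p.1 0)
  left_inv := by
    rintro ⟨x, y, z⟩
    ext
    · simp
    · rfl
    · simp only
      ring
  right_inv := by
    rintro ⟨x, y, z⟩
    ext
    · rfl
    · simp
    · simp only
      ring

theorem mutE_mem (k m : ℕ) (p : ℤ × ℤ × ℤ) : p ∈ triC k m ↔ mutE k p ∈ triC (k + 1) m := by
  obtain ⟨x, y, z⟩ := p
  have hb : (b (k + 2) : ℤ) + b k = 3 * b (k + 1) := by exact_mod_cast b_succ_succ k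
  have h0 : (1 : ℤ) ≤ b k := by exact_mod_cast b_pos k
  have h1 : (1 : ℤ) ≤ b (k + 1) := by exact_mod_cast b_pos (k + 1)
  have h2 : (1 : ℤ) ≤ b (k + 2) := by exact_mod_cast b_pos (k + 2)
  simp only [triC, mutE, Set.mem_setOf_eq, Equiv.coe_fn_mk]
  have e1 : (b (k + 2) : ℤ) = 3 * b (k + 1) - b k := by linarith
  rw [show k + 1 + 1 = k + 2 from rfl]
  generalize (b k : ℤ) = p0 at *
  generalize (b (k + 1) : ℤ) = p1 at *
  generalize (b (k + 2) : ℤ) = p2 at *
  rcases le_total 0 y with hy | hy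
  · rw [min_eq_right hy]
    simp only [mul_zero, sub_zero, add_zero]
    constructor
    · rintro ⟨a1, a2, a3, a4⟩
      refine ⟨a2, by nlinarith, by linarith, ?_⟩
      subst e1
      linear_combination a4
    · rintro ⟨a1, a2, a3, a4⟩
      refine ⟨by linarith, a1, by nlinarith, ?_⟩
      subst e1
      linear_combination a4
  · rw [min_eq_left hy]
    constructor
    · rintro ⟨a1, a2, a3, a4⟩
      refine ⟨by nlinarith, by linarith, ?_, ?_⟩
      · subst e1
        linarith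
      · subst e1
        linear_combination a4
    · rintro ⟨a1, a2, a3, a4⟩
      subst e1
      have a5 : 0 ≤ z + p0 * y := by linarith
      refine ⟨by nlinarith, by linarith, a5, ?_⟩
      linear_combination a4

theorem triC_equiv (k m : ℕ) : Nonempty (triC k m ≃ {p : ℕ × ℕ // p.1 + p.2 ≤ m}) := by
  induction k with
  | zero =>
    refine ⟨⟨fun p => ⟨((p.1.2.2 + p.1.1).toNat, (p.1.2.2 + p.1.2.1).toNat), ?_⟩,
      fun q => ⟨((q.1.1 : ℤ) - (m - q.1.1 - q.1.2), (q.1.2 : ℤ) - (m - q.1.1 - q.1.2),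
        (m : ℤ) - q.1.1 - q.1.2), ?_⟩, ?_, ?_⟩⟩
    · obtain ⟨⟨x, y, z⟩, h⟩ := p
      simp only [triC, Set.mem_setOf_eq, zero_add, b_zero, b_one, Nat.cast_one, one_mul] at h
      simp only
      omega
    · obtain ⟨⟨i, j⟩, h⟩ := q
      simp only [triC, Set.mem_setOf_eq, zero_add, b_zero, b_one, Nat.cast_one, one_mul]
      simp only at h
      omega
    · rintro ⟨⟨x, y, z⟩, h⟩
      simp only [triC, Set.mem_setOf_eq, zero_add, b_zero, b_one, Nat.cast_one, one_mul] at h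
      simp only [Subtype.mk.injEq, Prod.mk.injEq]
      omega
    · rintro ⟨⟨i, j⟩, h⟩
      simp only at h
      simp only [Subtype.mk.injEq, Prod.mk.injEq]
      omega
  | succ k ih =>
    obtain ⟨e⟩ := ih
    exact ⟨((mutE k).subtypeEquiv (fun p => mutE_mem k m p)).symm.trans e⟩

/-- the lattice points of the triangle of the line bundle of degree `m` -/
def tri (n m : ℕ) : Set (Fin 2 → ℤ) :=
  {u | 0 ≤ u 0 ∧ 0 ≤ u 1 ∧ (b (n + 1) : ℤ) ^ 2 * u 0 + (b (n + 2) : ℤ) ^ 2 * u 1 ≤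
    b (n + 1) * b (n + 2) * m}

theorem tri_equiv (n m : ℕ) : Nonempty (tri n m ≃ {p : ℕ × ℕ // p.1 + p.2 ≤ m}) := by
  obtain ⟨e⟩ := triC_equiv (n + 1) m
  have hm : (b (n + 1) : ℤ) ^ 2 + (b (n + 2) : ℤ) ^ 2 + 1 = 3 * b (n + 1) * b (n + 2) := by
    exact_mod_cast b_markov (n + 1)
  have hF : ∀ u ∈ tri n m, (((3 * b (n + 1) - b (n + 2)) * u 0 + b (n + 2) * u 1 - b (n + 1) * m,
      b (n + 1) * u 0 + (3 * b (n + 2) - b (n + 1)) * u 1 - b (n + 2) * m,
      b (n + 1) * b (n + 2) * m - (b (n + 1) : ℤ) ^ 2 * u 0 - (b (n + 2) : ℤ) ^ 2 * u 1) :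
        ℤ × ℤ × ℤ) ∈ triC (n + 1) m := by
    rintro u ⟨h0, h1, h2⟩
    simp only [triC, Set.mem_setOf_eq]
    rw [show n + 1 + 1 = n + 2 from rfl]
    generalize (b (n + 1) : ℤ) = p at *
    generalize (b (n + 2) : ℤ) = q at *
    refine ⟨by linarith, ?_, ?_, ?_⟩
    · have e3 : p * q * m - p ^ 2 * u 0 - q ^ 2 * u 1 + q * ((3 * p - q) * u 0 + q * u 1 - p * m) =
        u 0 := by linear_combination (-u 0) * hm
      rw [e3]; exact h0
    · have e3 : p * q * m - p ^ 2 * u 0 - q ^ 2 * u 1 + p * (p * u 0 + (3 * q - p) * u 1 - q * m) =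
        u 1 := by linear_combination (-u 1) * hm
      rw [e3]; exact h1
    · linear_combination (-(m : ℤ)) * hm
  have hG : ∀ p ∈ triC (n + 1) m, ![b (n + 2) * p.1 + p.2.2, b (n + 1) * p.2.1 + p.2.2] ∈ tri n m := by
    rintro ⟨x, y, z⟩ ⟨h0, h1, h2, h3⟩
    simp only [tri, Set.mem_setOf_eq, Matrix.cons_val_zero, Matrix.cons_val_one,
      Matrix.cons_val_fin_one]
    simp only at h0 h1 h2 h3
    rw [show n + 1 + 1 = n + 2 from rfl] at h1 h3
    generalize (b (n + 1) : ℤ) = p at *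
    generalize (b (n + 2) : ℤ) = q at *
    refine ⟨by linarith, by linarith, ?_⟩
    rw [← h3]
    nlinarith
  refine ⟨Equiv.trans ⟨fun u => ⟨_, hF u.1 u.2⟩, fun p => ⟨_, hG p.1 p.2⟩, ?_, ?_⟩ e⟩
  · rintro ⟨u, h0, h1, h2⟩
    simp only [Subtype.mk.injEq]
    ext i
    fin_cases i
    · simp only [Fin.zero_eta, Matrix.cons_val_zero]
      linear_combination (-u 0) * hm
    · simp only [Fin.mk_one, Matrix.cons_val_one, Matrix.cons_val_fin_one]
      linear_combination (-u 1) * hm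
  · rintro ⟨⟨x, y, z⟩, h0, h1, h2, h3⟩
    simp only at h0 h1 h2 h3
    rw [show n + 1 + 1 = n + 2 from rfl] at h1 h3
    simp only [Subtype.mk.injEq, Matrix.cons_val_zero, Matrix.cons_val_one,
      Matrix.cons_val_fin_one, Prod.mk.injEq]
    rw [← h3]
    refine ⟨?_, ?_, ?_⟩
    · linear_combination (-x) * hm
    · linear_combination (-y) * hm
    · linear_combination (-z) * hm

end Pool.Agent.U198.SD
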