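import Pool.Agent.U198.SD.Pos
import Pool.Agent.U198.SD.Tri

/-!
The leading forms of polynomials in `x, y` of degree at most `m` are supported in a triangle.
-/

noncomputable section

namespace Pool.Agent.U198.SD

open Pool.Agent.Helper774.KStab (TorusField)

variable {K : Type} [Field K] [Algebra ℂ K]

section

variable {n : ℕ} {T : TorusField n K} {φ : (Fin n → ℤ) →+ ℤ} (P : TorHom T φ)

include P in
theorem Ld_lc {ι : Type} (mo : ι → K) (u : ι → Fin n → ℤ) (c : ι →₀ ℂ)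
    (h : ∀ s ∈ c.support, Ld (φ (u s)) (T.χ (u s)) (P.Φ (mo s))) (l : ℤ)
    (hl : ∀ s ∈ c.support, l ≤ φ (u s)) :
    Ld l (Finsupp.linearCombination ℂ (fun s => T.χ (u s)) (c.filter fun s => φ (u s) = l))
      (P.Φ (Finsupp.linearCombination ℂ mo c)) := by
  classical
  induction c using Finsupp.induction with
  | zero =>
    rw [Finsupp.filter_zero, map_zero, map_zero, map_zero]
    exact Ld_zero l
  | single_add a b f ha hb ih =>
    have hs : (Finsupp.single a b + f).support = insert a f.support := by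
      rw [Finsupp.support_add_eq, Finsupp.support_single_ne_zero _ hb]
      · rfl
      · rw [Finsupp.support_single_ne_zero _ hb, Finset.disjoint_singleton_left]
        exact ha
    rw [hs] at h hl
    have ih' := ih (fun s hs => h s (Finset.mem_insert_of_mem hs))
      (fun s hs => hl s (Finset.mem_insert_of_mem hs))
    rw [Finsupp.filter_add, map_add, map_add, map_add]
    refine Ld_add ?_ ih'
    rw [Finsupp.linearCombination_single]
    have h1 := h a (Finset.mem_insert_self _ _)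
    have h2 := hl a (Finset.mem_insert_self _ _)
    by_cases hal : φ (u a) = l
    · rw [Finsupp.filter_single_of_pos (fun s => φ (u s) = l) hal, Finsupp.linearCombination_single]
      constructor
      · intro k hk
        rw [P.coeff_smul, h1.1 k (by omega), smul_zero]
      · rw [P.coeff_smul, ← hal, h1.2]
    · rw [Finsupp.filter_single_of_neg (fun s => φ (u s) = l) hal, map_zero]
      constructor
      · intro k hk
        rw [P.coeff_smul, h1.1 k (by omega), smul_zero]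
      · rw [P.coeff_smul, h1.1 l (by omega), smul_zero]

include P in
theorem lead_sum {ι : Type} (mo : ι → K) (u : ι → Fin n → ℤ) (hu : Function.Injective u)
    (c : ι →₀ ℂ) (h : ∀ s ∈ c.support, Ld (φ (u s)) (T.χ (u s)) (P.Φ (mo s))) (l : ℤ)
    (hl : Ge l (P.Φ (Finsupp.linearCombination ℂ mo c))) :
    (∀ s ∈ c.support, l ≤ φ (u s)) ∧ ∃ c' : (Fin n → ℤ) →₀ ℂ,
      (P.Φ (Finsupp.linearCombination ℂ mo c)).coeff l = Finsupp.linearCombination ℂ T.χ c' ∧
      ∀ v ∈ c'.support, φ v = l ∧ ∃ s ∈ c.support, v = u s := by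
  classical
  have hconv : ∀ d : ι →₀ ℂ, Finsupp.linearCombination ℂ (fun s => T.χ (u s)) d =
      Finsupp.linearCombination ℂ T.χ (Finsupp.mapDomain u d) := by
    intro d
    rw [Finsupp.linearCombination_mapDomain]
    rfl
  have hall : ∀ s ∈ c.support, l ≤ φ (u s) := by
    by_contra hne
    push Not at hne
    obtain ⟨s₀, hs₀, hs₀'⟩ := hne
    obtain ⟨s, hs, hmin⟩ := c.support.exists_min_image (fun s => φ (u s)) ⟨s₀, hs₀⟩
    have h1 := Ld_lc P mo u c h (φ (u s)) hmin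
    have h2 := h1.2
    rw [hl _ (lt_of_le_of_lt (hmin s₀ hs₀) hs₀')] at h2
    rw [hconv] at h2
    have h3 : Finsupp.mapDomain u (c.filter fun s' => φ (u s') = φ (u s)) = 0 :=
      T.li (by rw [← h2, map_zero])
    have h4 : (c.filter fun s' => φ (u s') = φ (u s)) = 0 :=
      Finsupp.mapDomain_injective hu (by rw [h3, Finsupp.mapDomain_zero])
    have h5 := DFunLike.congr_fun h4 s
    rw [Finsupp.filter_apply_pos (fun s' => φ (u s') = φ (u s)) c rfl] at h5
    exact (Finsupp.mem_support_iff.1 hs) h5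
  refine ⟨hall, Finsupp.mapDomain u (c.filter fun s => φ (u s) = l), ?_, ?_⟩
  · rw [← hconv]
    exact (Ld_lc P mo u c h l hall).2
  · intro v hv
    have h1 := Finsupp.mapDomain_support hv
    rw [Finset.mem_image] at h1
    obtain ⟨s, hs, rfl⟩ := h1
    rw [Finsupp.support_filter, Finset.mem_filter] at hs
    exact ⟨hs.2, s, hs.1, rfl⟩

end

section

variable {T : TorusField 2 K} {n : ℕ} (P : TorHom (tor T (n + 1)) (wt n))

theorem Ld_mon {k : ℕ} {l₀ l₁ l₂ : ℤ} {a₀ a₁ a₂ : K} (h₀ : Ld l₀ a₀ (P.Φ (G T k)))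
    (h₁ : Ld l₁ a₁ (P.Φ (G T (k + 1)))) (h₂ : Ld l₂ a₂ (P.Φ (Cu T))) (ha₀ : a₀ ≠ 0) (ha₁ : a₁ ≠ 0)
    (ha₂ : a₂ ≠ 0) (i j e : ℤ) :
    Ld (i * l₀ + j * l₁ + e * l₂) (a₀ ^ i * a₁ ^ j * a₂ ^ e) (P.Φ (Mo T k i j e)) := by
  rw [Mo, mon, map_mul, map_mul, map_zpow₀, map_zpow₀, map_zpow₀]
  exact Ld_mul (Ld_mul (Ld_zpow h₀ ha₀ i) (Ld_zpow h₁ ha₁ j)) (Ld_zpow h₂ ha₂ e)

/-- exponents of the monomial `χ' s / ζ ^ m` -/
theorem chi_div_zt (T : TorusField 2 K) (k m : ℕ) (s : Fin 2 → ℤ) :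
    (tor T k).χ s / zt T k ^ m =
      Mo T k ((3 * b k - b (k + 1)) * s 0 + b (k + 1) * s 1 - b k * m)
        (b k * s 0 + (3 * b (k + 1) - b k) * s 1 - b (k + 1) * m)
        (b k * b (k + 1) * m - (b k : ℤ) ^ 2 * s 0 - (b (k + 1) : ℤ) ^ 2 * s 1) := by
  rw [div_eq_iff (pow_ne_zero _ (zt_ne T k)), ← zpow_natCast, zt_pow, Mo_mul]
  show chi' T k s = _
  rw [chi']
  congr 1 <;> ring

theorem div_lc {f : K} {k m : ℕ} {c : (Fin 2 → ℤ) →₀ ℂ}
    (hc : f * zt T k ^ m = Finsupp.linearCombination ℂ (tor T k).χ c) :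
    f = Finsupp.linearCombination ℂ (fun s => (tor T k).χ s / zt T k ^ m) c := by
  have h0 := pow_ne_zero m (zt_ne T k)
  rw [← mul_div_cancel_right₀ f h0, hc, Finsupp.linearCombination_apply,
    Finsupp.linearCombination_apply, Finsupp.sum, Finsupp.sum, Finset.sum_div]
  refine Finset.sum_congr rfl fun s _ => ?_
  rw [smul_div_assoc]

/-- the exponents seen from the chart `n + 2` -/
def upU (n m : ℕ) (s : Fin 2 → ℤ) : Fin 2 → ℤ :=
  ![b (n + 2) * b (n + 3) * m - (b (n + 2) : ℤ) ^ 2 * s 0 - (b (n + 3) : ℤ) ^ 2 * s 1,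
    b (n + 1) * ((3 * b (n + 2) - b (n + 3)) * s 0 + b (n + 3) * s 1 - b (n + 2) * m) +
      b (n + 2) * (b (n + 2) * s 0 + (3 * b (n + 3) - b (n + 2)) * s 1 - b (n + 3) * m) +
      (b (n + 2) * b (n + 3) * m - (b (n + 2) : ℤ) ^ 2 * s 0 - (b (n + 3) : ℤ) ^ 2 * s 1)]

/-- the exponents seen from the chart `n` -/
def dnU (n m : ℕ) (s : Fin 2 → ℤ) : Fin 2 → ℤ :=
  ![b (n + 1) * ((3 * b n - b (n + 1)) * s 0 + b (n + 1) * s 1 - b n * m) +
      b (n + 2) * (b n * s 0 + (3 * b (n + 1) - b n) * s 1 - b (n + 1) * m) +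
      (b n * b (n + 1) * m - (b n : ℤ) ^ 2 * s 0 - (b (n + 1) : ℤ) ^ 2 * s 1),
    b n * b (n + 1) * m - (b n : ℤ) ^ 2 * s 0 - (b (n + 1) : ℤ) ^ 2 * s 1]

theorem upU_inj (n m : ℕ) : Function.Injective (upU n m) := by
  intro s s' h
  have h0 := congrFun h 0
  have h1 := congrFun h 1
  simp only [upU, Matrix.cons_val_zero, Matrix.cons_val_one, Matrix.cons_val_fin_one] at h0 h1
  have hb : (b (n + 1) : ℤ) * b (n + 3) = b (n + 2) ^ 2 + 1 := by exact_mod_cast b_mul (n + 1)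
  have hc : (b (n + 3) : ℤ) + b (n + 1) = 3 * b (n + 2) := by exact_mod_cast b_succ_succ (n + 1)
  have e1 : (b (n + 3) : ℤ) = 3 * b (n + 2) - b (n + 1) := by linarith
  rw [e1] at hb h0 h1
  generalize (b (n + 1) : ℤ) = p at *
  generalize (b (n + 2) : ℤ) = q at *
  generalize (m : ℤ) = m' at *
  ext i
  fin_cases i
  · show s 0 = s' 0
    linear_combination (3 * q - p) ^ 2 * (h1 - h0) + (8 * q ^ 2 - p ^ 2) * h0 -
      (s 0 - s' 0) * (3 * p * q - p ^ 2 - q ^ 2 + 1) * hb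
  · show s 1 = s' 1
    linear_combination -q ^ 2 * (h1 - h0) - (p ^ 2 + q ^ 2) * h0 -
      (s 1 - s' 1) * (3 * p * q - p ^ 2 - q ^ 2 + 1) * hb

theorem dnU_inj (n m : ℕ) : Function.Injective (dnU n m) := by
  intro s s' h
  have h0 := congrFun h 0
  have h1 := congrFun h 1
  simp only [dnU, Matrix.cons_val_zero, Matrix.cons_val_one, Matrix.cons_val_fin_one] at h0 h1
  have hb : (b n : ℤ) * b (n + 2) = b (n + 1) ^ 2 + 1 := by exact_mod_cast b_mul n
  have hc : (b (n + 2) : ℤ) + b n = 3 * b (n + 1) := by exact_mod_cast b_succ_succ n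
  have e1 : (b (n + 2) : ℤ) = 3 * b (n + 1) - b n := by linarith
  rw [e1] at hb h0
  generalize (b n : ℤ) = r at *
  generalize (b (n + 1) : ℤ) = p at *
  generalize (m : ℤ) = m' at *
  ext i
  fin_cases i
  · show s 0 = s' 0
    linear_combination (10 * p ^ 2 - 6 * p * r + r ^ 2) * (-h1) - p ^ 2 * (h0 - h1) -
      (s 0 - s' 0) * (3 * p * r - p ^ 2 - r ^ 2 + 1) * hb
  · show s 1 = s' 1
    linear_combination r ^ 2 * (h0 - h1) + (6 * p * r - p ^ 2 - r ^ 2) * h1 -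
      (s 1 - s' 1) * (3 * p * r - p ^ 2 - r ^ 2 + 1) * hb

theorem chi_zpow (T : TorusField 2 K) (i j : ℤ) :
    T.χ ![i, j] = T.χ ![1, 0] ^ i * T.χ ![0, 1] ^ j := by
  have hpos : ∀ (u : Fin 2 → ℤ) (k : ℤ), T.χ (k • u) = T.χ u ^ k := by
    intro u k
    obtain ⟨m, rfl | rfl⟩ := k.eq_nat_or_neg
    · rw [natCast_zsmul, Pool.Agent.Helper774.KSing.chi_nsmul', zpow_natCast]
    · rw [neg_smul, natCast_zsmul, Pool.Agent.Helper774.KSing.chi_neg',
        Pool.Agent.Helper774.KSing.chi_nsmul', zpow_neg, zpow_natCast]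
  rw [← hpos, ← hpos, ← T.χ_add]
  congr 1
  ext t
  fin_cases t <;> simp

include P in
/-- The leading form of a polynomial of degree at most `m` is supported in the triangle. -/
theorem lead_tri (m : ℕ) {f : K} (hf : f ∈ RR T m) (l : ℤ) (hl : Ge l (P.Φ f)) :
    ∃ c : (Fin 2 → ℤ) →₀ ℂ, (P.Φ f).coeff l = Finsupp.linearCombination ℂ (tor T (n + 1)).χ c ∧
      ∀ v ∈ c.support, wt n v = l ∧ v ∈ tri n m := by
  have hV := VV_ne T (n + 1)
  have hW := WW_ne T (n + 1)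
  have hVW := mul_ne_zero hV hW
  -- chart `n + 1`
  obtain ⟨c1, hc1, hp1⟩ := pos_chart T (n + 1) m hf
  have hf1 := div_lc hc1
  have hl1 := hl
  rw [hf1] at hl1
  obtain ⟨-, d1, hd1, hs1⟩ := lead_sum P (fun s => (tor T (n + 1)).χ s / zt T (n + 1) ^ m) id
    Function.injective_id c1 (fun s _ => by
      show Ld _ _ (P.Φ ((tor T (n + 1)).χ s / zt T (n + 1) ^ m))
      rw [map_div₀, map_pow]
      exact Ld_cast (Ld_div (P.Ld_chi s) (Ld_pow (Ld_zt P) m) (pow_ne_zero _ one_ne_zero))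
        (by simp) (by simp)) l hl1
  rw [← hf1] at hd1
  -- chart `n + 2`
  obtain ⟨c2, hc2, hp2⟩ := pos_chart T (n + 2) m hf
  have hf2 := div_lc hc2
  have hl2 := hl
  rw [hf2] at hl2
  obtain ⟨-, d2, hd2, hs2⟩ := lead_sum P (fun s => (tor T (n + 2)).χ s / zt T (n + 2) ^ m) (upU n m)
    (upU_inj n m) c2 (fun s _ => by
      show Ld _ _ (P.Φ ((tor T (n + 2)).χ s / zt T (n + 2) ^ m))
      rw [chi_div_zt]
      refine Ld_cast (Ld_mon P (Ld_G2 P) (Ld_G3 P) (Ld_Cu P) (pow_ne_zero _ hW) (pow_ne_zero _ hW)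
        hVW _ _ _) ?_ ?_
      · rw [wt_apply, upU]
        simp only [Matrix.cons_val_zero, Matrix.cons_val_one, Matrix.cons_val_fin_one]
        rw [show n + 2 + 1 = n + 3 from rfl]
        ring
      · rw [upU, chi_zpow, mul_zpow, ← zpow_natCast, ← zpow_natCast, ← zpow_mul, ← zpow_mul,
          zpow_add₀ hW, zpow_add₀ hW]
        rw [show n + 2 + 1 = n + 3 from rfl]
        ring) l hl2
  rw [← hf2] at hd2
  -- chart `n`
  obtain ⟨c3, hc3, hp3⟩ := pos_chart T n m hf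
  have hf3 := div_lc hc3
  have hl3 := hl
  rw [hf3] at hl3
  obtain ⟨-, d3, hd3, hs3⟩ := lead_sum P (fun s => (tor T n).χ s / zt T n ^ m) (dnU n m)
    (dnU_inj n m) c3 (fun s _ => by
      show Ld _ _ (P.Φ ((tor T n).χ s / zt T n ^ m))
      rw [chi_div_zt]
      refine Ld_cast (Ld_mon P (Ld_G P n (by omega)) (Ld_G P (n + 1) le_rfl) (Ld_Cu P)
        (pow_ne_zero _ hV) (pow_ne_zero _ hV) hVW _ _ _) ?_ ?_
      · rw [wt_apply, dnU]
        simp only [Matrix.cons_val_zero, Matrix.cons_val_one, Matrix.cons_val_fin_one]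
        rw [show n + 1 + 1 = n + 2 from rfl]
        ring
      · rw [dnU, chi_zpow, mul_zpow, ← zpow_natCast, ← zpow_natCast, ← zpow_mul, ← zpow_mul,
          zpow_add₀ hV, zpow_add₀ hV]
        rw [show n + 1 + 1 = n + 2 from rfl]
        ring) l hl3
  rw [← hf3] at hd3
  have e12 : d1 = d2 := (tor T (n + 1)).li (by rw [← hd1, ← hd2])
  have e13 : d1 = d3 := (tor T (n + 1)).li (by rw [← hd1, ← hd3])
  refine ⟨d1, hd1, fun v hv => ⟨(hs1 v hv).1, ?_, ?_, ?_⟩⟩
  · obtain ⟨-, s, hs, rfl⟩ := hs2 v (e12 ▸ hv)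
    have := hp2 s hs
    rw [upU]
    simp only [Matrix.cons_val_zero]
    rw [show n + 2 + 1 = n + 3 from rfl] at this
    linarith
  · obtain ⟨-, s, hs, rfl⟩ := hs3 v (e13 ▸ hv)
    have := hp3 s hs
    rw [dnU]
    simp only [Matrix.cons_val_one, Matrix.cons_val_fin_one]
    linarith
  · obtain ⟨-, s, hs, hvs⟩ := hs1 v hv
    rw [hvs]
    exact hp1 s hs

end

end Pool.Agent.U198.SD
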