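import Pool.Agent.U198.SD.G1

/-!
Every lattice point of the triangle is the leading exponent of a polynomial of degree at most `m`.
-/

noncomputable section

namespace Pool.Agent.U198.SD

open Pool.Agent.Helper774.KStab (TorusField finrank_span_image)

variable {K : Type} [Field K] [Algebra ℂ K]

section

variable {n : ℕ} {T : TorusField n K} {φ : (Fin n → ℤ) →+ ℤ} (P : TorHom T φ)

/-- the coefficients of the Laurent series -/
def cf (k : ℤ) : K →ₗ[ℂ] K where
  toFun f := (P.Φ f).coeff k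
  map_add' f g := by rw [map_add, HahnSeries.coeff_add]
  map_smul' c f := by rw [P.coeff_smul]; rfl

theorem cf_apply (k : ℤ) (f : K) : cf P k f = (P.Φ f).coeff k := rfl

/-- the filtration of a subspace by the order -/
def Fi (R : Submodule ℂ K) (i : ℕ) : Submodule ℂ K where
  carrier := {f | f ∈ R ∧ Ge i (P.Φ f)}
  add_mem' := by
    rintro f g ⟨h1, h2⟩ ⟨h3, h4⟩
    exact ⟨R.add_mem h1 h3, by rw [map_add]; exact Ge_add h2 h4⟩
  zero_mem' := ⟨R.zero_mem, by rw [map_zero]; exact Ge_zero _⟩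
  smul_mem' := by
    rintro c f ⟨h1, h2⟩
    exact ⟨R.smul_mem c h1, P.ge_smul h2 c⟩

theorem Fi_step (R : Submodule ℂ K) [FiniteDimensional ℂ R] (i : ℕ) :
    Module.finrank ℂ (Fi P R i) = Module.finrank ℂ (Fi P R (i + 1)) +
      Module.finrank ℂ ((Fi P R i).map (cf P i)) := by
  have hle : Fi P R i ≤ R := fun f hf => hf.1
  have : FiniteDimensional ℂ (Fi P R i) := Submodule.finiteDimensional_of_le hle
  have h1 := LinearMap.finrank_range_add_finrank_ker ((cf P i).domRestrict (Fi P R i))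
  have h2 : Fi P R (i + 1) ≤ Fi P R i := fun f hf => ⟨hf.1, Ge_mono hf.2 (by push_cast; omega)⟩
  have h3 : LinearMap.ker ((cf P i).domRestrict (Fi P R i)) =
      Submodule.comap (Fi P R i).subtype (Fi P R (i + 1)) := by
    ext f
    rw [LinearMap.mem_ker, LinearMap.domRestrict_apply, Submodule.mem_comap, cf_apply]
    constructor
    · intro h
      refine ⟨f.2.1, fun k hk => ?_⟩
      have hk' : k ≤ i := by push_cast at hk; omega
      rcases hk'.eq_or_lt with rfl | hlt
      · exact h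
      · exact f.2.2 k hlt
    · intro h
      exact h.2 i (by push_cast; omega)
  have h4 : Module.finrank ℂ (Submodule.comap (Fi P R i).subtype (Fi P R (i + 1))) =
      Module.finrank ℂ (Fi P R (i + 1)) :=
    LinearEquiv.finrank_eq (Submodule.comapSubtypeEquivOfLe h2)
  have h5 : LinearMap.range ((cf P i).domRestrict (Fi P R i)) = (Fi P R i).map (cf P i) :=
    LinearMap.range_domRestrict _ _
  rw [h3, h4, h5] at h1
  omega

/-- If the leading coefficients lie in spaces `S i` of total dimension at most `dim R`, then all of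
the `S i` occurs. -/
theorem Fi_surj (R : Submodule ℂ K) [FiniteDimensional ℂ R] (S : ℕ → Submodule ℂ K)
    [∀ i, FiniteDimensional ℂ (S i)] (N : ℕ) (h0 : Fi P R 0 = R) (hN : Fi P R N = ⊥)
    (hS : ∀ i, (Fi P R i).map (cf P i) ≤ S i)
    (hsum : ∑ i ∈ Finset.range N, Module.finrank ℂ (S i) ≤ Module.finrank ℂ R) (i : ℕ)
    (hi : i < N) : (Fi P R i).map (cf P i) = S i := by
  have h1 : ∀ N, Module.finrank ℂ (Fi P R 0) = Module.finrank ℂ (Fi P R N) +
      ∑ i ∈ Finset.range N, Module.finrank ℂ ((Fi P R i).map (cf P i)) := by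
    intro N
    induction N with
    | zero => simp
    | succ N ih =>
      rw [ih, Fi_step, Finset.sum_range_succ]
      ring
  have h2 := h1 N
  rw [h0, hN, finrank_bot, zero_add] at h2
  have h3 : ∀ i, Module.finrank ℂ ((Fi P R i).map (cf P i)) ≤ Module.finrank ℂ (S i) :=
    fun i => Submodule.finrank_mono (hS i)
  by_contra hne
  have h4 : Module.finrank ℂ ((Fi P R i).map (cf P i)) < Module.finrank ℂ (S i) := by
    refine lt_of_le_of_ne (h3 i) fun h => hne ?_
    exact Submodule.eq_of_le_of_finrank_eq (hS i) h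
  have h5 := Finset.sum_lt_sum (fun i _ => h3 i) ⟨i, Finset.mem_range.2 hi, h4⟩
  omega

end

section

variable {T : TorusField 2 K} {n : ℕ} (P : TorHom (tor T (n + 1)) (wt n))

theorem tri_finite (n m : ℕ) : (tri n m).Finite := by
  obtain ⟨e⟩ := tri_equiv n m
  have : Finite {p : ℕ × ℕ // p.1 + p.2 ≤ m} := by
    refine Set.Finite.subset ((Set.finite_Iic m).prod (Set.finite_Iic m)) ?_
    rintro ⟨i, j⟩ (h : i + j ≤ m)
    exact ⟨by simp only [Set.mem_Iic]; omega, by simp only [Set.mem_Iic]; omega⟩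
  exact Finite.of_equiv _ e.symm

theorem RR_eq (T : TorusField 2 K) (m : ℕ) : RR T m = Submodule.span ℂ (T.χ ''
    {u | ∃ i j : ℕ, i + j ≤ m ∧ u = ![(i : ℤ), (j : ℤ)]}) := by
  rw [RR]
  congr 1
  ext f
  constructor
  · rintro ⟨i, j, h, rfl⟩
    exact ⟨_, ⟨i, j, h, rfl⟩, chi_eq T i j⟩
  · rintro ⟨_, ⟨i, j, h, rfl⟩, rfl⟩
    exact ⟨i, j, h, chi_eq T i j⟩

theorem finrank_RR (T : TorusField 2 K) (n m : ℕ) : Module.finrank ℂ (RR T m) = (tri n m).ncard := by
  rw [RR_eq, finrank_span_image T.χ T.li]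
  obtain ⟨e⟩ := tri_equiv n m
  rw [← Nat.card_coe_set_eq (tri n m), Nat.card_congr e, ← Nat.card_coe_set_eq]
  refine Nat.card_congr ⟨fun u => ⟨((u.1 0).toNat, (u.1 1).toNat), ?_⟩,
    fun p => ⟨![(p.1.1 : ℤ), (p.1.2 : ℤ)], p.1.1, p.1.2, p.2, rfl⟩, ?_, ?_⟩
  · obtain ⟨_, i, j, h, rfl⟩ := u
    simpa using h
  · rintro ⟨_, i, j, h, rfl⟩
    simp
  · rintro ⟨⟨i, j⟩, h⟩
    simp

theorem RR_fin (T : TorusField 2 K) (m : ℕ) : FiniteDimensional ℂ (RR T m) := by
  rw [RR_eq]
  apply FiniteDimensional.span_of_finite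
  apply Set.Finite.image
  refine Set.Finite.subset (Set.Finite.image (fun p : ℕ × ℕ => ![(p.1 : ℤ), (p.2 : ℤ)])
    ((Set.finite_Iic m).prod (Set.finite_Iic m))) ?_
  rintro u ⟨i, j, h, rfl⟩
  exact ⟨(i, j), ⟨by simp only [Set.mem_Iic]; omega, by simp only [Set.mem_Iic]; omega⟩, rfl⟩

theorem tri_wt (n m : ℕ) {u : Fin 2 → ℤ} (hu : u ∈ tri n m) : 0 ≤ wt n u := by
  obtain ⟨h0, h1, -⟩ := hu
  rw [wt_apply]
  have := wp_pos n
  have := wq_pos n
  positivity

include P in
/-- Every lattice point of the triangle is a leading exponent. -/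
theorem lead_surj (m : ℕ) {u : Fin 2 → ℤ} (hu : u ∈ tri n m) :
    ∃ f ∈ RR T m, Ld (wt n u) ((tor T (n + 1)).χ u) (P.Φ f) := by
  classical
  have := RR_fin T m
  have hfin := tri_finite n m
  obtain ⟨N, hN⟩ : ∃ N : ℕ, ∀ v ∈ tri n m, wt n v < N := by
    obtain ⟨M, hM⟩ := (hfin.image (wt n)).bddAbove
    refine ⟨M.toNat + 1, fun v hv => ?_⟩
    have := hM ⟨v, hv, rfl⟩
    push_cast
    omega
  let S : ℕ → Submodule ℂ K := fun i =>
    Submodule.span ℂ ((tor T (n + 1)).χ '' {v | v ∈ tri n m ∧ wt n v = i})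
  have hSfin : ∀ i, FiniteDimensional ℂ (S i) := fun i =>
    FiniteDimensional.span_of_finite _ ((hfin.subset fun v hv => hv.1).image _)
  have hgen : ∀ (l : ℤ) (f : K), f ∈ RR T m → Ge l (P.Φ f) → (P.Φ f).coeff l ∈
      Submodule.span ℂ ((tor T (n + 1)).χ '' {v | v ∈ tri n m ∧ wt n v = l}) := by
    intro l f hf hl
    obtain ⟨c, hc, hc2⟩ := lead_tri P m hf l hl
    rw [hc, Finsupp.mem_span_image_iff_linearCombination]
    refine ⟨c, ?_, rfl⟩
    rw [Finsupp.mem_supported]
    intro v hv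
    exact ⟨(hc2 v hv).2, (hc2 v hv).1⟩
  have hzero : ∀ (l : ℤ), (∀ v ∈ tri n m, wt n v ≠ l) → ∀ f : K, f ∈ RR T m → Ge l (P.Φ f) →
      (P.Φ f).coeff l = 0 := by
    intro l hne f hf hl
    have h1 := hgen l f hf hl
    have h2 : {v | v ∈ tri n m ∧ wt n v = l} = ∅ := by
      rw [Set.eq_empty_iff_forall_notMem]
      rintro v ⟨h3, h4⟩
      exact hne v h3 h4
    rw [h2, Set.image_empty, Submodule.span_empty, Submodule.mem_bot] at h1
    exact h1
  have h0 : Fi P (RR T m) 0 = RR T m := by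
    apply le_antisymm (fun f hf => hf.1)
    intro f hf
    refine ⟨hf, ?_⟩
    by_cases hf0 : f = 0
    · rw [hf0, map_zero]; exact Ge_zero _
    · obtain ⟨l, a, ha, hl⟩ := exists_Ld (F := P.Φ f) (fun h => hf0 (P.inj (by rw [h, map_zero])))
      by_contra hlt
      have hl0 : l < 0 := by
        by_contra h
        push Not at h
        exact hlt (Ge_mono hl.ge (by simpa using h))
      refine ha ?_
      rw [← hl.2]
      exact hzero l (fun v hv hvl => by have := tri_wt n m hv; omega) f hf hl.ge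
  have hNbot : Fi P (RR T m) N = ⊥ := by
    rw [eq_bot_iff]
    rintro f ⟨hf, hfN⟩
    rw [Submodule.mem_bot]
    by_contra hf0
    obtain ⟨l, a, ha, hl⟩ := exists_Ld (F := P.Φ f) (fun h => hf0 (P.inj (by rw [h, map_zero])))
    refine ha ?_
    rw [← hl.2]
    rcases lt_or_ge l N with h | h
    · exact hfN l h
    · exact hzero l (fun v hv hvl => by have := hN v hv; omega) f hf hl.ge
  have hS : ∀ i, (Fi P (RR T m) i).map (cf P i) ≤ S i := by
    rintro i _ ⟨f, hf, rfl⟩
    rw [cf_apply]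
    exact hgen i f hf.1 hf.2
  have hsum : ∑ i ∈ Finset.range N, Module.finrank ℂ (S i) ≤ Module.finrank ℂ (RR T m) := by
    rw [finrank_RR T n m]
    have h1 : ∀ i, Module.finrank ℂ (S i) =
        (hfin.toFinset.filter fun v => (wt n v).toNat = i).card := by
      intro i
      rw [finrank_span_image _ (tor T (n + 1)).li, ← Set.ncard_coe_finset]
      congr 1
      ext v
      simp only [Set.mem_setOf_eq, Finset.coe_filter, Set.Finite.mem_toFinset]
      constructor
      · rintro ⟨h1, h2⟩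
        exact ⟨h1, by rw [h2]; simp⟩
      · rintro ⟨h1, h2⟩
        refine ⟨h1, ?_⟩
        have := tri_wt n m h1
        omega
    rw [Finset.sum_congr rfl fun i _ => h1 i, ← Finset.card_eq_sum_card_fiberwise,
      ← Set.ncard_eq_toFinset_card _ hfin]
    intro v hv
    have h2 := hN v (by simpa using hv)
    have h3 := tri_wt n m (u := v) (by simpa using hv)
    simp only [Finset.coe_range, Set.mem_Iio]
    omega
  obtain ⟨i, hi⟩ := Int.eq_ofNat_of_zero_le (tri_wt n m hu)
  have hiN : i < N := by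
    have := hN u hu
    omega
  have h2 := Fi_surj P (RR T m) S N h0 hNbot hS hsum i hiN
  have h3 : (tor T (n + 1)).χ u ∈ S i := Submodule.subset_span ⟨u, ⟨hu, hi⟩, rfl⟩
  rw [← h2] at h3
  obtain ⟨f, hf, hfu⟩ := h3
  refine ⟨f, hf.1, ?_, ?_⟩
  · rw [hi]; exact hf.2
  · rw [hi]; exact hfu

end

end Pool.Agent.U198.SD
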