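import Pool.Agent.U198.SD.Defs
import Pool.Agent.Helper774.KSing.Tor

/-!
Graded systems of subspaces of a field and the affine charts of their spectrum.
-/

noncomputable section

namespace Pool.Agent.U198.SD

open Pool.Agent.Helper774.KSing

variable {L : Type} [Field L] [Algebra ℂ L]

/-- A graded system `R 0, R 1, ...` of subspaces of a field. -/
structure GS (L : Type) [Field L] [Algebra ℂ L] where
  R : ℕ → Submodule ℂ L
  one_mem : (1 : L) ∈ R 0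
  mul_mem : ∀ {m k : ℕ} {f g : L}, f ∈ R m → g ∈ R k → f * g ∈ R (m + k)

namespace GS

variable (𝒢 : GS L)

theorem cast {m k : ℕ} (h : m = k) {f : L} (hf : f ∈ 𝒢.R m) : f ∈ 𝒢.R k := h ▸ hf

theorem pow_mem {m : ℕ} {f : L} (hf : f ∈ 𝒢.R m) (i : ℕ) : f ^ i ∈ 𝒢.R (m * i) := by
  induction i with
  | zero => rw [pow_zero, mul_zero]; exact 𝒢.one_mem
  | succ i ih =>
    rw [pow_succ]
    exact 𝒢.cast (by ring) (𝒢.mul_mem ih hf)

/-- The chart of the element `h` of degree `r`. -/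
def chart (r : ℕ) (h : L) (hh : h ∈ 𝒢.R r) : Subalgebra ℂ L where
  carrier := {F | ∃ i, F * h ^ i ∈ 𝒢.R (r * i)}
  mul_mem' := by
    rintro F G ⟨i, hi⟩ ⟨j, hj⟩
    refine ⟨i + j, ?_⟩
    have e : F * G * h ^ (i + j) = (F * h ^ i) * (G * h ^ j) := by ring
    rw [e]
    exact 𝒢.cast (by ring) (𝒢.mul_mem hi hj)
  add_mem' := by
    rintro F G ⟨i, hi⟩ ⟨j, hj⟩
    refine ⟨i + j, ?_⟩
    have e : (F + G) * h ^ (i + j) = (F * h ^ i) * h ^ j + (G * h ^ j) * h ^ i := by ring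
    rw [e]
    exact Submodule.add_mem _ (𝒢.cast (by ring) (𝒢.mul_mem hi (𝒢.pow_mem hh j)))
      (𝒢.cast (by ring) (𝒢.mul_mem hj (𝒢.pow_mem hh i)))
  algebraMap_mem' := by
    intro c
    refine ⟨0, ?_⟩
    rw [pow_zero, mul_one, mul_zero, Algebra.algebraMap_eq_smul_one]
    exact Submodule.smul_mem _ _ 𝒢.one_mem

variable {𝒢}
variable {r r' : ℕ} {h h' : L} {hh : h ∈ 𝒢.R r} {hh' : h' ∈ 𝒢.R r'}

theorem mem_chart {F : L} : F ∈ 𝒢.chart r h hh ↔ ∃ i, F * h ^ i ∈ 𝒢.R (r * i) := Iff.rfl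

theorem mem_chart_ge {F : L} (hF : F ∈ 𝒢.chart r h hh) : ∃ i₀, ∀ i, i₀ ≤ i →
    F * h ^ i ∈ 𝒢.R (r * i) := by
  obtain ⟨i, hi⟩ := hF
  refine ⟨i, fun j hj => ?_⟩
  obtain ⟨k, rfl⟩ := Nat.exists_eq_add_of_le hj
  have e : F * h ^ (i + k) = F * h ^ i * h ^ k := by ring
  rw [e]
  exact 𝒢.cast (by ring) (𝒢.mul_mem hi (𝒢.pow_mem hh k))

theorem div_mem_chart (h0 : h ≠ 0) {F : L} {i : ℕ} (hF : F ∈ 𝒢.R (r * i)) :
    F / h ^ i ∈ 𝒢.chart r h hh :=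
  ⟨i, by rw [div_mul_cancel₀ _ (pow_ne_zero _ h0)]; exact hF⟩

/-- the change of charts -/
theorem chart_change (h0 : h ≠ 0) (h0' : h' ≠ 0) (hr' : 1 ≤ r') {F : L}
    (hF : F ∈ 𝒢.chart r h hh) : ∃ i₀, ∀ i, i₀ ≤ i →
      F * (h ^ r' / h' ^ r) ^ i ∈ 𝒢.chart r' h' hh' := by
  obtain ⟨i₀, hi₀⟩ := mem_chart_ge hF
  refine ⟨i₀, fun i hi => ⟨r * i, ?_⟩⟩
  have h1 := hi₀ (r' * i) (hi.trans (Nat.le_mul_of_pos_left _ hr'))
  have e : F * (h ^ r' / h' ^ r) ^ i * h' ^ (r * i) = F * h ^ (r' * i) := by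
    rw [div_pow, ← pow_mul, ← pow_mul]
    field_simp
  rw [e]
  exact 𝒢.cast (by ring) h1

theorem locAtCentre_sub (h0 : h ≠ 0) (h0' : h' ≠ 0) (hr' : 1 ≤ r') (V : ValuationSubring L)
    (hV : ∀ f ∈ 𝒢.chart r h hh, f ∈ V) :
    locAtCentre (𝒢.chart r h hh) V ⊆ locAtCentre (𝒢.chart r' h' hh') V := by
  rintro z ⟨a, ha, s, hs, hs0, hsV, hz⟩
  obtain ⟨i₁, h₁⟩ := chart_change (hh' := hh') h0 h0' hr' ha
  obtain ⟨i₂, h₂⟩ := chart_change (hh' := hh') h0 h0' hr' hs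
  have hu0 : h ^ r' / h' ^ r ≠ 0 := div_ne_zero (pow_ne_zero _ h0) (pow_ne_zero _ h0')
  have huV : (h ^ r' / h' ^ r)⁻¹ ∈ V := by
    rw [inv_div]
    exact hV _ (div_mem_chart h0 (𝒢.cast (by ring) (𝒢.pow_mem hh' r)))
  refine ⟨_, h₁ (max i₁ i₂) (le_max_left _ _), _, h₂ (max i₁ i₂) (le_max_right _ _), ?_, ?_, ?_⟩
  · exact mul_ne_zero hs0 (pow_ne_zero _ hu0)
  · rw [mul_inv, ← inv_pow]
    exact V.mul_mem _ _ hsV (_root_.pow_mem huV _)
  · rw [← hz]; ring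

theorem sep (h0 : h ≠ 0) (h0' : h' ≠ 0) (hr : 1 ≤ r) (hr' : 1 ≤ r') (V : ValuationSubring L)
    (hV : ∀ f ∈ 𝒢.chart r h hh, f ∈ V) (hV' : ∀ f ∈ 𝒢.chart r' h' hh', f ∈ V) :
    locAtCentre (𝒢.chart r h hh) V = locAtCentre (𝒢.chart r' h' hh') V :=
  Set.Subset.antisymm (locAtCentre_sub h0 h0' hr' V hV) (locAtCentre_sub h0' h0 hr V hV')

/-- normality of a chart follows from the normality of the graded system -/
theorem chart_normal (h0 : h ≠ 0) (hfrac : IsFractionRing (𝒢.chart r h hh) L)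
    (hN : ∀ (d N : ℕ) (σ : L) (c : ℕ → L), (∀ j, j < N → c j ∈ 𝒢.R (d * (N - j))) →
      σ ^ N + ∑ j ∈ Finset.range N, c j * σ ^ j = 0 → σ ∈ 𝒢.R d) :
    IsIntegrallyClosed (𝒢.chart r h hh) := by
  rw [isIntegrallyClosed_iff L]
  intro s hs
  obtain ⟨p, hp, hp0⟩ := hs
  obtain ⟨N, hN'⟩ : ∃ N, p.natDegree = N := ⟨_, rfl⟩
  have hcoef : ∀ j, ∃ i₀, ∀ i, i₀ ≤ i → ((p.coeff j : 𝒢.chart r h hh) : L) * h ^ i ∈ 𝒢.R (r * i) :=
    fun j => mem_chart_ge (p.coeff j).2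
  choose i₀ hi₀ using hcoef
  let I := ∑ j ∈ Finset.range (N + 1), i₀ j
  have hI : ∀ j, j < N → i₀ j ≤ I := fun j hj =>
    Finset.single_le_sum (f := i₀) (fun _ _ => Nat.zero_le _) (Finset.mem_range.2 (by omega))
  have h1 : s ^ N + ∑ j ∈ Finset.range N, ((p.coeff j : 𝒢.chart r h hh) : L) * s ^ j = 0 := by
    rw [Polynomial.eval₂_eq_sum_range, hN', Finset.sum_range_succ] at hp0
    have h2 : p.coeff N = 1 := by rw [← hN']; exact hp
    rw [h2, map_one, one_mul, add_comm] at hp0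
    exact hp0
  have h2 : s * h ^ I ∈ 𝒢.R (r * I) := by
    refine hN (r * I) N (s * h ^ I) (fun j => ((p.coeff j : 𝒢.chart r h hh) : L) *
      h ^ (I * (N - j))) ?_ ?_
    · intro j hj
      refine 𝒢.cast ?_ (hi₀ j (I * (N - j)) ?_)
      · ring
      · exact (hI j hj).trans (Nat.le_mul_of_pos_right _ (by omega))
    · have e : (s * h ^ I) ^ N + ∑ j ∈ Finset.range N,
          ((p.coeff j : 𝒢.chart r h hh) : L) * h ^ (I * (N - j)) * (s * h ^ I) ^ j =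
          h ^ (I * N) * (s ^ N + ∑ j ∈ Finset.range N,
            ((p.coeff j : 𝒢.chart r h hh) : L) * s ^ j) := by
        rw [mul_add, Finset.mul_sum]
        congr 1
        · rw [mul_pow, ← pow_mul]; ring
        · refine Finset.sum_congr rfl fun j hj => ?_
          have hj' := Finset.mem_range.1 hj
          obtain ⟨k, hk⟩ := Nat.exists_eq_add_of_lt hj'
          have e1 : N - j = k + 1 := by omega
          rw [e1, mul_pow, ← pow_mul, hk]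
          ring
      rw [e, h1, mul_zero]
  exact ⟨⟨s, I, h2⟩, rfl⟩

end GS

/-- valuation rings are integrally closed -/
theorem vs_integral (V : ValuationSubring L) (S : Subalgebra ℂ L) (hS : ∀ f ∈ S, f ∈ V) {x : L}
    (hx : IsIntegral S x) : x ∈ V := by
  have h1 : IsIntegral V x := by
    obtain ⟨p, hp, hp0⟩ := hx
    let φ : S →+* V :=
      { toFun := fun f => ⟨(f : L), hS f f.2⟩
        map_one' := rfl
        map_mul' := fun _ _ => rfl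
        map_zero' := rfl
        map_add' := fun _ _ => rfl }
    refine ⟨p.map φ, hp.map φ, ?_⟩
    rw [Polynomial.eval₂_map]
    exact hp0
  obtain ⟨y, hy⟩ := (IsIntegrallyClosed.isIntegral_iff (R := V) (K := L)).1 h1
  rw [← hy]
  exact y.2

/-- two systems of charts with the same local rings at the centres of valuations have the same
points -/
theorem points_sub {ι κ : Type} (C : ι → Subalgebra ℂ L) (D : κ → Subalgebra ℂ L) (i : ι)
    (p : Ideal (C i)) (hp : p.IsPrime)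
    (h : ∀ V : ValuationSubring L, (∀ f ∈ C i, f ∈ V) →
      (∀ s : C i, s ∉ p ↔ (s : L) ≠ 0 ∧ (s : L)⁻¹ ∈ V) →
      ∃ j, (∀ f ∈ D j, f ∈ V) ∧ locAtCentre (C i) V = locAtCentre (D j) V) :
    ∃ (V : ValuationSubring L) (j : κ) (q : Ideal (D j)), (∀ f ∈ C i, f ∈ V) ∧
      (∀ f ∈ D j, f ∈ V) ∧
      (∀ s : C i, s ∉ p ↔ (s : L) ≠ 0 ∧ (s : L)⁻¹ ∈ V) ∧ q.IsPrime ∧
      (∀ s : D j, s ∉ q ↔ (s : L) ≠ 0 ∧ (s : L)⁻¹ ∈ V) ∧
      locRing (C i) p = locRing (D j) q := by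
  let f : (C i).toSubring →+* C i :=
    { toFun := fun x => ⟨x.1, x.2⟩
      map_one' := rfl
      map_mul' := fun _ _ => rfl
      map_zero' := rfl
      map_add' := fun _ _ => rfl }
  haveI := hp
  obtain ⟨V, hV1, hV2⟩ := vr_dom (C i).toSubring (p.comap f) inferInstance
  have hV1' : ∀ f ∈ C i, f ∈ V := fun f hf => hV1 f hf
  have hV3 : ∀ s : C i, s ∉ p ↔ (s : L) ≠ 0 ∧ (s : L)⁻¹ ∈ V := fun s => hV2 ⟨s.1, s.2⟩
  obtain ⟨j, hj, hloc⟩ := h V hV1' hV3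
  obtain ⟨q, hq, hq2⟩ := vr_centre (D j) V hj
  refine ⟨V, j, q, hV1', hj, hV3, hq, hq2, ?_⟩
  rw [vr_loc (C i) p V hV3, vr_loc (D j) q V hq2, hloc]

end Pool.Agent.U198.SD
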