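import Pool.Agent.Helper774.KSing.Bd

/-!
The embedding of the function field of a torus in the field of Laurent series attached to a
one-parameter subgroup, and leading terms.
-/

noncomputable section

namespace Pool.Agent.U198.SD

open Pool.Agent.Helper774.KStab (TorusField lc_ne LP phiA phiA_apply phiA_inj chiHom)
open Pool.Agent.Helper774.KSing (psiAP psiAP_coeff psiAP_inj)

variable {n : ℕ} {K : Type} [Field K] [Algebra ℂ K]

attribute [-instance] HahnSeries.powerSeriesAlgebra in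
/-- The homomorphism `χ u ↦ t ^ φ u χ u` of the function field to the Laurent series. -/
theorem exists_hom (T : TorusField n K) (φ : (Fin n → ℤ) →+ ℤ) :
    ∃ Φ : K →+* HahnSeries ℤ K, ∀ (c : (Fin n → ℤ) →₀ ℂ) (k : ℤ),
      (Φ (Finsupp.linearCombination ℂ T.χ c)).coeff k =
        Finsupp.linearCombination ℂ T.χ (c.filter fun u => φ u = k) := by
  classical
  have hdom : IsDomain (LP n) := (phiA_inj T).isDomain (phiA T).toRingHom
  let _ : Algebra (LP n) K := (phiA T).toRingHom.toAlgebra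
  have hmap : ∀ x : LP n, algebraMap (LP n) K x = phiA T x := fun x => rfl
  have hfr : IsFractionRing (LP n) K := by
    refine (isLocalization_iff _ _).2 ⟨fun y => ?_, fun z => ?_, fun {x y} h => ?_⟩
    · rw [hmap]
      refine IsUnit.mk0 _ fun h => ?_
      have : (y : LP n) = 0 := phiA_inj T (by rw [h, map_zero])
      exact nonZeroDivisors.ne_zero y.2 this
    · obtain ⟨a, ha, b, hb, hb0, hab⟩ := T.frac z
      rw [Finsupp.mem_span_range_iff_exists_finsupp] at ha hb
      obtain ⟨ca, rfl⟩ := ha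
      obtain ⟨cb, rfl⟩ := hb
      have hb1 : phiA T (AddMonoidAlgebra.ofCoeff cb) = cb.sum fun i a => a • T.χ i := by
        rw [phiA_apply, Finsupp.linearCombination_apply]
      have ha1 : phiA T (AddMonoidAlgebra.ofCoeff ca) = ca.sum fun i a => a • T.χ i := by
        rw [phiA_apply, Finsupp.linearCombination_apply]
      refine ⟨⟨AddMonoidAlgebra.ofCoeff ca, ⟨AddMonoidAlgebra.ofCoeff cb, ?_⟩⟩, ?_⟩
      · refine mem_nonZeroDivisors_of_ne_zero fun h => hb0 ?_
        rw [← hb1, h, map_zero]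
      · rw [hmap, hmap]
        show z * phiA T (AddMonoidAlgebra.ofCoeff cb) = phiA T (AddMonoidAlgebra.ofCoeff ca)
        rw [ha1, hb1]
        exact hab
    · rw [hmap, hmap] at h
      exact ⟨1, by rw [phiA_inj T h]⟩
  have hinj : Function.Injective (psiAP T φ).toRingHom := psiAP_inj T φ
  let Φ : K →+* HahnSeries ℤ K := IsFractionRing.lift hinj
  refine ⟨Φ, fun c k => ?_⟩
  have h1 : Finsupp.linearCombination ℂ T.χ c = algebraMap (LP n) K (AddMonoidAlgebra.ofCoeff c) := by
    rw [hmap, phiA_apply]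
  rw [h1, show Φ (algebraMap (LP n) K (AddMonoidAlgebra.ofCoeff c)) =
    (psiAP T φ).toRingHom (AddMonoidAlgebra.ofCoeff c) from IsFractionRing.lift_algebraMap hinj _]
  exact psiAP_coeff T φ (AddMonoidAlgebra.ofCoeff c) k

/-- A Laurent series embedding which is compatible with the torus `T` and the map `φ`. -/
structure TorHom (T : TorusField n K) (φ : (Fin n → ℤ) →+ ℤ) where
  Φ : K →+* HahnSeries ℤ K
  coeff : ∀ (c : (Fin n → ℤ) →₀ ℂ) (k : ℤ), (Φ (Finsupp.linearCombination ℂ T.χ c)).coeff k =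
        Finsupp.linearCombination ℂ T.χ (c.filter fun u => φ u = k)

theorem exists_torHom (T : TorusField n K) (φ : (Fin n → ℤ) →+ ℤ) : Nonempty (TorHom T φ) := by
  obtain ⟨Φ, h⟩ := exists_hom T φ
  exact ⟨⟨Φ, h⟩⟩

/-- `F = a t ^ l + (higher terms)`, where `a = 0` is allowed. -/
def Ld (l : ℤ) (a : K) (F : HahnSeries ℤ K) : Prop := (∀ k < l, F.coeff k = 0) ∧ F.coeff l = a

theorem Ld_mul {l m : ℤ} {a b : K} {F H : HahnSeries ℤ K} (hF : Ld l a F) (hH : Ld m b H) :
    Ld (l + m) (a * b) (F * H) := by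
  obtain ⟨hF1, hF2⟩ := hF
  obtain ⟨hH1, hH2⟩ := hH
  constructor
  · intro k hk
    rw [HahnSeries.coeff_mul]
    refine Finset.sum_eq_zero fun ij hij => ?_
    rw [Finset.mem_addAntidiagonal] at hij
    rcases lt_or_ge ij.1 l with h | h
    · rw [hF1 _ h, zero_mul]
    · rw [hH1 ij.2 (by omega), mul_zero]
  · rw [HahnSeries.coeff_mul]
    rw [Finset.sum_eq_single (l, m)]
    · rw [hF2, hH2]
    · intro ij hij hne
      rw [Finset.mem_addAntidiagonal] at hij
      rcases lt_trichotomy ij.1 l with h | h | h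
      · rw [hF1 _ h, zero_mul]
      · exfalso
        apply hne
        have : ij.2 = m := by omega
        exact Prod.ext h this
      · rw [hH1 ij.2 (by omega), mul_zero]
    · intro h
      rw [Finset.mem_addAntidiagonal] at h
      by_contra hne
      apply h
      refine ⟨?_, ?_, rfl⟩
      · rw [HahnSeries.mem_support]
        exact left_ne_zero_of_mul hne
      · rw [HahnSeries.mem_support]
        exact right_ne_zero_of_mul hne

theorem Ld_add {l : ℤ} {a b : K} {F H : HahnSeries ℤ K} (hF : Ld l a F) (hH : Ld l b H) :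
    Ld l (a + b) (F + H) :=
  ⟨fun k hk => by rw [HahnSeries.coeff_add, hF.1 k hk, hH.1 k hk, add_zero],
    by rw [HahnSeries.coeff_add, hF.2, hH.2]⟩

theorem Ld_neg {l : ℤ} {a : K} {F : HahnSeries ℤ K} (hF : Ld l a F) : Ld l (-a) (-F) :=
  ⟨fun k hk => by rw [HahnSeries.coeff_neg, hF.1 k hk, neg_zero],
    by rw [HahnSeries.coeff_neg, hF.2]⟩

theorem Ld_sub {l : ℤ} {a b : K} {F H : HahnSeries ℤ K} (hF : Ld l a F) (hH : Ld l b H) :
    Ld l (a - b) (F - H) := by
  rw [sub_eq_add_neg, sub_eq_add_neg]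
  exact Ld_add hF (Ld_neg hH)

theorem Ld_lt {l m : ℤ} {a : K} {F : HahnSeries ℤ K} (hF : Ld l a F) (h : m < l) : Ld m 0 F :=
  ⟨fun k hk => hF.1 k (hk.trans h), hF.1 m h⟩

theorem Ld_zero (l : ℤ) : Ld l 0 (0 : HahnSeries ℤ K) := ⟨fun _ _ => rfl, rfl⟩

theorem Ld_one : Ld 0 1 (1 : HahnSeries ℤ K) := by
  constructor
  · intro k hk
    rw [HahnSeries.coeff_one, if_neg hk.ne]
  · rw [HahnSeries.coeff_one, if_pos rfl]

theorem Ld_pow {l : ℤ} {a : K} {F : HahnSeries ℤ K} (hF : Ld l a F) (i : ℕ) :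
    Ld (i * l) (a ^ i) (F ^ i) := by
  induction i with
  | zero => simpa using Ld_one
  | succ i ih =>
    have := Ld_mul ih hF
    rw [pow_succ, pow_succ]
    convert this using 1
    push_cast
    ring

theorem Ld_ne {l : ℤ} {a : K} {F : HahnSeries ℤ K} (hF : Ld l a F) (ha : a ≠ 0) : F ≠ 0 := by
  rintro rfl
  exact ha hF.2.symm

theorem exists_Ld {F : HahnSeries ℤ K} (hF : F ≠ 0) : ∃ (l : ℤ) (a : K), a ≠ 0 ∧ Ld l a F := by
  refine ⟨F.order, F.coeff F.order, ?_, fun k hk => ?_, rfl⟩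
  · exact HahnSeries.coeff_order_eq_zero.not.2 hF
  · exact HahnSeries.coeff_eq_zero_of_lt_order hk

theorem Ld_unique {l m : ℤ} {a b : K} {F : HahnSeries ℤ K} (h1 : Ld l a F) (ha : a ≠ 0)
    (h2 : Ld m b F) (hb : b ≠ 0) : l = m ∧ a = b := by
  have h : l = m := by
    rcases lt_trichotomy l m with h | h | h
    · exact absurd (h1.2.symm.trans (h2.1 l h)) ha
    · exact h
    · exact absurd (h2.2.symm.trans (h1.1 m h)) hb
  subst h
  exact ⟨rfl, h1.2.symm.trans h2.2⟩

theorem Ld_inv {l : ℤ} {a : K} {F : HahnSeries ℤ K} (hF : Ld l a F) (ha : a ≠ 0) :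
    Ld (-l) a⁻¹ F⁻¹ := by
  have hF0 := Ld_ne hF ha
  obtain ⟨m, b, hb, hm⟩ := exists_Ld (inv_ne_zero hF0)
  have h1 := Ld_mul hF hm
  rw [mul_inv_cancel₀ hF0] at h1
  obtain ⟨e1, e2⟩ := Ld_unique h1 (mul_ne_zero ha hb) Ld_one one_ne_zero
  have e3 : m = -l := by omega
  have e4 : b = a⁻¹ := eq_inv_of_mul_eq_one_right e2
  rw [← e3, ← e4]
  exact hm

theorem Ld_zpow {l : ℤ} {a : K} {F : HahnSeries ℤ K} (hF : Ld l a F) (ha : a ≠ 0) (i : ℤ) :
    Ld (i * l) (a ^ i) (F ^ i) := by
  obtain ⟨j, rfl | rfl⟩ := i.eq_nat_or_neg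
  · rw [zpow_natCast, zpow_natCast]
    exact Ld_pow hF j
  · rw [zpow_neg, zpow_neg, zpow_natCast, zpow_natCast, neg_mul]
    exact Ld_inv (Ld_pow hF j) (pow_ne_zero j ha)

variable {T : TorusField n K} {φ : (Fin n → ℤ) →+ ℤ}

theorem TorHom.chi (P : TorHom T φ) (u : Fin n → ℤ) :
    P.Φ (T.χ u) = HahnSeries.single (φ u) (T.χ u) := by
  classical
  ext k
  have h := P.coeff (Finsupp.single u 1) k
  rw [Finsupp.linearCombination_single, one_smul] at h
  rw [h, HahnSeries.coeff_single]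
  by_cases hk : k = φ u
  · rw [if_pos hk, Finsupp.filter_single_of_pos (fun v : Fin n → ℤ => φ v = k) hk.symm,
      Finsupp.linearCombination_single, one_smul]
  · rw [if_neg hk, Finsupp.filter_single_of_neg (fun v : Fin n → ℤ => φ v = k) (fun h => hk h.symm),
      map_zero]

theorem TorHom.Ld_chi (P : TorHom T φ) (u : Fin n → ℤ) : Ld (φ u) (T.χ u) (P.Φ (T.χ u)) := by
  rw [P.chi]
  constructor
  · intro k hk
    rw [HahnSeries.coeff_single, if_neg hk.ne]
  · rw [HahnSeries.coeff_single, if_pos rfl]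

theorem TorHom.const (P : TorHom T φ) (c : ℂ) :
    P.Φ (algebraMap ℂ K c) = HahnSeries.single 0 (algebraMap ℂ K c) := by
  classical
  ext k
  have h := P.coeff (Finsupp.single 0 c) k
  rw [Finsupp.linearCombination_single, T.χ_zero, ← Algebra.algebraMap_eq_smul_one] at h
  rw [h, HahnSeries.coeff_single]
  by_cases hk : k = 0
  · subst hk
    rw [if_pos rfl, Finsupp.filter_single_of_pos (fun v : Fin n → ℤ => φ v = 0) (map_zero φ),
      Finsupp.linearCombination_single, T.χ_zero, ← Algebra.algebraMap_eq_smul_one]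
  · rw [if_neg hk, Finsupp.filter_single_of_neg (fun v : Fin n → ℤ => φ v = k)
      (fun h => hk (by rw [← h, map_zero])), map_zero]

theorem TorHom.Ld_const (P : TorHom T φ) (c : ℂ) :
    Ld 0 (algebraMap ℂ K c) (P.Φ (algebraMap ℂ K c)) := by
  rw [P.const]
  constructor
  · intro k hk
    rw [HahnSeries.coeff_single, if_neg hk.ne]
  · rw [HahnSeries.coeff_single, if_pos rfl]

theorem TorHom.inj (P : TorHom T φ) : Function.Injective P.Φ := P.Φ.injective

theorem TorHom.coeff_smul (P : TorHom T φ) (c : ℂ) (f : K) (k : ℤ) :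
    (P.Φ (c • f)).coeff k = c • (P.Φ f).coeff k := by
  rw [Algebra.smul_def, map_mul, P.const, HahnSeries.coeff_single_zero_mul, Algebra.smul_def]

end Pool.Agent.U198.SD
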