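import Pool.Agent.U198.SD.Lau

/-!
The Jacobian identity of the polynomials `X n`, and `X n ≠ 0`.
-/

noncomputable section

namespace Pool.Agent.U198.SD

open Pool.Agent.Helper774.KStab (TorusField)

variable {K : Type} [Field K] [Algebra ℂ K]

theorem charZero_K (K : Type) [Field K] [Algebra ℂ K] : CharZero K :=
  charZero_of_injective_algebraMap (algebraMap ℂ K).injective

/-- the Jacobian determinant of two functions -/
def J (D₀ D₁ : Derivation ℂ K K) (f h : K) : K := D₀ f * D₁ h - D₁ f * D₀ h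

section

variable (T : TorusField 2 K)

/-- the coordinate `x / z` -/
abbrev xx : K := T.χ ![1, 0]

/-- the coordinate `y / z` -/
abbrev yy : K := T.χ ![0, 1]

theorem D0x : T.θ 0 (xx T) = xx T := by
  rw [xx, T.θ_χ]; simp

theorem D0y : T.θ 0 (yy T) = 0 := by
  rw [yy, T.θ_χ]; simp

theorem D1x : T.θ 1 (xx T) = 0 := by
  rw [xx, T.θ_χ]; simp

theorem D1y : T.θ 1 (yy T) = yy T := by
  rw [yy, T.θ_χ]; simp

theorem xx_ne : xx T ≠ 0 := Pool.Agent.Helper774.KSing.chi_ne T _

theorem yy_ne : yy T ≠ 0 := Pool.Agent.Helper774.KSing.chi_ne T _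

theorem chi_eq (i j : ℕ) : T.χ ![(i : ℤ), (j : ℤ)] = xx T ^ i * yy T ^ j := by
  rw [xx, yy, ← Pool.Agent.Helper774.KSing.chi_nsmul', ← Pool.Agent.Helper774.KSing.chi_nsmul',
    ← T.χ_add]
  congr 1
  ext t
  fin_cases t <;> simp

theorem cc_ne : cc (xx T) (yy T) ≠ 0 := by
  classical
  have h : cc (xx T) (yy T) = Finsupp.linearCombination ℂ T.χ
      (Finsupp.single ![1, 1] 1 - Finsupp.single ![3, 0] 1 - Finsupp.single ![0, 3] 1) := by
    rw [map_sub, map_sub, Finsupp.linearCombination_single, Finsupp.linearCombination_single,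
      Finsupp.linearCombination_single, one_smul, one_smul, one_smul]
    have h1 := chi_eq T 1 1
    have h2 := chi_eq T 3 0
    have h3 := chi_eq T 0 3
    simp only [Nat.cast_one, Nat.cast_zero, Nat.cast_ofNat] at h1 h2 h3
    rw [h1, h2, h3, cc, cub]
    ring
  rw [h]
  apply Pool.Agent.Helper774.KStab.lc_ne
  intro h0
  have h1 := DFunLike.congr_fun h0 ![1, 1]
  have n1 : (![3, 0] : Fin 2 → ℤ) ≠ ![1, 1] := by decide
  have n2 : (![0, 3] : Fin 2 → ℤ) ≠ ![1, 1] := by decide
  simp [Finsupp.single_apply, n1, n2] at h1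

/-- the main induction: `X n ≠ 0` and the Jacobian identity -/
theorem jac_main (n : ℕ) : g (xx T) (yy T) n ≠ 0 ∧ g (xx T) (yy T) (n + 1) ≠ 0 ∧
    3 * cc (xx T) (yy T) * J (T.θ 0) (T.θ 1) (g (xx T) (yy T) n) (g (xx T) (yy T) (n + 1))
      - b (n + 1) * g (xx T) (yy T) (n + 1) *
        J (T.θ 0) (T.θ 1) (g (xx T) (yy T) n) (cc (xx T) (yy T))
      + b n * g (xx T) (yy T) n *
        J (T.θ 0) (T.θ 1) (g (xx T) (yy T) (n + 1)) (cc (xx T) (yy T)) =
    xx T * yy T * g (xx T) (yy T) n * g (xx T) (yy T) (n + 1) := by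
  haveI := charZero_K K
  induction n with
  | zero =>
    refine ⟨xx_ne T, yy_ne T, ?_⟩
    have e0 : g (xx T) (yy T) 0 = xx T := rfl
    have e1 : g (xx T) (yy T) (0 + 1) = yy T := rfl
    have c0 : T.θ 0 (cc (xx T) (yy T)) = xx T * yy T - 3 * xx T ^ 3 := by
      rw [cc, cub]
      simp only [map_sub, Derivation.leibniz, Derivation.leibniz_pow, D0x, D0y, smul_eq_mul,
        Derivation.map_one_eq_zero, nsmul_eq_mul]
      push_cast
      ring
    have c1 : T.θ 1 (cc (xx T) (yy T)) = xx T * yy T - 3 * yy T ^ 3 := by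
      rw [cc, cub]
      simp only [map_sub, Derivation.leibniz, Derivation.leibniz_pow, D1x, D1y, smul_eq_mul,
        Derivation.map_one_eq_zero, nsmul_eq_mul]
      push_cast
      ring
    rw [e0, e1, J, J, J, c0, c1, D0x, D0y, D1x, D1y, b_zero, b_one, cc, cub]
    push_cast
    ring
  | succ n ih =>
    obtain ⟨hP, hQ, hE⟩ := ih
    have hA : g (xx T) (yy T) n * g (xx T) (yy T) (n + 2) = g (xx T) (yy T) (n + 1) ^ 3 +
      cc (xx T) (yy T) ^ b (n + 1) := rel_A (xx T) (yy T) 1 n
    have hc := cc_ne T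
    have hx := xx_ne T
    have hy := yy_ne T
    have hb := b_succ_succ n
    obtain ⟨B, hB⟩ : ∃ B, b (n + 1) = B + 1 := ⟨b (n + 1) - 1, by have := b_pos (n + 1); omega⟩
    have hb' : (b (n + 1 + 1) : K) = 3 * ((B : K) + 1) - b n := by
      have : (b (n + 2) : K) + b n = 3 * b (n + 1) := by exact_mod_cast hb
      rw [hB] at this
      push_cast at this
      linear_combination this
    -- derivatives of the exchange relation
    have h0 := congrArg (T.θ 0) hA
    have h1 := congrArg (T.θ 1) hA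
    simp only [map_add, Derivation.leibniz, Derivation.leibniz_pow, smul_eq_mul, nsmul_eq_mul] at h0 h1
    rw [hB] at h0 h1 hE hA
    simp only [Nat.add_sub_cancel] at h0 h1
    rw [hb', hB]
    push_cast at h0 h1 hE ⊢
    rw [show n + 1 + 1 = n + 2 from rfl]
    have hR0 : g (xx T) (yy T) (n + 2) = 0 → T.θ 0 (g (xx T) (yy T) (n + 2)) = 0 := fun h => by
      rw [h, map_zero]
    have hR1 : g (xx T) (yy T) (n + 2) = 0 → T.θ 1 (g (xx T) (yy T) (n + 2)) = 0 := fun h => by
      rw [h, map_zero]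
    unfold J at *
    generalize g (xx T) (yy T) n = P at *
    generalize g (xx T) (yy T) (n + 1) = Q at *
    generalize g (xx T) (yy T) (n + 2) = R at *
    generalize cc (xx T) (yy T) = c at *
    generalize xx T = x at *
    generalize yy T = y at *
    generalize (b n : K) = bn at *
    generalize (B : K) = β at *
    generalize T.θ 0 P = P0 at *
    generalize T.θ 1 P = P1 at *
    generalize T.θ 0 Q = Q0 at *
    generalize T.θ 1 Q = Q1 at *
    generalize T.θ 0 R = R0 at *
    generalize T.θ 1 R = R1 at *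
    generalize T.θ 0 c = c0 at *
    generalize T.θ 1 c = c1 at *
    have hR : R ≠ 0 := by
      intro hR
      have k0 := hR0 hR
      have k1 := hR1 hR
      subst hR k0 k1
      have hz : x * y * P * Q ^ 3 = 0 := by
        linear_combination (-Q ^ 2) * hE + (-c * P0 + bn * P / 3 * c0) * h1
          + (c * P1 - bn * P / 3 * c1) * h0
          + (β + 1) * (P0 * c1 - P1 * c0) * hA
      exact (mul_ne_zero (mul_ne_zero (mul_ne_zero hx hy) hP) (pow_ne_zero 3 hQ)) hz
    refine ⟨hQ, hR, ?_⟩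
    apply mul_left_cancel₀ hP
    linear_combination (3 * c * Q0 - (β + 1) * Q * c0) * h1 + (-3 * c * Q1 + (β + 1) * Q * c1) * h0
      - 3 * (β + 1) * (Q0 * c1 - Q1 * c0) * hA + R * hE

end

end Pool.Agent.U198.SD
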