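import Pool.Agent.U198.SD.Clu
import Pool.Agent.Helper774.KSing.Bd

/-!
The Laurent phenomenon for the polynomials `X n`.
-/

noncomputable section

namespace Pool.Agent.U198.SD

open Pool.Agent.Helper774.KStab (TorusField)

variable {K : Type} [Field K] [Algebra ℂ K]

section mon

variable (x y : K)

/-- the polynomials `X n` at `z = 1` -/
abbrev g (n : ℕ) : K := X x y 1 n

/-- the cubic at `z = 1` -/
abbrev cc : K := cub x y 1

/-- the monomials in `X k, X (k+1), C` -/
def mon (k : ℕ) (a a' e : ℤ) : K := g x y k ^ a * g x y (k + 1) ^ a' * cc x y ^ e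

/-- Laurent polynomials in `X k, X (k+1), C` of degree `m` -/
def Lau (k : ℕ) (m : ℤ) : Submodule ℂ K :=
  Submodule.span ℂ {f | ∃ a a' e : ℤ, (b k : ℤ) * a + b (k + 1) * a' + 3 * e = m ∧
    f = mon x y k a a' e}

variable {x y}

theorem mon_mul (hg : ∀ n, g x y n ≠ 0) (hc : cc x y ≠ 0) (k : ℕ) (a a' e a₁ a₁' e₁ : ℤ) :
    mon x y k a a' e * mon x y k a₁ a₁' e₁ = mon x y k (a + a₁) (a' + a₁') (e + e₁) := by
  rw [mon, mon, mon, zpow_add₀ (hg k), zpow_add₀ (hg (k + 1)), zpow_add₀ hc]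
  ring

theorem mon_zero (k : ℕ) : mon x y k 0 0 0 = 1 := by
  simp [mon]

theorem mon_ne (hg : ∀ n, g x y n ≠ 0) (hc : cc x y ≠ 0) (k : ℕ) (a a' e : ℤ) :
    mon x y k a a' e ≠ 0 :=
  mul_ne_zero (mul_ne_zero (zpow_ne_zero _ (hg k)) (zpow_ne_zero _ (hg (k + 1))))
    (zpow_ne_zero _ hc)

theorem mon_mem (k : ℕ) {a a' e m : ℤ} (h : (b k : ℤ) * a + b (k + 1) * a' + 3 * e = m) :
    mon x y k a a' e ∈ Lau x y k m :=
  Submodule.subset_span ⟨a, a', e, h, rfl⟩

theorem Lau_mul (hg : ∀ n, g x y n ≠ 0) (hc : cc x y ≠ 0) (k : ℕ) {m m' : ℤ} {f f' : K}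
    (hf : f ∈ Lau x y k m) (hf' : f' ∈ Lau x y k m') : f * f' ∈ Lau x y k (m + m') := by
  induction hf using Submodule.span_induction with
  | mem f hf =>
    obtain ⟨a, a', e, h, rfl⟩ := hf
    induction hf' using Submodule.span_induction with
    | mem f' hf' =>
      obtain ⟨a₁, a₁', e₁, h₁, rfl⟩ := hf'
      rw [mon_mul hg hc]
      exact mon_mem k (by linear_combination h + h₁)
    | zero => rw [mul_zero]; exact Submodule.zero_mem _
    | add u v _ _ hu hv => rw [mul_add]; exact Submodule.add_mem _ hu hv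
    | smul c u _ hu => rw [mul_smul_comm]; exact Submodule.smul_mem _ _ hu
  | zero => rw [zero_mul]; exact Submodule.zero_mem _
  | add u v _ _ hu hv => rw [add_mul]; exact Submodule.add_mem _ hu hv
  | smul c u _ hu => rw [smul_mul_assoc]; exact Submodule.smul_mem _ _ hu

theorem Lau_cast (k : ℕ) {m m' : ℤ} (h : m = m') {f : K} (hf : f ∈ Lau x y k m) :
    f ∈ Lau x y k m' := h ▸ hf

theorem Lau_pow (hg : ∀ n, g x y n ≠ 0) (hc : cc x y ≠ 0) (k : ℕ) {m : ℤ} {f : K}
    (hf : f ∈ Lau x y k m) (i : ℕ) : f ^ i ∈ Lau x y k (i * m) := by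
  induction i with
  | zero =>
    rw [pow_zero, ← mon_zero (x := x) (y := y) k]
    exact mon_mem k (by simp)
  | succ i ih =>
    rw [pow_succ]
    exact Lau_cast k (by push_cast; ring) (Lau_mul hg hc k ih hf)

theorem Lau_g (k : ℕ) : g x y k ∈ Lau x y k (b k) := by
  have h : g x y k = mon x y k 1 0 0 := by simp [mon]
  rw [h]
  exact mon_mem k (by ring)

theorem Lau_g' (k : ℕ) : g x y (k + 1) ∈ Lau x y k (b (k + 1)) := by
  have h : g x y (k + 1) = mon x y k 0 1 0 := by simp [mon]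
  rw [h]
  exact mon_mem k (by ring)

theorem Lau_c (k : ℕ) (e : ℤ) : cc x y ^ e ∈ Lau x y k (3 * e) := by
  have h : cc x y ^ e = mon x y k 0 0 e := by simp [mon]
  rw [h]
  exact mon_mem k (by ring)

/-- The Laurent phenomenon, by descending induction. -/
theorem Lau_desc (hg : ∀ n, g x y n ≠ 0) (hc : cc x y ≠ 0) (k : ℕ) (i j : ℕ) (h : i + j = k) :
    g x y j ∈ Lau x y k (b j) ∧ g x y (j + 1) ∈ Lau x y k (b (j + 1)) ∧
      Z x y 1 j ∈ Lau x y k (2 * b (j + 1) - b j) := by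
  induction i generalizing j with
  | zero =>
    rw [zero_add] at h
    subst h
    refine ⟨Lau_g j, Lau_g' j, ?_⟩
    have hB := rel_B x y 1 j
    have hne : g x y j * g x y (j + 1) ≠ 0 := mul_ne_zero (hg j) (hg (j + 1))
    have e1 : Z x y 1 j = mon x y j 2 (-1) (d j) + mon x y j (-1) 2 0 +
        mon x y j (-1) (-1) (b (j + 1)) := by
      apply mul_left_cancel₀ hne
      have hB' : g x y j * g x y (j + 1) * Z x y 1 j = cc x y ^ d j * g x y j ^ 3 +
        g x y (j + 1) ^ 3 + cc x y ^ b (j + 1) := hB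
      rw [hB']
      have e2 : g x y j * g x y (j + 1) = mon x y j 1 1 0 := by simp [mon]
      rw [e2, mul_add, mul_add, mon_mul hg hc, mon_mul hg hc, mon_mul hg hc]
      norm_num
      simp only [mon, zpow_zero, mul_one, one_mul, zpow_natCast]
      norm_cast
      ring
    rw [e1]
    have hd := b_succ j
    have hd' : (b (j + 1) : ℤ) = b j + d j := by exact_mod_cast hd
    refine Submodule.add_mem _ (Submodule.add_mem _ ?_ ?_) ?_
    · exact mon_mem j (by rw [hd']; ring)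
    · exact mon_mem j (by ring)
    · exact mon_mem j (by ring)
  | succ i ih =>
    obtain ⟨h1, h2, h3⟩ := ih (j + 1) (by omega)
    have hE : cc x y ^ d (j + 1) * g x y j = g x y (j + 1) * Z x y 1 (j + 1) - g x y (j + 2) ^ 2 :=
      rel_E x y 1 j
    have hZ : cc x y ^ b (j + 1) * Z x y 1 j = Z x y 1 (j + 1) * g x y j -
      g x y (j + 2) * g x y (j + 1) ^ 2 := rel_Z x y 1 j
    have hd : (b (j + 2) : ℤ) = b (j + 1) + d (j + 1) := by exact_mod_cast b_succ (j + 1)
    have hb : (b (j + 2) : ℤ) + b j = 3 * b (j + 1) := by exact_mod_cast b_succ_succ j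
    have e1 : g x y j = cc x y ^ (-(d (j + 1) : ℤ)) *
        (g x y (j + 1) * Z x y 1 (j + 1) - g x y (j + 2) ^ 2) := by
      rw [← hE, zpow_neg, zpow_natCast, inv_mul_cancel_left₀ (pow_ne_zero _ hc)]
    have e2 : Z x y 1 j = cc x y ^ (-(b (j + 1) : ℤ)) *
        (Z x y 1 (j + 1) * g x y j - g x y (j + 2) * g x y (j + 1) ^ 2) := by
      rw [← hZ, zpow_neg, zpow_natCast, inv_mul_cancel_left₀ (pow_ne_zero _ hc)]
    have hgj : g x y j ∈ Lau x y k (b j) := by
      rw [e1]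
      refine Lau_cast k ?_ (Lau_mul hg hc k (Lau_c k _) (Submodule.sub_mem _
        (Lau_cast k ?_ (Lau_mul hg hc k h1 h3)) (Lau_pow hg hc k h2 2)))
      · push_cast
        rw [hd] at hb ⊢
        linarith
      · push_cast
        ring
    refine ⟨hgj, h1, ?_⟩
    rw [e2]
    refine Lau_cast k ?_ (Lau_mul hg hc k (Lau_c k _) (Submodule.sub_mem _
      (Lau_mul hg hc k h3 hgj)
      (Lau_cast k ?_ (Lau_mul hg hc k h2 (Lau_pow hg hc k h1 2)))))
    · push_cast
      linarith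
    · push_cast
      linarith

theorem Lau_xyz (hg : ∀ n, g x y n ≠ 0) (hc : cc x y ≠ 0) (k : ℕ) :
    x ∈ Lau x y k 1 ∧ y ∈ Lau x y k 1 ∧ (1 : K) ∈ Lau x y k 1 := by
  obtain ⟨h1, h2, h3⟩ := Lau_desc hg hc k k 0 (by omega)
  refine ⟨h1, h2, ?_⟩
  exact h3

end mon

end Pool.Agent.U198.SD
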