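import Pool.Agent.U198.SD.Chart
import Pool.Agent.U198.SD.Hom

/-!
The leading terms of the polynomials `X j` in the chart `n + 1`.
-/

noncomputable section

namespace Pool.Agent.U198.SD

open Pool.Agent.Helper774.KStab (TorusField)

variable {K : Type} [Field K] [Algebra ℂ K]

/-- `b i * b (n+1) - b (i+1) * b n ≥ 0` for `i ≤ n`, and it increases with `n`. -/
theorem ratio_aux (i m : ℕ) :
    0 ≤ (b i : ℤ) * b (i + m + 1) - b (i + 1) * b (i + m) ∧
    (b i : ℤ) * b (i + m + 1) - b (i + 1) * b (i + m) + 1 ≤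
      (b i : ℤ) * b (i + m + 2) - b (i + 1) * b (i + m + 1) := by
  induction m with
  | zero =>
    have h1 := b_mul i
    have h2 : (b i : ℤ) * b (i + 2) = b (i + 1) ^ 2 + 1 := by exact_mod_cast h1
    simp only [Nat.add_zero]
    constructor
    · linarith [mul_comm (b i : ℤ) (b (i + 1))]
    · rw [h2]
      linarith [mul_comm (b i : ℤ) (b (i + 1)), sq (b (i + 1) : ℤ)]
  | succ m ih =>
    obtain ⟨h1, h2⟩ := ih
    have h3 : (b (i + m + 3) : ℤ) + b (i + m + 1) = 3 * b (i + m + 2) := by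
      exact_mod_cast b_succ_succ (i + m + 1)
    have h4 : (b (i + m + 2) : ℤ) + b (i + m) = 3 * b (i + m + 1) := by
      exact_mod_cast b_succ_succ (i + m)
    have e1 : (b (i + m + 3) : ℤ) = 3 * b (i + m + 2) - b (i + m + 1) := by linarith
    have e2 : (b (i + m + 2) : ℤ) = 3 * b (i + m + 1) - b (i + m) := by linarith
    rw [show i + (m + 1) = i + m + 1 from rfl, show i + m + 1 + 1 = i + m + 2 from rfl,
      show i + m + 1 + 2 = i + m + 3 from rfl]
    constructor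
    · linarith
    · rw [e1]
      nlinarith

theorem ratio_lt (i n : ℕ) (h : i ≤ n) :
    ((b n : ℤ) + b (n + 1)) * b (i + 1) < b i * (b (n + 1) + b (n + 2)) := by
  obtain ⟨m, rfl⟩ := Nat.exists_eq_add_of_le h
  obtain ⟨h1, h2⟩ := ratio_aux i m
  nlinarith

section

variable (T : TorusField 2 K) (n : ℕ)

/-- the weight of `V` -/
def wp (n : ℕ) : ℤ := b n + b (n + 1)

/-- the weight of `W` -/
def wq (n : ℕ) : ℤ := b (n + 2) + b (n + 3)

/-- the weight -/
def wt (n : ℕ) : (Fin 2 → ℤ) →+ ℤ where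
  toFun u := wp n * u 0 + wq n * u 1
  map_zero' := by simp
  map_add' u v := by simp only [Pi.add_apply]; ring

theorem wt_apply (n : ℕ) (u : Fin 2 → ℤ) : wt n u = wp n * u 0 + wq n * u 1 := rfl

theorem wp_add_wq (n : ℕ) : wp n + wq n = 3 * (b (n + 1) + b (n + 2)) := by
  have h1 : (b (n + 2) : ℤ) + b n = 3 * b (n + 1) := by exact_mod_cast b_succ_succ n
  have h2 : (b (n + 3) : ℤ) + b (n + 1) = 3 * b (n + 2) := by exact_mod_cast b_succ_succ (n + 1)
  rw [wp, wq]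
  linarith

theorem wq_gt (n : ℕ) : 2 * wp n < wq n := by
  have h1 : (2 * b (n + 1) : ℤ) ≤ b (n + 2) := by exact_mod_cast b_two_le n
  have h2 : (2 * b (n + 2) : ℤ) ≤ b (n + 3) := by exact_mod_cast b_two_le (n + 1)
  have h3 : (b n : ℤ) ≤ b (n + 1) := by exact_mod_cast b_le_succ n
  have h4 : (1 : ℤ) ≤ b n := by exact_mod_cast b_pos n
  rw [wp, wq]
  linarith

theorem wp_pos (n : ℕ) : 0 < wp n := by
  have h4 : (1 : ℤ) ≤ b n := by exact_mod_cast b_pos n
  have h3 : (1 : ℤ) ≤ b (n + 1) := by exact_mod_cast b_pos (n + 1)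
  rw [wp]
  linarith

theorem wq_pos (n : ℕ) : 0 < wq n := by
  have h1 := wp_pos n
  have h2 := wq_gt n
  linarith

/-- the characters of the chart -/
abbrev VV (k : ℕ) : K := (tor T k).χ ![1, 0]

abbrev WW (k : ℕ) : K := (tor T k).χ ![0, 1]

theorem VV_ne (k : ℕ) : VV T k ≠ 0 := chi'_ne T k _

theorem WW_ne (k : ℕ) : WW T k ≠ 0 := chi'_ne T k _

theorem chi_VW (k : ℕ) (i j : ℕ) : (tor T k).χ ![(i : ℤ), (j : ℤ)] = VV T k ^ i * WW T k ^ j :=
  chi_eq (tor T k) i j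

theorem G_zt (k : ℕ) : G T k * zt T k ^ b k = VV T k ^ b (k + 1) := by
  have h := Mo_chi' T k (a := 1) (a' := 0) (e := 0) (m := b k) (by ring)
  rw [← zt_pow] at h
  have h1 : Mo T k 1 0 0 = G T k := by simp [mon]
  rw [h1, zpow_natCast] at h
  rw [h]
  have h2 := chi_VW T k (b (k + 1)) 0
  rw [pow_zero, mul_one] at h2
  rw [← h2]
  show chi' T k _ = chi' T k _
  congr 1
  simp

theorem G_zt' (k : ℕ) : G T (k + 1) * zt T k ^ b (k + 1) = WW T k ^ b k := by
  have h := Mo_chi' T k (a := 0) (a' := 1) (e := 0) (m := b (k + 1)) (by ring)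
  rw [← zt_pow] at h
  have h1 : Mo T k 0 1 0 = G T (k + 1) := by simp [mon]
  rw [h1, zpow_natCast] at h
  rw [h]
  have h2 := chi_VW T k 0 (b k)
  rw [pow_zero, one_mul] at h2
  rw [← h2]
  show chi' T k _ = chi' T k _
  congr 1
  simp

theorem Cu_zt (k : ℕ) : Cu T * zt T k ^ 3 = VV T k * WW T k := by
  have h := Mo_chi' T k (a := 0) (a' := 0) (e := 1) (m := 3) (by ring)
  rw [← zt_pow] at h
  have h1 : Mo T k 0 0 1 = Cu T := by simp [mon]
  rw [h1] at h
  have h3 : zt T k ^ (3 : ℤ) = zt T k ^ 3 := by norm_cast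
  rw [h3] at h
  rw [h]
  have h2 := chi_VW T k 1 1
  rw [pow_one, pow_one] at h2
  rw [← h2]
  show chi' T k _ = chi' T k _
  congr 1

theorem Ld_div {l m : ℤ} {a b : K} {F H : HahnSeries ℤ K} (hF : Ld l a F) (hH : Ld m b H)
    (hb : b ≠ 0) : Ld (l - m) (a / b) (F / H) := by
  rw [div_eq_mul_inv, div_eq_mul_inv, sub_eq_add_neg]
  exact Ld_mul hF (Ld_inv hH hb)

theorem Ld_cast {l m : ℤ} {a b : K} {F : HahnSeries ℤ K} (hF : Ld l a F) (hl : l = m) (ha : a = b) :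
    Ld m b F := by
  subst hl ha
  exact hF

/-- the sum of a term of order `l` and a term of higher order -/
theorem Ld_add_lt {l m : ℤ} {a b : K} {F H : HahnSeries ℤ K} (hF : Ld l a F) (hH : Ld m b H)
    (h : l < m) : Ld l a (F + H) := by
  have := Ld_add hF (Ld_lt hH h)
  rwa [add_zero] at this

end

section

variable {T : TorusField 2 K} {n : ℕ} (P : TorHom (tor T (n + 1)) (wt n))

include P

theorem Ld_V : Ld (wp n) (VV T (n + 1)) (P.Φ (VV T (n + 1))) :=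
  Ld_cast (P.Ld_chi ![1, 0]) (by rw [wt_apply]; simp) rfl

theorem Ld_W : Ld (wq n) (WW T (n + 1)) (P.Φ (WW T (n + 1))) :=
  Ld_cast (P.Ld_chi ![0, 1]) (by rw [wt_apply]; simp) rfl

variable {P} in
theorem Ld_zt_data {δ : ℤ} {l : K} (hl : l ≠ 0) (hz : Ld δ l (P.Φ (zt T (n + 1)))) :
    Ld (wp n * b (n + 2) - δ * b (n + 1)) (VV T (n + 1) ^ b (n + 2) / l ^ b (n + 1)) (P.Φ (G T (n + 1))) ∧
    Ld (wq n * b (n + 1) - δ * b (n + 2)) (WW T (n + 1) ^ b (n + 1) / l ^ b (n + 2)) (P.Φ (G T (n + 2))) ∧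
    Ld (wp n + wq n - δ * 3) (VV T (n + 1) * WW T (n + 1) / l ^ 3) (P.Φ (Cu T)) := by
  have hz0 := zt_ne T (n + 1)
  refine ⟨?_, ?_, ?_⟩
  · have h := G_zt T (n + 1)
    have e : G T (n + 1) = VV T (n + 1) ^ b (n + 2) / zt T (n + 1) ^ b (n + 1) := by
      rw [eq_div_iff (pow_ne_zero _ hz0)]
      exact h
    rw [e, map_div₀, map_pow, map_pow]
    exact Ld_cast (Ld_div (Ld_pow (Ld_V P) _) (Ld_pow hz _) (pow_ne_zero _ hl)) (by ring) rfl
  · have h := G_zt' T (n + 1)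
    have e : G T (n + 2) = WW T (n + 1) ^ b (n + 1) / zt T (n + 1) ^ b (n + 2) := by
      rw [eq_div_iff (pow_ne_zero _ hz0)]
      exact h
    rw [e, map_div₀, map_pow, map_pow]
    exact Ld_cast (Ld_div (Ld_pow (Ld_W P) _) (Ld_pow hz _) (pow_ne_zero _ hl)) (by ring) rfl
  · have h := Cu_zt T (n + 1)
    have e : Cu T = VV T (n + 1) * WW T (n + 1) / zt T (n + 1) ^ 3 := by
      rw [eq_div_iff (pow_ne_zero _ hz0)]
      exact h
    rw [e, map_div₀, map_mul, map_pow]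
    exact Ld_cast (Ld_div (Ld_mul (Ld_V P) (Ld_W P)) (Ld_pow hz _) (pow_ne_zero _ hl))
      (by push_cast; ring) rfl

variable {P} in
theorem Ld_desc {δ : ℤ} {l : K} (hl : l ≠ 0) (hz : Ld δ l (P.Φ (zt T (n + 1)))) (i j : ℕ)
    (h : i + j = n) :
    Ld (wp n * b (j + 1) - δ * b j) (VV T (n + 1) ^ b (j + 1) / l ^ b j) (P.Φ (G T j)) ∧
    Ld (wp n * b (j + 2) - δ * b (j + 1)) (VV T (n + 1) ^ b (j + 2) / l ^ b (j + 1))
      (P.Φ (G T (j + 1))) := by
  obtain ⟨h1, h2, h3⟩ := Ld_zt_data hl hz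
  have hV := VV_ne T (n + 1)
  have hW := WW_ne T (n + 1)
  induction i generalizing j with
  | zero =>
    rw [zero_add] at h
    subst h
    refine ⟨?_, h1⟩
    have hA : G T j * G T (j + 2) = G T (j + 1) ^ 3 + Cu T ^ b (j + 1) := rel_A (xx T) (yy T) 1 j
    have e : G T j = (Cu T ^ b (j + 1) + G T (j + 1) ^ 3) / G T (j + 2) := by
      rw [eq_div_iff (G_ne T _), hA, add_comm]
    have hb : (b (j + 2) : ℤ) + b j = 3 * b (j + 1) := by exact_mod_cast b_succ_succ j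
    rw [e, map_div₀, map_add, map_pow, map_pow]
    refine Ld_cast (Ld_div (Ld_add_lt (Ld_pow h3 _) (Ld_pow h1 3) ?_) h2
      (div_ne_zero (pow_ne_zero _ hW) (pow_ne_zero _ hl))) ?_ ?_
    · have h4 := wp_add_wq j
      have h5 : (b j : ℤ) * b (j + 2) = b (j + 1) ^ 2 + 1 := by exact_mod_cast b_mul j
      have h6 : (b (j + 1) : ℤ) * (wp j + wq j) < 3 * (wp j * b (j + 2)) := by
        rw [h4, wp]
        nlinarith
      push_cast
      nlinarith
    · linear_combination δ * hb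
    · have hb' : b (j + 2) + b j = 3 * b (j + 1) := b_succ_succ j
      rw [div_pow, div_div_div_eq, div_eq_div_iff (mul_ne_zero (pow_ne_zero _ (pow_ne_zero _ hl))
        (pow_ne_zero _ hW)) (pow_ne_zero _ hl)]
      have e1 : l ^ b (j + 2) * l ^ b j = (l ^ 3) ^ b (j + 1) := by
        rw [← pow_add, hb', pow_mul]
      rw [← e1]
      ring
  | succ i ih =>
    obtain ⟨h4, h5⟩ := ih (j + 1) (by omega)
    refine ⟨?_, h4⟩
    have hA : G T j * G T (j + 2) = G T (j + 1) ^ 3 + Cu T ^ b (j + 1) := rel_A (xx T) (yy T) 1 j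
    have e : G T j = (G T (j + 1) ^ 3 + Cu T ^ b (j + 1)) / G T (j + 2) := by
      rw [eq_div_iff (G_ne T _), hA]
    have hb : (b (j + 2) : ℤ) + b j = 3 * b (j + 1) := by exact_mod_cast b_succ_succ j
    have hb2 : (b (j + 3) : ℤ) + b (j + 1) = 3 * b (j + 2) := by exact_mod_cast b_succ_succ (j + 1)
    rw [e, map_div₀, map_add, map_pow, map_pow]
    refine Ld_cast (Ld_div (Ld_add_lt (Ld_pow h4 3) (Ld_pow h3 _) ?_) h5
      (div_ne_zero (pow_ne_zero _ hV) (pow_ne_zero _ hl))) ?_ ?_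
    · have h4 := wp_add_wq n
      have h6 := ratio_lt (j + 1) n (by omega)
      have h7 : 3 * (wp n * b (j + 1 + 1)) < (b (j + 1) : ℤ) * (wp n + wq n) := by
        rw [h4, wp]
        linarith
      push_cast
      linarith
    · push_cast
      linear_combination δ * hb - wp n * hb2
    · have hb' : b (j + 2) + b j = 3 * b (j + 1) := b_succ_succ j
      have hb2' : b (j + 3) + b (j + 1) = 3 * b (j + 2) := b_succ_succ (j + 1)
      rw [div_pow, div_div_div_eq, div_eq_div_iff (mul_ne_zero (pow_ne_zero _ (pow_ne_zero _ hl))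
        (pow_ne_zero _ hV)) (pow_ne_zero _ hl)]
      have e1 : (l ^ b (j + 1)) ^ 3 = l ^ b (j + 2) * l ^ b j := by
        rw [← pow_add, hb', ← pow_mul, mul_comm]
      have e2 : (VV T (n + 1) ^ b (j + 2)) ^ 3 = VV T (n + 1) ^ b (j + 3) * VV T (n + 1) ^ b (j + 1) := by
        rw [← pow_add, hb2', ← pow_mul, mul_comm]
      rw [show j + 1 + 1 = j + 2 from rfl, show j + 1 + 2 = j + 3 from rfl, e1, e2]
      ring

/-- the leading term of `z / τ` is `1` -/
theorem Ld_zt : Ld 0 1 (P.Φ (zt T (n + 1))) := by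
  have hne : P.Φ (zt T (n + 1)) ≠ 0 := by
    intro h
    exact zt_ne T (n + 1) (P.inj (by rw [h, map_zero]))
  obtain ⟨δ, l, hl, hz⟩ := exists_Ld hne
  obtain ⟨h1, h2, h3⟩ := Ld_zt_data hl hz
  obtain ⟨hx, hy⟩ := Ld_desc hl hz n 0 (by omega)
  have hV := VV_ne T (n + 1)
  have hW := WW_ne T (n + 1)
  have hx' : Ld (wp n - δ) (VV T (n + 1) / l) (P.Φ (xx T)) :=
    Ld_cast hx (by rw [b_one, b_zero]; push_cast; ring) (by rw [b_one, b_zero, pow_one, pow_one])
  have hy' : Ld (2 * wp n - δ) (VV T (n + 1) ^ 2 / l) (P.Φ (yy T)) :=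
    Ld_cast hy (by rw [b_one, b_two]; push_cast; ring) (by rw [b_one, b_two, pow_one])
  have hp := wp_pos n
  have hq := wq_gt n
  have hC : P.Φ (Cu T) = P.Φ (xx T) * P.Φ (yy T) - P.Φ (xx T) ^ 3 - P.Φ (yy T) ^ 3 := by
    rw [← map_mul, ← map_pow, ← map_pow, ← map_sub, ← map_sub]
    congr 1
    rw [show Cu T = cub (xx T) (yy T) 1 from rfl, cub, mul_one]
  have hxy := Ld_mul hx' hy'
  have hx3 := Ld_pow hx' 3
  have hy3 := Ld_pow hy' 3
  have hlC : VV T (n + 1) * WW T (n + 1) / l ^ 3 ≠ 0 :=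
    div_ne_zero (mul_ne_zero hV hW) (pow_ne_zero _ hl)
  have hCne : P.Φ (Cu T) ≠ 0 := Ld_ne h3 hlC
  rcases lt_trichotomy δ 0 with hd | hd | hd
  · exfalso
    have hh : Ld (wp n - δ + (2 * wp n - δ)) (VV T (n + 1) / l * (VV T (n + 1) ^ 2 / l))
        (P.Φ (Cu T)) := by
      have e : P.Φ (Cu T) = P.Φ (xx T) * P.Φ (yy T) + -P.Φ (xx T) ^ 3 + -P.Φ (yy T) ^ 3 := by
        rw [hC]; ring
      rw [e]
      refine Ld_add_lt (Ld_add_lt hxy (Ld_neg hx3) ?_) (Ld_neg hy3) ?_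
      · push_cast; linarith
      · push_cast; linarith
    have := (Ld_unique h3 hlC hh (mul_ne_zero (div_ne_zero hV hl)
      (div_ne_zero (pow_ne_zero _ hV) hl))).1
    linarith
  · subst hd
    have hh : Ld (3 * wp n) (VV T (n + 1) / l * (VV T (n + 1) ^ 2 / l) - (VV T (n + 1) / l) ^ 3)
        (P.Φ (Cu T)) := by
      have e : P.Φ (Cu T) = P.Φ (xx T) * P.Φ (yy T) - P.Φ (xx T) ^ 3 + -P.Φ (yy T) ^ 3 := by
        rw [hC]; ring
      rw [e]
      refine Ld_add_lt (Ld_sub (Ld_cast (m := 3 * wp n) hxy (by ring) rfl)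
        (Ld_cast (m := 3 * wp n) hx3 (by push_cast; ring) rfl)) (Ld_neg hy3) ?_
      push_cast; linarith
    by_cases h0 : VV T (n + 1) / l * (VV T (n + 1) ^ 2 / l) - (VV T (n + 1) / l) ^ 3 = 0
    · have hl1 : l = 1 := by
        have e : VV T (n + 1) ^ 3 * (l - 1) = 0 := by
          have e2 := congrArg (fun t => t * l ^ 3) h0
          simp only [zero_mul] at e2
          rw [← e2]
          field_simp
        have := (mul_eq_zero.1 e).resolve_left (pow_ne_zero _ hV)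
        linear_combination this
      rw [hl1] at hz
      exact hz
    · exfalso
      have := (Ld_unique h3 hlC hh h0).1
      linarith
  · exfalso
    have hh : Ld (3 * (wp n - δ)) (-((VV T (n + 1) / l) ^ 3)) (P.Φ (Cu T)) := by
      have e : P.Φ (Cu T) = -P.Φ (xx T) ^ 3 + P.Φ (xx T) * P.Φ (yy T) + -P.Φ (yy T) ^ 3 := by
        rw [hC]; ring
      rw [e]
      refine Ld_add_lt (Ld_add_lt (Ld_neg (Ld_cast (m := 3 * (wp n - δ)) hx3
        (by push_cast; ring) rfl)) hxy ?_) (Ld_neg hy3) ?_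
      · linarith
      · push_cast; linarith
    have := (Ld_unique h3 hlC hh (neg_ne_zero.2 (pow_ne_zero _ (div_ne_zero hV hl)))).1
    linarith

/-- the leading terms of `X j`, `j ≤ n + 1` -/
theorem Ld_G (j : ℕ) (hj : j ≤ n + 1) :
    Ld (wp n * b (j + 1)) (VV T (n + 1) ^ b (j + 1)) (P.Φ (G T j)) := by
  have h := Ld_zt P
  rcases Nat.lt_or_ge j (n + 1) with hj' | hj'
  · obtain ⟨i, hi⟩ := Nat.exists_eq_add_of_lt hj'
    exact Ld_cast (Ld_desc one_ne_zero h (n - j) j (by omega)).1 (by ring) (by rw [one_pow, div_one])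
  · have : j = n + 1 := by omega
    subst this
    exact Ld_cast (Ld_zt_data one_ne_zero h).1 (by ring) (by rw [one_pow, div_one])

theorem Ld_G2 : Ld (wq n * b (n + 1)) (WW T (n + 1) ^ b (n + 1)) (P.Φ (G T (n + 2))) :=
  Ld_cast (Ld_zt_data one_ne_zero (Ld_zt P)).2.1 (by ring) (by rw [one_pow, div_one])

theorem Ld_Cu : Ld (wp n + wq n) (VV T (n + 1) * WW T (n + 1)) (P.Φ (Cu T)) :=
  Ld_cast (Ld_zt_data one_ne_zero (Ld_zt P)).2.2 (by ring) (by rw [one_pow, div_one])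

theorem Ld_G3 : Ld (wq n * b (n + 2)) (WW T (n + 1) ^ b (n + 2)) (P.Φ (G T (n + 3))) := by
  have h1 := Ld_G P (n + 1) le_rfl
  have h2 := Ld_G2 P
  have h3 := Ld_Cu P
  have hV := VV_ne T (n + 1)
  have hA : G T (n + 1) * G T (n + 3) = G T (n + 2) ^ 3 + Cu T ^ b (n + 2) :=
    rel_A (xx T) (yy T) 1 (n + 1)
  have e : G T (n + 3) = (Cu T ^ b (n + 2) + G T (n + 2) ^ 3) / G T (n + 1) := by
    rw [eq_div_iff (G_ne T _), mul_comm, hA, add_comm]
  rw [e, map_div₀, map_add, map_pow, map_pow]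
  have hb : (b (n + 1) : ℤ) * b (n + 3) = b (n + 2) ^ 2 + 1 := by exact_mod_cast b_mul (n + 1)
  refine Ld_cast (Ld_div (Ld_add_lt (Ld_pow h3 _) (Ld_pow h2 3) ?_) h1 (pow_ne_zero _ hV)) ?_ ?_
  · have h4 := wp_add_wq n
    have h6 : (b (n + 2) : ℤ) * (wp n + wq n) < 3 * (wq n * b (n + 1)) := by
      rw [h4, wq]
      nlinarith
    push_cast
    linarith
  · rw [show n + 1 + 1 = n + 2 from rfl]
    ring
  · rw [mul_pow, show n + 1 + 1 = n + 2 from rfl, mul_div_cancel_left₀ _ (pow_ne_zero _ hV)]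

end

end Pool.Agent.U198.SD
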