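import Pool.Agent.U198.SD.Fam4

/-!
Derivations and leading terms; the change of the logarithmic derivations.
-/

noncomputable section

namespace Pool.Agent.U198.SD

open Pool.Agent.Helper774.KStab (TorusField)
open Pool.Agent.Helper774.KSing

variable {K : Type} [Field K] [Algebra ℂ K]

/-- the determinant of the derivatives of three functions -/
def D3 {L : Type} [Field L] [Algebra ℂ L] (S : TorusField 3 L) (g : Fin 3 → L) : L :=
  Matrix.det (Matrix.of fun i j => S.θ i (g j))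

section change

variable (T : TorusField 2 K) (k : ℕ)

theorem θ_t0 (i : Fin 2) (j : ℤ) : (T3 T).θ i.castSucc (tt ^ j) = 0 := by
  have h0 : (T3 T).θ i.castSucc (tt : RatFunc K) = 0 := by
    rw [T3_θ_t]
    fin_cases i <;> simp
  rw [Derivation.leibniz_zpow, h0, smul_zero, smul_zero]

theorem θ_t2 (j : ℤ) : (T3 T).θ 2 (tt ^ j) = (j : RatFunc K) * tt ^ j := by
  have h0 : (T3 T).θ 2 (tt : RatFunc K) = tt := by
    rw [T3_θ_t]
    simp
  rw [Derivation.leibniz_zpow, h0, zsmul_eq_mul, smul_eq_mul, ← zpow_add_one₀ tt_ne,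
    sub_add_cancel]

theorem θ_change (i : Fin 2) (F : RatFunc K) : (T3 T).θ i.castSucc F =
    ik (lam T k (T.θ i)) * (T3 (tor T k)).θ 0 F + ik (mu T k (T.θ i)) * (T3 (tor T k)).θ 1 F := by
  refine der_ext (T3 (tor T k)) (RingHom.id _) (fun c => rfl) (fun F => (T3 T).θ i.castSucc F)
    (fun F => ik (lam T k (T.θ i)) * (T3 (tor T k)).θ 0 F +
      ik (mu T k (T.θ i)) * (T3 (tor T k)).θ 1 F)
    (fun x y => by simp only [map_add]) (fun x y => by simp only [map_add]; ring)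
    (fun c x => by simp only [Derivation.map_smul])
    (fun c x => by simp only [Derivation.map_smul, mul_smul_comm, smul_add])
    (fun x y => by simp only [Derivation.leibniz, smul_eq_mul, RingHom.id_apply])
    (fun x y => by simp only [Derivation.leibniz, smul_eq_mul, RingHom.id_apply]; ring)
    (fun u => ?_) F
  simp only [(T3 (tor T k)).θ_χ]
  have e : (T3 (tor T k)).χ u = ik ((tor T k).χ ![u 0, u 1]) * tt ^ u 2 := by rw [T3_chi]; rfl
  rw [e, Derivation.leibniz, θ_t0, T3_θ_ik]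
  have h : T.θ i ((tor T k).χ ![u 0, u 1]) = (tor T k).χ ![u 0, u 1] *
      ((u 0 : K) * lam T k (T.θ i) + (u 1 : K) * mu T k (T.θ i)) := der_chi' T (T.θ i) k ![u 0, u 1]
  rw [h, smul_zero, zero_add, smul_eq_mul, map_mul, map_add, map_mul, map_mul, map_intCast,
    map_intCast]
  ring

theorem θ_change2 (F : RatFunc K) : (T3 T).θ 2 F = (T3 (tor T k)).θ 2 F := by
  refine der_ext (T3 (tor T k)) (RingHom.id _) (fun c => rfl) (fun F => (T3 T).θ 2 F)
    (fun F => (T3 (tor T k)).θ 2 F)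
    (fun x y => by simp only [map_add]) (fun x y => by simp only [map_add])
    (fun c x => by simp only [Derivation.map_smul])
    (fun c x => by simp only [Derivation.map_smul])
    (fun x y => by simp only [Derivation.leibniz, smul_eq_mul, RingHom.id_apply])
    (fun x y => by simp only [Derivation.leibniz, smul_eq_mul, RingHom.id_apply])
    (fun u => ?_) F
  simp only [(T3 (tor T k)).θ_χ]
  have e : (T3 (tor T k)).χ u = ik ((tor T k).χ ![u 0, u 1]) * tt ^ u 2 := by rw [T3_chi]; rfl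
  rw [e, Derivation.leibniz, θ_t2, T3_θ2_ik, smul_zero, add_zero, smul_eq_mul]
  ring

theorem D3_change (g : Fin 3 → RatFunc K) :
    D3 (T3 T) g = ik (xx T * yy T / Cu T) * D3 (T3 (tor T k)) g := by
  have h0 : ∀ j, (T3 T).θ 0 (g j) = ik (lam T k (T.θ 0)) * (T3 (tor T k)).θ 0 (g j) +
    ik (mu T k (T.θ 0)) * (T3 (tor T k)).θ 1 (g j) := fun j => θ_change T k 0 (g j)
  have h1 : ∀ j, (T3 T).θ 1 (g j) = ik (lam T k (T.θ 1)) * (T3 (tor T k)).θ 0 (g j) +
    ik (mu T k (T.θ 1)) * (T3 (tor T k)).θ 1 (g j) := fun j => θ_change T k 1 (g j)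
  have h2 : ∀ j, (T3 T).θ 2 (g j) = (T3 (tor T k)).θ 2 (g j) := fun j => θ_change2 T k (g j)
  rw [← det_lam T k, map_sub, map_mul, map_mul, D3, D3, Matrix.det_fin_three, Matrix.det_fin_three]
  simp only [Matrix.of_apply, h0, h1, h2]
  ring

end change

section lead

variable {T : TorusField 2 K} {p q : ℤ} (Q : TotHom T p q)

/-- leading terms of derivatives -/
theorem Ld_der_gen (D : Derivation ℂ (RatFunc K) (RatFunc K)) (f : ℤ → K → K)
    (hf : ∀ (l m : ℤ) (a b : K), f (l + m) (a * b) - a * f m b = b * f l a) (hf0 : ∀ k, f k 0 = 0)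
    (hD : ∀ A ∈ Submodule.span ℂ (Set.range (chi3 T)), ∀ k, (Q.Ψ (D A)).coeff k =
      f k ((Q.Ψ A).coeff k)) {l : ℤ} {a : K} {F : RatFunc K} (hF : Ld l a (Q.Ψ F)) :
    Ld l (f l a) (Q.Ψ (D F)) := by
  obtain ⟨A, hA, B, hB, hB0, hAB⟩ := chi3_frac T F
  have hspan : ∀ A ∈ Submodule.span ℂ (Set.range (chi3 T)), ∀ (k : ℤ) (c : K), Ld k c (Q.Ψ A) →
      Ld k (f k c) (Q.Ψ (D A)) := by
    intro A hA k c hc
    refine ⟨fun j hj => ?_, ?_⟩
    · rw [hD A hA, hc.1 j hj, hf0]
    · rw [hD A hA, hc.2]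
  obtain ⟨m, b, hb, hm⟩ := exists_Ld (F := Q.Ψ B) (fun h => hB0 (Q.inj (by rw [h, map_zero])))
  have h1 : Ld (l + m) (a * b) (Q.Ψ A) := by
    rw [← hAB, map_mul]
    exact Ld_mul hF hm
  have h2 := hspan A hA _ _ h1
  have h3 := hspan B hB _ _ hm
  have e : D F = (D A - F * D B) / B := by
    rw [eq_div_iff hB0, ← hAB, Derivation.leibniz, smul_eq_mul, smul_eq_mul]
    ring
  rw [e, map_div₀, map_sub, map_mul]
  refine Ld_cast (Ld_div (Ld_sub h2 (Ld_mul hF h3)) hm hb) (by ring) ?_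
  rw [hf, mul_div_cancel_left₀ _ hb]

theorem Ld_θ (i : Fin 2) {l : ℤ} {a : K} {F : RatFunc K} (hF : Ld l a (Q.Ψ F)) :
    Ld l (T.θ i a) (Q.Ψ ((T3 T).θ i.castSucc F)) := by
  refine Ld_der_gen Q ((T3 T).θ i.castSucc) (fun _ a => T.θ i a) (fun l m a b => ?_)
    (fun _ => map_zero _) (fun A hA k => ?_) hF
  · rw [Derivation.leibniz, smul_eq_mul, smul_eq_mul]
    ring
  · induction hA using Submodule.span_induction with
    | mem A hA =>
      obtain ⟨u, rfl⟩ := hA
      have h := (T3 T).θ_χ i.castSucc u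
      rw [T3_chi] at h
      rw [h, map_mul, map_intCast, Q.chi]
      have e : ((u i.castSucc : ℤ) : HahnSeries ℤ K) = HahnSeries.single 0 ((u i.castSucc : ℤ) : K) := by
        rw [← map_intCast (Q.Ψ) (u i.castSucc), ← map_intCast (algebraMap ℂ (RatFunc K)), Q.C_,
          map_intCast]
      rw [e, HahnSeries.coeff_single_zero_mul, HahnSeries.coeff_single]
      split_ifs
      · rw [T.θ_χ]
        congr 2
        fin_cases i <;> rfl
      · rw [mul_zero, map_zero]
    | zero => rw [map_zero, map_zero, HahnSeries.coeff_zero, map_zero]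
    | add u v _ _ hu hv => rw [map_add, map_add, HahnSeries.coeff_add, hu, hv, map_add,
        HahnSeries.coeff_add, map_add]
    | smul c u _ hu => rw [Derivation.map_smul, Q.coeff_smul, hu, Q.coeff_smul, Derivation.map_smul]

/-- the derivation which acts on the weight vectors -/
def DE (T : TorusField 2 K) (p q : ℤ) : Derivation ℂ (RatFunc K) (RatFunc K) :=
  ((p : ℤ) : RatFunc K) • (T3 T).θ 0 + ((q : ℤ) : RatFunc K) • (T3 T).θ 1 + (T3 T).θ 2

theorem DE_apply (F : RatFunc K) : DE T p q F =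
    (p : RatFunc K) * (T3 T).θ 0 F + (q : RatFunc K) * (T3 T).θ 1 F + (T3 T).θ 2 F := rfl

theorem Ld_DE {l : ℤ} {a : K} {F : RatFunc K} (hF : Ld l a (Q.Ψ F)) :
    Ld l ((l : K) * a) (Q.Ψ (DE T p q F)) := by
  refine Ld_der_gen Q (DE T p q) (fun l a => (l : K) * a) (fun l m a b => ?_)
    (fun _ => mul_zero _) (fun A hA k => ?_) hF
  · push_cast
    ring
  · induction hA using Submodule.span_induction with
    | mem A hA =>
      obtain ⟨u, rfl⟩ := hA
      have h : DE T p q (chi3 T u) = ((w3 p q u : ℤ) : RatFunc K) * chi3 T u := by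
        have h0 := (T3 T).θ_χ 0 u
        have h1 := (T3 T).θ_χ 1 u
        have h2 := (T3 T).θ_χ 2 u
        rw [T3_chi] at h0 h1 h2
        rw [DE_apply, h0, h1, h2, show w3 p q u = p * u 0 + q * u 1 + u 2 from rfl]
        push_cast
        ring
      have e : ((w3 p q u : ℤ) : HahnSeries ℤ K) = HahnSeries.single 0 ((w3 p q u : ℤ) : K) := by
        rw [← map_intCast (Q.Ψ) (w3 p q u), ← map_intCast (algebraMap ℂ (RatFunc K)), Q.C_,
          map_intCast]
      rw [h, map_mul, map_intCast, e, HahnSeries.coeff_single_zero_mul, Q.chi,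
        HahnSeries.coeff_single]
      split_ifs with h3
      · rw [h3]
      · rw [mul_zero, mul_zero]
    | zero => rw [map_zero, map_zero, HahnSeries.coeff_zero, mul_zero]
    | add u v _ _ hu hv => rw [map_add, map_add, HahnSeries.coeff_add, hu, hv, map_add,
        HahnSeries.coeff_add, mul_add]
    | smul c u _ hu => rw [Derivation.map_smul, Q.coeff_smul, hu, Q.coeff_smul, mul_smul_comm]

theorem Ge_DE {F : RatFunc K} (hF : Ge 0 (Q.Ψ F)) : Ge 1 (Q.Ψ (DE T p q F)) := by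
  have h := Ld_DE Q hF.ld
  rw [Int.cast_zero, zero_mul] at h
  intro k hk
  rcases lt_or_ge k 0 with h' | h'
  · exact h.1 k h'
  · have : k = 0 := by omega
    rw [this]
    exact h.2

theorem D3_DE (g : Fin 3 → RatFunc K) : D3 (T3 T) g = Matrix.det (Matrix.of fun i j =>
    (![(T3 T).θ 0 (g j), (T3 T).θ 1 (g j), DE T p q (g j)] : Fin 3 → RatFunc K) i) := by
  rw [D3, Matrix.det_fin_three, Matrix.det_fin_three]
  simp only [Matrix.of_apply, Matrix.cons_val_zero, Matrix.cons_val_one, Matrix.cons_val, DE_apply]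
  ring

/-- the order of the determinant of derivatives of functions `z j` with `z j * s j` regular -/
theorem D3_Ge (g s : Fin 3 → RatFunc K) (hs : ∀ j, Ge 0 (Q.Ψ (s j)))
    (hg : ∀ j, Ge 0 (Q.Ψ (g j * s j))) :
    Ge 1 (Q.Ψ ((∏ j, s j ^ 2) * D3 (T3 T) g)) := by
  have hloc : ∀ (D : Derivation ℂ (RatFunc K) (RatFunc K)) (j : Fin 3),
      s j ^ 2 * D (g j) = s j * D (g j * s j) - (g j * s j) * D (s j) := by
    intro D j
    rw [Derivation.leibniz, smul_eq_mul, smul_eq_mul]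
    ring
  have hθ : ∀ (i : Fin 2) (F : RatFunc K), Ge 0 (Q.Ψ F) → Ge 0 (Q.Ψ ((T3 T).θ i.castSucc F)) :=
    fun i F hF => (Ld_θ Q i hF.ld).ge
  have h0 : ∀ j, Ge 0 (Q.Ψ (s j ^ 2 * (T3 T).θ 0 (g j))) := by
    intro j
    rw [hloc, map_sub, map_mul, map_mul _ (g j * s j)]
    refine Ge_sub ?_ ?_
    · simpa using Ge_mul (hs j) (hθ 0 _ (hg j))
    · simpa using Ge_mul (hg j) (hθ 0 _ (hs j))
  have h1 : ∀ j, Ge 0 (Q.Ψ (s j ^ 2 * (T3 T).θ 1 (g j))) := by
    intro j
    rw [hloc, map_sub, map_mul, map_mul _ (g j * s j)]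
    refine Ge_sub ?_ ?_
    · simpa using Ge_mul (hs j) (hθ 1 _ (hg j))
    · simpa using Ge_mul (hg j) (hθ 1 _ (hs j))
  have h2 : ∀ j, Ge 1 (Q.Ψ (s j ^ 2 * DE T p q (g j))) := by
    intro j
    rw [hloc, map_sub, map_mul, map_mul _ (g j * s j)]
    refine Ge_sub ?_ ?_
    · simpa using Ge_mul (hs j) (Ge_DE Q (hg j))
    · simpa using Ge_mul (hg j) (Ge_DE Q (hs j))
  rw [D3_DE (p := p) (q := q), ← Matrix.det_mul_row, Matrix.det_fin_three]
  simp only [Matrix.of_apply, Matrix.cons_val_zero, Matrix.cons_val_one, Matrix.cons_val]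
  have key : ∀ x y z : RatFunc K, Ge 0 (Q.Ψ x) → Ge 0 (Q.Ψ y) → Ge 1 (Q.Ψ z) →
      Ge 1 (Q.Ψ (x * y * z)) := by
    intro x y z hx hy hz
    rw [map_mul, map_mul]
    simpa using Ge_mul (Ge_mul hx hy) hz
  rw [map_sub, map_add, map_add, map_sub, map_sub]
  exact Ge_sub (Ge_add (Ge_add (Ge_sub (Ge_sub (key _ _ _ (h0 0) (h1 1) (h2 2))
    (key _ _ _ (h0 0) (h1 2) (h2 1))) (key _ _ _ (h0 1) (h1 0) (h2 2)))
    (key _ _ _ (h0 1) (h1 2) (h2 0))) (key _ _ _ (h0 2) (h1 0) (h2 1)))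
    (key _ _ _ (h0 2) (h1 1) (h2 0))

end lead

end Pool.Agent.U198.SD
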