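import Pool.Agent.U198.SD.Sec1

/-!
The top forms of the total space: bounds.
-/

noncomputable section

namespace Pool.Agent.U198.SD

open Pool.Agent.Helper774.KStab (TorusField)
open Pool.Agent.Helper774.KSing

variable {K : Type} [Field K] [Algebra ℂ K]

section locT

variable {L : Type} [Field L] [Algebra ℂ L] {C : Subalgebra ℂ L} {t : L}

theorem locT_mul {F H : L} (hF : F ∈ locT C t) (hH : H ∈ locT C t) : F * H ∈ locT C t := by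
  obtain ⟨M, hM⟩ := hF
  obtain ⟨N, hN⟩ := hH
  refine ⟨M + N, ?_⟩
  have e : F * H * t ^ (M + N) = (F * t ^ M) * (H * t ^ N) := by ring
  rw [e]
  exact mul_mem hM hN

theorem locT_of {F : L} (hF : F ∈ C) : F ∈ locT C t := ⟨0, by rw [pow_zero, mul_one]; exact hF⟩

theorem locT_pow {F : L} (hF : F ∈ locT C t) (i : ℕ) : F ^ i ∈ locT C t := by
  induction i with
  | zero => rw [pow_zero]; exact locT_of (one_mem _)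
  | succ i ih => rw [pow_succ]; exact locT_mul ih hF

theorem locT_tpow (ht0 : t ≠ 0) (ht : t ∈ C) {F : L} (i : ℤ) (hF : F * t ^ i ∈ locT C t) :
    F ∈ locT C t := by
  obtain ⟨M, hM⟩ := hF
  refine ⟨(M + i).toNat, ?_⟩
  rcases le_or_gt 0 (M + i) with h | h
  · have e : F * t ^ (M + i).toNat = F * t ^ i * t ^ M := by
      rw [← zpow_natCast, ← zpow_natCast t M, Int.toNat_of_nonneg h, mul_assoc, ← zpow_add₀ ht0,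
        add_comm]
    rw [e]
    exact hM
  · obtain ⟨j, hj⟩ := Int.eq_ofNat_of_zero_le (show 0 ≤ -(M + i) by omega)
    have e : F * t ^ (M + i).toNat = F * t ^ i * t ^ M * t ^ j := by
      rw [Int.toNat_of_nonpos h.le, ← zpow_natCast t M, ← zpow_natCast t j, mul_assoc, mul_assoc,
        ← zpow_add₀ ht0, ← zpow_add₀ ht0, pow_zero, ← hj]
      rw [show (i + (M + -(M + i)) : ℤ) = 0 by ring, zpow_zero]
    rw [e]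
    exact mul_mem hM (pow_mem ht j)

/-- forms in a localisation -/
theorem forms_gen (S : TorusField 3 L) (R : Matrix (Fin 3) (Fin 3) ℤ) (hR : R.det ≠ 0)
    (B : Subalgebra ℂ L) (W : Submonoid L) (hW : ∀ s ∈ W, s ∈ B) (hW0 : (0 : L) ∉ W) (t η : L)
    (ht0 : t ≠ 0) (ht : t ∈ cone S R) (hη0 : η ≠ 0)
    (h : ∀ F ∈ B, ∃ i₀ : ℕ, ∀ i, i₀ ≤ i → F * η ^ i ∈ locT (cone S R) t)
    (g : Fin 3 → L) (hg : ∀ j, g j ∈ locW B W) :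
    ∃ s ∈ W, ∃ i M : ℕ, D3 S g * (s * η ^ i * t ^ M) ∈ mspan S R 1 := by
  let W₁ : Submonoid L :=
    { carrier := {F | F ∈ cone S R ∧ ∃ s ∈ W, ∃ i M : ℕ, F = s * η ^ i * t ^ M}
      one_mem' := ⟨one_mem _, 1, one_mem _, 0, 0, by simp⟩
      mul_mem' := by
        rintro _ _ ⟨h1, s, hs, i, M, rfl⟩ ⟨h2, s', hs', i', M', rfl⟩
        exact ⟨mul_mem h1 h2, s * s', mul_mem hs hs', i + i', M + M', by ring⟩ }
  have hW₁ : ∀ F ∈ W₁, F ∈ cone S R := fun F hF => hF.1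
  have hW₁0 : (0 : L) ∉ W₁ := by
    rintro ⟨-, s, hs, i, M, he⟩
    have hs0 : s ≠ 0 := fun h => hW0 (h ▸ hs)
    exact mul_ne_zero (mul_ne_zero hs0 (pow_ne_zero _ hη0)) (pow_ne_zero _ ht0) he.symm
  have hgl : ∀ j, g j ∈ locW (cone S R) W₁ := by
    intro j
    obtain ⟨s, hs, hgs⟩ := hg j
    obtain ⟨i₁, h₁⟩ := h _ hgs
    obtain ⟨i₂, h₂⟩ := h _ (hW s hs)
    obtain ⟨M₁, hM₁⟩ := h₁ (max i₁ i₂) (le_max_left _ _)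
    obtain ⟨M₂, hM₂⟩ := h₂ (max i₁ i₂) (le_max_right _ _)
    refine ⟨s * η ^ (max i₁ i₂) * t ^ (M₁ + M₂), ⟨?_, s, hs, _, _, rfl⟩, ?_⟩
    · have e : s * η ^ (max i₁ i₂) * t ^ (M₁ + M₂) = s * η ^ (max i₁ i₂) * t ^ M₂ * t ^ M₁ := by ring
      rw [e]
      exact mul_mem hM₂ (pow_mem ht _)
    · have e : g j * (s * η ^ (max i₁ i₂) * t ^ (M₁ + M₂)) =
          g j * s * η ^ (max i₁ i₂) * t ^ M₁ * t ^ M₂ := by ring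
      rw [e]
      exact mul_mem hM₁ (pow_mem ht _)
  obtain ⟨F, ⟨-, s, hs, i, M, rfl⟩, hF⟩ := forms_loc S R hR W₁ hW₁ hW₁0 g hgl
  exact ⟨s, hs, i, M, hF⟩

end locT

section kap

variable (T : TorusField 2 K) (n : ℕ)

/-- the standard section of the anticanonical sheaf, up to a unit -/
def kap : RatFunc K := ik (xx T * yy T) * tt ^ (1 - wp n - wq n)

theorem kap_ne : kap T n ≠ 0 := mul_ne_zero
    (fun h => (mul_ne_zero (xx_ne T) (yy_ne T)) (ik_inj (by rw [h, map_zero]))) (zpow_ne_zero _ tt_ne)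

theorem ikx_ne : ik (xx T) ≠ 0 := fun h => xx_ne T (ik_inj (by rw [h, map_zero]))

theorem iky_ne : ik (yy T) ≠ 0 := fun h => yy_ne T (ik_inj (by rw [h, map_zero]))

theorem chi_w (a : ℤ) : (T3 T).χ ![a, 1, 1] = ik (xx T) ^ (a - 1) * kap T n * tt ^ (wp n + wq n) := by
  rw [T3_chi]
  have h := chi3_ik T ![a, 1] 1
  have e : (![(![a, 1] : Fin 2 → ℤ) 0, (![a, 1] : Fin 2 → ℤ) 1, 1] : Fin 3 → ℤ) = ![a, 1, 1] := by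
    ext i; fin_cases i <;> rfl
  rw [e] at h
  rw [h, chi_zpow, map_mul, map_zpow₀, map_zpow₀, zpow_one, zpow_one, kap, map_mul,
    zpow_sub_one₀ (ikx_ne T)]
  have ht := tt_ne (K := K)
  have e2 : (tt : RatFunc K) ^ (1 - wp n - wq n) * tt ^ (wp n + wq n) = tt := by
    rw [← zpow_add₀ ht]
    rw [show (1 - wp n - wq n + (wp n + wq n) : ℤ) = 1 by ring, zpow_one]
  have hx := ikx_ne T
  calc ik (T.χ ![1, 0]) ^ a * ik (T.χ ![0, 1]) * tt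
      = ik (xx T) ^ a * ik (yy T) * (tt ^ (1 - wp n - wq n) * tt ^ (wp n + wq n)) := by rw [e2]
    _ = ik (xx T) ^ a * (ik (xx T))⁻¹ * (ik (xx T) * ik (yy T) * tt ^ (1 - wp n - wq n)) *
        tt ^ (wp n + wq n) := by field_simp

end kap

section fam

variable {T : TorusField 2 K} {n : ℕ} (Q : TotHom (tor T (n + 1)) (wp n) (wq n))

theorem ch_z (c : Fin 3) {F : RatFunc K} (hF : F ∈ (𝒹 Q).ch c) :
    ∃ i₀ : ℕ, ∀ i, i₀ ≤ i → F * (𝒹 Q).ξ c ^ i ∈ locT (cone (T3 T) Rz) tt := by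
  obtain ⟨i₀, h⟩ := GS.mem_chart_ge hF
  exact ⟨i₀, fun i hi => ((mem_SS_iff T).1 (h i hi).1).1⟩

/-- the local coordinate in the chart `x ≠ 0` -/
def ηx (c : Fin 3) : RatFunc K := (𝒹 Q).ξ c * ik (xx T) ^ (-((𝒹 Q).w c : ℤ))

theorem ηx_ne (c : Fin 3) : ηx Q c ≠ 0 := mul_ne_zero ((𝒹 Q).ξ_ne c) (zpow_ne_zero _ (ikx_ne T))

theorem ηx_pow (c : Fin 3) (i : ℕ) :
    ηx Q c ^ i = (𝒹 Q).ξ c ^ i * ik (xx T) ^ (-(((𝒹 Q).w c * i : ℕ) : ℤ)) := by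
  rw [ηx, mul_pow, ← zpow_natCast (ik (xx T) ^ _) i, ← zpow_mul]
  congr 2
  push_cast
  ring

theorem ch_x (c : Fin 3) {F : RatFunc K} (hF : F ∈ (𝒹 Q).ch c) :
    ∃ i₀ : ℕ, ∀ i, i₀ ≤ i → F * ηx Q c ^ i ∈ locT (cone (T3 T) Rx) tt := by
  obtain ⟨i₀, h⟩ := GS.mem_chart_ge hF
  refine ⟨i₀, fun i hi => ?_⟩
  rw [ηx_pow, ← mul_assoc]
  exact ((mem_SS_iff T).1 (h i hi).1).2

variable {Q} in
/-- the order of the forms along the central fibre -/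
theorem forms_v (c : Fin 3) (W : Submonoid (RatFunc K)) (hW : ∀ s ∈ W, s ∈ (𝒹 Q).ch c)
    (g : Fin 3 → RatFunc K) (hg : ∀ j, g j ∈ locW ((𝒹 Q).ch c) W) :
    ∃ s ∈ W, Ge 0 (Q.Ψ (D3 (T3 T) g * (kap T n)⁻¹ * s)) := by
  choose s hsW hs using hg
  refine ⟨∏ j, s j ^ 2, prod_mem fun j _ => pow_mem (hsW j) 2, ?_⟩
  have h1 := D3_Ge Q g s (fun j => ch_ge Q c (hW _ (hsW j))) (fun j => ch_ge Q c (hs j))
  have hC : Ld (wp n + wq n) (VV T (n + 1) * WW T (n + 1)) (Q.Ψ (ik (Cu T))) := Ld_Cu (QP Q)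
  have hC0 : ik (Cu T) ≠ 0 := fun h => Cu_ne T (ik_inj (by rw [h, map_zero]))
  have h2 := Ld_inv hC (mul_ne_zero (VV_ne T _) (WW_ne T _))
  have e : D3 (T3 T) g * (kap T n)⁻¹ * ∏ j, s j ^ 2 =
      (ik (Cu T))⁻¹ * tt ^ (wp n + wq n - 1) * ((∏ j, s j ^ 2) * D3 (T3 (tor T (n + 1))) g) := by
    have hx := ikx_ne T
    have hy := iky_ne T
    have ht := zpow_ne_zero (1 - wp n - wq n) (tt_ne (K := K))
    have e1 : (tt : RatFunc K) ^ (wp n + wq n - 1) = (tt ^ (1 - wp n - wq n))⁻¹ := by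
      rw [← zpow_neg]; congr 1; ring
    rw [D3_change T (n + 1), kap, map_div₀, map_mul, e1]
    field_simp
  rw [e, map_mul, map_mul, map_inv₀]
  have h3 := Ge_mul (Ge_mul h2.ge (Q.Ld_tpow (wp n + wq n - 1)).ge) h1
  exact Ge_mono h3 (by linarith)

variable {Q} in
/-- the bound for the forms -/
theorem forms_RT (c : Fin 3) (W : Submonoid (RatFunc K)) (hW : ∀ s ∈ W, s ∈ (𝒹 Q).ch c)
    (hW0 : (0 : RatFunc K) ∉ W)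
    (g : Fin 3 → RatFunc K) (hg : ∀ j, g j ∈ locW ((𝒹 Q).ch c) W) :
    ∃ s ∈ W, ∃ i₀ : ℕ, ∀ i, i₀ ≤ i → 3 ≤ (𝒹 Q).w c * i ∧
      D3 (T3 T) g * (kap T n)⁻¹ * s * (𝒹 Q).ξ c ^ i ∈ RT Q ((𝒹 Q).w c * i - 3) := by
  have hpq : 0 ≤ wp n + wq n := by have := wp_pos n; have := wq_pos n; linarith
  obtain ⟨M₀, hM₀⟩ := Int.eq_ofNat_of_zero_le hpq
  have hx := ikx_ne T
  have hk := kap_ne T n
  have ht := tt_ne (K := K)
  -- the chart `z ≠ 0`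
  obtain ⟨s₁, hs₁, h₁⟩ : ∃ s ∈ W, ∃ i : ℕ, D3 (T3 T) g * (kap T n)⁻¹ * s * (𝒹 Q).ξ c ^ i ∈
      locT (cone (T3 T) Rz) tt := by
    obtain ⟨s, hs, i, M, h⟩ := forms_gen (T3 T) Rz Rz_det ((𝒹 Q).ch c) W hW hW0 tt ((𝒹 Q).ξ c)
      tt_ne (tmem_Rz T) ((𝒹 Q).ξ_ne c) (fun F hF => ch_z Q c hF) g hg
    refine ⟨s, hs, i, M, ?_⟩
    have h2 := mspan_shift (T3 T) Rz 0 1 ![1, 1, 1] (fun j => by
      fin_cases j <;> simp [Rz, Matrix.vecMul, dotProduct, Fin.sum_univ_three])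
      (D3 (T3 T) g * (kap T n)⁻¹ * s * (𝒹 Q).ξ c ^ i * tt ^ M * (tt ^ M₀)⁻¹)
    have h3 : D3 (T3 T) g * (kap T n)⁻¹ * s * (𝒹 Q).ξ c ^ i * tt ^ M * (tt ^ M₀)⁻¹ ∈
        cone (T3 T) Rz := by
      rw [mem_cone, h2, chi_w T n, sub_self, zpow_zero, one_mul, zero_add, hM₀, zpow_natCast]
      have e : kap T n * tt ^ M₀ * (D3 (T3 T) g * (kap T n)⁻¹ * s * (𝒹 Q).ξ c ^ i * tt ^ M *
          (tt ^ M₀)⁻¹) = D3 (T3 T) g * (s * (𝒹 Q).ξ c ^ i * tt ^ M) := by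
        field_simp
      rw [e]
      exact h
    have h4 := mul_mem h3 (pow_mem (tmem_Rz T) M₀)
    rwa [mul_assoc _ (tt ^ M₀)⁻¹, inv_mul_cancel₀ (pow_ne_zero _ ht), mul_one] at h4
  -- the chart `x ≠ 0`
  obtain ⟨s₂, hs₂, h₂⟩ : ∃ s ∈ W, ∃ i : ℕ, D3 (T3 T) g * (kap T n)⁻¹ * s * ηx Q c ^ i *
      ik (xx T) ^ 3 ∈ locT (cone (T3 T) Rx) tt := by
    obtain ⟨s, hs, i, M, h⟩ := forms_gen (T3 T) Rx Rx_det ((𝒹 Q).ch c) W hW hW0 tt (ηx Q c)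
      tt_ne (tmem_Rx T) (ηx_ne Q c) (fun F hF => ch_x Q c hF) g hg
    refine ⟨s, hs, i, M, ?_⟩
    have h2 := mspan_shift (T3 T) Rx 0 1 ![-2, 1, 1] (fun j => by
      fin_cases j <;> simp [Rx, Matrix.vecMul, dotProduct, Fin.sum_univ_three])
      (D3 (T3 T) g * (kap T n)⁻¹ * s * ηx Q c ^ i * ik (xx T) ^ 3 * tt ^ M * (tt ^ M₀)⁻¹)
    have h3 : D3 (T3 T) g * (kap T n)⁻¹ * s * ηx Q c ^ i * ik (xx T) ^ 3 * tt ^ M * (tt ^ M₀)⁻¹ ∈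
        cone (T3 T) Rx := by
      have hx3 : ik (xx T) ^ (-2 - 1 : ℤ) = (ik (xx T) ^ 3)⁻¹ := by
        rw [show (-2 - 1 : ℤ) = -((3 : ℕ) : ℤ) by norm_num, zpow_neg, zpow_natCast]
      rw [mem_cone, h2, chi_w T n, hx3, zero_add, hM₀, zpow_natCast]
      have e : (ik (xx T) ^ 3)⁻¹ * kap T n * tt ^ M₀ * (D3 (T3 T) g * (kap T n)⁻¹ * s * ηx Q c ^ i *
          ik (xx T) ^ 3 * tt ^ M * (tt ^ M₀)⁻¹) = D3 (T3 T) g * (s * ηx Q c ^ i * tt ^ M) := by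
        field_simp
      rw [e]
      exact h
    have h4 := mul_mem h3 (pow_mem (tmem_Rx T) M₀)
    rwa [mul_assoc _ (tt ^ M₀)⁻¹, inv_mul_cancel₀ (pow_ne_zero _ ht), mul_one] at h4
  obtain ⟨s₃, hs₃, h₃⟩ := forms_v c W hW g hg
  obtain ⟨i₁, h₁⟩ := h₁
  obtain ⟨i₂, h₂⟩ := h₂
  obtain ⟨j₁, k₁⟩ := ch_z Q c (mul_mem (hW _ hs₂) (hW _ hs₃))
  obtain ⟨j₂, k₂⟩ := ch_x Q c (mul_mem (hW _ hs₁) (hW _ hs₃))
  refine ⟨s₁ * s₂ * s₃, mul_mem (mul_mem hs₁ hs₂) hs₃, i₁ + i₂ + j₁ + j₂ + 3, fun i hi => ?_⟩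
  have hw := (𝒹 Q).w_pos c
  have h3w : 3 ≤ (𝒹 Q).w c * i := by nlinarith
  refine ⟨h3w, (mem_SS_iff T).2 ⟨?_, ?_⟩, ?_⟩
  · obtain ⟨k, rfl⟩ := Nat.exists_eq_add_of_le (show i₁ ≤ i by omega)
    have e : D3 (T3 T) g * (kap T n)⁻¹ * (s₁ * s₂ * s₃) * (𝒹 Q).ξ c ^ (i₁ + k) =
        (D3 (T3 T) g * (kap T n)⁻¹ * s₁ * (𝒹 Q).ξ c ^ i₁) * (s₂ * s₃ * (𝒹 Q).ξ c ^ k) := by ring
    rw [e]
    exact locT_mul h₁ (k₁ k (by omega))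
  · obtain ⟨k, rfl⟩ := Nat.exists_eq_add_of_le (show i₂ ≤ i by omega)
    have e1 : ik (xx T) ^ (-(((𝒹 Q).w c * (i₂ + k) - 3 : ℕ) : ℤ)) =
        ik (xx T) ^ (-(((𝒹 Q).w c * (i₂ + k) : ℕ) : ℤ)) * ik (xx T) ^ 3 := by
      rw [← zpow_natCast (ik (xx T)) 3, ← zpow_add₀ hx]
      congr 1
      rw [Nat.cast_sub h3w]
      ring
    have e : D3 (T3 T) g * (kap T n)⁻¹ * (s₁ * s₂ * s₃) * (𝒹 Q).ξ c ^ (i₂ + k) *
        ik (xx T) ^ (-(((𝒹 Q).w c * (i₂ + k) - 3 : ℕ) : ℤ)) =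
        (D3 (T3 T) g * (kap T n)⁻¹ * s₂ * ηx Q c ^ i₂ * ik (xx T) ^ 3) *
          (s₁ * s₃ * ηx Q c ^ k) := by
      rw [e1]
      have h4 : ηx Q c ^ i₂ * ηx Q c ^ k = (𝒹 Q).ξ c ^ (i₂ + k) *
          ik (xx T) ^ (-(((𝒹 Q).w c * (i₂ + k) : ℕ) : ℤ)) := by rw [← pow_add, ηx_pow]
      calc _ = D3 (T3 T) g * (kap T n)⁻¹ * (s₁ * s₂ * s₃) * ((𝒹 Q).ξ c ^ (i₂ + k) *
            ik (xx T) ^ (-(((𝒹 Q).w c * (i₂ + k) : ℕ) : ℤ))) * ik (xx T) ^ 3 := by ring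
        _ = _ := by rw [← h4]; ring
    rw [e]
    exact locT_mul h₂ (k₂ k (by omega))
  · have e : D3 (T3 T) g * (kap T n)⁻¹ * (s₁ * s₂ * s₃) * (𝒹 Q).ξ c ^ i =
        (D3 (T3 T) g * (kap T n)⁻¹ * s₃) * (s₁ * s₂) * (𝒹 Q).ξ c ^ i := by ring
    rw [e, map_mul, map_mul, map_pow]
    exact Ge_mono (Ge_mul (Ge_mul h₃ (ch_ge Q c (mul_mem (hW _ hs₁) (hW _ hs₂))))
      (Ge_pow (Ld_ξ Q c).ge i)) (by simp)

variable {Q} in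
/-- products of forms -/
theorem forms_prod (c : Fin 3) (W : Submonoid (RatFunc K)) (hW : ∀ s ∈ W, s ∈ (𝒹 Q).ch c)
    (hW0 : (0 : RatFunc K) ∉ W) (m : ℕ) (a : Fin m → RatFunc K)
    (ha : ∀ k, ∃ g : Fin 3 → RatFunc K, (∀ j, g j ∈ locW ((𝒹 Q).ch c) W) ∧ a k = D3 (T3 T) g) :
    ∃ s ∈ W, ∃ i₀ : ℕ, ∀ i, i₀ ≤ i → 3 * m ≤ (𝒹 Q).w c * i ∧
      (∏ k, a k) * ((kap T n)⁻¹) ^ m * s * (𝒹 Q).ξ c ^ i ∈ RT Q ((𝒹 Q).w c * i - 3 * m) := by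
  induction m with
  | zero =>
    refine ⟨1, one_mem _, 0, fun i _ => ⟨by simp, ?_⟩⟩
    have h0 := (𝒢 Q).pow_mem ((𝒹 Q).ξ_mem c) i
    rw [Finset.univ_eq_empty, Finset.prod_empty, pow_zero, one_mul, one_mul, one_mul, mul_zero,
      Nat.sub_zero]
    exact h0
  | succ m ih =>
    obtain ⟨s, hs, i₁, h₁⟩ := ih (fun k => a k.castSucc) (fun k => ha k.castSucc)
    obtain ⟨g, hg, hag⟩ := ha (Fin.last m)
    obtain ⟨s', hs', i₂, h₂⟩ := forms_RT c W hW hW0 g hg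
    refine ⟨s * s', mul_mem hs hs', i₁ + i₂, fun i hi => ?_⟩
    obtain ⟨k, rfl⟩ := Nat.exists_eq_add_of_le (show i₁ ≤ i by omega)
    obtain ⟨h3, h4⟩ := h₁ i₁ le_rfl
    obtain ⟨h5, h6⟩ := h₂ k (by omega)
    have h7 := Nat.mul_add ((𝒹 Q).w c) i₁ k
    refine ⟨by omega, ?_⟩
    rw [Fin.prod_univ_castSucc, hag]
    have e : (∏ k : Fin m, a k.castSucc) * D3 (T3 T) g * ((kap T n)⁻¹) ^ (m + 1) * (s * s') *
        (𝒹 Q).ξ c ^ (i₁ + k) = ((∏ k : Fin m, a k.castSucc) * ((kap T n)⁻¹) ^ m * s *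
          (𝒹 Q).ξ c ^ i₁) * (D3 (T3 T) g * (kap T n)⁻¹ * s' * (𝒹 Q).ξ c ^ k) := by ring
    rw [e]
    refine (𝒢 Q).cast ?_ ((𝒢 Q).mul_mem h4 h6)
    omega

end fam

end Pool.Agent.U198.SD
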