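import Pool.Agent.U198.SD.Sec2

/-!
The sections of the powers of the anticanonical sheaf of the total space.
-/

noncomputable section

namespace Pool.Agent.U198.SD

open Pool.Agent.Helper774.KStab (TorusField)
open Pool.Agent.Helper774.KSing

variable {K : Type} [Field K] [Algebra ℂ K]

section step

variable {L : Type} [Field L] [Algebra ℂ L] (S : TorusField 3 L)

/-- forms with coefficients in `A` -/
def Frm (A : Set L) (a : L) : Prop := ∃ g : Fin 3 → L, (∀ j, g j ∈ A) ∧ a = D3 S g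

theorem sec_step (A : Set L) (hadd : ∀ x ∈ A, ∀ y ∈ A, x + y ∈ A)
    (hmul : ∀ x ∈ A, ∀ y ∈ A, x * y ∈ A) {m : ℕ} {t : L} (ht : t ∈ secSet S (m + 1) A)
    (x a : Fin 3 → L) (hx : ∀ k, x k ∈ A) (ha : ∀ k, Frm S A (a k)) :
    t * (x 0 * a 0 + x 1 * a 1 + x 2 * a 2) ∈ secSet S m A := by
  intro a' ha'
  have key : ∀ k, t * (a k * ∏ l, a' l) ∈ A := by
    intro k
    have h1 := ht (Fin.cons (a k) a') (by
      intro l
      refine Fin.cases ?_ (fun l => ?_) l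
      · rw [Fin.cons_zero]; exact ha k
      · rw [Fin.cons_succ]; exact ha' l)
    rw [Fin.prod_univ_succ] at h1
    simp only [Fin.cons_zero, Fin.cons_succ] at h1
    exact h1
  have e : t * (x 0 * a 0 + x 1 * a 1 + x 2 * a 2) * ∏ k, a' k =
      x 0 * (t * (a 0 * ∏ l, a' l)) + x 1 * (t * (a 1 * ∏ l, a' l)) +
        x 2 * (t * (a 2 * ∏ l, a' l)) := by ring
  rw [e]
  exact hadd _ (hadd _ (hmul _ (hx 0) _ (key 0)) _ (hmul _ (hx 1) _ (key 1))) _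
    (hmul _ (hx 2) _ (key 2))

theorem sec_pow (A : Set L) (hadd : ∀ x ∈ A, ∀ y ∈ A, x + y ∈ A)
    (hmul : ∀ x ∈ A, ∀ y ∈ A, x * y ∈ A) (x a : Fin 3 → L) (hx : ∀ k, x k ∈ A)
    (ha : ∀ k, Frm S A (a k)) (m : ℕ) (t : L) (ht : t ∈ secSet S m A) :
    t * (x 0 * a 0 + x 1 * a 1 + x 2 * a 2) ^ m ∈ A := by
  induction m generalizing t with
  | zero =>
    have := ht (fun _ => 0) (fun k => Fin.elim0 k)
    rw [Finset.univ_eq_empty, Finset.prod_empty] at this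
    rwa [pow_zero]
  | succ m ih =>
    have h := ih _ (sec_step S A hadd hmul ht x a hx ha)
    rw [pow_succ', ← mul_assoc]
    exact h

theorem D3_ident (α x y t : L) : α * D3 S ![α * x, α * y, t] + (α * x) * D3 S ![α * y, α, t] +
    (α * y) * D3 S ![α, α * x, t] = α ^ 3 * D3 S ![x, y, t] := by
  rw [D3, D3, D3, D3, Matrix.det_fin_three, Matrix.det_fin_three, Matrix.det_fin_three,
    Matrix.det_fin_three]
  simp only [Matrix.of_apply, Matrix.cons_val_zero, Matrix.cons_val_one, Matrix.cons_val,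
    Derivation.leibniz, smul_eq_mul]
  ring

theorem locW_add (B : Subalgebra ℂ L) (W : Submonoid L) (hW : ∀ s ∈ W, s ∈ B) :
    ∀ x ∈ locW B W, ∀ y ∈ locW B W, x + y ∈ locW B W := by
  rintro x ⟨s, hs, hx⟩ y ⟨s', hs', hy⟩
  refine ⟨s * s', mul_mem hs hs', ?_⟩
  have e : (x + y) * (s * s') = x * s * s' + y * s' * s := by ring
  rw [e]
  exact add_mem (mul_mem hx (hW _ hs')) (mul_mem hy (hW _ hs))

theorem locW_mul (B : Subalgebra ℂ L) (W : Submonoid L) :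
    ∀ x ∈ locW B W, ∀ y ∈ locW B W, x * y ∈ locW B W := by
  rintro x ⟨s, hs, hx⟩ y ⟨s', hs', hy⟩
  refine ⟨s * s', mul_mem hs hs', ?_⟩
  have e : (x * y) * (s * s') = (x * s) * (y * s') := by ring
  rw [e]
  exact mul_mem hx hy

theorem locW_of (B : Subalgebra ℂ L) (W : Submonoid L) {x : L} (hx : x ∈ B) : x ∈ locW B W :=
  ⟨1, one_mem _, by rwa [mul_one]⟩

end step

theorem D3_xyt (T : TorusField 2 K) : D3 (T3 T) ![ik (xx T), ik (yy T), tt] =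
    ik (xx T) * ik (yy T) * tt := by
  have h00 : (T3 T).θ 0 (ik (xx T)) = ik (xx T) := by
    have := T3_θ_ik T 0 (xx T)
    rw [D0x] at this
    exact this
  have h01 : (T3 T).θ 0 (ik (yy T)) = 0 := by
    have := T3_θ_ik T 0 (yy T)
    rw [D0y, map_zero] at this
    exact this
  have h10 : (T3 T).θ 1 (ik (xx T)) = 0 := by
    have := T3_θ_ik T 1 (xx T)
    rw [D1x, map_zero] at this
    exact this
  have h11 : (T3 T).θ 1 (ik (yy T)) = ik (yy T) := by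
    have := T3_θ_ik T 1 (yy T)
    rw [D1y] at this
    exact this
  have h02 : (T3 T).θ 0 (tt : RatFunc K) = 0 := by rw [T3_θ_t]; simp
  have h12 : (T3 T).θ 1 (tt : RatFunc K) = 0 := by rw [T3_θ_t]; simp
  have h22 : (T3 T).θ 2 (tt : RatFunc K) = tt := by rw [T3_θ_t]; simp
  rw [D3, Matrix.det_fin_three]
  simp only [Matrix.of_apply, Matrix.cons_val_zero, Matrix.cons_val_one, Matrix.cons_val,
    h00, h01, h10, h11, h02, h12, h22, T3_θ2_ik]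
  ring

section fam

variable {T : TorusField 2 K} {n : ℕ} (Q : TotHom (tor T (n + 1)) (wp n) (wq n))

theorem xy_RT (i j : ℕ) : ik (xx T ^ i * yy T ^ j) ∈ RT Q (i + j) := by
  have hx : Ge 0 ((QP Q).Φ (xx T)) := by
    have := (Ld_G (QP Q) 0 (by omega)).ge
    refine Ge_mono this ?_
    have h1 := wp_pos n
    positivity
  have hy : Ge 0 ((QP Q).Φ (yy T)) := by
    have := (Ld_G (QP Q) 1 (by omega)).ge
    refine Ge_mono this ?_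
    have h1 := wp_pos n
    positivity
  have h := mem_RT Q (f := xx T ^ i * yy T ^ j) (d := i + j)
    (Submodule.subset_span ⟨i, j, le_rfl, rfl⟩) (l := 0) (by
      rw [map_mul, map_pow, map_pow]
      simpa using Ge_mul (Ge_pow hx i) (Ge_pow hy j)) 0 (by norm_num)
  rwa [zpow_zero, mul_one] at h

theorem xy_ch (c : Fin 3) (i j : ℕ) (h : i + j ≤ (𝒹 Q).w c) :
    ik (xx T ^ i * yy T ^ j) / (𝒹 Q).ξ c ∈ (𝒹 Q).ch c := by
  have h1 := GS.div_mem_chart (𝒢 := 𝒢 Q) (r := (𝒹 Q).w c) (hh := (𝒹 Q).ξ_mem c) ((𝒹 Q).ξ_ne c)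
    (i := 1) (RT_mono Q (by rw [mul_one]; exact h) (xy_RT Q i j))
  rwa [pow_one] at h1

variable {Q}

theorem test_x (c : Fin 3) (W : Submonoid (RatFunc K)) (hW : ∀ s ∈ W, s ∈ (𝒹 Q).ch c) (N : ℕ)
    (hN : N + 1 ≤ (𝒹 Q).w c) (m : ℕ) (t : RatFunc K)
    (ht : t ∈ secSet (T3 T) m (locW ((𝒹 Q).ch c) W)) :
    ∃ s ∈ W, t * (ik (xx T) ^ (3 * N) * ((𝒹 Q).ξ c ^ 3)⁻¹ * kap T n * tt ^ (wp n + wq n)) ^ m * s ∈
      (𝒹 Q).ch c := by
  have hξ := (𝒹 Q).ξ_ne c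
  have h0 : ik (xx T) ^ N / (𝒹 Q).ξ c ∈ (𝒹 Q).ch c := by
    have := xy_ch Q c N 0 (by omega)
    rwa [pow_zero, mul_one, map_pow] at this
  have h1 : ik (xx T) ^ N / (𝒹 Q).ξ c * ik (xx T) ∈ (𝒹 Q).ch c := by
    have := xy_ch Q c (N + 1) 0 (by omega)
    rw [pow_zero, mul_one, map_pow, pow_succ, mul_div_right_comm] at this
    exact this
  have h2 : ik (xx T) ^ N / (𝒹 Q).ξ c * ik (yy T) ∈ (𝒹 Q).ch c := by
    have := xy_ch Q c N 1 (by omega)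
    rw [pow_one, map_mul, map_pow, mul_div_right_comm] at this
    exact this
  have ht' := (𝒹 Q).t_ch c
  change tt ∈ (𝒹 Q).ch c at ht'
  have key := sec_pow (T3 T) (locW ((𝒹 Q).ch c) W) (locW_add _ W hW) (locW_mul _ W)
    ![ik (xx T) ^ N / (𝒹 Q).ξ c, ik (xx T) ^ N / (𝒹 Q).ξ c * ik (xx T),
      ik (xx T) ^ N / (𝒹 Q).ξ c * ik (yy T)]
    ![D3 (T3 T) ![ik (xx T) ^ N / (𝒹 Q).ξ c * ik (xx T), ik (xx T) ^ N / (𝒹 Q).ξ c * ik (yy T), tt],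
      D3 (T3 T) ![ik (xx T) ^ N / (𝒹 Q).ξ c * ik (yy T), ik (xx T) ^ N / (𝒹 Q).ξ c, tt],
      D3 (T3 T) ![ik (xx T) ^ N / (𝒹 Q).ξ c, ik (xx T) ^ N / (𝒹 Q).ξ c * ik (xx T), tt]]
    (fin3 (locW_of _ W h0) (locW_of _ W h1) (locW_of _ W h2))
    (fin3 ⟨_, fin3 (locW_of _ W h1) (locW_of _ W h2) (locW_of _ W ht'), rfl⟩
      ⟨_, fin3 (locW_of _ W h2) (locW_of _ W h0) (locW_of _ W ht'), rfl⟩
      ⟨_, fin3 (locW_of _ W h0) (locW_of _ W h1) (locW_of _ W ht'), rfl⟩) m t ht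
  simp only [Matrix.cons_val_zero, Matrix.cons_val_one, Matrix.cons_val] at key
  rw [D3_ident, D3_xyt] at key
  obtain ⟨s, hs, h⟩ := key
  refine ⟨s, hs, ?_⟩
  have e : ik (xx T) ^ (3 * N) * ((𝒹 Q).ξ c ^ 3)⁻¹ * kap T n * tt ^ (wp n + wq n) =
      (ik (xx T) ^ N / (𝒹 Q).ξ c) ^ 3 * (ik (xx T) * ik (yy T) * tt) := by
    have h3 := chi_w T n 1
    rw [sub_self, zpow_zero, one_mul] at h3
    rw [mul_assoc, ← h3, T3_chi]
    have h4 := chi3_ik T ![1, 1] 1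
    have e2 : (![(![1, 1] : Fin 2 → ℤ) 0, (![1, 1] : Fin 2 → ℤ) 1, 1] : Fin 3 → ℤ) = ![1, 1, 1] := by
      ext i; fin_cases i <;> rfl
    rw [e2] at h4
    rw [h4, chi_zpow, zpow_one, zpow_one, zpow_one, map_mul, div_pow, ← pow_mul, mul_comm N 3]
    ring
  rw [e]
  exact h

/-- functions with given residues -/
theorem exists_res (c : Fin 3) {v : Fin 2 → ℤ} (hv : v ∈ Mset ((cData n).R c) 0) :
    ∃ F ∈ (𝒹 Q).ch c, Ld 0 ((tor T (n + 1)).χ v) (Q.Ψ F) := by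
  obtain ⟨a, ha, h⟩ := (rs_img Q c ((tor T (n + 1)).χ v)).1 (mem_cone_chi _ _ hv)
  refine ⟨a, ha, ?_⟩
  have h1 : Ge 0 (Q.Ψ (a : RatFunc K)) := a.2
  exact ⟨h1, h⟩

theorem exists_indep (c : Fin 3) : ∃ v v' : Fin 2 → ℤ, v ∈ Mset ((cData n).R c) 0 ∧
    v' ∈ Mset ((cData n).R c) 0 ∧ v 0 * v' 1 - v' 0 * v 1 ≠ 0 := by
  obtain ⟨d, e, hd, he⟩ := exists_dual ((cData n).R c) ((cData n).det_ne c)
  refine ⟨e 0, e 1, ?_, ?_, ?_⟩
  · intro j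
    rw [he 0]
    fin_cases j
    · simpa using hd.le
    · simp
  · intro j
    rw [he 1]
    fin_cases j
    · simp
    · simpa using hd.le
  · intro h
    have h1 : (Matrix.of ![e 0, e 1]).det = 0 := by
      rw [Matrix.det_fin_two]
      simp only [Matrix.of_apply, Matrix.cons_val_zero, Matrix.cons_val_one, Matrix.cons_val_fin_one]
      linarith
    have h2 : Matrix.of ![e 0, e 1] * (cData n).R c = Matrix.of ![Pi.single 0 d, Pi.single 1 d] := by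
      ext i j
      have h3 : (Matrix.of ![e 0, e 1] * (cData n).R c) i j =
          Matrix.vecMul ((Matrix.of ![e 0, e 1]) i) ((cData n).R c) j := rfl
      rw [h3]
      fin_cases i
      · show Matrix.vecMul (e 0) _ _ = _
        rw [he 0]; rfl
      · show Matrix.vecMul (e 1) _ _ = _
        rw [he 1]; rfl
    have h4 := congrArg Matrix.det h2
    rw [Matrix.det_mul, h1, zero_mul, Matrix.det_fin_two] at h4
    simp at h4
    omega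

theorem D3_two (S : TorusField 2 K) (f g : RatFunc K) : D3 (T3 S) ![f, g, tt] =
    tt * ((T3 S).θ 0 f * (T3 S).θ 1 g - (T3 S).θ 0 g * (T3 S).θ 1 f) := by
  have h02 : (T3 S).θ 0 (tt : RatFunc K) = 0 := by rw [T3_θ_t]; simp
  have h12 : (T3 S).θ 1 (tt : RatFunc K) = 0 := by rw [T3_θ_t]; simp
  have h22 : (T3 S).θ 2 (tt : RatFunc K) = tt := by rw [T3_θ_t]; simp
  rw [D3, Matrix.det_fin_three]
  simp only [Matrix.of_apply, Matrix.cons_val_zero, Matrix.cons_val_one, Matrix.cons_val,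
    h02, h12, h22]
  ring

/-- a form which generates the canonical sheaf along the central fibre -/
theorem exists_form (c : Fin 3) : ∃ f ∈ (𝒹 Q).ch c, ∃ g ∈ (𝒹 Q).ch c, ∃ a : K, a ≠ 0 ∧
    Ld 0 a (Q.Ψ (D3 (T3 T) ![f, g, tt] * (kap T n)⁻¹)) := by
  obtain ⟨v, v', hv, hv', hne⟩ := exists_indep (n := n) c
  obtain ⟨f, hf, hfl⟩ := exists_res (Q := Q) c hv
  obtain ⟨g, hg, hgl⟩ := exists_res (Q := Q) c hv'
  have hC : Ld (wp n + wq n) (VV T (n + 1) * WW T (n + 1)) (Q.Ψ (ik (Cu T))) := Ld_Cu (QP Q)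
  have hC0 : ik (Cu T) ≠ 0 := fun h => Cu_ne T (ik_inj (by rw [h, map_zero]))
  have hVW := mul_ne_zero (VV_ne T (n + 1)) (WW_ne T (n + 1))
  have h2 := Ld_inv hC hVW
  have e : D3 (T3 T) ![f, g, tt] * (kap T n)⁻¹ = (ik (Cu T))⁻¹ * tt ^ (wp n + wq n) *
      ((T3 (tor T (n + 1))).θ 0 f * (T3 (tor T (n + 1))).θ 1 g -
        (T3 (tor T (n + 1))).θ 0 g * (T3 (tor T (n + 1))).θ 1 f) := by
    have hx := ikx_ne T
    have hy := iky_ne T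
    have htt := tt_ne (K := K)
    have ht := zpow_ne_zero (1 - wp n - wq n) (tt_ne (K := K))
    have e1 : (tt : RatFunc K) ^ (wp n + wq n) = tt * (tt ^ (1 - wp n - wq n))⁻¹ := by
      rw [← zpow_neg, ← zpow_one_add₀ htt]; congr 1; ring
    rw [D3_change T (n + 1), D3_two, kap, map_div₀, map_mul, e1]
    field_simp
  have h0f := Ld_θ Q 0 hfl
  have h1f := Ld_θ Q 1 hfl
  have h0g := Ld_θ Q 0 hgl
  have h1g := Ld_θ Q 1 hgl
  have h3 := Ld_mul (Ld_mul h2 (Q.Ld_tpow (wp n + wq n)))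
    (Ld_sub (Ld_mul h0f h1g) (Ld_mul h0g h1f))
  have h4 : Ld 0 ((VV T (n + 1) * WW T (n + 1))⁻¹ * 1 *
      ((tor T (n + 1)).θ 0 ((tor T (n + 1)).χ v) * (tor T (n + 1)).θ 1 ((tor T (n + 1)).χ v') -
        (tor T (n + 1)).θ 0 ((tor T (n + 1)).χ v') * (tor T (n + 1)).θ 1 ((tor T (n + 1)).χ v)))
      (Q.Ψ (D3 (T3 T) ![f, g, tt] * (kap T n)⁻¹)) := by
    rw [e, map_mul, map_mul, map_inv₀, map_sub, map_mul, map_mul]
    exact Ld_cast h3 (by ring) rfl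
  refine ⟨f, hf, g, hg, _, ?_, h4⟩
  · rw [(tor T (n + 1)).θ_χ, (tor T (n + 1)).θ_χ, (tor T (n + 1)).θ_χ, (tor T (n + 1)).θ_χ]
    refine mul_ne_zero (mul_ne_zero (inv_ne_zero hVW) one_ne_zero) ?_
    have e2 : ((v 0 : ℤ) : K) * (tor T (n + 1)).χ v * (((v' 1 : ℤ) : K) * (tor T (n + 1)).χ v') -
        ((v' 0 : ℤ) : K) * (tor T (n + 1)).χ v' * (((v 1 : ℤ) : K) * (tor T (n + 1)).χ v) =
        ((v 0 * v' 1 - v' 0 * v 1 : ℤ) : K) * ((tor T (n + 1)).χ v * (tor T (n + 1)).χ v') := by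
      push_cast; ring
    rw [e2]
    haveI := charZero_K K
    exact mul_ne_zero (by exact_mod_cast hne) (mul_ne_zero (chi_ne'' _ _) (chi_ne'' _ _))

theorem test_v (c : Fin 3) (W : Submonoid (RatFunc K)) (hW : ∀ s ∈ W, s ∈ (𝒹 Q).ch c) (m : ℕ)
    (t : RatFunc K) (ht : t ∈ secSet (T3 T) m (locW ((𝒹 Q).ch c) W)) :
    ∃ s ∈ W, Ge 0 (Q.Ψ (t * kap T n ^ m * s)) := by
  obtain ⟨f, hf, g, hg, a, ha, hl⟩ := exists_form (Q := Q) c
  have ht' := (𝒹 Q).t_ch c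
  change tt ∈ (𝒹 Q).ch c at ht'
  have hF : Frm (T3 T) (locW ((𝒹 Q).ch c) W) (D3 (T3 T) ![f, g, tt]) :=
    ⟨_, fin3 (locW_of _ W hf) (locW_of _ W hg) (locW_of _ W ht'), rfl⟩
  have key := sec_pow (T3 T) (locW ((𝒹 Q).ch c) W) (locW_add _ W hW) (locW_mul _ W)
    ![1, 0, 0] (fun _ => D3 (T3 T) ![f, g, tt])
    (fin3 (locW_of _ W (one_mem _)) (locW_of _ W (zero_mem _)) (locW_of _ W (zero_mem _)))
    (fun _ => hF) m t ht
  simp only [Matrix.cons_val_zero, Matrix.cons_val_one, Matrix.cons_val, one_mul, zero_mul,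
    add_zero] at key
  obtain ⟨s, hs, h⟩ := key
  refine ⟨s, hs, ?_⟩
  have h1 := ch_ge Q c h
  have hk := kap_ne T n
  have hD : D3 (T3 T) ![f, g, tt] * (kap T n)⁻¹ ≠ 0 := by
    intro h0
    rw [h0, map_zero] at hl
    exact ha hl.2.symm
  have e : t * kap T n ^ m * s = t * D3 (T3 T) ![f, g, tt] ^ m * s *
      ((D3 (T3 T) ![f, g, tt] * (kap T n)⁻¹) ^ m)⁻¹ := by
    have hD' := left_ne_zero_of_mul hD
    rw [mul_pow, inv_pow]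
    field_simp
  rw [e, map_mul, map_inv₀, map_pow]
  exact Ge_mono (Ge_mul h1 (Ld_inv (Ld_pow hl m) (pow_ne_zero _ ha)).ge) (by simp)

theorem sec_to (c : Fin 3) (W : Submonoid (RatFunc K)) (hW : ∀ s ∈ W, s ∈ (𝒹 Q).ch c) (m : ℕ)
    (t : RatFunc K) (ht : t ∈ secSet (T3 T) m (locW ((𝒹 Q).ch c) W)) :
    ∃ s ∈ W, ∃ i : ℕ, t * kap T n ^ m * s * (𝒹 Q).ξ c ^ i ∈ RT Q ((𝒹 Q).w c * i + 3 * m) := by
  have hw := (𝒹 Q).w_pos c
  have hξ := (𝒹 Q).ξ_ne c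
  have hx := ikx_ne T
  have htt := tt_ne (K := K)
  obtain ⟨N, hN⟩ : ∃ N, (𝒹 Q).w c = N + 1 := ⟨(𝒹 Q).w c - 1, by omega⟩
  obtain ⟨s₁, hs₁, h₁⟩ := test_x c W hW 0 (by omega) m t ht
  obtain ⟨s₂, hs₂, h₂⟩ := test_x c W hW N (by omega) m t ht
  obtain ⟨s₃, hs₃, h₃⟩ := test_v c W hW m t ht
  obtain ⟨i₁, h₁⟩ := GS.mem_chart_ge h₁
  obtain ⟨i₂, h₂⟩ := GS.mem_chart_ge h₂
  have z₁ : t * kap T n ^ m * s₁ * (𝒹 Q).ξ c ^ i₁ ∈ locT (cone (T3 T) Rz) tt := by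
    have h4 := ((mem_SS_iff T).1 (h₁ (i₁ + 3 * m) (by omega)).1).1
    refine locT_tpow htt (tmem_Rz T) ((wp n + wq n) * m) ?_
    have e : t * kap T n ^ m * s₁ * (𝒹 Q).ξ c ^ i₁ * tt ^ ((wp n + wq n) * m) =
        t * (ik (xx T) ^ (3 * 0) * ((𝒹 Q).ξ c ^ 3)⁻¹ * kap T n * tt ^ (wp n + wq n)) ^ m * s₁ *
          (𝒹 Q).ξ c ^ (i₁ + 3 * m) := by
      rw [zpow_mul, zpow_natCast, mul_zero, pow_zero, one_mul, mul_pow, mul_pow, inv_pow, pow_add,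
        ← pow_mul]
      field_simp
    rw [e]
    exact h4
  have x₂ : t * kap T n ^ m * s₂ * ηx Q c ^ i₂ * ik (xx T) ^ (-((3 * m : ℕ) : ℤ)) ∈
      locT (cone (T3 T) Rx) tt := by
    have h4 := ((mem_SS_iff T).1 (h₂ (i₂ + 3 * m) (by omega)).1).2
    refine locT_tpow htt (tmem_Rx T) ((wp n + wq n) * m) ?_
    have e : t * kap T n ^ m * s₂ * ηx Q c ^ i₂ * ik (xx T) ^ (-((3 * m : ℕ) : ℤ)) *
        tt ^ ((wp n + wq n) * m) =
        t * (ik (xx T) ^ (3 * N) * ((𝒹 Q).ξ c ^ 3)⁻¹ * kap T n * tt ^ (wp n + wq n)) ^ m * s₂ *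
          (𝒹 Q).ξ c ^ (i₂ + 3 * m) * ik (xx T) ^ (-(((𝒹 Q).w c * (i₂ + 3 * m) : ℕ) : ℤ)) := by
      have e1 : ik (xx T) ^ (-(((𝒹 Q).w c * i₂ : ℕ) : ℤ)) * ik (xx T) ^ (-((3 * m : ℕ) : ℤ)) =
          (ik (xx T) ^ (3 * N)) ^ m * ik (xx T) ^ (-(((𝒹 Q).w c * (i₂ + 3 * m) : ℕ) : ℤ)) := by
        rw [← pow_mul, ← zpow_natCast (ik (xx T)) (3 * N * m), ← zpow_add₀ hx, ← zpow_add₀ hx]
        congr 1
        rw [hN]
        push_cast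
        ring
      rw [ηx_pow, zpow_mul, zpow_natCast, mul_pow, mul_pow, mul_pow, inv_pow, pow_add _ i₂, ← pow_mul]
      calc _ = t * kap T n ^ m * s₂ * (𝒹 Q).ξ c ^ i₂ * (ik (xx T) ^ (-(((𝒹 Q).w c * i₂ : ℕ) : ℤ)) *
            ik (xx T) ^ (-((3 * m : ℕ) : ℤ))) * (tt ^ (wp n + wq n)) ^ m := by ring
        _ = _ := by
          rw [e1, ← pow_mul]
          field_simp
          rw [← pow_mul]
    rw [e]
    exact h4
  obtain ⟨j₁, k₁⟩ := ch_z Q c (mul_mem (hW _ hs₂) (hW _ hs₃))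
  obtain ⟨j₂, k₂⟩ := ch_x Q c (mul_mem (hW _ hs₁) (hW _ hs₃))
  refine ⟨s₁ * s₂ * s₃, mul_mem (mul_mem hs₁ hs₂) hs₃, i₁ + i₂ + j₁ + j₂, ?_⟩
  obtain ⟨i, hi⟩ : ∃ i, i = i₁ + i₂ + j₁ + j₂ := ⟨_, rfl⟩
  rw [← hi]
  refine ⟨(mem_SS_iff T).2 ⟨?_, ?_⟩, ?_⟩
  · obtain ⟨k, rfl⟩ := Nat.exists_eq_add_of_le (show i₁ ≤ i by omega)
    have e : t * kap T n ^ m * (s₁ * s₂ * s₃) * (𝒹 Q).ξ c ^ (i₁ + k) =
        (t * kap T n ^ m * s₁ * (𝒹 Q).ξ c ^ i₁) * (s₂ * s₃ * (𝒹 Q).ξ c ^ k) := by ring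
    rw [e]
    exact locT_mul z₁ (k₁ k (by omega))
  · obtain ⟨k, rfl⟩ := Nat.exists_eq_add_of_le (show i₂ ≤ i by omega)
    have e : t * kap T n ^ m * (s₁ * s₂ * s₃) * (𝒹 Q).ξ c ^ (i₂ + k) *
        ik (xx T) ^ (-(((𝒹 Q).w c * (i₂ + k) + 3 * m : ℕ) : ℤ)) =
        (t * kap T n ^ m * s₂ * ηx Q c ^ i₂ * ik (xx T) ^ (-((3 * m : ℕ) : ℤ))) *
          (s₁ * s₃ * ηx Q c ^ k) := by
      have h4 : ηx Q c ^ i₂ * ηx Q c ^ k = (𝒹 Q).ξ c ^ (i₂ + k) *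
          ik (xx T) ^ (-(((𝒹 Q).w c * (i₂ + k) : ℕ) : ℤ)) := by rw [← pow_add, ηx_pow]
      have h5 : ik (xx T) ^ (-(((𝒹 Q).w c * (i₂ + k) + 3 * m : ℕ) : ℤ)) =
          ik (xx T) ^ (-(((𝒹 Q).w c * (i₂ + k) : ℕ) : ℤ)) * ik (xx T) ^ (-((3 * m : ℕ) : ℤ)) := by
        rw [← zpow_add₀ hx]
        congr 1
        push_cast
        ring
      rw [h5]
      calc _ = t * kap T n ^ m * (s₁ * s₂ * s₃) * ((𝒹 Q).ξ c ^ (i₂ + k) *
            ik (xx T) ^ (-(((𝒹 Q).w c * (i₂ + k) : ℕ) : ℤ))) * ik (xx T) ^ (-((3 * m : ℕ) : ℤ)) := by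
            ring
        _ = _ := by rw [← h4]; ring
    rw [e]
    exact locT_mul x₂ (k₂ k (by omega))
  · have e : t * kap T n ^ m * (s₁ * s₂ * s₃) * (𝒹 Q).ξ c ^ i =
        (t * kap T n ^ m * s₃) * (s₁ * s₂) * (𝒹 Q).ξ c ^ i := by ring
    rw [e, map_mul, map_mul, map_pow]
    exact Ge_mono (Ge_mul (Ge_mul h₃ (ch_ge Q c (mul_mem (hW _ hs₁) (hW _ hs₂))))
      (Ge_pow (Ld_ξ Q c).ge i)) (by simp)

/-- the local generator -/
def sg (Q : TotHom (tor T (n + 1)) (wp n) (wq n)) (m e : ℕ) (c : Fin 3) : RatFunc K :=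
  (𝒹 Q).ξ c ^ e * (kap T n ^ m)⁻¹

theorem sg_ne (m e : ℕ) (c : Fin 3) : sg Q m e c ≠ 0 :=
  mul_ne_zero (pow_ne_zero _ ((𝒹 Q).ξ_ne c)) (inv_ne_zero (pow_ne_zero _ (kap_ne T n)))

/-- the sections of `O(-m K)` at a localisation of a chart -/
theorem sec_loc (c : Fin 3) (W : Submonoid (RatFunc K)) (hW : ∀ s ∈ W, s ∈ (𝒹 Q).ch c)
    (hW0 : (0 : RatFunc K) ∉ W) (m e : ℕ) (he : (𝒹 Q).w c * e = 3 * m) (t : RatFunc K) :
    t ∈ secSet (T3 T) m (locW ((𝒹 Q).ch c) W) ↔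
      ∃ b ∈ locW ((𝒹 Q).ch c) W, t = sg Q m e c * b := by
  have hξ := (𝒹 Q).ξ_ne c
  have hk := kap_ne T n
  constructor
  · intro ht
    obtain ⟨s, hs, i, h⟩ := sec_to c W hW m t ht
    refine ⟨(sg Q m e c)⁻¹ * t, ⟨s, hs, i + e, ?_⟩, ?_⟩
    · have e1 : (sg Q m e c)⁻¹ * t * s * (𝒹 Q).ξ c ^ (i + e) =
          t * kap T n ^ m * s * (𝒹 Q).ξ c ^ i := by
        rw [sg, pow_add]
        field_simp
      rw [e1]
      refine (𝒢 Q).cast ?_ h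
      rw [Nat.mul_add, he]
    · rw [← mul_assoc, mul_inv_cancel₀ (sg_ne m e c), one_mul]
  · rintro ⟨b, ⟨s', hs', hb⟩, rfl⟩ a ha
    obtain ⟨s, hs, i₀, h⟩ := forms_prod c W hW hW0 m a ha
    obtain ⟨h1, h2⟩ := h i₀ le_rfl
    obtain ⟨j, hj⟩ := hb
    refine ⟨s * s', mul_mem hs hs', i₀ + j, ?_⟩
    have e1 : sg Q m e c * b * (∏ k, a k) * (s * s') * (𝒹 Q).ξ c ^ (i₀ + j) =
        ((∏ k, a k) * ((kap T n)⁻¹) ^ m * s * (𝒹 Q).ξ c ^ i₀) * (b * s' * (𝒹 Q).ξ c ^ j) *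
          (𝒹 Q).ξ c ^ e := by
      rw [sg, pow_add, inv_pow]
      ring
    rw [e1]
    refine (𝒢 Q).cast ?_ ((𝒢 Q).mul_mem ((𝒢 Q).mul_mem h2 hj) ((𝒢 Q).pow_mem ((𝒹 Q).ξ_mem c) e))
    rw [he, Nat.mul_add]
    omega

end fam

end Pool.Agent.U198.SD
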