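import Mathlib

/-!
The sequence `1, 1, 2, 5, 13, 34, ...` (Fibonacci numbers of odd index), `b (n+2) = 3 b (n+1) - b n`,
and `d n = b (n+1) - b n`.
-/

namespace Pool.Agent.U198.SD

/-- the pair `(b n, d n)` -/
def bd : ℕ → ℕ × ℕ
  | 0 => (1, 0)
  | n + 1 => ((bd n).1 + (bd n).2, (bd n).1 + 2 * (bd n).2)

/-- `1, 1, 2, 5, 13, 34, ...` -/
def b (n : ℕ) : ℕ := (bd n).1

/-- `d n = b (n+1) - b n`: `0, 1, 3, 8, 21, ...` -/
def d (n : ℕ) : ℕ := (bd n).2

theorem b_zero : b 0 = 1 := rfl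
theorem b_one : b 1 = 1 := rfl
theorem b_two : b 2 = 2 := rfl
theorem d_zero : d 0 = 0 := rfl
theorem d_one : d 1 = 1 := rfl

theorem b_succ (n : ℕ) : b (n + 1) = b n + d n := rfl
theorem d_succ (n : ℕ) : d (n + 1) = b n + 2 * d n := rfl
theorem d_succ' (n : ℕ) : d (n + 1) = b (n + 1) + d n := by rw [d_succ, b_succ]; ring
theorem b_succ_succ (n : ℕ) : b (n + 2) + b n = 3 * b (n + 1) := by
  rw [b_succ (n + 1), b_succ n, d_succ]; ring

theorem b_pos (n : ℕ) : 1 ≤ b n := by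
  induction n with
  | zero => exact le_rfl
  | succ n ih => rw [b_succ]; omega

theorem b_le_succ (n : ℕ) : b n ≤ b (n + 1) := by rw [b_succ]; omega

theorem b_two_le (n : ℕ) : 2 * b (n + 1) ≤ b (n + 2) := by
  have h1 := b_succ_succ n
  have h2 := b_le_succ n
  omega

/-- `b (n+1) ^ 2 + 1 = b n * b (n+2)` -/
theorem b_mul (n : ℕ) : b n * b (n + 2) = b (n + 1) ^ 2 + 1 := by
  induction n with
  | zero => rfl
  | succ n ih =>
    have h1 := b_succ_succ n
    have h2 := b_succ_succ (n + 1)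
    zify at *
    have e1 : (b (n + 1 + 2) : ℤ) = 3 * b (n + 2) - b (n + 1) := by linarith
    have e2 : (b n : ℤ) = 3 * b (n + 1) - b (n + 2) := by linarith
    rw [e2] at ih
    rw [e1, show n + 1 + 1 = n + 2 from rfl]
    linear_combination ih

/-- `b n ^ 2 + b (n+1) ^ 2 + 1 = 3 * b n * b (n+1)` -/
theorem b_markov (n : ℕ) : b n ^ 2 + b (n + 1) ^ 2 + 1 = 3 * b n * b (n + 1) := by
  have h1 := b_succ_succ n
  have h2 := b_mul n
  zify at *
  have e : (b (n + 2) : ℤ) = 3 * b (n + 1) - b n := by linarith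
  rw [e] at h2
  linear_combination -h2

theorem b_unbounded (n : ℕ) : n ≤ b (n + 1) := by
  induction n with
  | zero => exact Nat.zero_le _
  | succ n ih =>
    have := b_two_le n
    have h := b_pos (n + 1)
    show n + 1 ≤ b (n + 2)
    omega

end Pool.Agent.U198.SD
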