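import Pool.Agent.U198.SD.Hom

/-!
Constructions of function fields of tori: transport of the logarithmic derivations, the field
`K(t)`, and homomorphisms to Laurent series.
-/

noncomputable section

namespace Pool.Agent.U198.SD

open Pool.Agent.Helper774.KStab (TorusField LP exists_torusField phiA phiA_apply phiA_inj)

section of

variable {n : ℕ} {L : Type} [Field L] [Algebra ℂ L]

theorem frac_LP (T : TorusField n L) : @IsFractionRing (LP n) _ L _ (phiA T).toRingHom.toAlgebra := by
  classical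
  have hdom : IsDomain (LP n) := (phiA_inj T).isDomain (phiA T).toRingHom
  let _ : Algebra (LP n) L := (phiA T).toRingHom.toAlgebra
  have hmap : ∀ x : LP n, algebraMap (LP n) L x = phiA T x := fun x => rfl
  refine (isLocalization_iff _ _).2 ⟨fun y => ?_, fun z => ?_, fun {x y} h => ?_⟩
  · rw [hmap]
    refine IsUnit.mk0 _ fun h => ?_
    have : (y : LP n) = 0 := phiA_inj T (by rw [h, map_zero])
    exact nonZeroDivisors.ne_zero y.2 this
  · obtain ⟨a, ha, b, hb, hb0, hab⟩ := T.frac z
    rw [Finsupp.mem_span_range_iff_exists_finsupp] at ha hb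
    obtain ⟨ca, rfl⟩ := ha
    obtain ⟨cb, rfl⟩ := hb
    have hb1 : phiA T (AddMonoidAlgebra.ofCoeff cb) = cb.sum fun i a => a • T.χ i := by
      rw [phiA_apply, Finsupp.linearCombination_apply]
    have ha1 : phiA T (AddMonoidAlgebra.ofCoeff ca) = ca.sum fun i a => a • T.χ i := by
      rw [phiA_apply, Finsupp.linearCombination_apply]
    refine ⟨⟨AddMonoidAlgebra.ofCoeff ca, ⟨AddMonoidAlgebra.ofCoeff cb, ?_⟩⟩, ?_⟩
    · refine mem_nonZeroDivisors_of_ne_zero fun h => hb0 ?_
      rw [← hb1, h, map_zero]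
    · rw [hmap, hmap]
      show z * phiA T (AddMonoidAlgebra.ofCoeff cb) = phiA T (AddMonoidAlgebra.ofCoeff ca)
      rw [ha1, hb1]
      exact hab
  · rw [hmap, hmap] at h
    exact ⟨1, by rw [phiA_inj T h]⟩

/-- the characters as a homomorphism of algebras -/
def phiC (χ : (Fin n → ℤ) → L) (h0 : χ 0 = 1) (ha : ∀ u v, χ (u + v) = χ u * χ v) :
    LP n →ₐ[ℂ] L :=
  AddMonoidAlgebra.lift ℂ L (Fin n → ℤ)
    { toFun := fun u => χ u.toAdd
      map_one' := h0
      map_mul' := fun _ _ => ha _ _ }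

theorem phiC_apply (χ : (Fin n → ℤ) → L) (h0 : χ 0 = 1) (ha : ∀ u v, χ (u + v) = χ u * χ v)
    (x : LP n) : phiC χ h0 ha x = Finsupp.linearCombination ℂ χ x.coeff := by
  rw [phiC, AddMonoidAlgebra.lift_apply, Finsupp.linearCombination_apply]
  rfl

/-- a torus structure from the characters alone -/
theorem exists_torusField_of (χ : (Fin n → ℤ) → L) (h0 : χ 0 = 1)
    (ha : ∀ u v, χ (u + v) = χ u * χ v) (hli : LinearIndependent ℂ χ)
    (hfr : ∀ f : L, ∃ a ∈ Submodule.span ℂ (Set.range χ), ∃ b ∈ Submodule.span ℂ (Set.range χ),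
      b ≠ 0 ∧ f * b = a) : ∃ T : TorusField n L, T.χ = χ := by
  classical
  obtain ⟨K₀, _, _, ⟨T₀⟩⟩ := exists_torusField n
  have hdom : IsDomain (LP n) := (phiA_inj T₀).isDomain (phiA T₀).toRingHom
  let _ : Algebra (LP n) K₀ := (phiA T₀).toRingHom.toAlgebra
  haveI : IsFractionRing (LP n) K₀ := frac_LP T₀
  have hinj : Function.Injective (phiC χ h0 ha).toRingHom := by
    intro x y h
    have h' : phiC χ h0 ha x = phiC χ h0 ha y := h
    rw [phiC_apply, phiC_apply] at h'
    exact AddMonoidAlgebra.coeff_injective (hli h')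
  let e : K₀ →+* L := IsFractionRing.lift hinj
  have he : ∀ x : LP n, e (phiA T₀ x) = phiC χ h0 ha x := fun x => IsFractionRing.lift_algebraMap hinj x
  have heχ : ∀ u, e (T₀.χ u) = χ u := by
    intro u
    have h1 := he (AddMonoidAlgebra.single u 1)
    rw [phiA_apply, phiC_apply] at h1
    simpa using h1
  have hec : ∀ c : ℂ, e (algebraMap ℂ K₀ c) = algebraMap ℂ L c := by
    intro c
    have h1 := he (algebraMap ℂ (LP n) c)
    rw [AlgHom.commutes, AlgHom.commutes] at h1
    exact h1
  have hsurj : Function.Surjective e := by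
    intro f
    obtain ⟨a, ha', b, hb', hb0, hab⟩ := hfr f
    rw [Finsupp.mem_span_range_iff_exists_finsupp] at ha' hb'
    obtain ⟨ca, rfl⟩ := ha'
    obtain ⟨cb, rfl⟩ := hb'
    have h1 : e (phiA T₀ (AddMonoidAlgebra.ofCoeff ca)) = ca.sum fun i a => a • χ i := by
      rw [he, phiC_apply, Finsupp.linearCombination_apply]
    have h2 : e (phiA T₀ (AddMonoidAlgebra.ofCoeff cb)) = cb.sum fun i a => a • χ i := by
      rw [he, phiC_apply, Finsupp.linearCombination_apply]
    refine ⟨phiA T₀ (AddMonoidAlgebra.ofCoeff ca) / phiA T₀ (AddMonoidAlgebra.ofCoeff cb), ?_⟩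
    rw [map_div₀, h1, h2, ← hab, mul_div_cancel_right₀ _ hb0]
  let E : K₀ ≃+* L := RingEquiv.ofBijective e ⟨e.injective, hsurj⟩
  have hEe : ∀ x, E x = e x := fun x => rfl
  have hEs : ∀ (c : ℂ) (x : L), E.symm (c • x) = c • E.symm x := by
    intro c x
    apply E.injective
    rw [E.apply_symm_apply, Algebra.smul_def, Algebra.smul_def, map_mul, E.apply_symm_apply, hEe, hec]
  let der : Fin n → Derivation ℂ L L := fun i =>
    Derivation.mk'
      { toFun := fun x => E (T₀.θ i (E.symm x))
        map_add' := fun x y => by rw [map_add, map_add, map_add]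
        map_smul' := fun c x => by
          rw [hEs, Derivation.map_smul, Algebra.smul_def, map_mul, hEe (algebraMap ℂ K₀ c), hec,
            RingHom.id_apply, Algebra.smul_def] }
      (fun x y => by
        show E (T₀.θ i (E.symm (x * y))) = x • E (T₀.θ i (E.symm y)) + y • E (T₀.θ i (E.symm x))
        rw [map_mul, Derivation.leibniz, map_add, smul_eq_mul, smul_eq_mul, map_mul, map_mul,
          E.apply_symm_apply, E.apply_symm_apply, smul_eq_mul, smul_eq_mul])
  refine ⟨{ χ := χ, χ_zero := h0, χ_add := ha, li := hli, frac := hfr, θ := der, θ_χ := ?_ }, rfl⟩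
  intro i u
  show E (T₀.θ i (E.symm (χ u))) = _
  have h1 : E.symm (χ u) = T₀.χ u := by
    apply E.injective
    rw [E.apply_symm_apply, hEe, heχ]
  rw [h1, T₀.θ_χ, map_mul, map_intCast, hEe, heχ]

end of

section homG

variable {n n' : ℕ} {L K : Type} [Field L] [Algebra ℂ L] [Field K] [Algebra ℂ K]

/-- the characters with their order under an additive map -/
def serG (T : TorusField n' K) (A : (Fin n → ℤ) →+ (Fin n' → ℤ)) (φ : (Fin n → ℤ) →+ ℤ) :
    Multiplicative (Fin n → ℤ) →* HahnSeries ℤ K where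
  toFun u := HahnSeries.single (φ u.toAdd) (T.χ (A u.toAdd))
  map_one' := by
    show HahnSeries.single (φ (0 : Fin n → ℤ)) (T.χ (A 0)) = 1
    rw [map_zero, map_zero, T.χ_zero]; rfl
  map_mul' u v := by
    show HahnSeries.single (φ (u.toAdd + v.toAdd)) (T.χ (A (u.toAdd + v.toAdd))) = _
    rw [map_add A, T.χ_add, map_add, HahnSeries.single_mul_single]

attribute [-instance] HahnSeries.powerSeriesAlgebra in
def psiG (T : TorusField n' K) (A : (Fin n → ℤ) →+ (Fin n' → ℤ)) (φ : (Fin n → ℤ) →+ ℤ) :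
    LP n →ₐ[ℂ] HahnSeries ℤ K :=
  AddMonoidAlgebra.lift ℂ (HahnSeries ℤ K) (Fin n → ℤ) (serG T A φ)

attribute [-instance] HahnSeries.powerSeriesAlgebra in
theorem psiG_coeff (T : TorusField n' K) (A : (Fin n → ℤ) →+ (Fin n' → ℤ)) (φ : (Fin n → ℤ) →+ ℤ)
    (x : LP n) (k : ℤ) :
    (psiG T A φ x).coeff k =
      Finsupp.linearCombination ℂ (fun u => T.χ (A u)) (x.coeff.filter fun u => φ u = k) := by
  classical
  rw [psiG, AddMonoidAlgebra.lift_apply, Finsupp.sum, HahnSeries.coeff_sum,
    Finsupp.linearCombination_apply, Finsupp.sum, Finsupp.support_filter, Finset.sum_filter]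
  refine Finset.sum_congr rfl fun u _ => ?_
  show (x.coeff u • HahnSeries.single (φ u) (T.χ (A u))).coeff k = _
  rw [HahnSeries.coeff_smul, HahnSeries.coeff_single]
  by_cases h : φ u = k
  · rw [if_pos h.symm, if_pos h, Finsupp.filter_apply_pos (fun v : Fin n → ℤ => φ v = k) _ h]
  · rw [if_neg (fun h' => h h'.symm), if_neg h, smul_zero]

/-- a combination of the images of the characters of one level vanishes only if it is trivial -/
theorem lc_level (T : TorusField n' K) (A : (Fin n → ℤ) →+ (Fin n' → ℤ)) (φ : (Fin n → ℤ) →+ ℤ)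
    (hA : ∀ u v, φ u = φ v → A u = A v → u = v) (k : ℤ) (c : (Fin n → ℤ) →₀ ℂ)
    (hc : ∀ u ∈ c.support, φ u = k)
    (h : Finsupp.linearCombination ℂ (fun u => T.χ (A u)) c = 0) : c = 0 := by
  classical
  have h1 : Finsupp.linearCombination ℂ (fun u => T.χ (A u)) c =
      Finsupp.linearCombination ℂ T.χ (Finsupp.mapDomain A c) := by
    rw [Finsupp.linearCombination_mapDomain]
    rfl
  rw [h1] at h
  have h2 : Finsupp.mapDomain A c = 0 := T.li (by rw [h, map_zero])
  have hinj : Set.InjOn A (c.support : Set (Fin n → ℤ)) := by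
    intro u hu v hv huv
    exact hA u v (by rw [hc u hu, hc v hv]) huv
  ext u
  by_cases hu : u ∈ c.support
  · have h3 := DFunLike.congr_fun h2 (A u)
    rw [Finsupp.mapDomain_apply' (c.support : Set (Fin n → ℤ)) c subset_rfl hinj hu] at h3
    exact h3
  · exact Finsupp.notMem_support_iff.1 hu

attribute [-instance] HahnSeries.powerSeriesAlgebra in
theorem psiG_inj (T : TorusField n' K) (A : (Fin n → ℤ) →+ (Fin n' → ℤ)) (φ : (Fin n → ℤ) →+ ℤ)
    (hA : ∀ u v, φ u = φ v → A u = A v → u = v) : Function.Injective (psiG T A φ) := by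
  rw [injective_iff_map_eq_zero]
  intro x hx
  by_contra hne
  have hc : x.coeff ≠ 0 := fun h => hne (AddMonoidAlgebra.coeff_injective (by rw [h]; rfl))
  obtain ⟨u, hu⟩ := Finsupp.support_nonempty_iff.2 hc
  have h1 := psiG_coeff T A φ x (φ u)
  rw [hx, HahnSeries.coeff_zero] at h1
  have h2 := lc_level T A φ hA (φ u) _ (fun v hv => by
    rw [Finsupp.support_filter, Finset.mem_filter] at hv
    exact hv.2) h1.symm
  have h3 := DFunLike.congr_fun h2 u
  rw [Finsupp.filter_apply_pos (fun v : Fin n → ℤ => φ v = φ u) _ rfl] at h3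
  exact (Finsupp.mem_support_iff.1 hu) h3

attribute [-instance] HahnSeries.powerSeriesAlgebra in
/-- a homomorphism of the function field of a torus to the Laurent series over another one -/
theorem exists_homG (S : TorusField n L) (T : TorusField n' K) (A : (Fin n → ℤ) →+ (Fin n' → ℤ))
    (φ : (Fin n → ℤ) →+ ℤ) (hA : ∀ u v, φ u = φ v → A u = A v → u = v) :
    ∃ Φ : L →+* HahnSeries ℤ K, ∀ (c : (Fin n → ℤ) →₀ ℂ) (k : ℤ),
      (Φ (Finsupp.linearCombination ℂ S.χ c)).coeff k =
        Finsupp.linearCombination ℂ (fun u => T.χ (A u)) (c.filter fun u => φ u = k) := by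
  classical
  have hdom : IsDomain (LP n) := (phiA_inj S).isDomain (phiA S).toRingHom
  let _ : Algebra (LP n) L := (phiA S).toRingHom.toAlgebra
  haveI : IsFractionRing (LP n) L := frac_LP S
  have hinj : Function.Injective (psiG T A φ).toRingHom := psiG_inj T A φ hA
  let Φ : L →+* HahnSeries ℤ K := IsFractionRing.lift hinj
  refine ⟨Φ, fun c k => ?_⟩
  have h1 : Finsupp.linearCombination ℂ S.χ c = algebraMap (LP n) L (AddMonoidAlgebra.ofCoeff c) := by
    rw [show algebraMap (LP n) L (AddMonoidAlgebra.ofCoeff c) = phiA S (AddMonoidAlgebra.ofCoeff c)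
      from rfl, phiA_apply]
  rw [h1, show Φ (algebraMap (LP n) L (AddMonoidAlgebra.ofCoeff c)) =
    (psiG T A φ).toRingHom (AddMonoidAlgebra.ofCoeff c) from IsFractionRing.lift_algebraMap hinj _]
  exact psiG_coeff T A φ (AddMonoidAlgebra.ofCoeff c) k

end homG

end Pool.Agent.U198.SD
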